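import Mathlib
import Pool.Agent.H6.W.JDef
import Pool.Agent.H65.W.Land3

set_option autoImplicit false
open Finset

/-! # Route W, W-E, E5: no long crossing of the left corridor (which contains the chain) -/

namespace Pool.Agent.H87.Corr

open Pool.Agent.H75.Perc hiding WL CT hh PB
open Pool.Agent.H75.TwoArm Pool.Agent.H75.Four Pool.Agent.H33.Q1
open Pool.Agent.Q1.M4 (Cell)
open Pool.Agent.H58.W Pool.Agent.H50.W Pool.Agent.H41.W Pool.Agent.H6.W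

/-- connection from `α ≤ x` to `x ≤ β` (tile coordinates) -/
def CrL (α β : ℤ) (κ : Finset (ℤ × ℤ)) : Prop := ∃ u v, Co κ u v ∧ α ≤ (tv u).1 ∧ (tv v).1 ≤ β

lemma CrL.mono {α β α' β' : ℤ} {κ κ' : Finset (ℤ × ℤ)} (h : CrL α β κ) (hκ : κ ⊆ κ')
    (h1 : α' ≤ α) (h2 : β ≤ β') : CrL α' β' κ' := by
  obtain ⟨u, v, h3, h4, h5⟩ := h
  exact ⟨u, v, h3.mono hκ, h1.trans h4, h5.trans h2⟩

/-- labels of the columns `β ≤ x < α` -/
noncomputable def band (α β : ℤ) (κ : Finset (ℤ × ℤ)) : Finset (ℤ × ℤ) :=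
  κ.filter fun l => β ≤ (tt l).1 ∧ (tt l).1 < α

lemma mem_band {α β : ℤ} {κ : Finset (ℤ × ℤ)} {l : ℤ × ℤ} :
    l ∈ band α β κ ↔ l ∈ κ ∧ β ≤ (tt l).1 ∧ (tt l).1 < α := by
  unfold band; rw [mem_filter]

lemma step_tt {κ : Finset (ℤ × ℤ)} {u v : ℤ × ℤ} (h : Ad κ u v) :
    (((tv v).1 = (tv u).1 + 1 ∧ (tt (u + v)).1 = (tv u).1) ∨
      ((tv v).1 = (tv u).1 - 1 ∧ (tt (u + v)).1 = (tv v).1)) ∧
    ((tv u).2 = (tt (u + v)).2 ∨ (tv u).2 = (tt (u + v)).2 + 1) := by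
  have h1 := unit_cases h.1
  unfold tv tt
  simp only [Prod.fst_add, Prod.snd_add]
  omega

/-- the piece of a path inside a band -/
lemma band_path {κ : Finset (ℤ × ℤ)} {α β : ℤ} (hβ : β < α) {u v : ℤ × ℤ} (h : Co κ u v)
    (hu : α ≤ (tv u).1) (hv : (tv v).1 ≤ β) :
    ∃ m m', (tv m).1 = α ∧ (tv m').1 = β ∧ Co (band α β κ) m m' := by
  have key : (∃ m m', (tv m).1 = α ∧ (tv m').1 = β ∧ Co (band α β κ) m m') ∨ α ≤ (tv v).1 ∨
      ((β < (tv v).1 ∧ (tv v).1 < α) ∧ ∃ m, (tv m).1 = α ∧ Co (band α β κ) m v) := by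
    clear hv
    induction h with
    | refl => exact Or.inr (Or.inl hu)
    | @tail b c _ hbc ih =>
      obtain ⟨hst, -⟩ := step_tt hbc
      rcases ih with ih | ih | ⟨ih1, m, ih2, ih3⟩
      · exact Or.inl ih
      · by_cases hc : α ≤ (tv c).1
        · exact Or.inr (Or.inl hc)
        · have hb : (tv b).1 = α ∧ (tv c).1 = α - 1 ∧ (tt (b + c)).1 = α - 1 := by omega
          have hl : Ad (band α β κ) b c := ⟨hbc.1, mem_band.2 ⟨hbc.2, by omega, by omega⟩⟩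
          by_cases hc2 : β < (tv c).1
          · exact Or.inr (Or.inr ⟨⟨hc2, by omega⟩, b, hb.1, Relation.ReflTransGen.single hl⟩)
          · exact Or.inl ⟨b, c, hb.1, by omega, Relation.ReflTransGen.single hl⟩
      · have hl : Ad (band α β κ) b c := ⟨hbc.1, mem_band.2 ⟨hbc.2, by omega, by omega⟩⟩
        have hmc : Co (band α β κ) m c := ih3.tail hl
        by_cases hc : α ≤ (tv c).1
        · exact Or.inr (Or.inl hc)
        · by_cases hc2 : β < (tv c).1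
          · exact Or.inr (Or.inr ⟨⟨hc2, by omega⟩, m, ih2, hmc⟩)
          · exact Or.inl ⟨m, c, ih2, by omega, hmc⟩
  rcases key with h1 | h1 | ⟨h1, -⟩
  · exact h1
  · omega
  · omega

/-- height of the starting point of a nontrivial path -/
lemma start_y {κ : Finset (ℤ × ℤ)} {Y : ℤ} (hκ : ∀ l ∈ κ, -Y ≤ (tt l).2 ∧ (tt l).2 < Y)
    {m m' : ℤ × ℤ} (h : Co κ m m') (hne : m ≠ m') : |(tv m).2| ≤ Y := by
  rcases Relation.ReflTransGen.cases_head h with h1 | ⟨c, h1, -⟩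
  · exact absurd h1 hne
  · obtain ⟨-, h2⟩ := step_tt h1
    have h3 := hκ _ h1.2
    rw [abs_le]
    omega

/-- arm around the point `(-X n, 0)` -/
def Arm (n X : ℤ) (r1 r2 : ℕ) (κ : Finset (ℤ × ℤ)) : Prop :=
  ∃ u v, Co κ u v ∧ (|(tv u).1 + X * n| ≤ r1 * n ∧ |(tv u).2| ≤ r1 * n) ∧ r2 * n ≤ |(tv v).1 + X * n|

lemma Arm.mono {n X : ℤ} {r1 r2 : ℕ} {κ κ' : Finset (ℤ × ℤ)} (h : Arm n X r1 r2 κ) (hκ : κ ⊆ κ') :
    Arm n X r1 r2 κ' := by
  obtain ⟨u, v, h1, h2⟩ := h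
  exact ⟨u, v, h1.mono hκ, h2⟩

/-- a crossing makes an arm in the block -/
lemma arm_of_cr {κ : Finset (ℤ × ℤ)} {n X α β : ℤ} {r1 r2 : ℕ} (hn : 1 < n)
    (hκ : ∀ l ∈ κ, -(r1 * n) ≤ (tt l).2 ∧ (tt l).2 < r1 * n) (h : CrL α β κ)
    (hα : -(X * n) ≤ α) (hβ : β ≤ -((X + (r2 + 1)) * n) + 1) :
    Arm n X r1 r2 (band (-(X * n)) (-((X + (r2 + 1)) * n) + 1) κ) := by
  obtain ⟨u, v, h1, h2, h3⟩ := h
  have hr : (0 : ℤ) ≤ r2 * n := by positivity
  have hn1 : (X + ((r2 : ℤ) + 1)) * n = X * n + r2 * n + n := by ring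
  have hlt : -((X + (r2 + 1)) * n) + 1 < -(X * n) := by rw [hn1]; omega
  obtain ⟨m, m', k1, k2, k3⟩ := band_path hlt h1 (hα.trans h2) (h3.trans hβ)
  refine ⟨m, m', k3, ⟨?_, ?_⟩, ?_⟩
  · rw [k1, neg_add_cancel, abs_zero]; positivity
  · refine start_y (κ := band (-(X * n)) (-((X + (r2 + 1)) * n) + 1) κ)
      (fun l hl => hκ l (mem_band.1 hl).1) k3 ?_
    rintro rfl
    rw [k1] at k2
    omega
  · rw [k2, hn1, abs_of_neg (by omega)]
    omega

/-! ### Translation -/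

lemma du_map (S : Sy) (hS : ∀ e, sh1 (S.G e) = S.G (sh1 e)) (E ω : Finset (ℤ × ℤ)) :
    du (E.map S.G) (ω.map S.G) = (du E ω).map S.G := by
  unfold du
  have h1 : E.map S.G \ ω.map S.G = (E \ ω).map S.G := by
    ext e
    simp only [mem_sdiff, S.mem_map]
  rw [h1]
  ext e
  simp only [Finset.mem_map, exists_exists_and_eq_and]
  constructor
  · rintro ⟨a, ha, rfl⟩
    exact ⟨a, ha, (hS a).symm⟩
  · rintro ⟨a, ha, rfl⟩
    exact ⟨a, ha, hS a⟩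

lemma sh1_syT (t : ℤ × ℤ) (e : ℤ × ℤ) : sh1 ((syT t).G e) = (syT t).G (sh1 e) := by
  show ((e.1 + 2 * t.1) + 1, (e.2 + 2 * t.2) + 1) = ((e.1 + 1) + 2 * t.1, (e.2 + 1) + 2 * t.2)
  refine Prod.ext ?_ ?_ <;> simp only <;> ring

/-- arms and translations -/
lemma arm_tr {h : ℕ} {X : ℤ} {r1 r2 : ℕ} {κ : Finset (ℤ × ℤ)}
    (ha : Arm (2 * (h : ℤ)) X r1 r2 (κ.map (syT (tv' h (-X, 0))).G)) :
    ∃ u v, Co κ u v ∧ (|(tv u).1| ≤ r1 * (2 * (h : ℤ)) ∧ |(tv u).2| ≤ r1 * (2 * (h : ℤ))) ∧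
      (r2 * (2 * (h : ℤ)) ≤ |(tv v).1| ∨ r2 * (2 * (h : ℤ)) ≤ |(tv v).2|) := by
  obtain ⟨u, v, h1, ⟨h2, h3⟩, h4⟩ := ha
  set S := syT (tv' h (-X, 0)) with hS
  have hu : S.g (S.g' u) = u := S.gg' u
  have hv : S.g (S.g' v) = v := S.gg' v
  rw [← hu, ← hv, S.co_iff] at h1
  have e1 : ∀ w : ℤ × ℤ, (tv (S.g' w)).1 = (tv w).1 + X * (2 * h) := by
    intro w
    show (w.1 - (tv' h (-X, 0)).1 + (w.2 - (tv' h (-X, 0)).2)) = _
    unfold tv' tv
    simp only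
    ring
  have e2 : ∀ w : ℤ × ℤ, (tv (S.g' w)).2 = (tv w).2 := by
    intro w
    show (w.2 - (tv' h (-X, 0)).2 - (w.1 - (tv' h (-X, 0)).1)) = _
    unfold tv' tv
    simp only
    ring
  refine ⟨_, _, h1, ⟨?_, ?_⟩, Or.inl ?_⟩
  · rw [e1]; exact h2
  · rw [e2]; exact h3
  · rw [e1]; exact h4

/-- **One block.** -/
theorem block {M τ R : ℕ} {X : ℤ} {h r1 r2 : ℕ} (hh : 0 < h) (V : Finset Cell)
    (hV : ∀ c ∈ V, -(X + R) ≤ c.1 ∧ c.1 < -X + R ∧ -(R : ℤ) ≤ c.2 ∧ c.2 < R) {q : ℝ}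
    (hO : PB (TL (RC (-R) R (-R) R) (2 * h)) (bk (2 * (h : ℤ)) (chn X M τ)) (ArmO (2 * h) r1 r2) ≤ q)
    (hD : PB (TL (RC (-R) R (-R) R) (2 * h)) (bk (2 * (h : ℤ)) (chn X M τ))
      (ArmD (TL (RC (-R) R (-R) R) (2 * h)) (2 * h) r1 r2) ≤ q) :
    PB (TL V (2 * (h : ℤ))) (bk (2 * (h : ℤ)) (chn 0 M τ)) (Arm (2 * (h : ℤ)) X r1 r2) ≤ q ∧
    PB (TL V (2 * (h : ℤ))) (bk (2 * (h : ℤ)) (chn 0 M τ))
      (fun ω => Arm (2 * (h : ℤ)) X r1 r2 (du (TL V (2 * (h : ℤ))) ω)) ≤ q := by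
  have hn : (0 : ℤ) < 2 * (h : ℤ) := by positivity
  set d : Cell := (-X, 0) with hd
  set U : Finset Cell := V.map (addRightEmbedding (-d)) with hU
  have hUV : U.map (addRightEmbedding d) = V := by
    ext c
    rw [hU]
    simp only [Finset.mem_map, addRightEmbedding_apply, exists_exists_and_eq_and]
    constructor
    · rintro ⟨a, ha, rfl⟩
      rwa [neg_add_cancel_right]
    · intro hc
      exact ⟨c, hc, by rw [neg_add_cancel_right]⟩
  have hUR : U ⊆ RC (-R) R (-R) R := by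
    intro c hc
    rw [hU, Finset.mem_map] at hc
    obtain ⟨a, ha, rfl⟩ := hc
    obtain ⟨h1, h2, h3, h4⟩ := hV a ha
    unfold RC
    rw [mem_product, mem_Ico, mem_Ico, addRightEmbedding_apply, hd]
    simp only [Prod.fst_add, Prod.snd_add, Prod.fst_neg, Prod.snd_neg, neg_neg, neg_zero, add_zero]
    omega
  have hpl : (fun c : Cell => chn 0 M τ (c + d)) = chn X M τ := by
    funext c
    unfold chn
    rw [hd]
    simp only [Prod.fst_add, Prod.snd_add, add_zero, zero_sub]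
    have e1 : (c.1 + -X < 0) ↔ (c.1 < X) := by omega
    have e2 : (-(c.1 + -X) - 1) / (M : ℤ) = (X - c.1 - 1) / M := by congr 1; ring
    simp only [e1, e2]
  have htr : ∀ A : Finset (ℤ × ℤ) → Prop, PB (TL V (2 * (h : ℤ))) (bk (2 * (h : ℤ)) (chn 0 M τ)) A =
      PB (TL (RC (-R) R (-R) R) (2 * h)) (bk (2 * (h : ℤ)) (chn X M τ))
        (fun ω => A ((ω ∩ TL U (2 * (h : ℤ))).map (syT (tv' h d)).G)) := by
    intro A
    have h1 := PB_tr hh d U (chn 0 M τ) A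
    rw [hUV, hpl] at h1
    rw [h1]
    exact (PB_cells hn hUR (fun ω => A (ω.map (syT (tv' h d)).G))).symm
  constructor
  · rw [htr]
    refine le_trans (PB_mono fun ω _ hA => ?_) hO
    obtain ⟨u, v, k1, k2, k3⟩ := arm_tr hA
    exact ⟨u, v, k1.mono inter_subset_left, k2, k3⟩
  · rw [htr]
    refine le_trans (PB_mono fun ω _ hA => ?_) hD
    rw [← hUV, ← TL_tr hh, du_map _ (sh1_syT _)] at hA
    obtain ⟨u, v, k1, k2, k3⟩ := arm_tr hA
    refine ⟨u, v, k1.mono ?_, k2, k3⟩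
    unfold du
    refine map_subset_map.2 ?_
    intro e he
    rw [mem_sdiff, mem_inter, not_and] at he
    have h5 : e ∈ TL (RC (-R) R (-R) R) (2 * (h : ℤ)) := by
      rw [mem_TL hn]
      exact ⟨((mem_TL hn).1 he.1).1, hUR ((mem_TL hn).1 he.1).2⟩
    exact mem_sdiff.2 ⟨h5, fun h6 => he.2 h6 he.1⟩

/-! ### Blocks of the corridor -/

/-- columns `-(X+w) ≤ x < -X` of a set of cells -/
noncomputable def col (Q : Finset Cell) (X w : ℤ) : Finset Cell :=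
  Q.filter fun c => -(X + w) ≤ c.1 ∧ c.1 < -X

lemma mem_col {Q : Finset Cell} {X w : ℤ} {c : Cell} :
    c ∈ col Q X w ↔ c ∈ Q ∧ -(X + w) ≤ c.1 ∧ c.1 < -X := by
  unfold col; rw [mem_filter]

lemma tt_sh1 (e : ℤ × ℤ) : tt (sh1 e) = ((tt e).1 + 1, (tt e).2) := by
  show tt (e.1 + 1, e.2 + 1) = _
  unfold tt
  refine Prod.ext ?_ ?_ <;> simp only <;> omega

lemma col_of_tt {n X w : ℤ} (hn : 0 < n) {p : ℤ × ℤ} (h1 : -((X + w) * n) ≤ p.1)
    (h2 : p.1 < -(X * n)) : -(X + w) ≤ (ct n p).1 ∧ (ct n p).1 < -X := by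
  unfold ct
  constructor
  · rw [Int.le_ediv_iff_mul_le hn]
    linarith
  · rw [Int.ediv_lt_iff_lt_mul hn]
    linarith

lemma band_sub {Q : Finset Cell} {n X w : ℤ} (hn : 0 < n) {ω : Finset (ℤ × ℤ)} (hω : ω ⊆ TL Q n) :
    band (-(X * n)) (-((X + w) * n) + 1) ω ⊆ ω ∩ TL (col Q X w) n := by
  intro l hl
  obtain ⟨h1, h2, h3⟩ := mem_band.1 hl
  have h4 := (mem_TL hn).1 (hω h1)
  refine mem_inter.2 ⟨h1, (mem_TL hn).2 ⟨h4.1, mem_col.2 ⟨h4.2, ?_⟩⟩⟩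
  exact col_of_tt hn (by linarith) h3

lemma band_sub_du {Q : Finset Cell} {n X w : ℤ} (hn : 0 < n) {ω : Finset (ℤ × ℤ)} :
    band (-(X * n)) (-((X + w) * n) + 1) (du (TL Q n) ω) ⊆
      du (TL (col Q X w) n) (ω ∩ TL (col Q X w) n) := by
  intro l hl
  obtain ⟨h1, h2, h3⟩ := mem_band.1 hl
  unfold du at h1 ⊢
  obtain ⟨e, he, rfl⟩ := Finset.mem_map.1 h1
  rw [tt_sh1] at h2 h3
  simp only at h2 h3
  have he' := mem_sdiff.1 he
  have h4 := (mem_TL hn).1 he'.1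
  refine Finset.mem_map.2 ⟨e, mem_sdiff.2 ⟨(mem_TL hn).2 ⟨h4.1, mem_col.2 ⟨h4.2, ?_⟩⟩, ?_⟩, rfl⟩
  · exact col_of_tt hn (by linarith) (by linarith)
  · intro h5
    exact he'.2 (mem_inter.1 h5).1

lemma tt_y {Q : Finset Cell} {n Y : ℤ} (hn : 0 < n) (hQ : ∀ c ∈ Q, -Y ≤ c.2 ∧ c.2 < Y)
    {e : ℤ × ℤ} (he : e ∈ TL Q n) : -(Y * n) ≤ (tt e).2 ∧ (tt e).2 < Y * n := by
  have h1 := hQ _ ((mem_TL hn).1 he).2
  unfold ct at h1
  simp only at h1
  obtain ⟨h2, h3⟩ := h1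
  rw [Int.le_ediv_iff_mul_le hn] at h2
  rw [Int.ediv_lt_iff_lt_mul hn] at h3
  constructor <;> linarith

/-- the columns of different blocks have no common plate -/
lemma sep_col {Q Q' : Finset Cell} {n X X' w : ℤ} (hn : 0 < n) {M τ : ℕ} (hM : 0 < M) (hX : 0 ≤ X)
    (hX' : X + w + M ≤ X') :
    Sep (bk n (chn 0 M τ)) (TL (col Q X w) n) (TL (col Q' X' w) n) := by
  intro l hl l' hl' h
  have h1 := ((mem_TL hn).1 hl).2
  have h2 := ((mem_TL hn).1 hl').2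
  rw [mem_col] at h1 h2
  have hMz : (0 : ℤ) < M := by exact_mod_cast hM
  rcases bk_eq_iff.1 h with h3 | ⟨h3, h4⟩
  · rw [h3] at h1
    omega
  · generalize ct n (tt l) = c at h1 h3 h4
    generalize ct n (tt l') = c' at h2 h4
    unfold chn at h3 h4
    have k1 : c.1 < 0 := by omega
    have k2 : c'.1 < 0 := by omega
    simp only [if_pos k1, if_pos k2, zero_sub] at h3 h4
    have hq : (-c.1 - 1) / (M : ℤ) + 1 ≤ (-c'.1 - 1) / (M : ℤ) := by
      have : (-c.1 - 1) / (M : ℤ) + 1 = (-c.1 - 1 + M) / (M : ℤ) := by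
        rw [Int.add_ediv_of_dvd_right (dvd_refl _), Int.ediv_self hMz.ne']
      rw [this]
      apply Int.ediv_le_ediv hMz
      omega
    have hq0 : 0 ≤ (-c.1 - 1) / (M : ℤ) := Int.ediv_nonneg (by omega) hMz.le
    split_ifs at h3 h4 with k3 k4
    · simp only [Option.some.injEq] at h4
      omega
    all_goals exact absurd rfl h3

/-- **E5 for a general set of cells.** -/
theorem corr_gen {M τ R r1 r2 N h : ℕ} {Q : Finset Cell} {X : ℕ → ℤ} {α β : ℤ} {q : ℝ}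
    (hh : 0 < h) (hM : 0 < M) (hX0 : 0 ≤ X 0)
    (hX : ∀ k, X k + (r2 + 1) + M ≤ X (k + 1))
    (hQ : ∀ c ∈ Q, -(r1 : ℤ) ≤ c.2 ∧ c.2 < r1) (hr1 : r1 ≤ R) (hr2 : r2 + 1 ≤ R)
    (hα : ∀ k < N, -(X k * (2 * h)) ≤ α) (hβ : ∀ k < N, β ≤ -((X k + (r2 + 1)) * (2 * h)) + 1)
    (hO : ∀ k < N, PB (TL (RC (-R) R (-R) R) (2 * h)) (bk (2 * (h : ℤ)) (chn (X k) M τ))
      (ArmO (2 * h) r1 r2) ≤ q)
    (hD : ∀ k < N, PB (TL (RC (-R) R (-R) R) (2 * h)) (bk (2 * (h : ℤ)) (chn (X k) M τ))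
      (ArmD (TL (RC (-R) R (-R) R) (2 * h)) (2 * h) r1 r2) ≤ q) :
    PB (TL Q (2 * (h : ℤ))) (bk (2 * (h : ℤ)) (chn 0 M τ)) (CrL α β) ≤ q ^ N ∧
    PB (TL Q (2 * (h : ℤ))) (bk (2 * (h : ℤ)) (chn 0 M τ))
      (fun ω => CrL α β (du (TL Q (2 * (h : ℤ))) ω)) ≤ q ^ N := by
  have hn : (0 : ℤ) < 2 * (h : ℤ) := by positivity
  have hn1 : (1 : ℤ) < 2 * (h : ℤ) := by omega
  have hXm : ∀ j k : ℕ, j < k → X j + (r2 + 1) + M ≤ X k := by
    intro j k hjk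
    induction k with
    | zero => omega
    | succ k ih =>
      rcases Nat.lt_succ_iff_lt_or_eq.1 hjk with h1 | rfl
      · have := ih h1
        have := hX k
        omega
      · exact hX _
  have hXp : ∀ k, 0 ≤ X k := by
    intro k
    rcases Nat.eq_zero_or_pos k with rfl | hk
    · exact hX0
    · have := hXm 0 k hk
      omega
  set w : ℤ := (r2 : ℤ) + 1 with hw
  set F : ℕ → Finset (ℤ × ℤ) := fun k => TL (col Q (X k) w) (2 * (h : ℤ)) with hF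
  have hsub : ∀ k < N, F k ⊆ TL Q (2 * (h : ℤ)) := by
    intro k _ e he
    rw [hF] at he
    rw [mem_TL hn] at he ⊢
    exact ⟨he.1, (mem_col.1 he.2).1⟩
  have hsep : ∀ k < N, ∀ j < k, Sep (bk (2 * (h : ℤ)) (chn 0 M τ)) (F j) (F k) := by
    intro k _ j hj
    exact sep_col hn hM (hXp j) (by have := hXm j k hj; omega)
  have hbl : ∀ k < N, PB (F k) (bk (2 * (h : ℤ)) (chn 0 M τ)) (Arm (2 * (h : ℤ)) (X k) r1 r2) ≤ q ∧
      PB (F k) (bk (2 * (h : ℤ)) (chn 0 M τ))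
        (fun ω => Arm (2 * (h : ℤ)) (X k) r1 r2 (du (F k) ω)) ≤ q := by
    intro k hk
    refine block hh (col Q (X k) w) ?_ (hO k hk) (hD k hk)
    intro c hc
    obtain ⟨h1, h2, h3⟩ := mem_col.1 hc
    have h4 := hQ c h1
    omega
  constructor
  · calc PB (TL Q (2 * (h : ℤ))) (bk (2 * (h : ℤ)) (chn 0 M τ)) (CrL α β)
        ≤ PB (TL Q (2 * (h : ℤ))) (bk (2 * (h : ℤ)) (chn 0 M τ))
          (fun ω => ∀ k < N, Arm (2 * (h : ℤ)) (X k) r1 r2 (ω ∩ F k)) := by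
          refine PB_mono fun ω hω hA k hk => ?_
          refine (arm_of_cr hn1 ?_ hA (hα k hk) (hβ k hk)).mono (band_sub hn hω)
          intro l hl
          exact tt_y hn hQ (hω hl)
      _ = ∏ k ∈ range N, PB (F k) (bk (2 * (h : ℤ)) (chn 0 M τ)) (Arm (2 * (h : ℤ)) (X k) r1 r2) :=
          Pool.Agent.H65.W.PB_indep_range F (fun k => Arm (2 * (h : ℤ)) (X k) r1 r2) N hsub hsep
      _ ≤ ∏ _k ∈ range N, q :=
          prod_le_prod (fun k _ => PB_nonneg _ _ _) fun k hk => (hbl k (mem_range.1 hk)).1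
      _ = q ^ N := by rw [prod_const, card_range]
  · calc PB (TL Q (2 * (h : ℤ))) (bk (2 * (h : ℤ)) (chn 0 M τ))
          (fun ω => CrL α β (du (TL Q (2 * (h : ℤ))) ω))
        ≤ PB (TL Q (2 * (h : ℤ))) (bk (2 * (h : ℤ)) (chn 0 M τ))
          (fun ω => ∀ k < N, (fun η => Arm (2 * (h : ℤ)) (X k) r1 r2 (du (F k) η)) (ω ∩ F k)) := by
          refine PB_mono fun ω hω hA k hk => ?_
          refine (arm_of_cr hn1 ?_ hA (hα k hk) (hβ k hk)).mono (band_sub_du hn)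
          intro l hl
          unfold du at hl
          obtain ⟨e, he, rfl⟩ := Finset.mem_map.1 hl
          rw [tt_sh1]
          exact tt_y hn hQ (mem_sdiff.1 he).1
      _ = ∏ k ∈ range N, PB (F k) (bk (2 * (h : ℤ)) (chn 0 M τ))
            (fun η => Arm (2 * (h : ℤ)) (X k) r1 r2 (du (F k) η)) :=
          Pool.Agent.H65.W.PB_indep_range F
            (fun k η => Arm (2 * (h : ℤ)) (X k) r1 r2 (du (F k) η)) N hsub hsep
      _ ≤ ∏ _k ∈ range N, q :=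
          prod_le_prod (fun k _ => PB_nonneg _ _ _) fun k hk => (hbl k (mem_range.1 hk)).2
      _ = q ^ N := by rw [prod_const, card_range]

/-! ### The junction box -/

lemma Q_y {b : JBox} {c : Cell} (hc : c ∈ b.Q) :
    -((b.H : ℤ) + b.K) ≤ c.2 ∧ c.2 < (b.H : ℤ) + b.K := by
  unfold JBox.Q RC at hc
  rcases mem_union.1 hc with h | h
  · rw [mem_product, mem_Ico, mem_Ico] at h
    omega
  · obtain ⟨i, hi, h⟩ := mem_biUnion.1 h
    have hi' := mem_range.1 hi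
    rcases mem_union.1 h with h | h
    · rw [mem_product, mem_Ico, mem_Ico] at h
      omega
    · rw [mem_product, mem_Ico, mem_Ico] at h
      omega

lemma exists_N1 (C c : ℝ) (hc : 0 < c) : ∃ N1 : ℕ, 0 < N1 ∧ C * (1 / (N1 : ℝ)) ^ c ≤ 1 / 2 := by
  have h1 : Filter.Tendsto (fun n : ℕ => C * (1 / (n : ℝ)) ^ c) Filter.atTop (nhds 0) := by
    have h2 : Filter.Tendsto (fun n : ℕ => ((1 : ℝ) / (n : ℝ)) ^ c) Filter.atTop (nhds 0) := by
      have h3 := tendsto_one_div_atTop_nhds_zero_nat (𝕜 := ℝ)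
      have h4 := h3.rpow_const (p := c) (Or.inr hc.le)
      rwa [Real.zero_rpow hc.ne'] at h4
    simpa using h2.const_mul C
  have h5 := h1.eventually (gt_mem_nhds (show (0:ℝ) < 1 / 2 by norm_num))
  obtain ⟨n, hn, hn0⟩ := (h5.and (Filter.eventually_gt_atTop 0)).exists
  exact ⟨n, hn0, hn.le⟩

/-- **E5, LEFT CORRIDOR.** `RS` implies: an open (dual) crossing of the left corridor from
`x ≥ - L H / 2 - 1` to `x ≤ - (L - 1) H + 1` (in cells) has probability at most `2^(-N)` if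
`(N + 1) N0 ≤ L`. -/
theorem corr_left {C0 : ℕ} {C c : ℝ} (hc : 0 < c) (hRS : RS C0 C c) :
    ∃ N0 : ℕ, 0 < N0 ∧ ∀ L N : ℕ, (N + 1) * N0 ≤ L → ∃ δ0 > (0 : ℝ), ∀ (b : JBox) (δ σ : ℝ),
      δ ≤ δ0 → b.Ok δ σ → ∃ h0 : ℕ, ∀ h : ℕ, h0 ≤ h →
        b.PJ h (fun ω => CrL (-((L * b.H + 2 : ℤ) * h)) (-((((L : ℤ) - 1) * b.H - 1) * (2 * h))) ω)
          ≤ (1 / 2) ^ N ∧
        b.PJ h (fun ω => CrL (-((L * b.H + 2 : ℤ) * h)) (-((((L : ℤ) - 1) * b.H - 1) * (2 * h)))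
          (du (b.B h) ω)) ≤ (1 / 2) ^ N := by
  obtain ⟨N1, hN1, hq⟩ := exists_N1 C c hc
  refine ⟨4 * N1 + 8, by omega, fun L N hLN => ?_⟩
  refine ⟨1 / (4 * ((L : ℝ) + 1) * (C0 + 1)), by positivity, fun b δ σ hδ hb => ?_⟩
  have H0 := hb.H0
  have M0 := hb.M0
  have hA : (0 : ℝ) < 4 * ((L : ℝ) + 1) * (C0 + 1) := by positivity
  have Hr : (0 : ℝ) < b.H := by exact_mod_cast H0
  have Mr : (0 : ℝ) < b.M := by exact_mod_cast M0
  -- numerical consequences of `Ok`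
  have hδ' : δ * (4 * ((L : ℝ) + 1) * (C0 + 1)) ≤ 1 := by
    rw [le_div_iff₀ hA] at hδ
    exact hδ
  have hM1 : 4 * (L + 1) * (C0 + 1) * b.M ≤ b.H := by
    have h1 : (4 * ((L : ℝ) + 1) * (C0 + 1)) * b.M ≤ b.H := by
      calc _ ≤ (4 * ((L : ℝ) + 1) * (C0 + 1)) * (δ * b.H) :=
            mul_le_mul_of_nonneg_left hb.M_le hA.le
        _ = (δ * (4 * ((L : ℝ) + 1) * (C0 + 1))) * b.H := by ring
        _ ≤ 1 * b.H := mul_le_mul_of_nonneg_right hδ' Hr.le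
        _ = b.H := one_mul _
    exact_mod_cast h1
  have hK1 : 4 * (L + 1) * (C0 + 1) * b.K ≤ b.H := by
    have h1 : (4 * ((L : ℝ) + 1) * (C0 + 1)) * b.K ≤ b.H := by
      calc _ ≤ (4 * ((L : ℝ) + 1) * (C0 + 1)) * (δ * b.H) :=
            mul_le_mul_of_nonneg_left hb.K_le hA.le
        _ = (δ * (4 * ((L : ℝ) + 1) * (C0 + 1))) * b.H := by ring
        _ ≤ 1 * b.H := mul_le_mul_of_nonneg_right hδ' Hr.le
        _ = b.H := one_mul _
    exact_mod_cast h1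
  have hX1 : 4 * (L + 1) * (C0 + 1) * b.H ≤ b.X := by
    have h1 : (4 * ((L : ℝ) + 1) * (C0 + 1)) * b.H ≤ b.X := by
      calc _ ≤ (4 * ((L : ℝ) + 1) * (C0 + 1)) * (δ * b.X) :=
            mul_le_mul_of_nonneg_left hb.X_ge hA.le
        _ = (δ * (4 * ((L : ℝ) + 1) * (C0 + 1))) * b.X := by ring
        _ ≤ 1 * b.X := mul_le_mul_of_nonneg_right hδ' (Nat.cast_nonneg _)
        _ = b.X := one_mul _
    exact_mod_cast h1
  set A : ℕ := 4 * (L + 1) * (C0 + 1) with hAdef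
  have hA4 : 4 ≤ A := by rw [hAdef]; nlinarith [Nat.zero_le L, Nat.zero_le C0]
  have hAC : C0 ≤ A := by rw [hAdef]; nlinarith [Nat.zero_le L, Nat.zero_le C0]
  have hAL : 2 * L ≤ A := by
    rw [hAdef]; nlinarith [Nat.zero_le L, Nat.zero_le C0, mul_nonneg (Nat.zero_le L) (Nat.zero_le C0)]
  have hM4 : 4 * b.M ≤ b.H := le_trans (Nat.mul_le_mul_right _ hA4) hM1
  have hK4 : 4 * b.K ≤ b.H := le_trans (Nat.mul_le_mul_right _ hA4) hK1
  have hC0M : C0 * b.M ≤ b.H := le_trans (Nat.mul_le_mul_right _ hAC) hM1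
  have hLX : 2 * L * b.H ≤ b.X := le_trans (Nat.mul_le_mul_right _ hAL) hX1
  -- geometry
  set r1 : ℕ := 2 * b.H with hr1
  set r2 : ℕ := 2 * b.H * N1 with hr2
  set R : ℕ := L * b.H with hR
  set w : ℕ := r2 + 1 with hw
  set D : ℕ := b.M * ((w + b.M) / b.M + 1) with hD
  have hD1 : w + b.M ≤ D := by
    have := Nat.lt_mul_div_succ (w + b.M) M0
    rw [hD]
    exact this.le
  have hD2 : D ≤ w + 2 * b.M := by
    have := Nat.mul_div_le (w + b.M) b.M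
    rw [hD, mul_add, mul_one]
    omega
  have hDpos : 0 < D := by omega
  have hDH : D ≤ (2 * N1 + 2) * b.H := by
    have : (2 * N1 + 2) * b.H = 2 * b.H * N1 + 2 * b.H := by ring
    omega
  set k0 : ℕ := (L * b.H + 2) / (2 * D) + 1 with hk0
  have hk1 : L * b.H + 2 ≤ 2 * D * k0 := (Nat.lt_mul_div_succ (L * b.H + 2) (by omega)).le
  have hk2 : 2 * D * k0 ≤ L * b.H + 2 + 2 * D := by
    have := Nat.mul_div_le (L * b.H + 2) (2 * D)
    rw [hk0, mul_add, mul_one]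
    omega
  have hbig : 2 + 2 * D * (N + 1) + 2 * b.H ≤ L * b.H := by
    have h1 : 2 * D * (N + 1) ≤ 2 * ((2 * N1 + 2) * b.H) * (N + 1) :=
      Nat.mul_le_mul_right _ (Nat.mul_le_mul_left _ hDH)
    have h2 : (N + 1) * (4 * N1 + 8) * b.H ≤ L * b.H := Nat.mul_le_mul_right _ hLN
    have h3 : (N + 1) * (4 * N1 + 8) * b.H =
      2 * ((2 * N1 + 2) * b.H) * (N + 1) + 4 * b.H * (N + 1) := by ring
    have h4 : 4 * b.H ≤ 4 * b.H * (N + 1) := Nat.le_mul_of_pos_right _ (by omega)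
    omega
  have hN1H : 4 * N1 * b.H + 8 * b.H ≤ L * b.H := by
    have h2 : (N + 1) * (4 * N1 + 8) * b.H ≤ L * b.H := Nat.mul_le_mul_right _ hLN
    have h3 : (4 * N1 + 8) * b.H ≤ (N + 1) * (4 * N1 + 8) * b.H := by
      apply Nat.mul_le_mul_right
      exact Nat.le_mul_of_pos_left _ (by omega)
    have h4 : (4 * N1 + 8) * b.H = 4 * N1 * b.H + 8 * b.H := by ring
    omega
  have hr2e : 2 * r2 = 4 * N1 * b.H := by rw [hr2]; ring
  let X : ℕ → ℤ := fun k => ((D * (k0 + k) : ℕ) : ℤ)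
  have hXk : ∀ k < N, 2 * (D * (k0 + k)) + 2 * w + 2 ≤ 2 * ((L - 1) * b.H) ∧
      L * b.H + 2 ≤ 2 * (D * (k0 + k)) := by
    intro k hk
    have h1 : D * (k + 1) ≤ D * N := Nat.mul_le_mul_left _ hk
    have h2 : D * (k0 + k) = D * k0 + D * k := by ring
    have h3 : D * (k + 1) = D * k + D := by ring
    have h4 : 2 * D * (N + 1) = 2 * (D * N) + 2 * D := by ring
    have h5 : 2 * D * k0 = 2 * (D * k0) := by ring
    have hL1 : 1 ≤ L := by
      by_contra h0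
      have : L = 0 := by omega
      rw [this] at hN1H
      omega
    have h6 : (L - 1) * b.H + b.H = L * b.H := by
      have : (L - 1 + 1) * b.H = L * b.H := by rw [Nat.sub_add_cancel hL1]
      rw [← this]; ring
    constructor <;> omega
  have hL1 : 1 ≤ L := by
    by_contra h0
    have : L = 0 := by omega
    rw [this] at hN1H
    omega
  have hLH : (((L - 1) * b.H : ℕ) : ℤ) = ((L : ℤ) - 1) * b.H := by
    push_cast [Nat.cast_sub hL1]
    ring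
  -- the hypothesis RS
  have hτ := hb.τ_le
  have hRSk : ∀ k < N, ∃ h0 : ℕ, ∀ h : ℕ, h0 ≤ h →
      PB (TL (RC (-R) R (-R) R) (2 * h)) (bk (2 * (h : ℤ)) (chn (X k) b.M b.τ))
        (ArmO (2 * h) r1 r2) ≤ 1 / 2 ∧
      PB (TL (RC (-R) R (-R) R) (2 * h)) (bk (2 * (h : ℤ)) (chn (X k) b.M b.τ))
        (ArmD (TL (RC (-R) R (-R) R) (2 * h)) (2 * h) r1 r2) ≤ 1 / 2 := by
    intro k hk
    obtain ⟨hk3, hk4⟩ := hXk k hk
    have hLe : (L - 1) * b.H ≤ L * b.H := Nat.mul_le_mul_right _ (by omega)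
    have h64 : 64 * ((b.τ : ℝ) + 2 * R / b.M) ≤ b.M := by
      refine le_trans ?_ hτ
      have : (2 * (R : ℝ)) / b.M ≤ b.X / b.M := by
        apply div_le_div_of_nonneg_right _ Mr.le
        have h1 : ((2 * L * b.H : ℕ) : ℝ) ≤ b.X := by exact_mod_cast hLX
        rw [hR]
        push_cast at h1 ⊢
        linarith
      linarith
    obtain ⟨h0, hh0⟩ := hRS R b.M b.τ (X k) M0 hb.τ0
      (by
        show (b.M : ℤ) ∣ ((D * (k0 + k) : ℕ) : ℤ)
        rw [hD]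
        push_cast
        exact Dvd.dvd.mul_right (dvd_mul_right _ _) _)
      (by positivity)
      (by
        show ((D * (k0 + k) : ℕ) : ℤ) ≤ (R : ℤ)
        rw [hR]
        have : D * (k0 + k) ≤ L * b.H := by omega
        exact_mod_cast this)
      h64 r1 r2 (by rw [hr1]; omega) (by rw [hr1, hr2]; exact Nat.le_mul_of_pos_right _ hN1)
      (by rw [hR]; omega)
      (Or.inr (by
        show (r2 : ℤ) ≤ ((D * (k0 + k) : ℕ) : ℤ)
        have : r2 ≤ D * (k0 + k) := by omega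
        exact_mod_cast this))
    refine ⟨h0, fun h hh => ?_⟩
    have hquot : C * ((r1 : ℝ) / r2) ^ c ≤ 1 / 2 := by
      have : (r1 : ℝ) / r2 = 1 / N1 := by
        rw [hr1, hr2]
        push_cast
        have : (N1 : ℝ) ≠ 0 := by exact_mod_cast hN1.ne'
        field_simp
      rw [this]
      exact hq
    exact ⟨(hh0 h hh).1.trans hquot, (hh0 h hh).2.trans hquot⟩
  choose! h0 hh0 using hRSk
  refine ⟨(range N).sup h0 + 1, fun h hh => ?_⟩
  have hhk : ∀ k < N, h0 k ≤ h := fun k hk => by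
    have := le_sup (f := h0) (mem_range.2 hk)
    omega
  have hpos : 0 < h := by omega
  have := corr_gen (M := b.M) (τ := b.τ) (R := R) (r1 := r1) (r2 := r2) (N := N) (h := h) (Q := b.Q)
    (X := X) (α := -((L * b.H + 2 : ℤ) * h)) (β := -((((L : ℤ) - 1) * b.H - 1) * (2 * h)))
    (q := 1 / 2) hpos M0 (by positivity)
    (by
      intro k
      show ((D * (k0 + k) : ℕ) : ℤ) + (r2 + 1) + b.M ≤ ((D * (k0 + (k + 1)) : ℕ) : ℤ)
      have : D * (k0 + k) + (r2 + 1) + b.M ≤ D * (k0 + (k + 1)) := by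
        have e : D * (k0 + (k + 1)) = D * (k0 + k) + D := by ring
        omega
      exact_mod_cast this)
    (by
      intro c hc
      have h1 := Q_y hc
      rw [hr1]
      push_cast
      omega)
    (by
      rw [hr1, hR]
      omega)
    (by rw [hR]; omega)
    (by
      intro k hk
      obtain ⟨-, hk4⟩ := hXk k hk
      have h1 : ((L * b.H + 2 : ℕ) : ℤ) * h ≤ ((2 * (D * (k0 + k)) : ℕ) : ℤ) * h := by
        apply mul_le_mul_of_nonneg_right _ (by positivity)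
        exact_mod_cast hk4
      show -(((D * (k0 + k) : ℕ) : ℤ) * (2 * h)) ≤ _
      push_cast at h1 ⊢
      linarith)
    (by
      intro k hk
      obtain ⟨hk3, -⟩ := hXk k hk
      have h2 : D * (k0 + k) + w + 1 ≤ (L - 1) * b.H := by omega
      have h3 : ((D * (k0 + k) : ℕ) : ℤ) + w + 1 ≤ ((L : ℤ) - 1) * b.H := by
        rw [← hLH]; exact_mod_cast h2
      show _ ≤ -((((D * (k0 + k) : ℕ) : ℤ) + (r2 + 1)) * (2 * h)) + 1
      have hwz : (w : ℤ) = (r2 : ℤ) + 1 := by rw [hw]; push_cast; ring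
      rw [hwz] at h3
      have h4 : (((D * (k0 + k) : ℕ) : ℤ) + ((r2 : ℤ) + 1)) * (2 * h) ≤
          (((L : ℤ) - 1) * b.H - 1) * (2 * h) :=
        mul_le_mul_of_nonneg_right (by linarith) (by positivity)
      linarith)
    (fun k hk => (hh0 k hk h (hhk k hk)).1) (fun k hk => (hh0 k hk h (hhk k hk)).2)
  exact this

end Pool.Agent.H87.Corr
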