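import Mathlib
import Pool.Agent.H61.W.JFields

set_option autoImplicit false

/-! # P10: from scale pairs at one box to the closeness fields of `JData`

Order of the quantifiers: radius `r`, then level `k` (fineness `δ k → 0`), then mesh `n`.

* `EvB σ δ0 Z Q` : for all boxes of fineness `≤ δ0`, all compact parts of the room, all large `h`, all lattice
  points of the part in `Z`: `Q b h v`. `evIn_of_box` turns it into `EvIn`.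
* `ScB` : the output of a multi-scale argument: bound `C (s / r0) ^ c + η` at distance `≤ s`, for every `η > 0`
  and all boxes which are fine enough (depending on `s`, `η`). `evb_of_scale`.
* `OddB`, `oddb_of_scale` : the same for the pairs of points on the two sides of the slit. -/

namespace Pool.Agent.H87.Fld

open Filter Topology Set Complex
open Pool.Agent.Q1.M4 (lat)
open Pool.Agent.H6.W Pool.Agent.H61.W

/-- scale of the box: tiles per macroscopic unit -/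
noncomputable def Rb (b : JBox) (h : ℕ) : ℝ := 2 * h * b.H

/-- `Q b h v` for all boxes of fineness `≤ δ0`, compact parts of the room, large `h`, lattice points in `Z` -/
def EvB (σ δ0 : ℝ) (Z : Set ℂ) (Q : JBox → ℕ → ℤ × ℤ → Prop) : Prop :=
  ∀ (b : JBox) (δ : ℝ), 0 < δ → δ ≤ δ0 → b.Ok δ σ → ∀ K ⊆ Ur b, IsCompact K → ∃ h0 : ℕ, ∀ h : ℕ, h0 ≤ h →
    ∀ v : ℤ × ℤ, lat v / (Rb b h : ℂ) ∈ K → lat v / (Rb b h : ℂ) ∈ Z → Q b h v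

/-- the same for pairs of lattice points above / below -/
def EvB2 (σ δ0 : ℝ) (Z Z' : Set ℂ) (Q : JBox → ℕ → ℤ × ℤ → ℤ × ℤ → Prop) : Prop :=
  ∀ (b : JBox) (δ : ℝ), 0 < δ → δ ≤ δ0 → b.Ok δ σ → ∀ K ⊆ Ur b, IsCompact K → ∃ h0 : ℕ, ∀ h : ℕ, h0 ≤ h →
    ∀ v v' : ℤ × ℤ, lat v / (Rb b h : ℂ) ∈ K ∩ Z → lat v' / (Rb b h : ℂ) ∈ K ∩ Z' → Q b h v v'

lemma EvB.mono {σ δ0 δ1 : ℝ} {Z Z' : Set ℂ} {Q Q' : JBox → ℕ → ℤ × ℤ → Prop} (h : EvB σ δ0 Z Q)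
    (hd : δ1 ≤ δ0) (hZ : Z' ⊆ Z) (hQ : ∀ b h v, Q b h v → Q' b h v) : EvB σ δ1 Z' Q' := by
  intro b δ h1 h2 hb K hK hKc
  obtain ⟨h0, hh⟩ := h b δ h1 (h2.trans hd) hb K hK hKc
  exact ⟨h0, fun k hk v hv hv' => hQ _ _ _ (hh k hk v hv (hZ hv'))⟩

lemma EvB.and {σ δ0 : ℝ} {Z : Set ℂ} {Q Q' : JBox → ℕ → ℤ × ℤ → Prop} (h : EvB σ δ0 Z Q)
    (h' : EvB σ δ0 Z Q') : EvB σ δ0 Z fun b k v => Q b k v ∧ Q' b k v := by
  intro b δ h1 h2 hb K hK hKc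
  obtain ⟨h0, hh⟩ := h b δ h1 h2 hb K hK hKc
  obtain ⟨h0', hh'⟩ := h' b δ h1 h2 hb K hK hKc
  exact ⟨max h0 h0', fun k hk v hv hv' =>
    ⟨hh k (le_trans (le_max_left _ _) hk) v hv hv', hh' k (le_trans (le_max_right _ _) hk) v hv hv'⟩⟩

section Seq

variable {σ δ0 : ℝ} {B : ℕ → JBox} {δ : ℕ → ℝ} {h : ℕ → ℕ → ℕ}

lemma ev_delta (hδ : Tendsto δ atTop (𝓝 0)) (h0 : 0 < δ0) : ∀ᶠ k in atTop, δ k ≤ δ0 :=
  (hδ.eventually_lt_const h0).mono fun _ hk => hk.le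

/-- **box => sequence**, one point -/
theorem evIn_of_box (hB : ∀ k, (B k).Ok (δ k) σ) (hpos : ∀ k, 0 < δ k) (hδ : Tendsto δ atTop (𝓝 0))
    (hh : ∀ k, StrictMono (h k)) (h0 : 0 < δ0) {Z : Set ℂ} {Q : JBox → ℕ → ℤ × ℤ → Prop}
    (H : EvB σ δ0 Z Q) :
    EvIn (fun k n => Rb (B k) (h k n)) (fun k => Ur (B k)) Z fun k n v => Q (B k) (h k n) v := by
  filter_upwards [ev_delta hδ h0] with k hk K hK hKc
  obtain ⟨n0, hn⟩ := H (B k) (δ k) (hpos k) hk (hB k) K hK hKc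
  filter_upwards [(hh k).tendsto_atTop.eventually_ge_atTop n0] with n hn' v hv hv'
  exact hn _ hn' v hv hv'

/-- **box => sequence**, two points -/
theorem evIn2_of_box (hB : ∀ k, (B k).Ok (δ k) σ) (hpos : ∀ k, 0 < δ k) (hδ : Tendsto δ atTop (𝓝 0))
    (hh : ∀ k, StrictMono (h k)) (h0 : 0 < δ0) {Z Z' : Set ℂ} {Q : JBox → ℕ → ℤ × ℤ → ℤ × ℤ → Prop}
    (H : EvB2 σ δ0 Z Z' Q) :
    ∀ᶠ k in atTop, ∀ K ⊆ Ur (B k), IsCompact K → ∀ᶠ n in atTop, ∀ v v' : ℤ × ℤ,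
      lat v / ((Rb (B k) (h k n) : ℝ) : ℂ) ∈ K ∩ Z → lat v' / ((Rb (B k) (h k n) : ℝ) : ℂ) ∈ K ∩ Z' →
      Q (B k) (h k n) v v' := by
  filter_upwards [ev_delta hδ h0] with k hk K hK hKc
  obtain ⟨n0, hn⟩ := H (B k) (δ k) (hpos k) hk (hB k) K hK hKc
  filter_upwards [(hh k).tendsto_atTop.eventually_ge_atTop n0] with n hn' v v' hv hv'
  exact hn _ hn' v v' hv hv'

end Seq

/-- the radius for a multi-scale bound -/
lemma exists_radius {C c r0 ε : ℝ} (hc : 0 < c) (hr0 : 0 < r0) (hε : 0 < ε) :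
    ∃ r, 0 < r ∧ r < r0 ∧ C * (r / r0) ^ c ≤ ε := by
  have h1 : Tendsto (fun r : ℝ => C * (r / r0) ^ c) (𝓝[>] 0) (𝓝 (C * (0 / r0) ^ c)) := by
    apply Tendsto.mono_left _ nhdsWithin_le_nhds
    apply Tendsto.const_mul
    exact ((continuous_id.div_const r0).rpow_const fun _ => Or.inr hc.le).tendsto 0
  rw [zero_div, Real.zero_rpow hc.ne', mul_zero] at h1
  have h2 := h1.eventually (ge_mem_nhds hε)
  have h3 : ∀ᶠ r : ℝ in 𝓝[>] 0, r < r0 := mem_nhdsWithin_of_mem_nhds (gt_mem_nhds hr0)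
  have h4 : ∀ᶠ r : ℝ in 𝓝[>] 0, 0 < r := self_mem_nhdsWithin
  obtain ⟨r, ⟨a, b⟩, d⟩ := ((h2.and h3).and h4).exists
  exact ⟨r, d, b, a⟩

/-- **Scale pairs**: at distance `≤ s` from `z0`, inside `Z`, the error `e b h v` is at most
`C (s / r0) ^ c + η`, for boxes which are fine enough. -/
def ScB (σ : ℝ) (z0 : ℂ) (Z : Set ℂ) (e : JBox → ℕ → ℤ × ℤ → ℝ) : Prop :=
  ∃ C c r0 : ℝ, 0 < c ∧ 0 < r0 ∧ ∀ s : ℝ, 0 < s → s < r0 → ∀ η > 0, ∃ δ0 > 0,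
    EvB σ δ0 (Metric.closedBall z0 s ∩ Z) fun b h v => e b h v ≤ C * (s / r0) ^ c + η

theorem evb_of_scale {σ : ℝ} {z0 : ℂ} {Z : Set ℂ} {e : JBox → ℕ → ℤ × ℤ → ℝ} (H : ScB σ z0 Z e)
    {ε : ℝ} (hε : 0 < ε) :
    ∃ r > 0, ∃ δ0 > 0, EvB σ δ0 (Metric.closedBall z0 r ∩ Z) fun b h v => e b h v ≤ ε := by
  obtain ⟨C, c, r0, hc, hr0, H⟩ := H
  obtain ⟨r, h1, h2, h3⟩ := exists_radius (C := C) hc hr0 (half_pos hε)
  obtain ⟨δ0, h4, h5⟩ := H r h1 h2 (ε / 2) (half_pos hε)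
  exact ⟨r, h1, δ0, h4, h5.mono le_rfl subset_rfl fun b h v hv => by linarith⟩

/-- **Scale pairs, two sides of the slit**: there is one number `g` (depending on the box and on `h`) with
`‖F v - g‖ ≤ e` above and `‖F v' + g‖ ≤ e` below. -/
def ScB2 (σ : ℝ) (x : ℝ) (F : JBox → ℕ → ℤ × ℤ → ℂ) : Prop :=
  ∃ C c r0 : ℝ, 0 < c ∧ 0 < r0 ∧ ∀ s : ℝ, 0 < s → s < r0 → ∀ η > 0, ∃ δ0 > 0,
    ∀ (b : JBox) (δ : ℝ), 0 < δ → δ ≤ δ0 → b.Ok δ σ → ∀ K ⊆ Ur b, IsCompact K → ∃ h0 : ℕ, ∀ h : ℕ,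
      h0 ≤ h → ∃ g : ℂ, ∀ v : ℤ × ℤ, lat v / (Rb b h : ℂ) ∈ K ∩ Metric.closedBall (x : ℂ) s →
        (0 < v.2 → ‖F b h v - g‖ ≤ C * (s / r0) ^ c + η) ∧
        (v.2 < 0 → ‖F b h v + g‖ ≤ C * (s / r0) ^ c + η)

lemma Rb_pos {b : JBox} {h : ℕ} (hb : 0 < b.H) (hh : 0 < h) : 0 < Rb b h := by
  unfold Rb
  positivity

lemma lat_div_im (v : ℤ × ℤ) (R : ℝ) : (lat v / (R : ℂ)).im = v.2 / R := by
  have : (lat v).im = v.2 := rfl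
  rw [Complex.div_ofReal_im, this]

lemma lat_div_re (v : ℤ × ℤ) (R : ℝ) : (lat v / (R : ℂ)).re = v.1 / R := by
  have : (lat v).re = v.1 := rfl
  rw [Complex.div_ofReal_re, this]

theorem oddb_of_scale {σ x : ℝ} {F : JBox → ℕ → ℤ × ℤ → ℂ} (H : ScB2 σ x F) {ε : ℝ} (hε : 0 < ε) :
    ∃ r > 0, ∃ δ0 > 0, EvB2 σ δ0 (Metric.closedBall (x : ℂ) r ∩ {z | 0 < z.im})
      (Metric.closedBall (x : ℂ) r ∩ {z | z.im < 0}) fun b h v v' => ‖F b h v + F b h v'‖ ≤ ε := by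
  obtain ⟨C, c, r0, hc, hr0, H⟩ := H
  obtain ⟨r, h1, h2, h3⟩ := exists_radius (C := C) hc hr0 (ε := ε / 4) (by positivity)
  obtain ⟨δ0, h4, h5⟩ := H r h1 h2 (ε / 4) (by positivity)
  refine ⟨r, h1, δ0, h4, ?_⟩
  intro b δ hδ hδ0 hb K hK hKc
  obtain ⟨h0, hh⟩ := h5 b δ hδ hδ0 hb K hK hKc
  refine ⟨max h0 1, fun h hh' v v' hv hv' => ?_⟩
  have hR : 0 < Rb b h := Rb_pos hb.H0 (lt_of_lt_of_le one_pos (le_trans (le_max_right _ _) hh'))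
  obtain ⟨g, hg⟩ := hh h (le_trans (le_max_left _ _) hh')
  have e1 := (hg v ⟨hv.1, hv.2.1⟩).1 (by
    have := hv.2.2
    simp only [mem_ofPred_eq, lat_div_im] at this
    have := (div_pos_iff_of_pos_right hR).1 this
    exact_mod_cast this)
  have e2 := (hg v' ⟨hv'.1, hv'.2.1⟩).2 (by
    have := hv'.2.2
    simp only [mem_ofPred_eq, lat_div_im] at this
    have := (div_neg_iff).1 this
    rcases this with ⟨_, h⟩ | ⟨h, _⟩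
    · exact absurd hR (not_lt.2 h.le)
    · exact_mod_cast h)
  have e3 : F b h v + F b h v' = (F b h v - g) + (F b h v' + g) := by ring
  show ‖F b h v + F b h v'‖ ≤ ε
  rw [e3]
  refine (norm_add_le _ _).trans ?_
  linarith

/-! ### The fields -/

/-- (a) floor and ceiling, `z1` moving -/
def XBdS (σ : ℝ) (w : Bool) (b c b3 b4 : Bool × ℝ) : Prop :=
  ScB σ (bdp b) univ fun B h v =>
    ‖Xf B h w (cor B c) (cor B b3) (cor B b4) v - Setup.kap w * phs (ang b) (ang c) (ang b3) (ang b4) *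
      pf B h w (cor B b) (cor B c) (cor B b3) (cor B b4)‖

/-- (c) banks of `P`, `z1` moving -/
def XPS (σ : ℝ) (w : Bool) (b c b3 b4 : Bool × ℝ) : Prop :=
  ScB σ (b.2 : ℂ) {z | 0 < sgn b.1 * z.im} fun B h v =>
    ‖Xf B h w (cor B c) (cor B b3) (cor B b4) v -
      Gf B h w b.1 (gp B (2 * h) b.2) (cor B c) (cor B b3) (cor B b4)‖

/-- (d) floor and ceiling, `z2` moving -/
def YBdS (σ : ℝ) (w : Bool) (b c b3 b4 : Bool × ℝ) : Prop :=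
  ScB σ (bdp c) univ fun B h v =>
    ‖Yf B h w b.1 (gp B (2 * h) b.2) (cor B b3) (cor B b4) v -
      Gf B h w b.1 (gp B (2 * h) b.2) (cor B c) (cor B b3) (cor B b4)‖

/-- (b) across the fine plates, `z1` moving -/
def XOddS (σ : ℝ) (w : Bool) (c b3 b4 : Bool × ℝ) (x : ℝ) : Prop :=
  ScB2 σ x fun B h v => Xf B h w (cor B c) (cor B b3) (cor B b4) v

/-- (b) across the fine plates, `z2` moving -/
def YOddS (σ : ℝ) (w : Bool) (b b3 b4 : Bool × ℝ) (x : ℝ) : Prop :=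
  ScB2 σ x fun B h v => Yf B h w b.1 (gp B (2 * h) b.2) (cor B b3) (cor B b4) v

section Main

variable {σ : ℝ} (S : Setup σ)

theorem xBd_of (H : ∀ b c : Bool × ℝ, b ≠ c → b ≠ S.b3 → b ≠ S.b4 → c ≠ S.b3 → c ≠ S.b4 →
    XBdS σ S.w b c S.b3 S.b4) : S.XBd := by
  intro b c h1 h2 h3 h4 h5 ε hε
  obtain ⟨r, hr, δ0, hδ0, h6⟩ := evb_of_scale (H b c h1 h2 h3 h4 h5) hε
  rw [inter_univ] at h6
  exact ⟨r, hr, evIn_of_box S.ok S.pos S.lim S.mono hδ0 h6⟩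

theorem xP_of (H : ∀ b c : Bool × ℝ, b.2 ∈ Ioo (-σ) 0 → c ≠ S.b3 → c ≠ S.b4 →
    XPS σ S.w b c S.b3 S.b4) : S.XP := by
  intro b c h1 h2 h3 ε hε
  obtain ⟨r, hr, δ0, hδ0, h6⟩ := evb_of_scale (H b c h1 h2 h3) hε
  exact ⟨r, hr, evIn_of_box S.ok S.pos S.lim S.mono hδ0 h6⟩

theorem yBd_of (H : ∀ b c : Bool × ℝ, b.2 ∈ Ioo (-σ) 0 → c ≠ S.b3 → c ≠ S.b4 →
    YBdS σ S.w b c S.b3 S.b4) : S.YBd := by
  intro b c h1 h2 h3 ε hε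
  obtain ⟨r, hr, δ0, hδ0, h6⟩ := evb_of_scale (H b c h1 h2 h3) hε
  rw [inter_univ] at h6
  exact ⟨r, hr, evIn_of_box S.ok S.pos S.lim S.mono hδ0 h6⟩

theorem xOdd_of (H : ∀ c : Bool × ℝ, c ≠ S.b3 → c ≠ S.b4 → ∀ x : ℝ, x < -σ →
    XOddS σ S.w c S.b3 S.b4 x) : S.XOdd := by
  intro c h1 h2 x hx ε hε
  obtain ⟨r, hr, δ0, hδ0, h6⟩ := oddb_of_scale (H c h1 h2 x hx) hε
  refine ⟨r, hr, ?_⟩
  have h7 := evIn2_of_box S.ok S.pos S.lim S.mono hδ0 h6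
  filter_upwards [h7] with k hk K hK hKc
  filter_upwards [hk K hK hKc] with n hn v v' hv hv'
  exact hn v v' ⟨hv.1.1, hv.1.2, hv.2⟩ ⟨hv'.1.1, hv'.1.2, hv'.2⟩

theorem yOdd_of (H : ∀ b : Bool × ℝ, b.2 ∈ Ioo (-σ) 0 → ∀ x : ℝ, x < -σ →
    YOddS σ S.w b S.b3 S.b4 x) : S.YOdd := by
  intro b h1 x hx ε hε
  obtain ⟨r, hr, δ0, hδ0, h6⟩ := oddb_of_scale (H b h1 x hx) hε
  refine ⟨r, hr, ?_⟩
  have h7 := evIn2_of_box S.ok S.pos S.lim S.mono hδ0 h6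
  filter_upwards [h7] with k hk K hK hKc
  filter_upwards [hk K hK hKc] with n hn v v' hv hv'
  exact hn v v' ⟨hv.1.1, hv.1.2, hv.2⟩ ⟨hv'.1.1, hv'.1.2, hv'.2⟩

end Main

end Pool.Agent.H87.Fld
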