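import Mathlib
import Pool.Agent.H71.W.JGeo

set_option autoImplicit false
open Finset

/-! # (J5) (a), (d): the forced row right of a corner

`c = (s, i)` a corner of the box (`s = true` : ceiling). `fr` : the last row of tiles of every step right of
`c`, up to the right wall. `force` : these tiles get the colour of the layer tile behind them. -/

namespace Pool.Agent.H87.W

open Pool.Agent.H33.Q1 Pool.Agent.H6.W Pool.Agent.H50.W Pool.Agent.H58.W Pool.Agent.H61.W
open Pool.Agent.Q1.M4 (Cell)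

/-- tile of the forced row right of the corner `c` -/
def fr (b : JBox) (n : ℤ) (c : Bool × ℕ) (x y : ℤ) : Prop :=
  InQ b n x y ∧ b.st c.2 * n ≤ x ∧
    (if c.1 then 0 ≤ y ∧ ¬ InQ b n x (y + 1) else y < 0 ∧ ¬ InQ b n x (y - 1))

/-- colour of the forced tile -/
def frc (b : JBox) (n : ℤ) (c : Bool × ℕ) (cl : Cl) (x y : ℤ) : Bool :=
  if c.1 then lcol b n cl x (y + 1) else lcol b n cl x (y - 1)

open Classical in
/-- the configuration with the forced row -/
noncomputable def force (b : JBox) (h : ℕ) (c : Bool × ℕ) (cl : Cl) (w : Finset (ℤ × ℤ)) :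
    Finset (ℤ × ℤ) :=
  (w.filter fun e => ¬ fr b (2 * h) c (tt e).1 (tt e).2) ∪
    (b.B h).filter fun e => fr b (2 * h) c (tt e).1 (tt e).2 ∧
      frc b (2 * h) c cl (tt e).1 (tt e).2 = true

/-- labels of the box -/
lemma mem_B {b : JBox} {h : ℕ} (hh : 0 < h) {e : ℤ × ℤ} :
    e ∈ b.B h ↔ (e.1 + e.2) % 2 = 1 ∧ InQ b (2 * h) (tt e).1 (tt e).2 := by
  unfold JBox.B
  rw [mem_TL (by positivity)]
  rfl

lemma mem_B_lt {b : JBox} {h : ℕ} (hh : 0 < h) {x y : ℤ} :
    lt (x, y) ∈ b.B h ↔ InQ b (2 * h) x y := by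
  rw [mem_B hh, tt_lt]
  exact ⟨fun h => h.2, fun h => ⟨lt_odd _, h⟩⟩

lemma mem_force {b : JBox} {h : ℕ} (hh : 0 < h) {c : Bool × ℕ} {cl : Cl} {w : Finset (ℤ × ℤ)}
    {x y : ℤ} : lt (x, y) ∈ force b h c cl w ↔
      (fr b (2 * h) c x y ∧ frc b (2 * h) c cl x y = true) ∨
        (¬ fr b (2 * h) c x y ∧ lt (x, y) ∈ w) := by
  classical
  unfold force
  rw [mem_union, mem_filter, mem_filter, tt_lt, mem_B_lt hh]
  constructor
  · rintro (h | h)
    · exact Or.inr ⟨h.2, h.1⟩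
    · exact Or.inl h.2
  · rintro (h | h)
    · exact Or.inr ⟨h.1.1, h⟩
    · exact Or.inl ⟨h.2, h.1⟩

end Pool.Agent.H87.W
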