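import Mathlib
import Pool.Agent.H87.W.JForce

set_option autoImplicit false
open Finset

/-! # (J5) (a), (d): geometry of the floor of the box in tiles, thin layer -/

namespace Pool.Agent.H87.W

open Pool.Agent.H33.Q1 Pool.Agent.H6.W Pool.Agent.H50.W Pool.Agent.H58.W Pool.Agent.H61.W
open Pool.Agent.H21.W
open Pool.Agent.Q1.M4 (Cell)

/-- layer tile with a common side with the box -/
def Ly1 (b : JBox) (n x y : ℤ) : Prop :=
  ¬ InQ b n x y ∧ (InQ b n (x + 1) y ∨ InQ b n (x - 1) y ∨ InQ b n x (y + 1) ∨ InQ b n x (y - 1))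

/-- diagonal tile at distance one -/
def Dg1 (b : JBox) (n x y : ℤ) : Prop :=
  ¬ InQ b n x y ∧ ¬ Ly1 b n x y ∧ (InQ b n (x + 1) (y + 1) ∨ InQ b n (x + 1) (y - 1) ∨
    InQ b n (x - 1) (y + 1) ∨ InQ b n (x - 1) (y - 1))

/-- the thin region -/
def LamT (b : JBox) (n : ℤ) (M : Finset (Bool × ℕ)) : Set (ℤ × ℤ) :=
  {e | ∃ x y, e = lt (x, y) ∧
    (InQ b n x y ∨ Ly1 b n x y ∨ (Dg1 b n x y ∧ ∀ c ∈ M, (x, y) ≠ dgt b n c))}

lemma mem_LamT {b : JBox} {n : ℤ} {M : Finset (Bool × ℕ)} {x y : ℤ} : lt (x, y) ∈ LamT b n M ↔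
    (InQ b n x y ∨ Ly1 b n x y ∨ (Dg1 b n x y ∧ ∀ c ∈ M, (x, y) ≠ dgt b n c)) := by
  constructor
  · rintro ⟨x', y', h, h'⟩
    have := lt_inj h
    simp only [Prod.mk.injEq] at this
    obtain ⟨rfl, rfl⟩ := this
    exact h'
  · exact fun h => ⟨x, y, rfl, h⟩

lemma mem_Lam {b : JBox} {n : ℤ} {M : Finset (Bool × ℕ)} {x y : ℤ} : lt (x, y) ∈ Lam b n M ↔
    (InQ b n x y ∨ (Ly b n x y ∧ ∀ c ∈ M, (x, y) ≠ dgt b n c)) := by
  constructor
  · rintro ⟨x', y', h, h'⟩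
    have := lt_inj h
    simp only [Prod.mk.injEq] at this
    obtain ⟨rfl, rfl⟩ := this
    exact h'
  · exact fun h => ⟨x, y, rfl, h⟩

variable {b : JBox} {δ σ : ℝ} {n x y x' y' : ℤ}

lemma ediv_neg {n : ℤ} (hn : 0 < n) (y : ℤ) : (-1 - y) / n = -1 - y / n := by
  have h1 := Int.ediv_mul_le y hn.ne'
  have h2 := Int.lt_ediv_add_one_mul_self y hn
  apply le_antisymm
  · have : (-1 - y) / n < -1 - y / n + 1 := by
      rw [Int.ediv_lt_iff_lt_mul hn]
      linarith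
    omega
  · rw [Int.le_ediv_iff_mul_le hn]
    linarith

lemma dst_neg_ediv {n : ℤ} (hn : 0 < n) {y : ℤ} (hy : y < 0) : dst (y / n) = (-1 - y) / n := by
  have h : y / n < 0 := Int.ediv_neg_of_neg_of_pos hy hn
  unfold dst
  rw [if_neg (by omega), ediv_neg hn]

/-- **The lower half of the box.** -/
lemma InQ_neg (hb : b.Ok δ σ) (hn : 0 < n) (hy : y < 0) : InQ b n x y ↔
    (-1 - y < Ht b * n ∧ x < b.X * n ∧
      ((-1 - y < b.H * n ∧ -(b.X : ℤ) * n ≤ x) ∨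
        (b.H * n ≤ -1 - y ∧ b.st ((-1 - y) / n - b.H).toNat * n ≤ x))) := by
  unfold InQ
  rw [mem_Q hb, dst_neg_ediv hn hy, Int.ediv_lt_iff_lt_mul hn, Int.ediv_lt_iff_lt_mul hn]
  by_cases h : (-1 - y) / n < b.H
  · rw [if_pos h, Int.le_ediv_iff_mul_le hn]
    rw [Int.ediv_lt_iff_lt_mul hn] at h
    constructor
    · rintro ⟨h1, h2, h3⟩; exact ⟨h1, h2, Or.inl ⟨h, h3⟩⟩
    · rintro ⟨h1, h2, ⟨-, h3⟩ | ⟨h3, -⟩⟩
      · exact ⟨h1, h2, h3⟩
      · omega
  · rw [if_neg h, Int.le_ediv_iff_mul_le hn]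
    rw [Int.ediv_lt_iff_lt_mul hn] at h
    constructor
    · rintro ⟨h1, h2, h3⟩; exact ⟨h1, h2, Or.inr ⟨by omega, h3⟩⟩
    · rintro ⟨h1, h2, ⟨h3, -⟩ | ⟨-, h3⟩⟩
      · omega
      · exact ⟨h1, h2, h3⟩

/-- the rows of a step -/
lemma idx_eq (hn : 0 < n) {j : ℕ} (h1 : (b.H + j) * n ≤ -1 - y) (h2 : -1 - y < (b.H + j + 1) * n) :
    ((-1 - y) / n - b.H).toNat = j := by
  have h3 : (-1 - y) / n = b.H + j := by
    apply le_antisymm
    · have : (-1 - y) / n < b.H + j + 1 := by rw [Int.ediv_lt_iff_lt_mul hn]; exact h2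
      omega
    · rw [Int.le_ediv_iff_mul_le hn]; exact h1
  omega

lemma exists_idx (hn : 0 < n) (h1 : b.H * n ≤ -1 - y) : ∃ j : ℕ,
    (b.H + j) * n ≤ -1 - y ∧ -1 - y < (b.H + j + 1) * n ∧ ((-1 - y) / n - b.H).toNat = j := by
  have h2 : (b.H : ℤ) ≤ (-1 - y) / n := by rw [Int.le_ediv_iff_mul_le hn]; exact h1
  refine ⟨((-1 - y) / n - b.H).toNat, ?_, ?_, rfl⟩
  · rw [Int.toNat_of_nonneg (by omega)]
    have := Int.ediv_mul_le (-1 - y) hn.ne'
    linarith
  · rw [Int.toNat_of_nonneg (by omega)]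
    have := Int.lt_ediv_add_one_mul_self (-1 - y) hn
    linarith

/-- **the part below `- H`** -/
lemma InQ_step (hb : b.Ok δ σ) (hn : 0 < n) {j : ℕ} (h1 : (b.H + j) * n ≤ -1 - y)
    (h2 : -1 - y < (b.H + j + 1) * n) : InQ b n x y ↔ j < b.K ∧ x < b.X * n ∧ b.st j * n ≤ x := by
  have hH : (0 : ℤ) ≤ b.H * n := by positivity
  have hj : (0 : ℤ) ≤ j * n := by positivity
  have hy : y < 0 := by
    have : (b.H + j) * n = b.H * n + j * n := by ring
    omega
  rw [InQ_neg hb hn hy, idx_eq hn h1 h2]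
  unfold Ht
  have e1 : ((b.H : ℤ) + j) * n = b.H * n + j * n := by ring
  constructor
  · rintro ⟨g1, g2, ⟨g3, -⟩ | ⟨-, g3⟩⟩
    · omega
    · refine ⟨?_, g2, g3⟩
      have : (b.H + j : ℤ) * n < (b.H + b.K) * n := by linarith
      have := lt_of_mul_lt_mul_right this hn.le
      omega
  · rintro ⟨g1, g2, g3⟩
    refine ⟨?_, g2, Or.inr ⟨by omega, g3⟩⟩
    have : (b.H + j + 1 : ℤ) * n ≤ (b.H + b.K) * n :=
      mul_le_mul_of_nonneg_right (by omega) hn.le
    linarith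

lemma InQ_core (hb : b.Ok δ σ) (hn : 0 < n) (hy : y < 0) (h1 : -1 - y < b.H * n) :
    InQ b n x y ↔ x < b.X * n ∧ -(b.X : ℤ) * n ≤ x := by
  rw [InQ_neg hb hn hy]
  have h2 : (b.H : ℤ) * n ≤ Ht b * n := by
    unfold Ht
    exact mul_le_mul_of_nonneg_right (by omega) hn.le
  constructor
  · rintro ⟨g1, g2, ⟨-, g3⟩ | ⟨g3, -⟩⟩
    · exact ⟨g2, g3⟩
    · omega
  · rintro ⟨g1, g2⟩
    exact ⟨by omega, g1, Or.inl ⟨h1, g2⟩⟩

/-- **closed to the right and upwards** -/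
lemma InQ_ru (hb : b.Ok δ σ) (hn : 0 < n) (h : InQ b n x y) (hx : x ≤ x') (hX : x' < b.X * n)
    (hy : y ≤ y') (hy' : y' < 0) : InQ b n x' y' := by
  by_cases h1 : -1 - y' < b.H * n
  · rw [InQ_core hb hn hy' h1]
    refine ⟨hX, ?_⟩
    by_cases h2 : -1 - y < b.H * n
    · rw [InQ_core hb hn (by omega) h2] at h
      omega
    · obtain ⟨j, k1, k2, -⟩ := exists_idx (b := b) (y := y) hn (by omega)
      rw [InQ_step hb hn k1 k2] at h
      have h3 := (hb.st_lo j h.1).1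
      have : (-(b.X : ℤ)) * n ≤ b.st j * n := mul_le_mul_of_nonneg_right h3.le hn.le
      omega
  · obtain ⟨j', g1, g2, -⟩ := exists_idx (b := b) (y := y') hn (by omega)
    obtain ⟨j, k1, k2, -⟩ := exists_idx (b := b) (y := y) hn (by omega)
    rw [InQ_step hb hn k1 k2] at h
    rw [InQ_step hb hn g1 g2]
    have hjj : j' ≤ j := by
      by_contra hc
      have : ((b.H : ℤ) + j + 1) * n ≤ (b.H + j') * n :=
        mul_le_mul_of_nonneg_right (by omega) hn.le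
      omega
    refine ⟨by omega, hX, ?_⟩
    have h4 : b.st j' ≤ b.st j := (Pool.Agent.H71.W.st_le_iff hb (by omega) h.1).2 hjj
    have : b.st j' * n ≤ b.st j * n := mul_le_mul_of_nonneg_right h4 hn.le
    omega

/-- the tiles of the thin layer below and to the right of a tile of the box -/
theorem lay_cases (hb : b.Ok δ σ) (hn : 0 < n) {M : Finset (Bool × ℕ)} {x0 r0 : ℤ}
    (hv : InQ b n x0 r0) (hr0 : r0 < 0) (hx : x0 ≤ x) (hy : y < r0) (he : lt (x, y) ∈ LamT b n M)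
    (hQ : ¬ InQ b n x y) :
    x = b.X * n ∨ (x < b.X * n ∧ InQ b n x (y + 1)) ∨
      (∃ j : ℕ, j < b.K ∧ x < b.X * n ∧ x + 1 = b.st j * n ∧ (b.H + j) * n ≤ -1 - y ∧
        -1 - y < (b.H + j + 1) * n) ∨
      (∃ q : ℕ, q < b.K ∧ (false, q) ∉ M ∧ (x, y) = dgt b n (false, q)) := by
  rw [mem_LamT] at he
  have x0X : -(b.X : ℤ) * n ≤ x0 := by
    by_cases h2 : -1 - r0 < b.H * n
    · exact ((InQ_core hb hn hr0 h2).1 hv).2
    · obtain ⟨j, k1, k2, -⟩ := exists_idx (b := b) (y := r0) hn (by omega)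
      have h := (InQ_step hb hn k1 k2).1 hv
      have h3 := (hb.st_lo j h.1).1
      have : (-(b.X : ℤ)) * n ≤ b.st j * n := mul_le_mul_of_nonneg_right h3.le hn.le
      omega
  -- a tile of the box to the east
  have east : x + 1 < b.X * n → InQ b n (x + 1) y → ∃ j : ℕ, j < b.K ∧ x < b.X * n ∧
      x + 1 = b.st j * n ∧ (b.H + j) * n ≤ -1 - y ∧ -1 - y < (b.H + j + 1) * n := by
    intro hX h
    by_cases h2 : -1 - y < b.H * n
    · exact absurd ((InQ_core hb hn (by omega) h2).2 ⟨by omega, by omega⟩) hQ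
    · obtain ⟨j, k1, k2, -⟩ := exists_idx (b := b) (y := y) hn (by omega)
      rw [InQ_step hb hn k1 k2] at h
      have h3 : ¬ b.st j * n ≤ x := fun h3 => hQ ((InQ_step hb hn k1 k2).2 ⟨h.1, by omega, h3⟩)
      exact ⟨j, h.1, by omega, by omega, k1, k2⟩
  have ltX : ∀ {x y : ℤ}, y < 0 → InQ b n x y → x < b.X * n := fun hy h =>
    ((InQ_neg hb hn hy).1 h).2.1
  rcases he with h | ⟨-, h | h | h | h⟩ | ⟨⟨-, hL, h | h | h | h⟩, hM⟩
  · exact absurd h hQ
  · exact Or.inr (Or.inr (Or.inl (east (ltX (by omega) h) h)))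
  · left
    by_contra hne
    have h1 := ltX (by omega) h
    exact hQ (InQ_ru hb hn h (by omega) (by omega) le_rfl (by omega))
  · by_cases hX : x < b.X * n
    · exact Or.inr (Or.inl ⟨hX, h⟩)
    · have := ltX (by omega) h
      omega
  · exact absurd (InQ_ru hb hn h le_rfl (ltX (by omega) h) (by omega) (by omega)) hQ
  · -- convex corner
    have hX := ltX (by omega) h
    have hN : ¬ InQ b n x (y + 1) := fun h' => hL ⟨hQ, Or.inr (Or.inr (Or.inl h'))⟩
    have hE : ¬ InQ b n (x + 1) y := fun h' => hL ⟨hQ, Or.inl h'⟩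
    by_cases h2 : -1 - (y + 1) < b.H * n
    · exact absurd ((InQ_core hb hn (by omega) h2).2 ⟨by omega, by omega⟩) hN
    obtain ⟨j, k1, k2, -⟩ := exists_idx (b := b) (y := y + 1) hn (by omega)
    rw [InQ_step hb hn k1 k2] at h hN
    have hs : x + 1 = b.st j * n := by
      by_contra hne
      exact hN ⟨h.1, by omega, by omega⟩
    have hy2 : -1 - y = (b.H + j + 1) * n := by
      by_contra hne
      have : -1 - y < (b.H + j + 1) * n := by omega
      exact hE ((InQ_step hb hn (j := j) (by omega) this).2 ⟨h.1, hX, by omega⟩)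
    right; right; right
    have e : (x, y) = dgt b n (false, j) := by
      unfold dgt cpt
      simp only [Bool.false_eq_true, if_false, Prod.mk.injEq]
      omega
    exact ⟨j, h.1, fun hj => hM _ hj e, e⟩
  · exact absurd (InQ_ru hb hn h le_rfl (ltX (by omega) h) (by omega) (by omega))
      (fun h' => hL ⟨hQ, Or.inl h'⟩)
  · left
    have hN : ¬ InQ b n x (y + 1) := fun h' => hL ⟨hQ, Or.inr (Or.inr (Or.inl h'))⟩
    by_contra hne
    have h1 := ltX (by omega) h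
    exact hN (InQ_ru hb hn h (by omega) (by omega) le_rfl (by omega))
  · exact absurd (InQ_ru hb hn h le_rfl (ltX (by omega) h) (by omega) (by omega))
      (fun h' => hL ⟨hQ, Or.inr (Or.inl h')⟩)

end Pool.Agent.H87.W
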