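import Mathlib
import Pool.Agent.H87.W.JFlr
import Pool.Agent.H19.W.MoveC

set_option autoImplicit false
open Finset

/-! # (J5) (a), (d): the strip move at the floor

World 1: thin region, string in the row `r0` right of `v = (x0, r0)`. World 2: thick layer, mark at the corner
`(false, i)`, forced row right of it, no string. The tiles below the string go one row up. -/

namespace Pool.Agent.H87.W

open Pool.Agent.H33.Q1 Pool.Agent.H6.W Pool.Agent.H50.W Pool.Agent.H61.W
open Pool.Agent.H58.W hiding up
open Pool.Agent.H21.W Pool.Agent.H13.W Pool.Agent.H19.W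
open Pool.Agent.Q1.M4 (Cell)

variable {b : JBox} {δ σ : ℝ} {n x y x' y' : ℤ} {M : Finset (Bool × ℕ)}

lemma InQ_mir (hb : b.Ok δ σ) (hn : 0 < n) : InQ b n x (-1 - y) ↔ InQ b n x y := by
  unfold InQ
  rw [mem_Q hb, mem_Q hb, ediv_neg hn, dst_neg]

lemma dgt_floor (q : ℕ) : dgt b n (false, q) = (b.st q * n - 1, -((b.H + q + 1) * n) - 1) := by
  unfold dgt cpt
  simp

lemma dgt_ceil (q : ℕ) : dgt b n (true, q) = (b.st q * n - 1, (b.H + q + 1) * n) := by
  unfold dgt cpt
  simp

lemma not_InQ_row {q : ℕ} (hb : b.Ok δ σ) (hn : 0 < n) (hq : q < b.K)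
    (h1 : (b.H + q + 1) * n ≤ -1 - y) (h2 : x ≤ b.st q * n) : ¬ InQ b n x y := by
  intro h
  obtain ⟨j, k1, k2, -⟩ := exists_idx (b := b) (y := y) hn (by nlinarith)
  rw [InQ_step hb hn k1 k2] at h
  have h3 : q + 1 ≤ j := by
    by_contra hc
    have : ((b.H : ℤ) + j + 1) * n ≤ (b.H + q + 1) * n :=
      mul_le_mul_of_nonneg_right (by omega) hn.le
    omega
  have h4 := (Pool.Agent.H71.W.st_lt_iff hb hq h.1).2 h3
  have : b.st q * n < b.st j * n := mul_lt_mul_of_pos_right h4 hn
  omega

lemma not_InQ_left {q : ℕ} (hb : b.Ok δ σ) (hn : 0 < n) (hq : q < b.K)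
    (h1 : (b.H + q) * n ≤ -1 - y) (h2 : x < b.st q * n) : ¬ InQ b n x y := by
  intro h
  obtain ⟨j, k1, k2, -⟩ := exists_idx (b := b) (y := y) hn (by nlinarith)
  rw [InQ_step hb hn k1 k2] at h
  have h3 : q ≤ j := by
    by_contra hc
    have : ((b.H : ℤ) + j + 1) * n ≤ (b.H + q) * n :=
      mul_le_mul_of_nonneg_right (by omega) hn.le
    omega
  have h4 := (Pool.Agent.H71.W.st_le_iff hb hq h.1).2 h3
  have : b.st q * n ≤ b.st j * n := mul_le_mul_of_nonneg_right h4 hn.le
  omega

/-- the diagonal tile of a corner is not in the thin layer and not in the box -/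
lemma dgt_not (hb : b.Ok δ σ) (hn : 0 < n) {c : Bool × ℕ} (hc : c.2 < b.K)
    (h : (x, y) = dgt b n c) : ¬ InQ b n x y ∧ ¬ Ly1 b n x y := by
  have key : ∀ {x y : ℤ}, (x, y) = dgt b n (false, c.2) → ¬ InQ b n x y ∧ ¬ Ly1 b n x y := by
    intro x y h
    rw [dgt_floor, Prod.mk.injEq] at h
    obtain ⟨rfl, rfl⟩ := h
    have h0 : ¬ InQ b n (b.st c.2 * n - 1) (-((b.H + c.2 + 1) * n) - 1) :=
      not_InQ_row hb hn hc (by omega) (by omega)
    refine ⟨h0, ?_⟩
    rintro ⟨-, h | h | h | h⟩
    · exact not_InQ_row hb hn hc (by omega) (by omega) h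
    · exact not_InQ_row hb hn hc (by omega) (by omega) h
    · refine not_InQ_left hb hn hc ?_ (by omega) h
      have e : ((b.H : ℤ) + c.2 + 1) * n = (b.H + c.2) * n + n := by ring
      omega
    · exact not_InQ_row hb hn hc (by omega) (by omega) h
  obtain ⟨s, q⟩ := c
  cases s
  · exact key h
  · rw [dgt_ceil, Prod.mk.injEq] at h
    obtain ⟨rfl, rfl⟩ := h
    have h1 := key (x := b.st q * n - 1) (y := -1 - (b.H + q + 1) * n)
      (by rw [dgt_floor, Prod.mk.injEq]; exact ⟨rfl, by ring⟩)
    have e1 : ∀ x y : ℤ, InQ b n x (-1 - y) ↔ InQ b n x y := fun x y => InQ_mir hb hn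
    refine ⟨fun h => h1.1 ((e1 _ _).2 h), ?_⟩
    rintro ⟨h0, h⟩
    refine h1.2 ⟨fun h => h0 ((e1 _ _).1 h), ?_⟩
    rcases h with h | h | h | h
    · exact Or.inl ((e1 _ _).2 h)
    · exact Or.inr (Or.inl ((e1 _ _).2 h))
    · right; right; right
      have := (e1 _ _).2 h
      rw [show -1 - ((b.H + q + 1) * n + 1) = -1 - (b.H + q + 1) * n - 1 by ring] at this
      exact this
    · right; right; left
      have := (e1 _ _).2 h
      rw [show -1 - ((b.H + q + 1) * n - 1) = -1 - (b.H + q + 1) * n + 1 by ring] at this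
      exact this

lemma Ly1.ly (h : Ly1 b n x y) : Ly b n x y := by
  refine ⟨h.1, ?_⟩
  rcases h.2 with h | h | h | h
  · exact ⟨1, 0, by norm_num, by norm_num, by rwa [add_zero]⟩
  · exact ⟨-1, 0, by norm_num, by norm_num, by rwa [add_zero]⟩
  · exact ⟨0, 1, by norm_num, by norm_num, by rwa [add_zero]⟩
  · exact ⟨0, -1, by norm_num, by norm_num, by rwa [add_zero]⟩

lemma Dg1.ly (h : Dg1 b n x y) : Ly b n x y := by
  refine ⟨h.1, ?_⟩
  rcases h.2.2 with h | h | h | h
  · exact ⟨1, 1, by norm_num, by norm_num, h⟩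
  · exact ⟨1, -1, by norm_num, by norm_num, h⟩
  · exact ⟨-1, 1, by norm_num, by norm_num, h⟩
  · exact ⟨-1, -1, by norm_num, by norm_num, h⟩

/-- the thin region is a part of the thick one -/
lemma LamT_sub (hb : b.Ok δ σ) (hn : 0 < n) (hM : ∀ c ∈ M, c.2 < b.K) : LamT b n M ⊆ Lam b n M := by
  rintro e ⟨x, y, rfl, h⟩
  rw [mem_Lam]
  rcases h with h | h | ⟨h, h'⟩
  · exact Or.inl h
  · exact Or.inr ⟨h.ly, fun c hc he => (dgt_not hb hn (hM c hc) he).2 h⟩
  · exact Or.inr ⟨h.ly, h'⟩

/-- **Colours before and after the move.** -/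
structure ClRel (i : ℕ) (r0 : ℤ) (M : Finset (Bool × ℕ)) (cl cl2 : Cl) : Prop where
  u : ∀ j, cl2.u j = cl.u j
  lo : ∀ j ≤ i, cl2.l j = cl.l j
  hi : ∀ j, i < j → cl2.l j = !cl.l j
  cru : ∀ y, r0 < y → cl2.cr y = cl.cr y
  crl : ∀ y < r0, cl2.cr (y + 1) = !cl.cr y
  cst : ∀ q, i < q → (false, q) ∉ M → cl.l (q + 1) = cl.l q

/-- the inner block -/
def Blk0 (xl xr yt : ℤ) : Set (ℤ × ℤ) := {e | (xl ≤ cx e ∧ cx e ≤ xr) ∧ cy e ≤ yt}

/-- the strip -/
def Str0 (v : ℤ × ℤ) : Set (ℤ × ℤ) := {e | v.1 ≤ cx e ∧ cy e < v.2}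

lemma mem_strD {v : ℤ × ℤ} {x y : ℤ} : lt (x, y) ∈ lt '' strD v ↔ y = v.2 ∧ v.1 ≤ x := by
  constructor
  · rintro ⟨p, hp, h⟩
    rw [lt_inj h] at hp
    exact hp
  · exact fun h => ⟨(x, y), h, rfl⟩

lemma up_lt (x y : ℤ) : up (lt (x, y)) = lt (x, y + 1) := by
  unfold up lt
  refine Prod.ext ?_ ?_ <;> simp only <;> ring

lemma dn_lt (x y : ℤ) : dn (lt (x, y)) = lt (x, y - 1) := by
  unfold dn lt
  refine Prod.ext ?_ ?_ <;> simp only <;> ring

lemma lcol_low {cl : Cl} {j : ℕ} (hn : 0 < n) (hx : x < b.X * n) (hy : y < 0) (hj : j ≤ b.K)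
    (h1 : (b.H + j) * n ≤ -1 - y) (h2 : -1 - y < (b.H + j + 1) * n) :
    lcol b n cl x y = cl.l j := by
  unfold lcol
  rw [if_neg (by omega), if_neg (by omega)]
  have := idx_eq hn h1 h2
  rw [show -y - 1 = -1 - y by ring, this, min_eq_right hj]

/-- colours of the layer above the level `j` -/
lemma lcol_low' {cl : Cl} (hn : 0 < n) (hx : x < b.X * n) (hy : y < 0) {j : ℕ} (hj : j ≤ b.K)
    (h2 : -1 - y < (b.H + j + 1) * n) : ∃ k ≤ j, lcol b n cl x y = cl.l k ∧
      ∀ cl' : Cl, lcol b n cl' x y = cl'.l k := by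
  by_cases h : b.H * n ≤ -1 - y
  · obtain ⟨k, k1, k2, -⟩ := exists_idx (b := b) (y := y) hn h
    have hkj : k ≤ j := by
      by_contra hc
      have : ((b.H : ℤ) + j + 1) * n ≤ (b.H + k) * n :=
        mul_le_mul_of_nonneg_right (by omega) hn.le
      omega
    exact ⟨k, hkj, lcol_low hn hx hy (by omega) k1 k2, fun cl' => lcol_low hn hx hy (by omega) k1 k2⟩
  · have key : ∀ cl' : Cl, lcol b n cl' x y = cl'.l 0 := by
      intro cl'
      unfold lcol
      rw [if_neg (by omega), if_neg (by omega)]
      have : (-y - 1) / n < b.H := by rw [Int.ediv_lt_iff_lt_mul hn]; omega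
      rw [show ((-y - 1) / n - b.H).toNat = 0 by omega, min_eq_right (Nat.zero_le _)]
    exact ⟨0, Nat.zero_le _, key cl, key⟩

/-- **The strip move at the floor.** -/
theorem floor_move (hb : b.Ok δ σ) (hn : 1 < n) {i : ℕ} (hi : i < b.K) (hM : ∀ c ∈ M, c.2 < b.K)
    {v : ℤ × ℤ} (hv : InQ b n v.1 v.2) {xl xr yt : ℤ} (hxl : xl < b.st i * n) (hxr : b.st i * n ≤ xr)
    (hxX : -(b.X : ℤ) * n ≤ xl) (hxl' : xl < v.1) (hxr' : v.1 ≤ xr) (hyt : v.2 ≤ yt) (hyt' : -(b.H * n) ≤ yt) (hyt'' : yt < 0)
    (hr0 : v.2 < -1) {cl cl2 : Cl} (hc : ClRel i v.2 M cl cl2) {C : Set (ℤ × ℤ)}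
    (hC : ∀ e ∈ C, -1 ≤ cy e) {w1 w2 : Finset (ℤ × ℤ)}
    (hS : ∀ x y, InQ b n x y → xr < x → y < v.2 → (lt (x, y + 1) ∈ w2 ↔ lt (x, y) ∉ w1))
    (hP : ∀ x y, InQ b n x y → lt (x, y) ∉ Blk0 xl xr yt → (x < xl ∨ v.2 < y) → lt (x, y) ∉ C →
      (lt (x, y) ∈ w2 ↔ lt (x, y) ∈ w1))
    (hw1 : ∀ x y, lt (x, y) ∈ LamT b n M → ¬ InQ b n x y → (lt (x, y) ∈ w1 ↔ lcol b n cl x y = true))
    (hw2 : ∀ x y, Ly b n x y → (lt (x, y) ∈ w2 ↔ lcol b n cl2 x y = true))
    (hf : ∀ x y, fr b n (false, i) x y →
      (lt (x, y) ∈ w2 ↔ frc b n (false, i) cl2 x y = true)) :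
    StripMove (LamT b n M \ C) (LamT b n (insert (false, i) M) \ C) (lt '' strD v) ∅ w1 w2
      (Blk0 xl xr yt) (Str0 v) := by
  have hn0 : 0 < n := by omega
  -- every label of `LamT` is `lt (x, y)`
  have hlt : ∀ e ∈ LamT b n M, ∃ x y, e = lt (x, y) := fun e ⟨x, y, h, _⟩ => ⟨x, y, h⟩
  have hStr : ∀ x y : ℤ, lt (x, y) ∈ Str0 v ↔ v.1 ≤ x ∧ y < v.2 := by
    intro x y; unfold Str0; rw [Set.mem_ofPred_eq, cx_lt, cy_lt]
  have hBlk : ∀ x y : ℤ, lt (x, y) ∈ Blk0 xl xr yt ↔ (xl ≤ x ∧ x ≤ xr) ∧ y ≤ yt := by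
    intro x y; unfold Blk0; rw [Set.mem_ofPred_eq, cx_lt, cy_lt]
  have hM2 : ∀ c ∈ insert (false, i) M, c.2 < b.K := by
    intro c hcM
    rcases mem_insert.1 hcM with rfl | h
    · exact hi
    · exact hM c h
  have vX : v.1 < b.X * n := ((InQ_neg hb hn0 (by omega)).1 hv).2.1
  have stn : ∀ {j : ℕ}, j < b.K → b.st i * n < b.st j * n → i < j := by
    intro j hj h
    exact (Pool.Agent.H71.W.st_lt_iff hb hi hj).1 (lt_of_mul_lt_mul_right h hn0.le)
  refine StripOK.move ⟨?_, ?_, ?_, ?_, ?_, ?_, ?_⟩ ⟨?_, ?_, ?_, ?_⟩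
  · -- odd
    rintro e he
    obtain ⟨x, y, rfl⟩ := hlt e he.1
    exact lt_odd _
  · -- sD
    rintro e he h2 h3 h4
    obtain ⟨x, y, rfl⟩ := hlt e he.1
    rw [hStr] at h3
    rw [mem_strD] at h4
    omega
  · -- eas
    rintro e he h2 h3 - -
    obtain ⟨x, y, rfl⟩ := hlt e he.1
    rw [hStr] at h3
    unfold Str0
    rw [Set.mem_ofPred_eq, cx_ea, cy_ea, cx_lt, cy_lt]
    omega
  · -- wes
    rintro e he h2 h3 - -
    obtain ⟨x, y, rfl⟩ := hlt e he.1
    rw [hStr] at h3
    rw [hBlk] at h2
    unfold Str0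
    rw [Set.mem_ofPred_eq, cx_we, cy_we, cx_lt, cy_lt]
    omega
  · -- ups
    rintro e he h2 h3 - -
    obtain ⟨x, y, rfl⟩ := hlt e he.1
    rw [up_lt, hStr, mem_strD]
    rw [hStr] at h3
    rcases (show y + 1 < v.2 ∨ y + 1 = v.2 by omega) with h | h
    · exact Or.inl ⟨h3.1, h⟩
    · exact Or.inr ⟨h, h3.1⟩
  · -- dns
    rintro e he h2 h3 - - h4
    obtain ⟨x, y, rfl⟩ := hlt e he.1
    rw [dn_lt, mem_strD] at h4
    rw [hStr] at h3
    omega
  · -- dd
    rintro e he h2 h3 h4
    obtain ⟨x, y, rfl⟩ := hlt e he.1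
    rw [mem_strD] at h3
    rw [hBlk] at h2
    rw [dn_lt] at h4 ⊢
    obtain ⟨rfl, hvx⟩ := h3
    have hxr1 : xr < x := by omega
    have hnC : lt (x, v.2 - 1) ∉ C := by
      intro h
      have := hC _ h
      rw [cy_lt] at this
      simp only at this
      omega
    replace he := he.1
    refine ⟨⟨?_, hnC⟩, ?_⟩
    · rw [mem_LamT]
      by_cases hX : x < b.X * n
      · have h5 : InQ b n x v.2 := InQ_ru hb hn0 hv hvx hX le_rfl (by omega)
        by_cases h6 : InQ b n x (v.2 - 1)
        · exact Or.inl h6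
        · exact Or.inr (Or.inl ⟨h6, Or.inr (Or.inr (Or.inl (by rwa [sub_add_cancel])))⟩)
      · -- right wall
        have h6 : ¬ InQ b n x v.2 := fun h => hX ((InQ_neg hb hn0 (by omega)).1 h).2.1
        have h6' : ¬ InQ b n x (v.2 - 1) := fun h => hX ((InQ_neg hb hn0 (by omega)).1 h).2.1
        have ltX : ∀ {x y : ℤ}, y < 0 → InQ b n x y → x < b.X * n := fun hy h =>
          ((InQ_neg hb hn0 hy).1 h).2.1
        have h7 : x - 1 < b.X * n := by
          rw [mem_LamT] at he
          rcases he with h | ⟨-, h | h | h | h⟩ | ⟨⟨-, -, h | h | h | h⟩, -⟩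
          · exact absurd h h6
          · have := ltX (by omega) h; omega
          · exact ltX (by omega) h
          · have := ltX (by omega) h; omega
          · have := ltX (by omega) h; omega
          · have := ltX (by omega) h; omega
          · have := ltX (by omega) h; omega
          · exact ltX (by omega) h
          · exact ltX (by omega) h
        have h8 : InQ b n (x - 1) v.2 := InQ_ru hb hn0 hv (by omega) h7 le_rfl (by omega)
        by_cases h9 : InQ b n (x - 1) (v.2 - 1)
        · exact Or.inr (Or.inl ⟨h6', Or.inr (Or.inl h9)⟩)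
        · right; right
          refine ⟨⟨h6', ?_, Or.inr (Or.inr (Or.inl (by rwa [sub_add_cancel])))⟩, ?_⟩
          · rintro ⟨-, h | h | h | h⟩
            · have := ltX (by omega) h; omega
            · exact h9 h
            · rw [sub_add_cancel] at h; exact h6 h
            · have := ltX (by omega) h; omega
          · rintro ⟨s, q⟩ hq he2
            have hqK := hM _ hq
            have h10 := hb.st_lo q hqK
            have h11 : b.st q * n < b.X * n := mul_lt_mul_of_pos_right h10.2 hn0
            cases s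
            · rw [dgt_floor, Prod.mk.injEq] at he2; omega
            · rw [dgt_ceil, Prod.mk.injEq] at he2; omega
    · rw [hBlk]; omega
  · -- plain
    rintro e he h2 h3 h4
    obtain ⟨he, heC⟩ := he
    obtain ⟨x, y, rfl⟩ := hlt e he
    rw [hStr] at h3
    rw [mem_strD] at h4
    have h2' := h2
    rw [hBlk] at h2
    have h5 : x < xl ∨ v.2 < y := by omega
    have h6 : lt (x, y) ∈ LamT b n (insert (false, i) M) := by
      have h7 := he
      rw [mem_LamT] at h7 ⊢
      rcases h7 with h7 | h7 | ⟨h7, h8⟩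
      · exact Or.inl h7
      · exact Or.inr (Or.inl h7)
      · refine Or.inr (Or.inr ⟨h7, fun c hcM he2 => ?_⟩)
        rcases mem_insert.1 hcM with rfl | h
        · rw [dgt_floor, Prod.mk.injEq] at he2
          have e1 : (b.H : ℤ) * n ≤ (b.H + i + 1) * n :=
            mul_le_mul_of_nonneg_right (by omega) hn0.le
          exact h2 ⟨⟨by omega, by omega⟩, by omega⟩
        · exact h8 c h he2
    refine ⟨⟨h6, heC⟩, Set.notMem_empty _, ?_⟩
    by_cases hQ : InQ b n x y
    · exact hP x y hQ h2' h5 heC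
    · -- layer tile
      have h7 : Ly b n x y := by
        rcases mem_LamT.1 he with h | h | h
        · exact absurd h hQ
        · exact h.ly
        · exact h.1.ly
      rw [hw1 x y he hQ, hw2 x y h7]
      have key : lcol b n cl2 x y = lcol b n cl x y := by
        by_cases hX : b.X * n ≤ x
        · have hXx : xr < b.X * n ∨ True := Or.inr trivial
          unfold lcol
          rw [if_pos hX, if_pos hX]
          exact hc.cru y (by omega)
        · by_cases hy : 0 ≤ y
          · unfold lcol
            rw [if_neg hX, if_pos hy, if_neg hX, if_pos hy]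
            exact hc.u _
          · have hy' : y < 0 := by omega
            have hX' : x < b.X * n := by omega
            by_cases hx : x < xl
            · -- index at most `i`
              have h8 : -1 - y < (b.H + i + 1) * n := by
                by_contra hcon
                have h9 : ∀ a c : ℤ, a ≤ 1 → c ≤ 1 → ¬ InQ b n (x + a) (y + c) := by
                  intro a c ha hc' h
                  refine not_InQ_left hb hn0 hi ?_ ?_ h
                  · have : ((b.H : ℤ) + i + 1) * n = (b.H + i) * n + n := by ring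
                    omega
                  · omega
                have h10 := mem_LamT.1 he
                have s1 : ∀ a : ℤ, a - 1 = a + (-1) := fun a => by ring
                rcases h10 with h | ⟨-, h | h | h | h⟩ | ⟨⟨-, -, h | h | h | h⟩, -⟩
                · exact hQ h
                · exact h9 1 0 (by norm_num) (by norm_num) (by rwa [add_zero])
                · rw [s1] at h; exact h9 (-1) 0 (by norm_num) (by norm_num) (by rwa [add_zero])
                · exact h9 0 1 (by norm_num) (by norm_num) (by rwa [add_zero])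
                · rw [s1] at h; exact h9 0 (-1) (by norm_num) (by norm_num) (by rwa [add_zero])
                · exact h9 1 1 (by norm_num) (by norm_num) h
                · rw [s1 y] at h; exact h9 1 (-1) (by norm_num) (by norm_num) h
                · rw [s1] at h; exact h9 (-1) 1 (by norm_num) (by norm_num) h
                · rw [s1 x, s1 y] at h; exact h9 (-1) (-1) (by norm_num) (by norm_num) h
              obtain ⟨k, hk, hk1, hk2⟩ := lcol_low' (cl := cl) hn0 hX' hy' hi.le h8
              rw [hk1, hk2 cl2]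
              exact hc.lo k hk
            · -- right of `xl` and above: in the box
              exfalso
              apply hQ
              rcases lt_or_ge xr x with h9 | h9
              · exact InQ_ru hb hn0 hv (by omega) hX' (by omega) hy'
              · have h10 : yt < y := by omega
                rw [InQ_core hb hn0 hy' (by omega)]
                refine ⟨hX', ?_⟩
                omega
      rw [key]
  · -- strip
    rintro e he h2 h3
    obtain ⟨he, -⟩ := he
    obtain ⟨x, y, rfl⟩ := hlt e he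
    rw [hStr] at h3
    rw [hBlk] at h2
    have hx : xr < x := by omega
    rw [up_lt]
    have hnC : lt (x, y + 1) ∉ C := by
      intro h
      have := hC _ h
      rw [cy_lt] at this
      omega
    suffices h : lt (x, y + 1) ∈ LamT b n (insert (false, i) M) ∧
        (lt (x, y + 1) ∈ w2 ↔ lt (x, y) ∉ w1) from ⟨⟨h.1, hnC⟩, Set.notMem_empty _, h.2⟩
    by_cases hQ : InQ b n x y
    · have hX : x < b.X * n := ((InQ_neg hb hn0 (by omega)).1 hQ).2.1
      exact ⟨mem_LamT.2 (Or.inl (InQ_ru hb hn0 hQ le_rfl hX (by omega) (by omega))),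
        hS x y hQ hx h3.2⟩
    · have bool : ∀ a c : Bool, a = !c → (a = true ↔ ¬ c = true) := by decide
      rw [hw1 x y he hQ]
      rcases lay_cases hb hn0 hv (by omega) h3.1 h3.2 he hQ with h | ⟨hX, h⟩ |
        ⟨j, hj, hX, hj1, hj2, hj3⟩ | ⟨q, hq, hqM, hq1⟩
      · -- right wall
        have h5 : InQ b n (x - 1) (y + 1) := by
          have h6 := mem_LamT.1 he
          have ltX : ∀ {x y : ℤ}, y < 0 → InQ b n x y → x < b.X * n := fun hy h =>
            ((InQ_neg hb hn0 hy).1 h).2.1
          rcases h6 with h | ⟨-, h | h | h | h⟩ | ⟨⟨-, -, h | h | h | h⟩, -⟩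
          · exact absurd h hQ
          · have := ltX (by omega) h; omega
          · exact InQ_ru hb hn0 h le_rfl (by omega) (by omega) (by omega)
          · have := ltX (by omega) h; omega
          · have := ltX (by omega) h; omega
          · have := ltX (by omega) h; omega
          · have := ltX (by omega) h; omega
          · exact h
          · exact InQ_ru hb hn0 h le_rfl (by omega) (by omega) (by omega)
        have h6 : Ly1 b n x (y + 1) :=
          ⟨fun h' => by have := ((InQ_neg hb hn0 (by omega)).1 h').2.1; omega, Or.inr (Or.inl h5)⟩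
        refine ⟨mem_LamT.2 (Or.inr (Or.inl h6)), ?_⟩
        rw [hw2 _ _ h6.ly]
        apply bool
        unfold lcol
        rw [if_pos (by omega), if_pos (by omega)]
        exact hc.crl y h3.2
      · -- floor
        have hfr : fr b n (false, i) x (y + 1) := by
          refine ⟨h, by simp only; omega, ?_⟩
          simp only [Bool.false_eq_true, if_false]
          refine ⟨by omega, ?_⟩
          rwa [add_sub_cancel_right]
        refine ⟨mem_LamT.2 (Or.inl h), ?_⟩
        rw [hf _ _ hfr]
        apply bool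
        unfold frc
        simp only [Bool.false_eq_true, if_false]
        rw [add_sub_cancel_right]
        -- the level of `y`
        have h5 : b.H * n ≤ -1 - y := by
          by_contra hcon
          have h6 := (InQ_core hb hn0 (by omega) (by omega)).not.1 hQ
          have h7 : -(b.X : ℤ) * n ≤ x := by omega
          exact h6 ⟨hX, h7⟩
        obtain ⟨j, k1, k2, -⟩ := exists_idx (b := b) (y := y) hn0 h5
        have hij : i < j := by
          by_contra hcon
          apply hQ
          rw [InQ_step hb hn0 k1 k2]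
          refine ⟨by omega, hX, ?_⟩
          have h6 := (Pool.Agent.H71.W.st_le_iff hb (show j < b.K by omega) hi).2 (by omega)
          have : b.st j * n ≤ b.st i * n := mul_le_mul_of_nonneg_right h6 hn0.le
          omega
        have hjK : j ≤ b.K := by
          by_contra hcon
          have h6 := ((InQ_neg hb hn0 (by omega)).1 h).1
          have h7 : Ht b * n ≤ (b.H + j - 1 : ℤ) * n := by
            apply mul_le_mul_of_nonneg_right _ hn0.le
            unfold Ht; omega
          have h8 : (b.H + j - 1 : ℤ) * n = (b.H + j) * n - n := by ring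
          omega
        rw [lcol_low hn0 hX (by omega) hjK k1 k2, lcol_low hn0 hX (by omega) hjK k1 k2]
        exact hc.hi j hij
      · -- left wall of a step
        have hij : i < j := stn hj (by omega)
        have hE : InQ b n (x + 1) y := by
          rw [InQ_step hb hn0 hj2 hj3]
          have h5 := (hb.st_lo j hj).2
          have : b.st j * n < b.X * n := mul_lt_mul_of_pos_right h5 hn0
          exact ⟨hj, by omega, by omega⟩
        have hX1 : x + 1 < b.X * n := ((InQ_neg hb hn0 (by omega)).1 hE).2.1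
        have hE' : InQ b n (x + 1) (y + 1) := InQ_ru hb hn0 hE le_rfl hX1 (by omega) (by omega)
        by_cases h : InQ b n x (y + 1)
        · -- the floor of the step before
          have hfr : fr b n (false, i) x (y + 1) := by
            refine ⟨h, by simp only; omega, ?_⟩
            simp only [Bool.false_eq_true, if_false]
            refine ⟨by omega, ?_⟩
            rwa [add_sub_cancel_right]
          refine ⟨mem_LamT.2 (Or.inl h), ?_⟩
          rw [hf _ _ hfr]
          apply bool
          unfold frc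
          simp only [Bool.false_eq_true, if_false]
          rw [add_sub_cancel_right, lcol_low hn0 hX (by omega) hj.le hj2 hj3,
            lcol_low hn0 hX (by omega) hj.le hj2 hj3]
          exact hc.hi j hij
        · have h6 : Ly1 b n x (y + 1) := ⟨h, Or.inl hE'⟩
          refine ⟨mem_LamT.2 (Or.inr (Or.inl h6)), ?_⟩
          rw [hw2 _ _ h6.ly]
          apply bool
          have h7 : (b.H + j) * n ≤ -1 - (y + 1) := by
            by_contra hcon
            apply h
            have h8 : 0 < j := by omega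
            have h9 : (b.H + (j - 1 : ℕ) : ℤ) * n = (b.H + j) * n - n := by
              rw [Nat.cast_sub (by omega)]; push_cast; ring
            have h10 : (b.H + (j - 1 : ℕ) + 1 : ℤ) * n = (b.H + j) * n := by
              rw [Nat.cast_sub (by omega)]; push_cast; ring
            rw [InQ_step hb hn0 (j := j - 1) (by omega) (by omega)]
            refine ⟨by omega, by omega, ?_⟩
            have h11 := (Pool.Agent.H71.W.st_lt_iff hb (show j - 1 < b.K by omega) hj).2 (by omega)
            have : b.st (j - 1) * n < b.st j * n := mul_lt_mul_of_pos_right h11 hn0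
            omega
          rw [lcol_low hn0 hX (by omega) hj.le hj2 hj3,
            lcol_low hn0 hX (by omega) hj.le h7 (by omega)]
          exact hc.hi j hij
      · -- diagonal tile of a corner without mark
        rw [dgt_floor, Prod.mk.injEq] at hq1
        obtain ⟨hq2, hq3⟩ := hq1
        have hiq : i < q := stn hq (by omega)
        have e1 : ((b.H : ℤ) + q + 1) * n = (b.H + q) * n + n := by ring
        have e2 : ((b.H : ℤ) + (q + 1 : ℕ)) * n = (b.H + q) * n + n := by push_cast; ring
        have e3 : ((b.H : ℤ) + (q + 1 : ℕ) + 1) * n = (b.H + q) * n + n + n := by push_cast; ring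
        have hsq := (hb.st_lo q hq).2
        have hsq' : b.st q * n < b.X * n := mul_lt_mul_of_pos_right hsq hn0
        have hE : InQ b n (x + 1) (y + 1) := by
          rw [InQ_step hb hn0 (j := q) (by omega) (by omega)]
          exact ⟨hq, by omega, by omega⟩
        have h : ¬ InQ b n x (y + 1) := not_InQ_left hb hn0 hq (by omega) (by omega)
        have h6 : Ly1 b n x (y + 1) := ⟨h, Or.inl hE⟩
        refine ⟨mem_LamT.2 (Or.inr (Or.inl h6)), ?_⟩
        rw [hw2 _ _ h6.ly]
        apply bool
        rw [lcol_low (j := q) hn0 (by omega) (by omega) hq.le (by omega) (by omega),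
          lcol_low (j := q + 1) hn0 (by omega) (by omega) (by omega) (by omega) (by omega),
          hc.hi q hiq, hc.cst q hiq hqM]
  · -- stay
    rintro e he h2 h3 h4
    obtain ⟨x, y, rfl⟩ := hlt e he.1
    rw [mem_strD] at h3
    exfalso
    apply h4
    rw [dn_lt, hStr]
    omega
  · -- bot
    rintro e he h2 h3 h4 - h6
    exfalso
    apply h6
    obtain ⟨x, y, rfl⟩ := hlt e he.1
    rw [hStr] at h3
    rw [dn_lt, hStr]
    omega

end Pool.Agent.H87.W
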