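import Mathlib
import Pool.Agent.H87.W.JMove
import Pool.Agent.H45.W.Ends
import Pool.Agent.H73.W.JCut

set_option autoImplicit false
open Finset

/-! # Marks: the alive corner, its image one row up -/

namespace Pool.Agent.H87.W

open Pool.Agent.H33.Q1 Pool.Agent.H6.W Pool.Agent.H50.W Pool.Agent.H61.W
open Pool.Agent.H58.W hiding up
open Pool.Agent.H21.W Pool.Agent.H13.W
open Pool.Agent.Q1.M4 (Cell)

variable {b : JBox} {δ σ : ℝ} {n x y x' y' : ℤ} {M : Finset (Bool × ℕ)}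

/-- the alive corner of a mark: the colour of the wall on the side of the left wall decides -/
def fa (b : JBox) (n : ℤ) (cl : Cl) (c : Bool × ℕ) : ℤ × ℤ :=
  if (if c.1 then cl.u c.2 else cl.l c.2) = true then f1 b n c else f2 b n c

lemma ts_open {Λ D : Set (ℤ × ℤ)} {w : Finset (ℤ × ℤ)} (hΛ : lt (x, y) ∈ Λ) (hD : lt (x, y) ∉ D)
    (hw : lt (x, y) ∈ w) :
    ((x - y) % 2 = 1 → (SG Λ D w).Adj (eW (lt (x, y))) (eS (lt (x, y))) ∧
      (SG Λ D w).Adj (eN (lt (x, y))) (eE (lt (x, y)))) ∧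
    ((x - y) % 2 = 0 → (SG Λ D w).Adj (eW (lt (x, y))) (eN (lt (x, y))) ∧
      (SG Λ D w).Adj (eS (lt (x, y))) (eE (lt (x, y)))) := by
  have h := Pool.Agent.H45.W.tile_state (w := w) hD (lt_odd (x, y))
  constructor
  · intro hp
    obtain ⟨h1, h2⟩ := h.1 (iff_of_true hw hp)
    exact ⟨⟨_, hΛ, h1⟩, ⟨_, hΛ, h2⟩⟩
  · intro hp
    obtain ⟨h1, h2⟩ := h.2 (iff_of_true hw hp)
    exact ⟨⟨_, hΛ, h1⟩, ⟨_, hΛ, h2⟩⟩

lemma ts_closed {Λ D : Set (ℤ × ℤ)} {w : Finset (ℤ × ℤ)} (hΛ : lt (x, y) ∈ Λ) (hD : lt (x, y) ∉ D)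
    (hw : lt (x, y) ∉ w) :
    ((x - y) % 2 = 0 → (SG Λ D w).Adj (eW (lt (x, y))) (eS (lt (x, y))) ∧
      (SG Λ D w).Adj (eN (lt (x, y))) (eE (lt (x, y)))) ∧
    ((x - y) % 2 = 1 → (SG Λ D w).Adj (eW (lt (x, y))) (eN (lt (x, y))) ∧
      (SG Λ D w).Adj (eS (lt (x, y))) (eE (lt (x, y)))) := by
  have h := Pool.Agent.H45.W.tile_state (w := w) hD (lt_odd (x, y))
  constructor
  · intro hp
    obtain ⟨h1, h2⟩ := h.1 (iff_of_false hw (by
      show ¬ (x - y) % 2 = 1
      omega))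
    exact ⟨⟨_, hΛ, h1⟩, ⟨_, hΛ, h2⟩⟩
  · intro hp
    obtain ⟨h1, h2⟩ := h.2 (iff_of_false hw (by
      show ¬ (x - y) % 2 = 0
      omega))
    exact ⟨⟨_, hΛ, h1⟩, ⟨_, hΛ, h2⟩⟩

lemma eE_lt' (x y : ℤ) : eE (lt (x, y)) = eW (lt (x + 1, y)) := by
  unfold eE eW lt
  refine Prod.ext ?_ ?_ <;> simp only <;> ring_nf

lemma eN_lt' (x y : ℤ) : eN (lt (x, y)) = eS (lt (x, y + 1)) := by
  unfold eN eS lt
  refine Prod.ext ?_ ?_ <;> simp only <;> ring

lemma up_eE (e : ℤ × ℤ) : H13.W.up (eE e) = eE (H13.W.up e) := by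
  unfold H13.W.up eE
  refine Prod.ext ?_ ?_ <;> simp only <;> ring

lemma up_eN (e : ℤ × ℤ) : H13.W.up (eN e) = eN (H13.W.up e) := by
  unfold H13.W.up eN
  refine Prod.ext ?_ ?_ <;> simp only <;> ring

/-- **The image of the alive corner of a floor mark right of the moved part is joined to the alive corner in
the second world.** `A` = colour of the riser left of the mark in the FIRST world. -/
theorem mark_up {Λ D : Set (ℤ × ℤ)} {w : Finset (ℤ × ℤ)} {cl cl2 : Cl} {j : ℕ}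
    (hn : n % 2 = 0)
    (ha : lt (b.st j * n - 1, -((b.H + j + 1) * n)) ∈ Λ)
    (ha' : lt (b.st j * n - 1, -((b.H + j + 1) * n)) ∉ D)
    (hb : lt (b.st j * n, -((b.H + j + 1) * n)) ∈ Λ)
    (hb' : lt (b.st j * n, -((b.H + j + 1) * n)) ∉ D)
    (hc : lt (b.st j * n, -((b.H + j + 1) * n) - 1) ∈ Λ)
    (hc' : lt (b.st j * n, -((b.H + j + 1) * n) - 1) ∉ D)
    (wa : lt (b.st j * n - 1, -((b.H + j + 1) * n)) ∈ w ↔ cl2.l j = true)
    (wb : lt (b.st j * n, -((b.H + j + 1) * n)) ∈ w ↔ cl2.l (j + 1) = true)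
    (wc : lt (b.st j * n, -((b.H + j + 1) * n) - 1) ∈ w ↔ cl2.l (j + 1) = true)
    (h1 : cl2.l (j + 1) = !cl2.l j) (h2 : cl2.l j = !cl.l j) :
    (SG Λ D w).Reachable (H13.W.up (fa b n cl (false, j))) (fa b n cl2 (false, j)) := by
  set X := b.st j * n with hX
  set Y := -((b.H + j + 1) * n : ℤ) with hY
  have pX : X % 2 = 0 := by rw [hX, Int.mul_emod, hn]; simp
  have pY : Y % 2 = 0 := by
    have : ((b.H + j + 1 : ℤ) * n) % 2 = 0 := by rw [Int.mul_emod, hn]; simp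
    omega
  have e1 : f1 b n (false, j) = eE (lt (X - 1, Y - 1)) := by
    unfold f1; rw [dgt_floor]
  have e2 : f2 b n (false, j) = eN (lt (X - 1, Y - 1)) := by
    unfold f2; rw [dgt_floor]; rfl
  unfold fa
  simp only [Bool.false_eq_true, if_false]
  cases hA : cl.l j
  · -- riser closed in world 1, open in world 2
    have hA2 : cl2.l j = true := by rw [h2, hA]; rfl
    have hB2 : cl2.l (j + 1) = false := by rw [h1, hA2]; rfl
    rw [if_neg (by decide), if_pos hA2, e1, e2, up_eN, up_lt, sub_add_cancel]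
    have s1 := ((ts_open ha ha' (wa.2 hA2)).1 (by omega)).2
    have s2 := ((ts_closed hb hb' (fun h => by rw [wb, hB2] at h; cases h)).1 (by omega)).1
    have s3 := ((ts_closed hc hc' (fun h => by rw [wc, hB2] at h; cases h)).2 (by omega)).1
    rw [eE_lt', sub_add_cancel] at s1
    rw [eN_lt', sub_add_cancel] at s3
    rw [eE_lt', sub_add_cancel]
    exact s1.reachable.trans (s2.reachable.trans s3.symm.reachable)
  · have hA2 : cl2.l j = false := by rw [h2, hA]; rfl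
    rw [if_pos rfl, if_neg (by rw [hA2]; decide), e1, e2, up_eE, up_lt, sub_add_cancel]
    have s1 := ((ts_closed ha ha' (fun h => by rw [wa, hA2] at h; cases h)).2 (by omega)).2
    rw [eN_lt', sub_add_cancel]
    exact s1.symm.reachable

/-- the thin regions are the same -/
lemma LamT_eq (hb : b.Ok δ σ) (hn : 0 < n) (hM : ∀ c ∈ M, c.2 < b.K) :
    Pool.Agent.H73.W.LamT b n M = LamT b n M := by
  ext e
  constructor
  · rintro ⟨x, y, rfl, ⟨i, j, hi, hj, h⟩, h2⟩
    rw [mem_LamT]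
    by_cases hQ : InQ b n x y
    · exact Or.inl hQ
    · by_cases hL : Ly1 b n x y
      · exact Or.inr (Or.inl hL)
      · refine Or.inr (Or.inr ⟨⟨hQ, hL, ?_⟩, h2⟩)
        rw [abs_le] at hi hj
        have hi' : i = -1 ∨ i = 0 ∨ i = 1 := by omega
        have hj' : j = -1 ∨ j = 0 ∨ j = 1 := by omega
        have hLL := fun g => hL ⟨hQ, g⟩
        rcases hi' with rfl | rfl | rfl <;> rcases hj' with rfl | rfl | rfl <;>
          (try simp only [add_zero, ← sub_eq_add_neg] at h)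
        · exact Or.inr (Or.inr (Or.inr h))
        · exact absurd (Or.inr (Or.inl h)) hLL
        · exact Or.inr (Or.inr (Or.inl h))
        · exact absurd (Or.inr (Or.inr (Or.inr h))) hLL
        · exact absurd h hQ
        · exact absurd (Or.inr (Or.inr (Or.inl h))) hLL
        · exact Or.inr (Or.inl h)
        · exact absurd (Or.inl h) hLL
        · exact Or.inl h
  · rintro ⟨x, y, rfl, h⟩
    refine ⟨x, y, rfl, ?_, ?_⟩
    · have s1 : ∀ a : ℤ, a - 1 = a + (-1) := fun a => by ring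
      rcases h with h | ⟨-, h | h | h | h⟩ | ⟨⟨-, -, h | h | h | h⟩, -⟩
      · exact ⟨0, 0, by norm_num, by norm_num, by rwa [add_zero, add_zero]⟩
      · exact ⟨1, 0, by norm_num, by norm_num, by rwa [add_zero]⟩
      · exact ⟨-1, 0, by norm_num, by norm_num, by rwa [add_zero, ← s1]⟩
      · exact ⟨0, 1, by norm_num, by norm_num, by rwa [add_zero]⟩
      · exact ⟨0, -1, by norm_num, by norm_num, by rwa [add_zero, ← s1]⟩
      · exact ⟨1, 1, by norm_num, by norm_num, h⟩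
      · exact ⟨1, -1, by norm_num, by norm_num, by rwa [← s1]⟩
      · exact ⟨-1, 1, by norm_num, by norm_num, by rwa [← s1]⟩
      · exact ⟨-1, -1, by norm_num, by norm_num, by rwa [← s1, ← s1]⟩
    · intro c hc he
      rcases h with h | h | h
      · exact (dgt_not hb hn (hM c hc) he).1 h
      · exact (dgt_not hb hn (hM c hc) he).2 h
      · exact h.2 c hc he

end Pool.Agent.H87.W
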