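import Mathlib
import Pool.Agent.H87.W.JMark
import Pool.Agent.H82.W.S3
import Pool.Agent.H71.W.J6A

set_option autoImplicit false
open Finset

/-! # (J5) the floor: worlds and bookkeeping of the labels

`WT` : world of the moving end `v` near the floor (thin layer), `WF` : world with the mark at the corner `(false, i)`
and the forced row right of it. `C` = deleted tiles of the slit, `fp` = flipped labels of plates. -/

namespace Pool.Agent.H87.W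

open Pool.Agent.H33.Q1 Pool.Agent.H6.W Pool.Agent.H50.W Pool.Agent.H61.W
open Pool.Agent.H58.W hiding up
open Pool.Agent.H21.W Pool.Agent.H13.W Pool.Agent.H82.W
open Pool.Agent.H19.W (cx cy cx_lt cy_lt mv mv_in mv_out)
open Pool.Agent.Q1.M4 (Cell)

variable {b : JBox} {δ σ : ℝ} {h i : ℕ} {M : Finset (Bool × ℕ)} {v : ℤ × ℤ} {xl xr yt : ℤ}
  {C : Set (ℤ × ℤ)} {fp : Finset (ℤ × ℤ)} {cl cl2 : Cl} {o : Bool} {x y : ℤ}

/-- open labels of the chunk -/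
noncomputable def PP (b : JBox) (h : ℕ) (fp : Finset (ℤ × ℤ)) (o : Bool) : Finset (ℤ × ℤ) :=
  if o then b.Pl h \ fp else b.Pl h ∩ fp

lemma PP_sub : PP b h fp o ⊆ b.Pl h := by
  unfold PP
  split_ifs
  · exact sdiff_subset
  · exact inter_subset_left

open Classical in
/-- open forced labels -/
noncomputable def FO (b : JBox) (h i : ℕ) (cl2 : Cl) : Finset (ℤ × ℤ) :=
  (b.B h).filter fun e => fr b (2 * h) (false, i) (tt e).1 (tt e).2 ∧
    frc b (2 * h) (false, i) cl2 (tt e).1 (tt e).2 = true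

/-- **The world of the moving end**; the slit `C` is cut out. -/
noncomputable def WT (b : JBox) (h : ℕ) (M : Finset (Bool × ℕ)) (cl : Cl) (v : ℤ × ℤ) (C : Set (ℤ × ℤ))
    (fp : Finset (ℤ × ℤ)) (o : Bool) : WD ((ℤ × ℤ) ⊕ ℕ) where
  Λ := LamT b (2 * h) M \ C
  D := lt '' strD v
  E := b.B h \ b.Pl h
  b := bk (2 * h) (chn 0 b.M b.τ)
  F := fp \ b.Pl h
  W := Wl b (2 * h) cl ∪ PP b h fp o

open Classical in
/-- **The world with the mark and the forced row** (thin layer). -/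
noncomputable def WF (b : JBox) (h i : ℕ) (M : Finset (Bool × ℕ)) (cl2 : Cl) (C : Set (ℤ × ℤ))
    (fp : Finset (ℤ × ℤ)) (o : Bool) : WD ((ℤ × ℤ) ⊕ ℕ) where
  Λ := LamT b (2 * h) (insert (false, i) M) \ C
  D := ∅
  E := (b.B h \ b.Pl h).filter fun e => ¬ fr b (2 * h) (false, i) (tt e).1 (tt e).2
  b := bk (2 * h) (chn 0 b.M b.τ)
  F := fp \ b.Pl h
  W := Wl b (2 * h) cl2 ∪ (PP b h fp o ∪ FO b h i cl2)

/-- **Geometry at the floor.** -/
structure FlG (δ σ : ℝ) (b : JBox) (h i : ℕ) (M : Finset (Bool × ℕ)) (v : ℤ × ℤ) (xl xr yt : ℤ)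
    (C : Set (ℤ × ℤ)) (fp : Finset (ℤ × ℤ)) : Prop where
  ok : b.Ok δ σ
  hh : 0 < h
  hi : i < b.K
  hM : ∀ c ∈ M, c.2 < b.K
  hv : InQ b (2 * h) v.1 v.2
  hxl : xl < b.st i * (2 * h)
  hxr : b.st i * (2 * h) ≤ xr
  hxX : -(b.X : ℤ) * (2 * h) ≤ xl
  hxl' : xl < v.1
  hxr' : v.1 ≤ xr
  hyt : v.2 ≤ yt
  hyH : -(b.H * (2 * h) : ℤ) ≤ yt
  hyt0 : yt < 0
  hv1 : v.2 < -1
  hC : ∀ e ∈ C, -1 ≤ cy e
  /-- the plates are above -/
  pl : ∀ x y : ℤ, -(b.X : ℤ) * (2 * h) ≤ x → ∀ k : ℕ,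
    chn 0 b.M b.τ (x / (2 * h : ℤ), y / (2 * h : ℤ)) = some k → yt < y
  fpl : ∀ x y : ℤ, lt (x, y) ∈ fp →
    ∃ k, chn 0 b.M b.τ (x / (2 * h : ℤ), y / (2 * h : ℤ)) = some k
  fpB : fp ⊆ b.B h
  plB : b.Pl h ⊆ b.B h

lemma mem_Pl_lt (hM : 0 < b.M) (hh : 0 < h) {x y : ℤ} : lt (x, y) ∈ b.Pl h ↔
    ∃ k < b.m, chn 0 b.M b.τ (x / (2 * h : ℤ), y / (2 * h : ℤ)) = some k := by
  rw [Pool.Agent.H71.W.mem_Pl hM hh, cx_lt, cy_lt]
  exact ⟨fun h => h.2, fun h => ⟨lt_odd _, h⟩⟩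

lemma of_B (hh : 0 < h) {e : ℤ × ℤ} (he : e ∈ b.B h) : ∃ x y, e = lt (x, y) ∧ InQ b (2 * h) x y := by
  have h1 := (mem_B hh).1 he
  exact ⟨(tt e).1, (tt e).2, (lt_tt h1.1).symm, h1.2⟩

lemma mem_Str0 {v : ℤ × ℤ} {x y : ℤ} : lt (x, y) ∈ Str0 v ↔ v.1 ≤ x ∧ y < v.2 := by
  unfold Str0; rw [Set.mem_ofPred_eq, cx_lt, cy_lt]

lemma mem_Blk0 {xl xr yt x y : ℤ} : lt (x, y) ∈ Blk0 xl xr yt ↔ (xl ≤ x ∧ x ≤ xr) ∧ y ≤ yt := by
  unfold Blk0; rw [Set.mem_ofPred_eq, cx_lt, cy_lt]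

lemma mem_FO (hh : 0 < h) : lt (x, y) ∈ FO b h i cl2 ↔
    fr b (2 * h) (false, i) x y ∧ frc b (2 * h) (false, i) cl2 x y = true := by
  classical
  unfold FO
  rw [mem_filter, tt_lt, mem_B_lt hh]
  exact ⟨fun h => h.2, fun h => ⟨h.1.1, h⟩⟩

lemma mem_Wl {n : ℤ} {cl : Cl} {x y : ℤ} : lt (x, y) ∈ Wl b n cl ↔
    (-(b.X * n) - 3 ≤ x ∧ x ≤ b.X * n + 2) ∧ (-((b.H + b.K) * n) - 3 ≤ y ∧ y ≤ (b.H + b.K) * n + 2) ∧
      ¬ InQ b n x y ∧ lcol b n cl x y = true := by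
  classical
  unfold Wl
  rw [mem_image]
  constructor
  · rintro ⟨t, ht, he⟩
    rw [mem_filter, mem_product, mem_Icc, mem_Icc] at ht
    have := lt_inj he
    subst this
    exact ⟨ht.1.1, ht.1.2, ht.2.1, ht.2.2⟩
  · rintro ⟨h1, h2, h3, h4⟩
    refine ⟨(x, y), ?_, rfl⟩
    rw [mem_filter, mem_product, mem_Icc, mem_Icc]
    exact ⟨⟨h1, h2⟩, h3, h4⟩

lemma notMem_Wl (hQ : InQ b (2 * h) x y) : lt (x, y) ∉ Wl b (2 * h) cl :=
  fun h => (mem_Wl.1 h).2.2.1 hQ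

/-- layer tiles are open iff their colour is open -/
lemma mem_Wl_ly (hb : b.Ok δ σ) {n : ℤ} (hn : 0 < n) (hL : Ly b n x y) :
    lt (x, y) ∈ Wl b n cl ↔ lcol b n cl x y = true := by
  have h1 := Pool.Agent.H71.W.Ly_col hb hn hL
  obtain ⟨h0, k1, k2, -, hk2, hq⟩ := hL
  have h2 : -((b.H + b.K) * n) ≤ y + k2 ∧ y + k2 < (b.H + b.K) * n := by
    unfold InQ at hq
    rw [mem_Q hb] at hq
    have := (Pool.Agent.H71.W.dst_div_lt hn).1 hq.1
    exact this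
  rw [abs_le] at hk2
  rw [mem_Wl]
  exact ⟨fun h => h.2.2.2, fun h => ⟨⟨by linarith [h1.1], by linarith [h1.2]⟩,
    ⟨by linarith [h2.1, hk2.2], by linarith [h2.2, hk2.1]⟩, h0, h⟩⟩

namespace FlG

variable (G : FlG δ σ b h i M v xl xr yt C fp)
include G

lemma n0 : (0 : ℤ) < 2 * h := by have := G.hh; positivity

lemma n1 : (1 : ℤ) < 2 * h := by have := G.hh; omega

lemma vX : v.1 < b.X * (2 * h : ℤ) := by
  have := G.hyt; have := G.hyt0
  exact ((InQ_neg G.ok G.n0 (by omega)).1 G.hv).2.1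

/-- the box is right of the left wall -/
lemma InQ_le (hQ : InQ b (2 * h) x y) : -(b.X : ℤ) * (2 * h) ≤ x := by
  have h1 : -(b.X : ℤ) ≤ x / (2 * h : ℤ) := by
    have h2 : (x / (2 * h : ℤ), y / (2 * h : ℤ)) ∈ b.Q := hQ
    unfold JBox.Q RC at h2
    simp only [mem_union, mem_biUnion, mem_range, mem_product, mem_Ico] at h2
    rcases h2 with h2 | ⟨j, hj, h2⟩
    · exact h2.1.1
    · have := G.ok.st_lo j hj
      rcases h2 with h2 | h2 <;> omega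
  exact (Int.le_ediv_iff_mul_le G.n0).1 h1

lemma not_Pl (hy : y ≤ yt) : lt (x, y) ∉ b.Pl h := by
  intro hP
  have hQ := (mem_B_lt G.hh).1 (G.plB hP)
  rw [mem_Pl_lt G.ok.M0 G.hh] at hP
  obtain ⟨k, -, hk⟩ := hP
  have := G.pl x y (G.InQ_le hQ) k hk
  omega

lemma ct_none (hx : -(b.X : ℤ) * (2 * h) ≤ x) (hy : y ≤ yt) :
    chn 0 b.M b.τ (ct (2 * h : ℤ) (tt (lt (x, y)))) = none := by
  rw [tt_lt]
  rcases hk : chn 0 b.M b.τ (ct (2 * h : ℤ) (x, y)) with _ | k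
  · rfl
  · have := G.pl x y hx k hk
    omega

/-- the forced row is below -/
lemma fr_row (hf : fr b (2 * h) (false, i) x y) : y ≤ yt := by
  obtain ⟨h1, h2, h3⟩ := hf
  simp only [Bool.false_eq_true, if_false] at h2 h3
  have hX : x < b.X * (2 * h : ℤ) := ((InQ_neg G.ok G.n0 h3.1).1 h1).2.1
  by_contra hc
  apply h3.2
  have := G.hyH
  rw [InQ_core G.ok G.n0 (by omega) (by omega)]
  have := G.hxX; have := G.hxl
  exact ⟨hX, by omega⟩

/-- a forced tile right of `v` is not above the row of the string -/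
lemma fr_row' (hf : fr b (2 * h) (false, i) x y) (hx : v.1 ≤ x) : y ≤ v.2 := by
  obtain ⟨h1, h2, h3⟩ := hf
  simp only [Bool.false_eq_true, if_false] at h2 h3
  have hX : x < b.X * (2 * h : ℤ) := ((InQ_neg G.ok G.n0 h3.1).1 h1).2.1
  by_contra hc
  exact h3.2 (InQ_ru G.ok G.n0 G.hv hx hX (by omega) (by omega))

end FlG

open Classical in
/-- outside labels of the world of the moving end -/
noncomputable def OA (b : JBox) (h : ℕ) (v : ℤ × ℤ) (xl xr yt : ℤ) : Finset (ℤ × ℤ) :=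
  (b.B h \ b.Pl h).filter fun e => e ∉ Blk0 xl xr yt ∧ e ∉ lt '' strD v

/-- their images -/
noncomputable def OB (b : JBox) (h : ℕ) (v : ℤ × ℤ) (xl xr yt : ℤ) : Finset (ℤ × ℤ) :=
  (OA b h v xl xr yt).image (mv (Str0 v))

lemma mem_OA {e : ℤ × ℤ} : e ∈ OA b h v xl xr yt ↔
    (e ∈ b.B h ∧ e ∉ b.Pl h) ∧ e ∉ Blk0 xl xr yt ∧ e ∉ lt '' strD v := by
  classical
  unfold OA
  rw [mem_filter, mem_sdiff]

lemma mem_OA_lt (hh : 0 < h) : lt (x, y) ∈ OA b h v xl xr yt ↔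
    (InQ b (2 * h) x y ∧ lt (x, y) ∉ b.Pl h) ∧ ¬ ((xl ≤ x ∧ x ≤ xr) ∧ y ≤ yt) ∧
      ¬ (y = v.2 ∧ v.1 ≤ x) := by
  rw [mem_OA, mem_B_lt hh, mem_Blk0, mem_strD]

lemma mem_WFE (hh : 0 < h) : lt (x, y) ∈ (WF b h i M cl2 C fp o).E ↔
    (InQ b (2 * h) x y ∧ lt (x, y) ∉ b.Pl h) ∧ ¬ fr b (2 * h) (false, i) x y := by
  classical
  show lt (x, y) ∈ (b.B h \ b.Pl h).filter _ ↔ _
  rw [mem_filter, mem_sdiff, mem_B_lt hh, tt_lt]

namespace FlG

variable (G : FlG δ σ b h i M v xl xr yt C fp)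
include G

/-- the image of an outside label is a natural label of the second world -/
lemma mv_mem (hl : lt (x, y) ∈ OA b h v xl xr yt) :
    mv (Str0 v) (lt (x, y)) ∈ (WF b h i M cl2 C fp o).E := by
  have h1 := (mem_OA_lt G.hh).1 hl
  have e1 := G.hyt; have e2 := G.hyt0; have e3 := G.hxr'; have e4 := G.hxl'
  by_cases hS : lt (x, y) ∈ Str0 v
  · rw [mv_in hS, up_lt, mem_WFE G.hh]
    rw [mem_Str0] at hS
    have hX : x < b.X * (2 * h : ℤ) := ((InQ_neg G.ok G.n0 (by omega)).1 h1.1.1).2.1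
    refine ⟨⟨InQ_ru G.ok G.n0 h1.1.1 le_rfl hX (by omega) (by omega), G.not_Pl (by omega)⟩, ?_⟩
    intro hf
    have := hf.2.2
    simp only [Bool.false_eq_true, if_false, add_sub_cancel_right] at this
    exact this.2 h1.1.1
  · rw [mv_out hS, mem_WFE G.hh]
    refine ⟨h1.1, fun hf => ?_⟩
    rw [mem_Str0] at hS
    have h2 := G.fr_row hf
    by_cases hx : v.1 ≤ x
    · have := G.fr_row' hf hx
      omega
    · have h3 : b.st i * (2 * h) ≤ x := hf.2.1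
      have := G.hxl
      omega

/-- all natural labels of the second world away from the block are images -/
lemma mem_OB (hl : lt (x, y) ∈ (WF b h i M cl2 C fp o).E) (hx : x < xl ∨ xr < x ∨ yt < y) :
    lt (x, y) ∈ OB b h v xl xr yt := by
  rw [mem_WFE G.hh] at hl
  have e1 := G.hyt; have e2 := G.hyt0; have e3 := G.hxr'; have e4 := G.hxl'
  unfold OB
  rw [mem_image]
  by_cases h1 : v.1 ≤ x ∧ y ≤ v.2
  · have h2 : InQ b (2 * h) x (y - 1) := by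
      by_contra hc
      refine hl.2 ⟨hl.1.1, ?_, ?_⟩
      · show b.st i * (2 * h) ≤ x
        have := G.hxr
        omega
      · simp only [Bool.false_eq_true, if_false]
        exact ⟨by omega, hc⟩
    refine ⟨lt (x, y - 1), (mem_OA_lt G.hh).2 ⟨⟨h2, G.not_Pl (by omega)⟩, by omega, by omega⟩, ?_⟩
    rw [mv_in (mem_Str0.2 ⟨h1.1, by omega⟩), up_lt, sub_add_cancel]
  · refine ⟨lt (x, y), (mem_OA_lt G.hh).2 ⟨hl.1, by omega, by omega⟩, ?_⟩
    rw [mv_out (by rw [mem_Str0]; omega)]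

/-- the plate of an outside label and of its image -/
lemma mv_plate (hO : lt (x, y) ∈ OA b h v xl xr yt) :
    (lt (x, y) ∈ Str0 v → chn 0 b.M b.τ (ct (2 * h : ℤ) (tt (mv (Str0 v) (lt (x, y))))) = none ∧
      chn 0 b.M b.τ (ct (2 * h : ℤ) (tt (lt (x, y)))) = none) ∧
    (lt (x, y) ∉ Str0 v → mv (Str0 v) (lt (x, y)) = lt (x, y)) := by
  have e1 := G.hyt
  refine ⟨fun hS => ?_, fun hS => mv_out hS⟩
  rw [mv_in hS, up_lt]
  rw [mem_Str0] at hS
  have hx := G.InQ_le ((mem_OA_lt G.hh).1 hO).1.1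
  exact ⟨G.ct_none hx (by omega), G.ct_none hx (by omega)⟩

lemma mv_injOn {e e' : ℤ × ℤ} (he : e ∈ OA b h v xl xr yt) (he' : e' ∈ OA b h v xl xr yt)
    (hm : mv (Str0 v) e = mv (Str0 v) e') : e = e' := by
  obtain ⟨x, y, rfl, -⟩ := of_B G.hh (mem_OA.1 he).1.1
  obtain ⟨x', y', rfl, -⟩ := of_B G.hh (mem_OA.1 he').1.1
  rw [mem_OA_lt G.hh] at he he'
  have e1 := G.hyt; have e3 := G.hxr'; have e4 := G.hxl'
  by_cases hS : lt (x, y) ∈ Str0 v <;> by_cases hS' : lt (x', y') ∈ Str0 v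
  · rw [mv_in hS, mv_in hS', up_lt, up_lt] at hm
    have := lt_inj hm
    simp only [Prod.mk.injEq] at this
    obtain ⟨rfl, h2⟩ := this
    rw [show y = y' by omega]
  · rw [mv_in hS, mv_out hS', up_lt] at hm
    have := lt_inj hm
    simp only [Prod.mk.injEq] at this
    obtain ⟨rfl, rfl⟩ := this
    rw [mem_Str0] at hS hS'
    omega
  · rw [mv_out hS, mv_in hS', up_lt] at hm
    have := lt_inj hm
    simp only [Prod.mk.injEq] at this
    obtain ⟨rfl, rfl⟩ := this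
    rw [mem_Str0] at hS hS'
    omega
  · rwa [mv_out hS, mv_out hS'] at hm

/-- flipped labels are not in the strip -/
lemma fp_row (hf : lt (x, y) ∈ fp) : yt < y := by
  obtain ⟨k, hk⟩ := G.fpl x y hf
  exact G.pl x y (G.InQ_le ((mem_B_lt G.hh).1 (G.fpB hf))) k hk

open Classical in
/-- **Bookkeeping of the labels.** -/
theorem lm : LMove (WT b h M cl v C fp o) (WF b h i M cl2 C fp o) (mv (Str0 v)) (Str0 v)
    (OA b h v xl xr yt) (OB b h v xl xr yt) := by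
  have e1 := G.hyt
  constructor
  · intro e he
    exact mem_sdiff.2 (mem_OA.1 he).1
  · intro e he
    unfold OB at he
    rw [mem_image] at he
    obtain ⟨e', he', rfl⟩ := he
    obtain ⟨x, y, rfl, -⟩ := of_B G.hh (mem_OA.1 he').1.1
    exact G.mv_mem he'
  · rfl
  · intro e he e' he' hm
    exact G.mv_injOn he he' hm
  · intro e he e' he'
    show bk (2 * h) (chn 0 b.M b.τ) e = bk (2 * h) (chn 0 b.M b.τ) e' ↔
      bk (2 * h) (chn 0 b.M b.τ) _ = bk (2 * h) (chn 0 b.M b.τ) _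
    have hinj : mv (Str0 v) e = mv (Str0 v) e' ↔ e = e' :=
      ⟨fun h => G.mv_injOn he he' h, fun h => by rw [h]⟩
    rw [bk_eq_iff, bk_eq_iff, hinj]
    obtain ⟨x, y, rfl, -⟩ := of_B G.hh (mem_OA.1 he).1.1
    obtain ⟨x', y', rfl, -⟩ := of_B G.hh (mem_OA.1 he').1.1
    have k1 := G.mv_plate he
    have k2 := G.mv_plate he'
    by_cases hS : lt (x, y) ∈ Str0 v <;> by_cases hS' : lt (x', y') ∈ Str0 v
    · rw [(k1.1 hS).1, (k1.1 hS).2, (k2.1 hS').1, (k2.1 hS').2]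
    · rw [(k1.1 hS).1, (k1.1 hS).2, k2.2 hS']
    · rw [k1.2 hS, (k2.1 hS').1, (k2.1 hS').2]
    · rw [k1.2 hS, k2.2 hS']
  · intro e he e' he' hb hf
    obtain ⟨x, y, rfl, -⟩ := of_B G.hh (mem_OA.1 he).1.1
    have hb' : bk (2 * h) (chn 0 b.M b.τ) (lt (x, y)) = bk (2 * h) (chn 0 b.M b.τ) e' := hb
    rw [bk_eq_iff] at hb'
    rcases hb' with hb' | ⟨hb', -⟩
    · rw [← hb']; exact hf
    · -- a plate label is not flipped
      exfalso
      unfold fl at hf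
      rw [mem_filter] at hf
      have hS : lt (x, y) ∉ Str0 v := fun hS => hb' (G.mv_plate he |>.1 hS).2
      have hf2 := hf.2
      rw [mv_out hS] at hf2
      have : (lt (x, y) ∈ (WT b h M cl v C fp o).F) = (lt (x, y) ∈ (WF b h i M cl2 C fp o).F) := rfl
      rw [this] at hf2
      simp only [Xor, hS] at hf2
      tauto
  · intro e he hW
    obtain ⟨x, y, rfl, hQ⟩ := of_B G.hh (mem_OA.1 he).1.1
    have hW' : lt (x, y) ∈ Wl b (2 * h) cl ∪ PP b h fp o := hW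
    rw [mem_union] at hW'
    rcases hW' with h1 | h1
    · exact notMem_Wl hQ h1
    · exact (mem_OA.1 he).1.2 (PP_sub h1)
  · intro e he hW
    unfold OB at he
    rw [mem_image] at he
    obtain ⟨e', he', rfl⟩ := he
    obtain ⟨x', y', rfl, -⟩ := of_B G.hh (mem_OA.1 he').1.1
    have h2 := G.mv_mem (cl2 := cl2) (o := o) he'
    have h3 : mv (Str0 v) (lt (x', y')) ∈ b.B h := by
      have h2' : mv (Str0 v) (lt (x', y')) ∈ (b.B h \ b.Pl h).filter _ := h2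
      exact (mem_sdiff.1 (mem_filter.1 h2').1).1
    obtain ⟨x, y, hxy, hQ⟩ := of_B G.hh h3
    rw [hxy] at h2 hW
    rw [mem_WFE G.hh] at h2
    have hW' : lt (x, y) ∈ Wl b (2 * h) cl2 ∪ (PP b h fp o ∪ FO b h i cl2) := hW
    rw [mem_union, mem_union] at hW'
    rcases hW' with h1 | h1 | h1
    · exact notMem_Wl hQ h1
    · exact h2.1.2 (PP_sub h1)
    · exact h2.2 ((mem_FO G.hh).1 h1).1

/-- states of the labels of the box in the world of the moving end -/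
lemma stP {ω1 ω2 : Finset (ℤ × ℤ)} (h1 : ω1 ⊆ (WT b h M cl v C fp o).E)
    (h2 : ω2 ⊆ (WF b h i M cl2 C fp o).E) (hP : lt (x, y) ∈ b.Pl h) :
    lt (x, y) ∈ (WF b h i M cl2 C fp o).st ω2 ↔ lt (x, y) ∈ (WT b h M cl v C fp o).st ω1 := by
  classical
  have hyt : yt < y := by
    by_contra hc
    exact G.not_Pl (x := x) (y := y) (by omega) hP
  have hB : lt (x, y) ∈ b.B h := G.plB hP
  have a1 : lt (x, y) ∉ ω1 := fun g => (mem_sdiff.1 (h1 g)).2 hP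
  have a2 : lt (x, y) ∉ (WT b h M cl v C fp o).F := fun g => (mem_sdiff.1 g).2 hP
  have b1 : lt (x, y) ∉ ω2 := fun g => ((mem_WFE G.hh).1 (h2 g)).1.2 hP
  have b2 : lt (x, y) ∉ (WF b h i M cl2 C fp o).F := fun g => (mem_sdiff.1 g).2 hP
  rw [WD.mem_st' a1 a2, WD.mem_st' b1 b2]
  have hQ := (mem_B_lt G.hh).1 hB
  show lt (x, y) ∈ Wl b (2 * h) cl2 ∪ (PP b h fp o ∪ FO b h i cl2) ↔ lt (x, y) ∈ Wl b (2 * h) cl ∪ PP b h fp o
  rw [mem_union, mem_union, mem_union]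
  have c1 : lt (x, y) ∉ FO b h i cl2 := fun g => by
    have := G.fr_row ((mem_FO G.hh).1 g).1
    omega
  have c2 : lt (x, y) ∉ Wl b (2 * h) cl := notMem_Wl hQ
  have c3 : lt (x, y) ∉ Wl b (2 * h) cl2 := notMem_Wl hQ
  tauto

/-- **The strip move.** -/
theorem move (hc : ClRel i v.2 M cl cl2) {ω1 ω2 : Finset (ℤ × ℤ)}
    (hC : Cor (WT b h M cl v C fp o) (WF b h i M cl2 C fp o) (mv (Str0 v)) (Str0 v)
      (OA b h v xl xr yt) (OB b h v xl xr yt) ω1 ω2) :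
    StripMove (WT b h M cl v C fp o).Λ (WF b h i M cl2 C fp o).Λ (WT b h M cl v C fp o).D
      (WF b h i M cl2 C fp o).D ((WT b h M cl v C fp o).st ω1) ((WF b h i M cl2 C fp o).st ω2)
      (Blk0 xl xr yt) (Str0 v) := by
  have e1 := G.hyt; have e2 := G.hyt0; have e3 := G.hxr'; have e4 := G.hxl'
  have key := fun {l : ℤ × ℤ} (hl : l ∈ OA b h v xl xr yt) =>
    (G.lm (cl := cl) (cl2 := cl2) (o := o)).state hC hl
  refine floor_move G.ok G.n1 G.hi G.hM G.hv G.hxl G.hxr G.hxX G.hxl' G.hxr' G.hyt G.hyH G.hyt0 G.hv1 hc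
    G.hC ?_ ?_ ?_ ?_ ?_
  · intro x y hQ hx hy
    have hO : lt (x, y) ∈ OA b h v xl xr yt :=
      (mem_OA_lt G.hh).2 ⟨⟨hQ, G.not_Pl (by omega)⟩, by omega, by omega⟩
    have hS : lt (x, y) ∈ Str0 v := mem_Str0.2 ⟨by omega, hy⟩
    have := key hO
    rw [mv_in hS, up_lt] at this
    rw [this]
    simp [hS, Xor]
  · intro x y hQ hB hx _
    have hS : lt (x, y) ∉ Str0 v := by
      rw [mem_Blk0] at hB
      rw [mem_Str0]
      omega
    by_cases hP : lt (x, y) ∈ b.Pl h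
    · exact G.stP hC.1 hC.2.1 hP
    · have hO : lt (x, y) ∈ OA b h v xl xr yt := by
        rw [mem_Blk0] at hB
        exact (mem_OA_lt G.hh).2 ⟨⟨hQ, hP⟩, hB, by omega⟩
      have := key hO
      rw [mv_out hS] at this
      rw [this]
      simp [hS, Xor]
  · intro x y hL hQ
    have a0 : lt (x, y) ∉ b.B h := fun g => hQ ((mem_B_lt G.hh).1 g)
    have a1 : lt (x, y) ∉ ω1 := fun g => a0 (mem_sdiff.1 (hC.1 g)).1
    have a2 : lt (x, y) ∉ (WT b h M cl v C fp o).F := fun g => a0 (G.fpB (mem_sdiff.1 g).1)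
    have a3 : Ly b (2 * h) x y := by
      rcases mem_LamT.1 hL with h | h | h
      · exact absurd h hQ
      · exact h.ly
      · exact h.1.ly
    rw [WD.mem_st' a1 a2, ← mem_Wl_ly G.ok G.n0 a3]
    show lt (x, y) ∈ Wl b (2 * h) cl ∪ PP b h fp o ↔ _
    rw [mem_union, or_iff_left fun g => a0 (G.plB (PP_sub g))]
  · intro x y hL
    have a0 : lt (x, y) ∉ b.B h := fun g => hL.1 ((mem_B_lt G.hh).1 g)
    have a1 : lt (x, y) ∉ ω2 := fun g => hL.1 ((mem_WFE G.hh).1 (hC.2.1 g)).1.1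
    have a2 : lt (x, y) ∉ (WF b h i M cl2 C fp o).F := fun g => a0 (G.fpB (mem_sdiff.1 g).1)
    rw [WD.mem_st' a1 a2, ← mem_Wl_ly G.ok G.n0 hL]
    show lt (x, y) ∈ Wl b (2 * h) cl2 ∪ (PP b h fp o ∪ FO b h i cl2) ↔ _
    rw [mem_union, or_iff_left]
    intro g
    rcases mem_union.1 g with g | g
    · exact a0 (G.plB (PP_sub g))
    · exact hL.1 ((mem_FO G.hh).1 g).1.1
  · intro x y hf
    have hQ := hf.1
    have hy := G.fr_row hf
    have a1 : lt (x, y) ∉ ω2 := fun g => ((mem_WFE G.hh).1 (hC.2.1 g)).2 hf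
    have a2 : lt (x, y) ∉ (WF b h i M cl2 C fp o).F := fun g => by
      have := G.fp_row (mem_sdiff.1 g).1
      omega
    rw [WD.mem_st' a1 a2]
    show lt (x, y) ∈ Wl b (2 * h) cl2 ∪ (PP b h fp o ∪ FO b h i cl2) ↔ _
    rw [mem_union, or_iff_right (notMem_Wl hQ), mem_union,
      or_iff_right (fun g => G.not_Pl hy (PP_sub g)), mem_FO G.hh]
    exact ⟨fun g => g.2, fun g => ⟨hf, g⟩⟩

/-- **The simulation.** -/
theorem simu (hc : ClRel i v.2 M cl cl2) {ω1 ω2 : Finset (ℤ × ℤ)}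
    (hC : Cor (WT b h M cl v C fp o) (WF b h i M cl2 C fp o) (mv (Str0 v)) (Str0 v)
      (OA b h v xl xr yt) (OB b h v xl xr yt) ω1 ω2) :
    Simu ((WT b h M cl v C fp o).G ω1) (SG ((WT b h M cl v C fp o).Λ \ Blk0 xl xr yt)
      (WT b h M cl v C fp o).D ((WT b h M cl v C fp o).st ω1)) (KB (Blk0 xl xr yt))
      ((WF b h i M cl2 C fp o).G ω2)
      (SR (WT b h M cl v C fp o).Λ (WT b h M cl v C fp o).D (Blk0 xl xr yt) (Str0 v)) :=
  (G.move hc hC).simu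

end FlG

end Pool.Agent.H87.W
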