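import Mathlib
import Pool.Agent.H87.W.JLab
import Pool.Agent.H70.W.WallDual

set_option autoImplicit false
set_option linter.unusedSectionVars false
open Finset

/-! # (J5) the floor: the block with one exit

Centre `zf` = the corner `(false, i)` moved down to the lowest level of the floor. The room near the floor is a `PRm` of
70 (flat wall, notches of height `K n`), the outer layer has the two colours of the mark `(false, i)`. -/

namespace Pool.Agent.H87.W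

open Pool.Agent.H33.Q1 Pool.Agent.H6.W Pool.Agent.H50.W Pool.Agent.H61.W
open Pool.Agent.H58.W hiding up
open Pool.Agent.H21.W Pool.Agent.H13.W Pool.Agent.H82.W Pool.Agent.H70.W
open Pool.Agent.H99.NC (BR)
open Pool.Agent.H19.W (cx cy cx_lt cy_lt mv mv_in mv_out)
open Pool.Agent.Q1.M4 (Cell)

variable {b : JBox} {δ σ : ℝ} {h i : ℕ} {M : Finset (Bool × ℕ)} {v : ℤ × ℤ} {xl xr yt : ℤ}
  {C : Set (ℤ × ℤ)} {fp : Finset (ℤ × ℤ)} {cl cl2 : Cl} {o : Bool} {x y B ρ R : ℤ}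

/-- the centre of the block -/
def zf (b : JBox) (h i : ℕ) : ℤ × ℤ := (h * (b.st i + (b.H + b.K)), h * (b.st i - (b.H + b.K)))

/-- **Geometry of the ball of radius `B` (labels) round the floor corner.** -/
structure BlG (δ σ : ℝ) (b : JBox) (h i : ℕ) (M : Finset (Bool × ℕ)) (C : Set (ℤ × ℤ)) (B : ℤ) : Prop where
  ok : b.Ok δ σ
  hh : 2 ≤ h
  hi : i < b.K
  hC : ∀ e ∈ C, -1 ≤ cy e
  left : -(b.X : ℤ) * (2 * h) + (2 * B + 4) ≤ b.st i * (2 * h)
  right : b.st i * (2 * h) + (2 * B + 4) ≤ b.X * (2 * h)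
  top : -((b.H + b.K) * (2 * h) : ℤ) + (2 * B + 4) ≤ -8
  pl : ∀ x y : ℤ, -(b.X : ℤ) * (2 * h) ≤ x → ∀ k : ℕ,
    chn 0 b.M b.τ (x / (2 * h : ℤ), y / (2 * h : ℤ)) = some k →
    -((b.H + b.K) * (2 * h) : ℤ) + (2 * B + 4) < y
  /-- the other floor marks are far -/
  mkf : ∀ q, (false, q) ∈ M → (b.st q * (2 * h) + (2 * B + 8) < b.st i * (2 * h) ∨
    b.st i * (2 * h) + (2 * B + 8) < b.st q * (2 * h))
  hM : ∀ c ∈ M, c.2 < b.K

lemma mem_BR_lt {z : ℤ × ℤ} {B x y : ℤ} : lt (x, y) ∈ BR z B ↔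
    (2 * (z.1 - B) ≤ x - y ∧ x - y ≤ 2 * (z.1 + B)) ∧
      (2 * (z.2 - B) ≤ x + y + 1 ∧ x + y + 1 ≤ 2 * (z.2 + B)) := by
  rw [Pool.Agent.H70.W.mem_BR]
  have := lt_odd (x, y)
  unfold lt at this ⊢
  simp only at this ⊢
  constructor
  · exact fun h => ⟨h.1, h.2.1⟩
  · exact fun h => ⟨h.1, h.2, this⟩

lemma zf_sum : (zf b h i).1 + (zf b h i).2 = b.st i * (2 * h) := by
  unfold zf; simp only; ring

lemma zf_dif : (zf b h i).2 - (zf b h i).1 = -((b.H + b.K) * (2 * h) : ℤ) := by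
  unfold zf; simp only; ring

/-- every label with a tile -/
lemma of_odd {e : ℤ × ℤ} (h : (e.1 + e.2) % 2 = 1) : ∃ x y, e = lt (x, y) :=
  ⟨(tt e).1, (tt e).2, (lt_tt h).symm⟩

lemma chV1_G (x y : ℤ) : ((chV 1).G (lt (x, y))).1 = x + y + 1 ∧ ((chV 1).G (lt (x, y))).2 = x - y := by
  have := chV_G (Or.inl rfl : (1 : ℤ) = 1 ∨ (1 : ℤ) = -1) (lt (x, y))
  rw [this.1, this.2]
  unfold lt
  simp only
  exact ⟨by ring, trivial⟩

lemma chV1_g (z : ℤ × ℤ) : ((chV 1).g z).1 = z.2 ∧ ((chV 1).g z).2 = z.1 := by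
  have := chV_g (Or.inl rfl : (1 : ℤ) = 1 ∨ (1 : ℤ) = -1) z
  rw [this.1, this.2]
  constructor <;> ring

/-- lowest row of the box -/
lemma InQ_lo (hb : b.Ok δ σ) {n : ℤ} (hn : 0 < n) (hQ : InQ b n x y) : -((b.H + b.K) * n : ℤ) ≤ y := by
  unfold InQ at hQ
  rw [mem_Q hb] at hQ
  exact ((Pool.Agent.H71.W.dst_div_lt hn).1 hQ.1).1

namespace BlG

variable (G : BlG δ σ b h i M C B)
include G

lemma h0 : 0 < h := by have := G.hh; omega

lemma n0 : (0 : ℤ) < 2 * h := by have := G.h0; positivity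

/-- position in the ball -/
lemma pos (hB : lt (x, y) ∈ BR (zf b h i) B) :
    b.st i * (2 * h) - 2 * B - 1 ≤ x ∧ x ≤ b.st i * (2 * h) + 2 * B ∧
      y ≤ -((b.H + b.K) * (2 * h) : ℤ) + 2 * B ∧ y < 0 ∧ -(b.X : ℤ) * (2 * h) + 3 ≤ x ∧
      x + 4 ≤ b.X * (2 * h) := by
  rw [mem_BR_lt] at hB
  have h1 := zf_sum (b := b) (h := h) (i := i)
  have h2 := zf_dif (b := b) (h := h) (i := i)
  have h3 := G.left; have h4 := G.right; have h5 := G.top
  have a1 : x ≤ b.st i * (2 * h) + 2 * B := by omega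
  have a2 : b.st i * (2 * h) - 2 * B - 1 ≤ x := by omega
  have a3 : y ≤ -((b.H + b.K) * (2 * h) : ℤ) + 2 * B := by omega
  exact ⟨a2, a1, a3, by omega, by omega, by omega⟩

/-- **The room near the floor.** -/
theorem prm : PRm (chV 1) (b.B h) (zf b h i) 1 (-1) B (b.K * (2 * h)) := by
  have h1 := zf_sum (b := b) (h := h) (i := i)
  have h2 := zf_dif (b := b) (h := h) (i := i)
  have hH : (0 : ℤ) ≤ b.H * (2 * h : ℤ) := by positivity
  have e1 : ((b.H : ℤ) + b.K) * (2 * h : ℤ) = b.H * (2 * h) + b.K * (2 * h) := by ring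
  refine ⟨fun l hl => ((mem_B G.h0).1 hl).1, ?_, ?_, ?_, ?_⟩
  · intro l hl hB h0
    obtain ⟨x, y, rfl, hQ⟩ := of_B G.h0 hl
    rw [(chV1_G x y).1, (chV1_G x y).2, (chV1_g _).1, (chV1_g _).2] at *
    have := InQ_lo G.ok G.n0 hQ
    omega
  · intro l hl hB h0
    obtain ⟨x, y, rfl, hQ⟩ := of_B G.h0 hl
    rw [(chV1_G x y).1, (chV1_G x y).2, (chV1_g _).1, (chV1_g _).2] at *
    have := InQ_lo G.ok G.n0 hQ
    omega
  · intro l hB k1 k2
    obtain ⟨x, y, rfl⟩ := of_odd (Pool.Agent.H70.W.mem_BR.1 hB).2.2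
    have hp := G.pos hB
    rw [(chV1_G x y).1, (chV1_G x y).2, (chV1_g _).1, (chV1_g _).2] at *
    rw [mem_B_lt G.h0, InQ_core G.ok G.n0 hp.2.2.2.1]
    · omega
    · rcases le_total 0 (x - y - 2 * (zf b h i).1) with h | h
      · have := k1 h; omega
      · have := k2 h; omega
  · intro l hl l' hB' hB hd
    obtain ⟨x, y, rfl, hQ⟩ := of_B G.h0 hl
    obtain ⟨x', y', rfl⟩ := of_odd (Pool.Agent.H70.W.mem_BR.1 hB').2.2
    have hp := G.pos hB'
    rw [(chV1_G x y).1, (chV1_G x y).2, (chV1_G x' y').1, (chV1_G x' y').2, abs_le] at hd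
    rw [mem_B_lt G.h0]
    exact InQ_ru G.ok G.n0 hQ (by omega) (by omega) (by omega) hp.2.2.2.1

/-- a layer tile in the ball -/
lemma ly_pos (hb : lt (x, y) ∈ BR (zf b h i) B) (hQ : ¬ InQ b (2 * h) x y) : y < -(b.H * (2 * h) : ℤ) := by
  have hp := G.pos hb
  by_contra hc
  apply hQ
  rw [InQ_core G.ok G.n0 hp.2.2.2.1 (by omega)]
  omega

/-- colour of a layer tile in the ball: index of the piece of the floor -/
lemma ly_idx (hb : lt (x, y) ∈ BR (zf b h i) B) (hL : Ly b (2 * h) x y) (cl2 : Cl) :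
    ∃ j ≤ b.K, lcol b (2 * h) cl2 x y = cl2.l j ∧
      (∀ q < b.K, b.st q * (2 * h) ≤ x → q < j) ∧ (∀ q < b.K, x + 3 < b.st q * (2 * h) → j ≤ q) := by
  have hp := G.pos hb
  have hy := G.ly_pos hb hL.1
  obtain ⟨j0, k1, k2, -⟩ := exists_idx (b := b) (y := y) G.n0 (by omega)
  have hX : x < b.X * (2 * h : ℤ) := by omega
  have hn2 : (3 : ℤ) < 2 * h := by have := G.hh; omega
  -- the row of a tile of the box near it
  obtain ⟨hQ, a, c, ha, hc, hac⟩ := hL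
  rw [abs_le] at ha hc
  have hlo := InQ_lo G.ok G.n0 hac
  have hj : j0 ≤ b.K := by
    by_contra hcon
    have h1 : ((b.H : ℤ) + b.K + 1) * (2 * h) ≤ (b.H + j0) * (2 * h) :=
      mul_le_mul_of_nonneg_right (by omega) G.n0.le
    have h2 : ((b.H : ℤ) + b.K + 1) * (2 * h) = (b.H + b.K) * (2 * h) + 2 * h := by ring
    omega
  refine ⟨j0, hj, lcol_low G.n0 hX hp.2.2.2.1 hj k1 k2, ?_, ?_⟩
  · intro q hq hx
    by_contra hcon
    apply hQ
    rw [InQ_step G.ok G.n0 k1 k2]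
    refine ⟨by omega, hX, ?_⟩
    have h6 := (Pool.Agent.H71.W.st_le_iff G.ok (show j0 < b.K by omega) hq).2 (by omega)
    have : b.st j0 * (2 * h : ℤ) ≤ b.st q * (2 * h) := mul_le_mul_of_nonneg_right h6 G.n0.le
    omega
  · intro q hq hx
    by_contra hcon
    have h1 : ((b.H : ℤ) + q + 1) * (2 * h) ≤ (b.H + j0) * (2 * h) :=
      mul_le_mul_of_nonneg_right (by omega) G.n0.le
    have h2 : ((b.H : ℤ) + q + 1) * (2 * h) = (b.H + q) * (2 * h) + 2 * h := by ring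
    exact not_InQ_left G.ok G.n0 hq (by omega) (by omega) hac

end BlG

/-- **The colours near the mark `(false, i)`** : right of it `R`, left of it `L` up to the next floor marks. -/
structure ClF (b : JBox) (i : ℕ) (M : Finset (Bool × ℕ)) (cl2 : Cl) : Prop where
  step : ∀ q, q < b.K → q ≠ i → (false, q) ∉ M → cl2.l (q + 1) = cl2.l q
  jump : cl2.l (i + 1) = !cl2.l i

namespace ClF

variable (F : ClF b i M cl2)
include F

lemma right {j : ℕ} (h1 : i < j) (h2 : j ≤ b.K) (h3 : ∀ q, i < q → q < j → (false, q) ∉ M) :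
    cl2.l j = cl2.l (i + 1) := by
  induction j with
  | zero => omega
  | succ j ih =>
    rcases Nat.lt_or_ge i j with h | h
    · rw [F.step j (by omega) (by omega) (h3 j h (by omega))]
      exact ih h (by omega) fun q h4 h5 => h3 q h4 (by omega)
    · rw [show j = i by omega]

lemma left {j : ℕ} (h1 : j ≤ i) (hi : i < b.K) (h3 : ∀ q, j ≤ q → q < i → (false, q) ∉ M) :
    cl2.l j = cl2.l i := by
  induction h : i - j generalizing j with
  | zero => rw [show j = i by omega]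
  | succ k ih =>
    rw [← F.step j (by omega) (by omega) (h3 j le_rfl (by omega))]
    exact ih (by omega) (fun q h4 h5 => h3 q (by omega) h5) (by omega)

end ClF

namespace BlG

variable (G : BlG δ σ b h i M C B)
include G

/-- colour of a layer tile right of the corner -/
lemma col_right (F : ClF b i M cl2) (hb : lt (x, y) ∈ BR (zf b h i) B) (hL : Ly b (2 * h) x y)
    (hx : b.st i * (2 * h) ≤ x) : lcol b (2 * h) cl2 x y = cl2.l (i + 1) := by
  obtain ⟨j, hj, e, k1, k2⟩ := G.ly_idx hb hL cl2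
  have hp := G.pos hb
  rw [e]
  refine F.right (k1 i G.hi hx) hj fun q hq1 hq2 hq => ?_
  have hqK := G.hM _ hq
  have h1 := (Pool.Agent.H71.W.st_lt_iff G.ok G.hi hqK).2 hq1
  have h2 : b.st i * (2 * h : ℤ) < b.st q * (2 * h) := mul_lt_mul_of_pos_right h1 G.n0
  rcases G.mkf q hq with h | h
  · omega
  · have := k2 q hqK (by omega)
    omega

/-- colour of a layer tile left of the corner -/
lemma col_left (F : ClF b i M cl2) (hb : lt (x, y) ∈ BR (zf b h i) B) (hL : Ly b (2 * h) x y)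
    (hx : x + 3 < b.st i * (2 * h)) : lcol b (2 * h) cl2 x y = cl2.l i := by
  obtain ⟨j, hj, e, k1, k2⟩ := G.ly_idx hb hL cl2
  have hp := G.pos hb
  rw [e]
  refine F.left (k2 i G.hi hx) G.hi fun q hq1 hq2 hq => ?_
  have hqK := G.hM _ hq
  have h1 := (Pool.Agent.H71.W.st_lt_iff G.ok hqK G.hi).2 hq2
  have h2 : b.st q * (2 * h : ℤ) < b.st i * (2 * h) := mul_lt_mul_of_pos_right h1 G.n0
  rcases G.mkf q hq with h | h
  · have := k1 q hqK (by omega)
    omega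
  · omega

/-- states of the layer -/
lemma st_ly (hL : Ly b (2 * h) x y) (hfp : fp ⊆ b.B h) (hPl : b.Pl h ⊆ b.B h) {ω2 : Finset (ℤ × ℤ)}
    (h2 : ω2 ⊆ (WF b h i M cl2 C fp o).E) :
    lt (x, y) ∈ (WF b h i M cl2 C fp o).st ω2 ↔ lcol b (2 * h) cl2 x y = true := by
  have a0 : lt (x, y) ∉ b.B h := fun g => hL.1 ((mem_B_lt G.h0).1 g)
  have a1 : lt (x, y) ∉ ω2 := fun g => hL.1 ((mem_WFE G.h0).1 (h2 g)).1.1
  have a2 : lt (x, y) ∉ (WF b h i M cl2 C fp o).F := fun g => a0 (hfp (mem_sdiff.1 g).1)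
  rw [WD.mem_st' a1 a2, ← mem_Wl_ly G.ok G.n0 hL]
  show lt (x, y) ∈ Wl b (2 * h) cl2 ∪ (PP b h fp o ∪ FO b h i cl2) ↔ _
  rw [mem_union, or_iff_left]
  intro g
  rcases mem_union.1 g with g | g
  · exact a0 (hPl (PP_sub g))
  · exact hL.1 ((mem_FO G.h0).1 g).1.1

/-- **The layer near the floor.** -/
theorem layW (F : ClF b i M cl2) (hfp : fp ⊆ b.B h) (hPl : b.Pl h ⊆ b.B h) (hρ : b.K * (2 * h) + 4 ≤ ρ)
    {ω2 : Finset (ℤ × ℤ)} (h2 : ω2 ⊆ (WF b h i M cl2 C fp o).E) :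
    LayW (chV 1) (b.B h) (WF b h i M cl2 C fp o).Λ (WF b h i M cl2 C fp o).D
      ((WF b h i M cl2 C fp o).st ω2) (zf b h i) ρ B 3 (cl2.l (i + 1) = true) (cl2.l i = true) := by
  have g1 := zf_sum (b := b) (h := h) (i := i)
  have g2 := zf_dif (b := b) (h := h) (i := i)
  have e1 : ((b.H : ℤ) + b.K) * (2 * h : ℤ) = b.H * (2 * h) + b.K * (2 * h) := by ring
  have hΛ : ∀ e ∈ (WF b h i M cl2 C fp o).Λ, ∃ x y, e = lt (x, y) ∧ (InQ b (2 * h) x y ∨ Ly b (2 * h) x y) := by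
    intro e he
    obtain ⟨x, y, rfl, h⟩ : e ∈ LamT b (2 * h) (insert (false, i) M) := he.1
    exact ⟨x, y, rfl, h.imp id (fun h => h.elim Ly1.ly fun h => h.1.ly)⟩
  have hD : ∀ x y, lt (x, y) ∈ BR (zf b h i) B → lt (x, y) ∉ (WF b h i M cl2 C fp o).D :=
    fun x y _ => Set.notMem_empty _
  refine ⟨?_, ?_, ?_, ?_, ?_⟩
  · intro e he
    obtain ⟨x, y, rfl, -⟩ := hΛ e he
    exact lt_odd _
  · intro e he _ hb _
    obtain ⟨x, y, rfl, -⟩ := hΛ e he
    exact hD x y hb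
  · intro e he hE hb
    obtain ⟨x, y, rfl, hq | hL⟩ := hΛ e he
    · exact absurd ((mem_B_lt G.h0).2 hq) hE
    · rw [(chV1_G x y).1, (chV1_G x y).2, (chV1_g _).1, (chV1_g _).2]
      obtain ⟨-, a, c, -, hc, hac⟩ := hL
      have := InQ_lo G.ok G.n0 hac
      rw [abs_le] at hc
      have := neg_abs_le (x - y - 2 * (zf b h i).1)
      have := le_abs_self (x - y - 2 * (zf b h i).1)
      omega
  · intro e he hE hb hh
    obtain ⟨x, y, rfl, hq | hL⟩ := hΛ e he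
    · exact absurd ((mem_B_lt G.h0).2 hq) hE
    · refine ⟨hD x y hb, ?_⟩
      rw [G.st_ly hL hfp hPl h2, G.col_right F hb hL ?_]
      rw [(chV1_G x y).2, (chV1_g _).2] at hh
      obtain ⟨-, a, c, -, hc, hac⟩ := hL
      have := InQ_lo G.ok G.n0 hac
      rw [abs_le] at hc
      have hK : (0 : ℤ) ≤ b.K * (2 * h : ℤ) := by positivity
      omega
  · intro e he hE hb hh
    obtain ⟨x, y, rfl, hq | hL⟩ := hΛ e he
    · exact absurd ((mem_B_lt G.h0).2 hq) hE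
    · refine ⟨hD x y hb, ?_⟩
      rw [G.st_ly hL hfp hPl h2, G.col_left F hb hL ?_]
      rw [(chV1_G x y).2, (chV1_g _).2] at hh
      have := G.ly_pos hb hL.1
      have hK : (0 : ℤ) ≤ b.K * (2 * h : ℤ) := by positivity
      omega

/-- colour of a forced tile in the ball -/
lemma frc_ball (F : ClF b i M cl2) (hb : lt (x, y) ∈ BR (zf b h i) (B - 1))
    (hf : fr b (2 * h) (false, i) x y) : frc b (2 * h) (false, i) cl2 x y = cl2.l (i + 1) := by
  obtain ⟨h1, h2, h3⟩ := hf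
  simp only [Bool.false_eq_true, if_false] at h2 h3
  unfold frc
  simp only [Bool.false_eq_true, if_false]
  refine G.col_right F ?_ ?_ h2
  · rw [mem_BR_lt] at hb ⊢
    omega
  · refine Ly1.ly ⟨h3.2, Or.inr (Or.inr (Or.inl ?_))⟩
    rwa [sub_add_cancel]

/-- labels of the ball are natural -/
lemma ct_none (hb : lt (x, y) ∈ BR (zf b h i) B) : chn 0 b.M b.τ (ct (2 * h : ℤ) (tt (lt (x, y)))) = none := by
  rw [tt_lt]
  rcases hk : chn 0 b.M b.τ (ct (2 * h : ℤ) (x, y)) with _ | k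
  · rfl
  · have h2 := G.pos hb
    have h3 := G.left
    have h1 := G.pl x y (by omega) k hk
    omega

lemma not_Pl (hb : lt (x, y) ∈ BR (zf b h i) B) : lt (x, y) ∉ b.Pl h := by
  rw [mem_Pl_lt G.ok.M0 G.h0]
  rintro ⟨k, -, hk⟩
  have h2 := G.pos hb
  have h3 := G.left
  have h1 := G.pl x y (by omega) k hk
  omega

/-- states in the ball -/
lemma st_ball (hfpl : ∀ x y : ℤ, lt (x, y) ∈ fp → ∃ k, chn 0 b.M b.τ (x / (2 * h : ℤ), y / (2 * h : ℤ)) = some k)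
    (hb : lt (x, y) ∈ BR (zf b h i) B) (hQ : InQ b (2 * h) x y) {ω2 : Finset (ℤ × ℤ)} :
    lt (x, y) ∈ (WF b h i M cl2 C fp o).st ω2 ↔ lt (x, y) ∈ ω2 ∨ lt (x, y) ∈ FO b h i cl2 := by
  have hF : lt (x, y) ∉ (WF b h i M cl2 C fp o).F := by
    intro g
    obtain ⟨k, hk⟩ := hfpl x y (mem_sdiff.1 g).1
    have h2 := G.pos hb
    have h3 := G.left
    have h1 := G.pl x y (by omega) k hk
    omega
  have h1 : lt (x, y) ∉ Wl b (2 * h) cl2 := notMem_Wl hQ
  have h2 : lt (x, y) ∉ PP b h fp o := fun g => G.not_Pl hb (PP_sub g)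
  unfold WD.st
  rw [mem_union, mem_symmDiff]
  have h3 : lt (x, y) ∈ (WF b h i M cl2 C fp o).W ↔ lt (x, y) ∈ FO b h i cl2 := by
    show lt (x, y) ∈ Wl b (2 * h) cl2 ∪ (PP b h fp o ∪ FO b h i cl2) ↔ _
    rw [mem_union, mem_union]
    tauto
  rw [h3]
  tauto

end BlG

open Classical in
/-- **the block event** -/
def BlkF (b : JBox) (h i : ℕ) (cl2 : Cl) (B ρ R : ℤ) (ξ : Finset (ℤ × ℤ)) : Prop :=
  if cl2.l (i + 1) = true then HC (chV 1) (b.B h) (zf b h i) B ρ R (ξ ∪ FO b h i cl2)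
  else HCc (chV 1) (b.B h) (dzV 1 (zf b h i)) B ρ R ξ

/-- numbers of the block -/
structure BlN (b : JBox) (h i : ℕ) (xl xr yt B ρ R : ℤ) : Prop where
  r1 : (xr - b.st i * (2 * h)) + (yt + (b.H + b.K) * (2 * h)) + 8 ≤ 2 * ρ
  r2 : (b.st i * (2 * h) - xl) + (yt + (b.H + b.K) * (2 * h)) + 8 ≤ 2 * ρ
  r3 : b.K * (2 * h) + 4 ≤ ρ
  rR : ρ ≤ R
  RB : R + b.K * (2 * h) + 4 ≤ B
  RB' : R + 5 ≤ B

lemma BlN.near {b : JBox} {h i : ℕ} {xl xr yt B ρ R : ℤ} (N : BlN b h i xl xr yt B ρ R) {x y : ℤ}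
    (h1 : xl - 1 ≤ x) (h2 : x ≤ xr + 1) (h3 : y ≤ yt + 1) (h4 : -((b.H + b.K) * (2 * h) : ℤ) - 1 ≤ y) :
    lt (x, y) ∈ BR (zf b h i) (ρ - 1) := by
  have g1 := zf_sum (b := b) (h := h) (i := i)
  have g2 := zf_dif (b := b) (h := h) (i := i)
  have g3 := N.r1; have g4 := N.r2
  rw [mem_BR_lt]
  omega

section
variable (G : BlG δ σ b h i M C B) (L : FlG δ σ b h i M v xl xr yt C fp) (N : BlN b h i xl xr yt B ρ R)
  (F : ClF b i M cl2)
include G L N F

/-- an annulus label is outside the inner block -/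
lemma an_out (hQ : InQ b (2 * h) x y) (hl : lt (x, y) ∈ An (zf b h i) ρ R) : x < xl ∨ xr < x ∨ yt < y := by
  by_contra hc
  push Not at hc
  have h1 := InQ_lo L.ok L.n0 hQ
  have h2 := N.near (x := x) (y := y) (by omega) (by omega) (by omega) (by omega)
  rw [mem_An] at hl
  apply hl.2
  have := mem_BR.1 h2
  omega

lemma an_ball (hl : lt (x, y) ∈ An (zf b h i) ρ R) : lt (x, y) ∈ BR (zf b h i) (B - 1) := by
  rw [mem_An] at hl
  rw [mem_BR]
  have := N.RB'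
  omega

/-- **The block with one exit.** -/
theorem blkF_blk {ω2 : Finset (ℤ × ℤ)} (h2 : ω2 ⊆ (WF b h i M cl2 C fp o).E)
    (hB : BlkF b h i cl2 B ρ R (ω2 ∩ OB b h v xl xr yt)) :
    ∃ (I : Set (ℤ × ℤ)) (bq : ℤ × ℤ),
      (∀ u w, u ∈ I → w ∉ I → ((WF b h i M cl2 C fp o).G ω2).Adj u w → w = bq) ∧
      (∀ e ∈ (WF b h i M cl2 C fp o).Λ, e ∈ BR (zf b h i) (ρ - 1) → ∀ c, IsSd e c → c ∈ I) ∧
      (∀ c ∈ I, ∃ e ∈ BR (zf b h i) B, IsSd e c) := by
  classical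
  have r3 := N.r3; have rR := N.rR; have RB := N.RB; have RB' := N.RB'
  have hK : (0 : ℤ) ≤ b.K * (2 * h : ℤ) := by positivity
  have Y := G.layW (o := o) F L.fpB L.plB r3 h2
  have P := G.prm
  unfold BlkF at hB
  split_ifs at hB with hc
  · have h1 : HC (chV 1) (b.B h) (zf b h i) B ρ R ((WF b h i M cl2 C fp o).st ω2) := by
      refine hB.mono fun l hl => ?_
      rw [mem_inter, mem_inter] at hl
      obtain ⟨x, y, rfl, hQ⟩ := of_B G.h0 hl.2.1
      have hb := an_ball G L N F hl.2.2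
      rw [G.st_ball L.fpl (by rw [mem_BR_lt] at hb ⊢; omega) hQ]
      rcases mem_union.1 hl.1 with h | h
      · exact Or.inl (mem_inter.1 h).1
      · exact Or.inr h
    obtain ⟨I, bp, bq, k1, k2, k3⟩ := h1.blk (P.roomW (Or.inl rfl) (Or.inr rfl)) Y (by omega) (by omega)
      (by omega) (by omega) (by omega)
    refine ⟨I, bq, fun u w hu hw ha => ?_, k2, k3⟩
    rcases k1 u w hu hw ha with ⟨a, -, -⟩ | ⟨-, a, -⟩
    · exact absurd hc a
    · exact a
  · have h1 : HCc (chV 1) (b.B h) (dzV 1 (zf b h i)) B ρ R ((WF b h i M cl2 C fp o).st ω2) := by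
      refine HCc.mono (dctV (Or.inl rfl) _) hB fun l hl hls => ?_
      rw [mem_inter] at hl
      obtain ⟨x, y, rfl, hQ⟩ := of_B G.h0 hl.1
      have hb := an_ball G L N F hl.2
      rw [G.st_ball L.fpl (by rw [mem_BR_lt] at hb ⊢; omega) hQ] at hls
      rcases hls with h | h
      · exact mem_inter.2 ⟨h, L.mem_OB (h2 h) (an_out G L N F hQ hl.2)⟩
      · exfalso
        have h3 := (mem_FO G.h0).1 h
        rw [G.frc_ball F hb h3.1] at h3
        exact hc h3.2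
    obtain ⟨I, bp, bq, k1, k2, k3⟩ := HCc.blk (dctV (Or.inl rfl) _) (Or.inl rfl) (Or.inr rfl) h1 P Y
      (by omega) (by omega) (by omega) (by omega) (by omega)
    refine ⟨I, bq, fun u w hu hw ha => ?_, k2, k3⟩
    rcases k1 u w hu hw ha with ⟨a, -, -⟩ | ⟨-, a, -⟩
    · exact absurd hc a
    · exact a

end

/-- **Probability of the block.** -/
theorem blkF_prob : ∃ C0 α : ℝ, 0 < C0 ∧ 0 < α ∧
    ∀ {δ σ : ℝ} {b : JBox} {h i : ℕ} {M : Finset (Bool × ℕ)} {v : ℤ × ℤ} {xl xr yt : ℤ}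
      {C : Set (ℤ × ℤ)} {fp : Finset (ℤ × ℤ)} {cl2 : Cl} {o : Bool} {B ρ R : ℤ},
    BlG δ σ b h i M C B → FlG δ σ b h i M v xl xr yt C fp → BlN b h i xl xr yt B ρ R → ClF b i M cl2 →
    Pool.Agent.H58.W.PB (WF b h i M cl2 C fp o).E (WF b h i M cl2 C fp o).b
      (fun ω => ¬ BlkF b h i cl2 B ρ R (ω ∩ OB b h v xl xr yt)) ≤ C0 * ((ρ : ℝ) / R) ^ α := by
  classical
  obtain ⟨C1, α1, hC1, hα1, H1⟩ := prm_halfB.{0}
  obtain ⟨C2, α2, hC2, hα2, H2⟩ := prm_halfcB.{0}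
  refine ⟨max C1 C2, min α1 α2, lt_max_of_lt_left hC1, lt_min hα1 hα2, ?_⟩
  intro δ σ b h i M v xl xr yt C fp cl2 o B ρ R G L N F
  have r3 := N.r3; have rR := N.rR; have RB := N.RB; have RB' := N.RB'
  have hK : (0 : ℤ) ≤ b.K * (2 * h : ℤ) := by positivity
  have hρ0 : (0 : ℝ) < ρ := by
    have : (0 : ℤ) < ρ := by omega
    exact_mod_cast this
  have hR0 : (ρ : ℝ) ≤ R := by exact_mod_cast rR
  have hx0 : 0 < (ρ : ℝ) / R := div_pos hρ0 (by linarith)
  have hx1 : (ρ : ℝ) / R ≤ 1 := by rw [div_le_one (by linarith)]; exact hR0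
  have hE : (WF b h i M cl2 C fp o).E ⊆ b.B h := fun e he => by
    have he' : e ∈ (b.B h \ b.Pl h).filter _ := he
    exact (mem_sdiff.1 (mem_filter.1 he').1).1
  have hinj : ∀ l ∈ b.B h ∩ An (zf b h i) ρ R, ∀ l' ∈ b.B h ∩ An (zf b h i) ρ R,
      bk (2 * h) (chn 0 b.M b.τ) l = bk (2 * h) (chn 0 b.M b.τ) l' → l = l' := by
    intro l hl l' hl' he
    rw [mem_inter] at hl
    obtain ⟨x, y, rfl, hQ⟩ := of_B G.h0 hl.1
    rw [bk_eq_iff] at he
    rcases he with he | ⟨he, -⟩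
    · exact he
    · have hb := an_ball G L N F hl.2
      exact absurd (G.ct_none (by rw [mem_BR_lt] at hb ⊢; omega)) he
  have hb : (WF b h i M cl2 C fp o).b = bk (2 * h) (chn 0 b.M b.τ) := rfl
  rw [hb, ← PB_restrict hE]
  by_cases hc : cl2.l (i + 1) = true
  · refine le_trans (PB_mono (B := fun ω => ¬ HC (chV 1) (b.B h) (zf b h i) B ρ R ω) ?_)
      ((H1 (chV 1) (b.B h) (zf b h i) 1 1 (-1) (b.K * (2 * h)) ρ R B (Or.inl rfl) (Or.inr rfl) (Or.inl rfl)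
        (Or.inr rfl) (by omega) hK (by omega) rR (by omega) G.prm (b.B h) inter_subset_left _ _ hinj).trans ?_)
    · intro ω hω hn hH
      apply hn
      unfold BlkF
      rw [if_pos hc]
      refine hH.mono fun l hl => ?_
      rw [mem_inter, mem_inter] at hl
      obtain ⟨x, y, rfl, hQ⟩ := of_B G.h0 hl.2.1
      have hbb := an_ball G L N F hl.2.2
      rw [mem_union]
      by_cases hf : fr b (2 * h) (false, i) x y
      · right
        rw [mem_FO G.h0, G.frc_ball F hbb hf]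
        exact ⟨hf, hc⟩
      · left
        have h3 : lt (x, y) ∈ (WF b h i M cl2 C fp o).E := (mem_WFE G.h0).2
          ⟨⟨hQ, G.not_Pl (by rw [mem_BR_lt] at hbb ⊢; omega)⟩, hf⟩
        exact mem_inter.2 ⟨mem_inter.2 ⟨hl.1, h3⟩, L.mem_OB h3 (an_out G L N F hQ hl.2.2)⟩
    · refine mul_le_mul (le_max_left _ _) ?_ (by positivity) (le_max_of_le_left hC1.le)
      exact Real.rpow_le_rpow_of_exponent_ge hx0 hx1 (min_le_left _ _)
  · refine le_trans (PB_mono (B := fun ω => ¬ HCc (chV 1) (b.B h) (dzV 1 (zf b h i)) B ρ R ω) ?_)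
      ((H2 (chV 1) (b.B h) (zf b h i) (dzV 1 (zf b h i)) 1 1 (-1) (b.K * (2 * h)) ρ R B (Or.inr rfl)
        (dctV (Or.inl rfl) _) (Or.inl rfl)
        (Or.inr rfl) (by omega) hK (by omega) rR (by omega) G.prm (b.B h) inter_subset_left _ _ hinj).trans ?_)
    · intro ω hω hn hH
      apply hn
      unfold BlkF
      rw [if_neg hc]
      exact HCc.mono (dctV (Or.inl rfl) _) hH fun l _ hl => (mem_inter.1 (mem_inter.1 hl).1).1
    · refine mul_le_mul (le_max_right _ _) ?_ (by positivity) (le_max_of_le_left hC1.le)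
      exact Real.rpow_le_rpow_of_exponent_ge hx0 hx1 (min_le_right _ _)

end Pool.Agent.H87.W
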