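import Mathlib
import Pool.Agent.H87.W.JBlkF

set_option autoImplicit false
set_option linter.unusedSectionVars false
open Finset

/-! # (J5) the floor: far ends of the moving end and of the mark

Images of the alive corners of the other marks, the corners at the inner block, comparison of the far ends. -/

namespace Pool.Agent.H87.W

open Pool.Agent.H33.Q1 Pool.Agent.H6.W Pool.Agent.H50.W Pool.Agent.H61.W
open Pool.Agent.H58.W hiding up
open Pool.Agent.H21.W Pool.Agent.H13.W Pool.Agent.H82.W Pool.Agent.H70.W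
open Pool.Agent.H99.NC (BR)
open Pool.Agent.H19.W (cx cy cx_lt cy_lt mv mv_in mv_out shared ea we cx_ea cy_ea cx_we cy_we cx_up cy_up cx_dn cy_dn)
open Pool.Agent.Q1.M4 (Cell)
open Pool.Agent.H75.Perc (lab lab_odd)
open Pool.Agent.H75.TwoArm (plab)

variable {b : JBox} {δ σ : ℝ} {h i : ℕ} {M : Finset (Bool × ℕ)} {v : ℤ × ℤ} {xl xr yt : ℤ}
  {C : Set (ℤ × ℤ)} {fp : Finset (ℤ × ℤ)} {cl cl2 : Cl} {o : Bool} {x y x' y' B ρ R : ℤ} {c : ℤ × ℤ}

/-- two tiles with a common side are neighbours -/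
lemma near_tiles (h1 : Sd (lt (x, y)) c) (h2 : Sd (lt (x', y')) c) :
    |x' - x| ≤ 1 ∧ |y' - y| ≤ 1 ∧ |x' - x| + |y' - y| ≤ 1 := by
  rcases shared (lt_odd (x, y)) (lt_odd (x', y')) h1 h2 with h | ⟨-, h⟩ | ⟨-, h⟩ | ⟨-, h⟩ | ⟨-, h⟩
  · have := lt_inj h
    simp only [Prod.mk.injEq] at this
    obtain ⟨rfl, rfl⟩ := this
    simp
  · have a1 := cx_ea (lt (x, y)); have a2 := cy_ea (lt (x, y))
    rw [← h, cx_lt, cx_lt] at a1; rw [← h, cy_lt, cy_lt] at a2
    simp only at a1 a2; subst a1 a2; simp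
  · have a1 := cx_we (lt (x, y)); have a2 := cy_we (lt (x, y))
    rw [← h, cx_lt, cx_lt] at a1; rw [← h, cy_lt, cy_lt] at a2
    simp only at a1 a2; subst a1 a2; simp
  · have a1 := cx_up (lt (x, y)); have a2 := cy_up (lt (x, y))
    rw [← h, cx_lt, cx_lt] at a1; rw [← h, cy_lt, cy_lt] at a2
    simp only at a1 a2; subst a1 a2; simp
  · have a1 := cx_dn (lt (x, y)); have a2 := cy_dn (lt (x, y))
    rw [← h, cx_lt, cx_lt] at a1; rw [← h, cy_lt, cy_lt] at a2
    simp only at a1 a2; subst a1 a2; simp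

lemma eN_tiles (h : Sd (lt (x', y')) (eN (lt (x, y)))) : (x' = x ∧ y' = y) ∨ (x' = x ∧ y' = y + 1) := by
  rcases shared (lt_odd (x, y)) (lt_odd (x', y')) (Or.inr (Or.inr (Or.inr rfl))) h with
    h | ⟨h0, -⟩ | ⟨h0, -⟩ | ⟨-, h⟩ | ⟨h0, -⟩
  · have := lt_inj h
    simp only [Prod.mk.injEq] at this
    exact Or.inl this
  · exact absurd h0.symm (by unfold eN eE; simp)
  · exfalso
    unfold eN eW at h0
    simp only [Prod.mk.injEq] at h0
    omega
  · rw [up_lt] at h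
    have := lt_inj h
    simp only [Prod.mk.injEq] at this
    exact Or.inr this
  · exfalso
    unfold eN eS at h0
    simp only [Prod.mk.injEq] at h0
    omega

lemma eS_tiles (h : Sd (lt (x', y')) (eS (lt (x, y)))) : (x' = x ∧ y' = y) ∨ (x' = x ∧ y' = y - 1) := by
  rcases shared (lt_odd (x, y)) (lt_odd (x', y')) (Or.inr (Or.inr (Or.inl rfl))) h with
    h | ⟨h0, -⟩ | ⟨h0, -⟩ | ⟨h0, -⟩ | ⟨-, h⟩
  · have := lt_inj h
    simp only [Prod.mk.injEq] at this
    exact Or.inl this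
  · exfalso
    unfold eS eE at h0
    simp only [Prod.mk.injEq] at h0
    omega
  · exfalso
    unfold eS eW at h0
    simp only [Prod.mk.injEq] at h0
    omega
  · exfalso
    unfold eN eS at h0
    simp only [Prod.mk.injEq] at h0
    omega
  · rw [dn_lt] at h
    have := lt_inj h
    simp only [Prod.mk.injEq] at this
    exact Or.inr this

/-- a corner at the inner block -/
lemma KB_tile (hc : c ∈ KB (Blk0 xl xr yt)) : ∃ x y, Sd (lt (x, y)) c ∧ (xl ≤ x ∧ x ≤ xr) ∧ y ≤ yt := by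
  have key : ∀ e : ℤ × ℤ, (e.1 + e.2) % 2 = 1 → e ∈ Blk0 xl xr yt → (e = lab c ∨ e = plab c) →
      ∃ x y, Sd (lt (x, y)) c ∧ (xl ≤ x ∧ x ≤ xr) ∧ y ≤ yt := by
    intro e ho he h
    obtain ⟨x, y, rfl⟩ := of_odd ho
    exact ⟨x, y, side_cases c h, mem_Blk0.1 he⟩
  rcases hc with h | h
  · exact key _ (lab_odd c) h (Or.inl rfl)
  · refine key _ ?_ h (Or.inr rfl)
    unfold plab
    split_ifs <;> simp only <;> omega

namespace FlG

variable (L : FlG δ σ b h i M v xl xr yt C fp)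
include L

/-- rows of the thin region -/
lemma lo_T {M' : Finset (Bool × ℕ)} (hM' : lt (x, y) ∈ LamT b (2 * h) M') : -((b.H + b.K) * (2 * h) : ℤ) - 1 ≤ y := by
  have s1 : ∀ a : ℤ, a - 1 = a + (-1) := fun a => by ring
  rcases mem_LamT.1 hM' with h | ⟨-, h | h | h | h⟩ | ⟨⟨-, -, h | h | h | h⟩, -⟩ <;>
    (have := InQ_lo L.ok L.n0 h; omega)

/-- **Corners at the inner block have their images in the block.** -/
theorem KB_img (hc : ClRel i v.2 M cl cl2) (N : BlN b h i xl xr yt B ρ R) (hy2 : yt < -2)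
    {ω1 ω2 : Finset (ℤ × ℤ)}
    (hC : Cor (WT b h M cl v C fp o) (WF b h i M cl2 C fp o) (mv (Str0 v)) (Str0 v)
      (OA b h v xl xr yt) (OB b h v xl xr yt) ω1 ω2) {I : Set (ℤ × ℤ)}
    (hI : ∀ e ∈ (WF b h i M cl2 C fp o).Λ, e ∈ BR (zf b h i) (ρ - 1) → ∀ c, IsSd e c → c ∈ I)
    {c c' : ℤ × ℤ} (h1 : c ∈ KB (Blk0 xl xr yt))
    (h2 : SR (WT b h M cl v C fp o).Λ (WT b h M cl v C fp o).D (Blk0 xl xr yt) (Str0 v) c c') : c' ∈ I := by
  have mvn := L.move hc hC
  obtain ⟨xb, yb, hb1, hb2, hb3⟩ := KB_tile h1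
  have e1 := L.hyt; have e2 := L.hyt0; have e3 := L.hxr'; have e4 := L.hxl'
  rcases h2 with ⟨rfl, ⟨e, he, heB, heS, heD, hs⟩ | ⟨e, he, heB, heD, hs⟩⟩ | ⟨rfl, e, he, heB, heS, hs⟩
  · have he0 : e ∈ LamT b (2 * h) M := he.1
    obtain ⟨x, y, hxy, -⟩ := id he0
    subst hxy
    have hlo := L.lo_T he0
    obtain ⟨n1, n2, -⟩ := near_tiles hb1 hs
    rw [abs_le] at n1 n2
    exact hI _ (mvn.plain _ he heB heS heD).1 (N.near (by omega) (by omega) (by omega) hlo) _ hs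
  · exfalso
    obtain ⟨x, y, rfl, -⟩ : e ∈ LamT b (2 * h) M := he.1
    rw [mem_Blk0] at heB
    have h3 : lt (x, y) ∈ lt '' strD v := heD
    rw [mem_strD] at h3
    rcases hs with hs | ⟨hs, -⟩
    · rw [hs] at hb1
      have := eN_tiles hb1
      omega
    · apply hs
      rw [dn_lt, mem_Str0]
      omega
  · have he0 : e ∈ LamT b (2 * h) M := he.1
    obtain ⟨x, y, hxy, -⟩ := id he0
    subst hxy
    have hlo := L.lo_T he0
    obtain ⟨n1, n2, -⟩ := near_tiles hb1 hs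
    rw [abs_le] at n1 n2
    have h5 := (mvn.strip _ he heB heS).2.1
    rw [mem_Str0] at heS
    rw [up_lt] at h5
    refine hI _ h5 (N.near (by omega) (by omega) (by omega) (by omega)) _ ?_
    have h6 : Sd (H13.W.up (lt (x, y))) (H13.W.up c) := by
      unfold H13.W.Sd at hs ⊢
      rcases hs with rfl | rfl | rfl | rfl
      · exact Or.inl (by unfold H13.W.up eW; rfl)
      · exact Or.inr (Or.inl (up_eE _))
      · exact Or.inr (Or.inr (Or.inl (by unfold H13.W.up eS; exact Prod.ext (by simp only; ring) rfl)))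
      · exact Or.inr (Or.inr (Or.inr (up_eN _)))
    rw [up_lt] at h6
    exact h6

end FlG

/-! ### The marks -/

/-- image of the alive corner of the mark `q` -/
noncomputable def yq (b : JBox) (n : ℤ) (i : ℕ) (cl : Cl) (q : Bool × ℕ) : ℤ × ℤ :=
  if q.1 = false ∧ i < q.2 then H13.W.up (fa b n cl q) else fa b n cl q

/-- the tiles at the two corners of a mark -/
lemma fa_tile (hb : b.Ok δ σ) {n : ℤ} (hn : 0 < n) {q : Bool × ℕ} (hq : q.2 < b.K) (M' : Finset (Bool × ℕ))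
    (cl : Cl) : ∃ x y, H13.W.Sd (lt (x, y)) (fa b n cl q) ∧ lt (x, y) ∈ LamT b n M' ∧ ¬ InQ b n x y ∧
      (x = b.st q.2 * n ∨ x = b.st q.2 * n - 1) ∧
      ((q.1 = true ∧ ((b.H + q.2 + 1) * n - 1 ≤ y ∧ y ≤ (b.H + q.2 + 1) * n)) ∨
        (q.1 = false ∧ (-((b.H + q.2 + 1) * n : ℤ) - 1 ≤ y ∧ y ≤ -((b.H + q.2 + 1) * n : ℤ)))) := by
  obtain ⟨s, j⟩ := q
  simp only at hq
  have hst := hb.st_lo j hq
  have hX : b.st j * n < b.X * n := mul_lt_mul_of_pos_right hst.2 hn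
  have e1 : ((b.H : ℤ) + j + 1) * n = (b.H + j) * n + n := by ring
  have k1 : ∀ x y : ℤ, -((b.H + j + 1) * n : ℤ) ≤ y → y < -((b.H + j + 1) * n : ℤ) + n →
      (InQ b n x y ↔ j < b.K ∧ x < b.X * n ∧ b.st j * n ≤ x) := fun x y h1 h2 =>
    InQ_step hb hn (by omega) (by omega)
  have g1 : ¬ InQ b n (b.st j * n) (-((b.H + j + 1) * n : ℤ) - 1) := not_InQ_row hb hn hq (by omega) le_rfl
  have g2 : InQ b n (b.st j * n) (-((b.H + j + 1) * n : ℤ)) := (k1 _ _ le_rfl (by omega)).2 ⟨hq, hX, le_rfl⟩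
  have g3 : ¬ InQ b n (b.st j * n - 1) (-((b.H + j + 1) * n : ℤ)) := fun h =>
    absurd ((k1 _ _ le_rfl (by omega)).1 h).2.2 (by omega)
  have m : ∀ x y : ℤ, InQ b n x (-1 - y) ↔ InQ b n x y := fun x y => InQ_mir hb hn
  have g1' : ¬ InQ b n (b.st j * n) ((b.H + j + 1) * n : ℤ) := by
    rw [← m]; rwa [show -1 - ((b.H : ℤ) + j + 1) * n = -((b.H + j + 1) * n) - 1 by ring]
  have g2' : InQ b n (b.st j * n) ((b.H + j + 1) * n - 1 : ℤ) := by
    rw [← m]; rwa [show -1 - (((b.H : ℤ) + j + 1) * n - 1) = -((b.H + j + 1) * n) by ring]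
  have g3' : ¬ InQ b n (b.st j * n - 1) ((b.H + j + 1) * n - 1 : ℤ) := by
    rw [← m]; rwa [show -1 - (((b.H : ℤ) + j + 1) * n - 1) = -((b.H + j + 1) * n) by ring]
  unfold fa f1 f2
  cases s
  · rw [dgt_floor]
    simp only [Bool.false_eq_true, if_false, false_and, false_or, true_and]
    split_ifs
    · refine ⟨b.st j * n, -((b.H + j + 1) * n) - 1, ?_, ?_, g1, Or.inl rfl, by omega⟩
      · left
        rw [eE_lt', sub_add_cancel]
      · exact mem_LamT.2 (Or.inr (Or.inl ⟨g1, Or.inr (Or.inr (Or.inl (by rwa [sub_add_cancel])))⟩))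
    · refine ⟨b.st j * n - 1, -((b.H + j + 1) * n), ?_, ?_, g3, Or.inr rfl, by omega⟩
      · right; right; left
        rw [eN_lt', sub_add_cancel]
      · exact mem_LamT.2 (Or.inr (Or.inl ⟨g3, Or.inl (by rwa [sub_add_cancel])⟩))
  · rw [dgt_ceil]
    simp only [if_true, true_and, Bool.true_eq_false, false_and, or_false]
    split_ifs
    · refine ⟨b.st j * n, (b.H + j + 1) * n, ?_, ?_, g1', Or.inl rfl, by omega⟩
      · left
        rw [eE_lt', sub_add_cancel]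
      · exact mem_LamT.2 (Or.inr (Or.inl ⟨g1', Or.inr (Or.inr (Or.inr g2'))⟩))
    · refine ⟨b.st j * n - 1, (b.H + j + 1) * n - 1, ?_, ?_, g3', Or.inr rfl, by omega⟩
      · right; right; right
        rw [eN_lt', sub_add_cancel]
      · exact mem_LamT.2 (Or.inr (Or.inl ⟨g3', Or.inl (by rwa [sub_add_cancel])⟩))

/-- distances of the other marks -/
structure MkD (b : JBox) (h i : ℕ) (M : Finset (Bool × ℕ)) (xl xr B : ℤ) : Prop where
  far : ∀ q, (false, q) ∈ M → (b.st q * (2 * h) + (2 * B + 8) < b.st i * (2 * h) ∨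
    b.st i * (2 * h) + (2 * B + 8) < b.st q * (2 * h))
  out : ∀ q, (false, q) ∈ M → (b.st q * (2 * h) < xl ∨ xr + 1 < b.st q * (2 * h))

section
variable (G : BlG δ σ b h i M C B) (L : FlG δ σ b h i M v xl xr yt C fp) (N : BlN b h i xl xr yt B ρ R)
include G L N

lemma mark_out {q : ℕ} (hq : (false, q) ∈ M) : (q < i ∧ b.st q * (2 * h) < xl) ∨
    (i < q ∧ xr + 1 < b.st q * (2 * h)) := by
  have hqK := L.hM _ hq
  have hK : (0 : ℤ) ≤ b.K * (2 * h : ℤ) := by positivity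
  have h1 := L.hyH
  have e1 : ((b.H : ℤ) + b.K) * (2 * h) = b.H * (2 * h) + b.K * (2 * h) := by ring
  have r1 := N.r1; have r2 := N.r2; have rR := N.rR; have RB := N.RB; have r3 := N.r3
  rcases G.mkf q hq with k | k
  · refine Or.inl ⟨?_, by omega⟩
    by_contra hc
    have h2 : b.st i ≤ b.st q := (Pool.Agent.H71.W.st_le_iff G.ok G.hi hqK).2 (not_lt.1 hc)
    have : b.st i * (2 * h : ℤ) ≤ b.st q * (2 * h) := mul_le_mul_of_nonneg_right h2 G.n0.le
    omega
  · refine Or.inr ⟨?_, by omega⟩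
    by_contra hc
    have h2 : b.st q ≤ b.st i := (Pool.Agent.H71.W.st_le_iff G.ok hqK G.hi).2 (not_lt.1 hc)
    have : b.st q * (2 * h : ℤ) ≤ b.st i * (2 * h) := mul_le_mul_of_nonneg_right h2 G.n0.le
    omega

/-- **the image of the alive corner of a mark** -/
lemma SR_mark {q : Bool × ℕ} (hq : q ∈ M) (hC0 : ∀ e ∈ C, cy e ≤ 0) :
    SR (WT b h M cl v C fp o).Λ (WT b h M cl v C fp o).D (Blk0 xl xr yt) (Str0 v)
      (fa b (2 * h) cl q) (yq b (2 * h) i cl q) := by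
  have hqK := L.hM _ hq
  obtain ⟨x, y, h1, h2, h3, h4, h5⟩ := fa_tile L.ok L.n0 hqK M cl
  have e1 := L.hyt; have e2 := L.hyt0; have e3 := L.hxr'; have e4 := L.hxl'
  have hH : (0 : ℤ) < (b.H + q.2) * (2 * h) := by
    have := L.ok.H0
    have := L.n0
    positivity
  have n0 := L.n0
  have ee : ((b.H : ℤ) + q.2 + 1) * (2 * h) = (b.H + q.2) * (2 * h) + 2 * h := by ring
  have hyH := L.hyH
  unfold yq
  rcases h5 with ⟨hs, h5⟩ | ⟨hs, h5⟩
  · rw [if_neg (by rw [hs]; simp)]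
    refine Or.inl ⟨rfl, Or.inl ⟨lt (x, y), ⟨h2, fun h => ?_⟩, ?_, ?_, ?_, h1⟩⟩
    · have := hC0 _ h
      rw [cy_lt] at this
      simp only at this
      omega
    · rw [mem_Blk0]; omega
    · rw [mem_Str0]; omega
    · intro hD
      have hD' : lt (x, y) ∈ lt '' strD v := hD
      rw [mem_strD] at hD'
      omega
  · have hq' : (false, q.2) ∈ M := by rw [← hs]; exact hq
    have hHq : (b.H : ℤ) * (2 * h) ≤ (b.H + q.2) * (2 * h) := mul_le_mul_of_nonneg_right (by omega) n0.le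
    rcases mark_out G L N hq' with ⟨h6, h7⟩ | ⟨h6, h7⟩
    · rw [if_neg (by omega)]
      refine Or.inl ⟨rfl, Or.inl ⟨lt (x, y), ⟨h2, fun h => ?_⟩, ?_, ?_, ?_, h1⟩⟩
      · have := L.hC _ h
        rw [cy_lt] at this
        simp only at this
        omega
      · rw [mem_Blk0]; omega
      · rw [mem_Str0]; omega
      · intro hD
        have hD' : lt (x, y) ∈ lt '' strD v := hD
        rw [mem_strD] at hD'
        omega
    · rw [if_pos ⟨hs, h6⟩]
      -- the row of `v`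
      have h8 : -1 - v.2 < (b.H + q.2) * (2 * h) := by
        by_contra hc
        exact not_InQ_left L.ok n0 hqK (by omega) (by omega) L.hv
      refine Or.inr ⟨rfl, lt (x, y), ⟨h2, fun h => ?_⟩, ?_, ?_, h1⟩
      · have := L.hC _ h
        rw [cy_lt] at this
        simp only at this
        omega
      · rw [mem_Blk0]; omega
      · rw [mem_Str0]; omega

end

end Pool.Agent.H87.W
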