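import Mathlib
import Pool.Agent.H87.W.JHalf

set_option autoImplicit false
open Finset

/-! # (J5) the floor: one list of numerical hypotheses -/

namespace Pool.Agent.H87.W

open Pool.Agent.H33.Q1 Pool.Agent.H6.W Pool.Agent.H50.W Pool.Agent.H61.W
open Pool.Agent.H58.W hiding up
open Pool.Agent.H19.W (cx cy cx_lt cy_lt)

/-- **Numbers of the floor move.** `v` moving end, `(false, i)` the mark, `[xl, xr] x (.., yt]` inner block, `ρ < R < B`
radii (in labels) of the annulus round `zf b h i`. -/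
structure FN (δ σ : ℝ) (b : JBox) (h i : ℕ) (M : Finset (Bool × ℕ)) (v : ℤ × ℤ)
    (xl xr yt B ρ R : ℤ) : Prop where
  ok : b.Ok δ σ
  hh : 2 ≤ h
  hi : i < b.K
  hM : ∀ c ∈ M, c.2 < b.K
  hv : InQ b (2 * h) v.1 v.2
  xl1 : xl < b.st i * (2 * h)
  xl2 : xl < v.1
  xr1 : b.st i * (2 * h) ≤ xr
  xr2 : v.1 ≤ xr
  yt1 : v.2 ≤ yt
  yt2 : -(b.H * (2 * h) : ℤ) ≤ yt
  r1 : (xr - b.st i * (2 * h)) + (yt + (b.H + b.K) * (2 * h)) + 8 ≤ 2 * ρ
  r2 : (b.st i * (2 * h) - xl) + (yt + (b.H + b.K) * (2 * h)) + 8 ≤ 2 * ρ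
  r3 : b.K * (2 * h) + 4 ≤ ρ
  rR : ρ ≤ R
  RB : R + b.K * (2 * h) + 5 ≤ B
  left : -(b.X : ℤ) * (2 * h) + (2 * B + 4) ≤ b.st i * (2 * h)
  right : b.st i * (2 * h) + (2 * B + 4) ≤ b.X * (2 * h)
  top : -((b.H + b.K) * (2 * h) : ℤ) + (2 * B + 4) ≤ -8
  /-- the plates are above the ball -/
  pl : ∀ x y : ℤ, -(b.X : ℤ) * (2 * h) ≤ x → ∀ k : ℕ,
    chn 0 b.M b.τ (x / (2 * h : ℤ), y / (2 * h : ℤ)) = some k →
    -((b.H + b.K) * (2 * h) : ℤ) + (2 * B + 4) < y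
  /-- the other marks of the floor are far -/
  mkf : ∀ q, (false, q) ∈ M → (b.st q * (2 * h) + (2 * B + 8) < b.st i * (2 * h) ∨
    b.st i * (2 * h) + (2 * B + 8) < b.st q * (2 * h))

namespace FN

variable {b : JBox} {δ σ : ℝ} {h i : ℕ} {M : Finset (Bool × ℕ)} {v : ℤ × ℤ}
  {xl xr yt B ρ R : ℤ} {C : Set (ℤ × ℤ)} {fp : Finset (ℤ × ℤ)}
variable (U : FN δ σ b h i M v xl xr yt B ρ R)
include U

lemma blG (hC : ∀ e ∈ C, -1 ≤ cy e) : BlG δ σ b h i M C B where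
  ok := U.ok
  hh := U.hh
  hi := U.hi
  hC := hC
  left := U.left
  right := U.right
  top := U.top
  pl := U.pl
  mkf := U.mkf
  hM := U.hM

lemma blN : BlN b h i xl xr yt B ρ R where
  r1 := U.r1
  r2 := U.r2
  r3 := U.r3
  rR := U.rR
  RB := by have := U.RB; omega
  RB' := by
    have := U.RB
    have : (0 : ℤ) ≤ b.K * (2 * h : ℤ) := by positivity
    omega

lemma flG (hC : ∀ e ∈ C, -1 ≤ cy e)
    (fpl : ∀ x y : ℤ, lt (x, y) ∈ fp → ∃ k, chn 0 b.M b.τ (x / (2 * h : ℤ), y / (2 * h : ℤ)) = some k)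
    (fpB : fp ⊆ b.B h) (plB : b.Pl h ⊆ b.B h) : FlG δ σ b h i M v xl xr yt C fp := by
  have hK : (0 : ℤ) ≤ b.K * (2 * h : ℤ) := by positivity
  have r1 := U.r1; have r2 := U.r2; have r3 := U.r3; have rR := U.rR; have RB := U.RB
  have k1 := U.left; have k2 := U.right; have k3 := U.top
  have a1 := U.xl1; have a2 := U.xl2; have a3 := U.xr1; have a4 := U.xr2; have a5 := U.yt1
  have a6 := U.yt2
  have e1 : ((b.H : ℤ) + b.K) * (2 * h : ℤ) = b.H * (2 * h) + b.K * (2 * h) := by ring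
  exact
  { ok := U.ok
    hh := by have := U.hh; omega
    hi := U.hi
    hM := U.hM
    hv := U.hv
    hxl := a1
    hxr := a3
    hxX := by omega
    hxl' := a2
    hxr' := a4
    hyt := a5
    hyH := a6
    hyt0 := by omega
    hv1 := by omega
    hC := hC
    pl := fun x y hx k hk => by
      have := U.pl x y hx k hk
      omega
    fpl := fpl
    fpB := fpB
    plB := plB }

lemma yt_lt : yt < -8 := by
  have r1 := U.r1; have rR := U.rR; have RB := U.RB; have k3 := U.top; have a3 := U.xr1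
  have hK : (0 : ℤ) ≤ b.K * (2 * h : ℤ) := by positivity
  omega

end FN

end Pool.Agent.H87.W
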