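import Mathlib
import Pool.Agent.H87.W.JNum
import Pool.Agent.H45.W.EndsJ8
import Pool.Agent.H73.W.JInst

set_option autoImplicit false
open Finset

/-! # (J5) the floor: colours before and after the move, alive corners -/

namespace Pool.Agent.H87.W

open Pool.Agent.H33.Q1 Pool.Agent.H6.W Pool.Agent.H50.W Pool.Agent.H61.W
open Pool.Agent.H58.W hiding up
open Pool.Agent.H45.W (par_add colM_l colM_l' colM_u colM_u' cc cc_flip al isF1 isF1_even)

variable {b : JBox} {n : ℤ} {i : ℕ} {M : Finset (Bool × ℕ)} {base : Bool} {ex : Option ℤ} {q : Bool × ℕ}

/-- my alive corner = 45's alive corner, at the marks -/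
lemma fa_eq_al (hn : n % 2 = 0) (hq : q ∈ M) :
    fa b n (colM base M ex) q = al b n (colM base M ex) q := by
  have h1 := cc_flip (base := base) (ex := ex) hq
  have h2 : (if q.1 then (colM base M ex).u q.2 else (colM base M ex).l q.2) =
      cc (colM base M ex) q q.2 := rfl
  unfold fa al
  rw [h2]
  by_cases h : cc (colM base M ex) q q.2 = true
  · rw [if_pos h, if_pos ((isF1_even hn).2 (by rw [h1, h]; rfl))]
  · rw [if_neg h, if_neg fun h' => h ?_]
    rw [isF1_even hn, h1] at h'
    simpa using h'

/-- my alive corner = 73's alive corner -/
lemma fa_eq_fa (hn : n % 2 = 0) (hq : q ∈ M) :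
    fa b n (colM base M ex) q = Pool.Agent.H73.W.fa b n (colM base M ex) q := by
  rw [fa_eq_al hn hq, Pool.Agent.H73.W.fa_al]

lemma filter_true_insert :
    ((insert (false, i) M).filter fun c : Bool × ℕ => c.1 = true) = M.filter fun c => c.1 = true := by
  rw [filter_insert, if_neg (by simp)]

/-- **Colours before and after the move.** -/
theorem clRel (hi : (false, i) ∉ M) (r0 : ℤ) :
    ClRel i r0 M (colM base M (some r0)) (colM base (insert (false, i) M) none) where
  u j := by
    unfold colM
    simp only
    rw [filter_insert, if_neg (by simp)]
  lo j hj := by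
    unfold colM
    simp only
    have h1 : (insert (false, i) M).filter (fun c : Bool × ℕ => c.1 = false ∧ j ≤ c.2) =
        insert (false, i) (M.filter fun c => c.1 = false ∧ j ≤ c.2) := by
      rw [filter_insert, if_pos ⟨rfl, hj⟩]
    rw [filter_true_insert, h1, card_insert_of_notMem (by simp [hi]), par_add]
    have : par 1 = true := rfl
    rw [this]
    generalize par (M.filter fun c => c.1 = true).card = A
    generalize par (M.filter fun c => c.1 = false ∧ j ≤ c.2).card = B
    cases base <;> cases A <;> cases B <;> rfl
  hi j hj := by
    unfold colM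
    simp only
    have h1 : (insert (false, i) M).filter (fun c : Bool × ℕ => c.1 = false ∧ j ≤ c.2) =
        M.filter fun c => c.1 = false ∧ j ≤ c.2 := by
      rw [filter_insert, if_neg (fun h => by have := h.2; simp only at this; omega)]
    rw [filter_true_insert, h1]
    generalize par (M.filter fun c => c.1 = true).card = A
    generalize par (M.filter fun c => c.1 = false ∧ j ≤ c.2).card = B
    cases base <;> cases A <;> cases B <;> rfl
  cru y hy := by
    unfold colM
    simp only
    rw [filter_true_insert, decide_eq_false (by omega)]
  crl y hy := by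
    unfold colM
    simp only
    rw [filter_true_insert, decide_eq_true hy]
    generalize par (M.filter fun c => c.1 = true).card = A
    cases base <;> cases A <;> rfl
  cst q _ hq := colM_l hq

/-- **Colours of the second world on the floor.** -/
theorem clF : ClF b i M (colM base (insert (false, i) M) ex) where
  step q _ h1 h2 := colM_l (by
    rw [mem_insert, not_or]
    exact ⟨fun h => h1 (by rw [Prod.mk.injEq] at h; exact h.2), h2⟩)
  jump := colM_l' (mem_insert_self _ _)

end Pool.Agent.H87.W
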