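import Mathlib
import Pool.Agent.H87.W.JCol

set_option autoImplicit false
open Finset

/-! # (J5) the floor: from corresponding configurations to probabilities in the junction world -/

namespace Pool.Agent.H87.W

open Pool.Agent.H33.Q1 Pool.Agent.H6.W Pool.Agent.H50.W Pool.Agent.H61.W
open Pool.Agent.H58.W hiding up
open Pool.Agent.H13.W Pool.Agent.H82.W Pool.Agent.H35.W
open Pool.Agent.H19.W (cx cy cx_lt cy_lt mv)

section ev
variable {β γ : Type*} [DecidableEq β] [DecidableEq γ] {A : WD β} {B : WD γ} {φ : ℤ × ℤ → ℤ × ℤ}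
  {S : Set (ℤ × ℤ)} {O1 O2 : Finset (ℤ × ℤ)}

/-- **events which agree on blocked configurations** -/
theorem ev_le (L : LMove A B φ S O1 O2) {Blk A1 A2 : Finset (ℤ × ℤ) → Prop}
    (h : ∀ ω1 ω2, Cor A B φ S O1 O2 ω1 ω2 → Blk (ω2 ∩ O2) → (A1 ω1 ↔ A2 ω2)) :
    |PB A.E A.b A1 - PB B.E B.b A2| ≤ PB B.E B.b (fun ω => ¬ Blk (ω ∩ O2)) := by
  have C := L.coup Blk
  have hA : AgreeB A.E B.E O1 O2 (LT A B φ S O1) Blk A1 A2 :=
    fun ω1 g1 ω2 g2 g3 g4 => h ω1 ω2 ⟨g1, g2, g3⟩ g4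
  rw [C.diff hA]
  have e1 : PB A.E A.b (fun ω => A1 ω ∧ ¬ Blk (LT A B φ S O1 (ω ∩ O1))) ≤
      PB A.E A.b (fun ω => ¬ Blk (LT A B φ S O1 (ω ∩ O1))) := PB_mono fun ω _ h => h.2
  have e2 : PB B.E B.b (fun ω => A2 ω ∧ ¬ Blk (ω ∩ O2)) ≤ PB B.E B.b (fun ω => ¬ Blk (ω ∩ O2)) :=
    PB_mono fun ω _ h => h.2
  rw [C.not_eq] at e1
  have e3 := PB_nonneg A.E A.b (fun ω => A1 ω ∧ ¬ Blk (LT A B φ S O1 (ω ∩ O1)))
  have e4 := PB_nonneg B.E B.b (fun ω => A2 ω ∧ ¬ Blk (ω ∩ O2))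
  rw [abs_le]
  constructor <;> linarith

end ev

variable {b : JBox} {δ σ : ℝ} {h i : ℕ} {M : Finset (Bool × ℕ)} {v : ℤ × ℤ} {xl xr yt : ℤ}
  {C : Set (ℤ × ℤ)} {fp : Finset (ℤ × ℤ)} {cl cl2 : Cl} {o : Bool} {B ρ R : ℤ} {ω : Finset (ℤ × ℤ)}

lemma prop_aux (p q r W : Prop) (o : Bool) :
    (((p ∧ ¬ q) ∧ ¬ (r ∧ ¬ q) ∨ (r ∧ ¬ q) ∧ ¬ (p ∧ ¬ q)) ∨ W ∨ (if o = true then q ∧ ¬ r else q ∧ r)) ↔
      (((if o = true then p ∨ q else p ∧ ¬ q) ∧ ¬ r ∨ r ∧ ¬ (if o = true then p ∨ q else p ∧ ¬ q)) ∨ W) := by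
  cases o <;> by_cases k1 : p <;> by_cases k2 : q <;> by_cases k3 : r <;> simp [k1, k2, k3]

lemma mem_cfg {e : ℤ × ℤ} : e ∈ cfg b h o ω ↔ (if o = true then e ∈ ω ∨ e ∈ b.Pl h else
    e ∈ ω ∧ e ∉ b.Pl h) := by
  unfold cfg
  cases o
  · simp only [Bool.false_eq_true, if_false, mem_sdiff]
  · simp only [if_true, mem_union]

lemma mem_PP {e : ℤ × ℤ} : e ∈ PP b h fp o ↔ (if o = true then e ∈ b.Pl h ∧ e ∉ fp else
    e ∈ b.Pl h ∧ e ∈ fp) := by
  unfold PP
  cases o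
  · simp only [Bool.false_eq_true, if_false, mem_inter]
  · simp only [if_true, mem_sdiff]

/-- the labels of world 1 -/
lemma st_WT : (WT b h M cl v C fp o).st (ω \ b.Pl h) = symmDiff (cfg b h o ω) fp ∪ Wl b (2 * h) cl := by
  ext e
  show e ∈ symmDiff (ω \ b.Pl h) (fp \ b.Pl h) ∪ (Wl b (2 * h) cl ∪ PP b h fp o) ↔ _
  rw [mem_union, mem_union, mem_union, mem_symmDiff, mem_symmDiff, mem_sdiff, mem_sdiff, mem_PP, mem_cfg]
  exact prop_aux _ _ _ _ o

lemma WFE_sub : (WF b h i M cl2 C fp o).E ⊆ b.B h := by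
  classical
  intro e he
  have he' : e ∈ (b.B h \ b.Pl h).filter _ := he
  exact (mem_sdiff.1 (mem_filter.1 he').1).1

lemma FO_sub : FO b h i cl2 ⊆ b.B h := by
  classical
  unfold FO
  exact filter_subset _ _

lemma force_sub' {c : Bool × ℕ} {w : Finset (ℤ × ℤ)} {e : ℤ × ℤ} (he : e ∈ force b h c cl w) :
    e ∈ w ∨ e ∈ b.B h := by
  classical
  unfold force at he
  rw [mem_union, mem_filter, mem_filter] at he
  exact he.imp And.left And.left

/-- the labels of world 2 -/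
lemma st_WF (G : FlG δ σ b h i M v xl xr yt C fp) (hω : ω ⊆ b.B h) :
    (WF b h i M cl2 C fp o).st (ω ∩ (WF b h i M cl2 C fp o).E) =
      force b h (false, i) cl2 (symmDiff (cfg b h o ω) fp) ∪ Wl b (2 * h) cl2 := by
  classical
  ext e
  show e ∈ symmDiff (ω ∩ (WF b h i M cl2 C fp o).E) (fp \ b.Pl h) ∪
    (Wl b (2 * h) cl2 ∪ (PP b h fp o ∪ FO b h i cl2)) ↔ _
  by_cases heB : e ∈ b.B h
  · obtain ⟨x, y, rfl, hQ⟩ := of_B G.hh heB
    rw [mem_union, mem_union (s := force _ _ _ _ _), mem_force G.hh, mem_symmDiff, mem_inter,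
      mem_WFE G.hh, mem_union, mem_union, mem_FO G.hh]
    rw [mem_symmDiff, mem_cfg, mem_PP, mem_sdiff]
    by_cases hf : fr b (2 * h) (false, i) x y
    · have g1 := G.fr_row hf
      have g2 : lt (x, y) ∉ fp := fun g => by
        have := G.fp_row g
        omega
      have g3 : lt (x, y) ∉ b.Pl h := fun g => G.not_Pl g1 g
      cases o <;> simp [hf, g2, g3, or_comm]
    · simp only [hf, hQ, false_and, not_false_eq_true, and_true, true_and, false_or, or_false]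
      exact prop_aux _ _ _ _ o
  · have h1 : e ∉ ω := fun g => heB (hω g)
    have h2 : e ∉ fp := fun g => heB (G.fpB g)
    have h3 : e ∉ b.Pl h := fun g => heB (G.plB g)
    have h4 : e ∉ PP b h fp o := fun g => h3 (PP_sub g)
    have h5 : e ∉ FO b h i cl2 := fun g => heB (FO_sub g)
    have h7 : e ∉ cfg b h o ω := fun g => by
      unfold cfg at g
      cases o
      · simp only [Bool.false_eq_true, if_false, mem_sdiff] at g
        exact h1 g.1
      · simp only [if_true, mem_union] at g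
        exact g.elim h1 h3
    have h6 : e ∉ force b h (false, i) cl2 (symmDiff (cfg b h o ω) fp) := fun g => by
      rcases force_sub' g with g | g
      · rw [mem_symmDiff] at g
        exact g.elim (fun k => h7 k.1) (fun k => h2 k.1)
      · exact heB g
    rw [mem_union, mem_union, mem_union, mem_union, mem_symmDiff]
    simp only [mem_inter, mem_sdiff, h1, h2, h4, h5, h6, false_and, or_self, false_or, or_false]

/-- **Events in the junction world.** -/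
theorem fl_event (G : FlG δ σ b h i M v xl xr yt C fp) {E1 E2 : Finset (ℤ × ℤ) → Prop}
    (H : ∀ ω1 ω2, Cor (WT b h M cl v C fp o) (WF b h i M cl2 C fp o) (mv (Str0 v)) (Str0 v)
      (OA b h v xl xr yt) (OB b h v xl xr yt) ω1 ω2 → BlkF b h i cl2 B ρ R (ω2 ∩ OB b h v xl xr yt) →
      (E1 ((WT b h M cl v C fp o).st ω1) ↔ E2 ((WF b h i M cl2 C fp o).st ω2))) :
    |b.PJ h (fun ω => E1 (symmDiff (cfg b h o ω) fp ∪ Wl b (2 * h) cl)) -
      b.PJ h (fun ω => E2 (force b h (false, i) cl2 (symmDiff (cfg b h o ω) fp) ∪ Wl b (2 * h) cl2))| ≤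
      PB (WF b h i M cl2 C fp o).E (WF b h i M cl2 C fp o).b
        (fun ω => ¬ BlkF b h i cl2 B ρ R (ω ∩ OB b h v xl xr yt)) := by
  have h1 : b.PJ h (fun ω => E1 (symmDiff (cfg b h o ω) fp ∪ Wl b (2 * h) cl)) =
      PB (WT b h M cl v C fp o).E (WT b h M cl v C fp o).b
        (fun ω => E1 ((WT b h M cl v C fp o).st ω)) := by
    unfold JBox.PJ
    rw [← PB_restrict (show (WT b h M cl v C fp o).E ⊆ b.B h from sdiff_subset)]
    refine PB_congr fun ω hω => ?_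
    beta_reduce
    have e : ω ∩ (WT b h M cl v C fp o).E = ω \ b.Pl h := by
      ext e
      show e ∈ ω ∩ (b.B h \ b.Pl h) ↔ _
      rw [mem_inter, mem_sdiff, mem_sdiff]
      exact ⟨fun g => ⟨g.1, g.2.2⟩, fun g => ⟨g.1, hω g.1, g.2⟩⟩
    rw [e, st_WT]
  have h2 : b.PJ h (fun ω => E2 (force b h (false, i) cl2 (symmDiff (cfg b h o ω) fp) ∪
      Wl b (2 * h) cl2)) = PB (WF b h i M cl2 C fp o).E (WF b h i M cl2 C fp o).b
        (fun ω => E2 ((WF b h i M cl2 C fp o).st ω)) := by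
    unfold JBox.PJ
    rw [← PB_restrict (WFE_sub (cl2 := cl2) (M := M) (i := i) (C := C) (fp := fp) (o := o))]
    refine PB_congr fun ω hω => ?_
    beta_reduce
    rw [st_WF G hω]
  rw [h1, h2]
  exact ev_le (G.lm (cl := cl) (cl2 := cl2) (o := o)) H

end Pool.Agent.H87.W
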