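import Mathlib
import Pool.Agent.H82.W.Simu
import Pool.Agent.H73.W.JAbs2

set_option autoImplicit false
open Finset

/-! # Cut strand graphs and simulations: the pattern of the names

`Cut` (73) for two worlds, `Simu` (82) of the cut graph of world 1 by the cut graph of world 2, a block `I` of world 2
with one exit; one alive end `z` at the block in both worlds, all other names have images outside `I`. Then the
connections of the alive ends with all names agree. -/

namespace Pool.Agent.H87.W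

open SimpleGraph
open Pool.Agent.H99.W Pool.Agent.H73.W Pool.Agent.H82.W

variable {φ ι : Type*} {G1 T1 H1 H1o G2 T2 H2 : SimpleGraph (ℤ × ℤ)} {F1 F2 : φ → ℤ × ℤ}
  {s1 n1 s2 n2 : ι → ℤ × ℤ} {K I : Set (ℤ × ℤ)} {R : ℤ × ℤ → ℤ × ℤ → Prop} {b : ℤ × ℤ}

section
variable (c1 : Cut G1 T1 H1 F1 s1 n1) (c2 : Cut G2 T2 H2 F2 s2 n2)
  (M : Simu H1 H1o K H2 R) (hI : ∀ u v, u ∈ I → v ∉ I → H2.Adj u v → v = b)
  (hK : ∀ c ∈ K, ∀ c', R c c' → c' ∈ I) {z : φ} (hz : F1 z ∈ K) (hz' : F2 z ∈ I)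
  {ys : Na φ ι → ℤ × ℤ} (hR : ∀ a, a ≠ .inl z → R (co F1 s1 n1 a) (ys a))
  (hyI : ∀ a, a ≠ .inl z → ys a ∉ I)
  (hy : ∀ a, a ≠ .inl z → H2.Reachable (ys a) (co F2 s2 n2 a))

include c2 hI hz' hyI hy in
/-- the moving end is joined to the exit -/
lemma cut_exit : H2.Reachable (F2 z) b := by
  obtain ⟨a, -, h2, h3⟩ := c2.act.pt (.inl z) (Cut.Ac_inl z)
  exact reach_exit hI hz' (hyI a h2) (h3.trans (hy a h2).symm)

include c2 M hI hK hz hz' hR hyI hy in
/-- **joined names stay joined** -/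
lemma cut_conn {a c : Na φ ι} (h : H1.Reachable (co F1 s1 n1 a) (co F1 s1 n1 c)) :
    H2.Reachable (co F2 s2 n2 a) (co F2 s2 n2 c) := by
  have hb := cut_exit c2 hI hz' hyI hy
  have key : ∀ a : Na φ ι, ∃ y, ImS K H2 R I b (co F1 s1 n1 a) y ∧ H2.Reachable y (co F2 s2 n2 a) := by
    intro a
    by_cases ha : a = .inl z
    · subst ha
      exact ⟨F2 z, Or.inr ⟨hz, hb⟩, Reachable.refl _⟩
    · exact ⟨ys a, Or.inl ⟨hR a ha, hyI a ha⟩, hy a ha⟩
  obtain ⟨y, hy1, hy2⟩ := key a
  obtain ⟨y', hy1', hy2'⟩ := key c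
  exact hy2.symm.trans ((M.conn hI hK h hy1 hy1').trans hy2')

include c1 c2 M hI hK hz hz' hR hyI hy in
/-- **The pattern of the names agrees.** -/
theorem pat_cut (a : φ) (c : Na φ ι) :
    G1.Reachable (F1 a) (co F1 s1 n1 c) ↔ G2.Reachable (F2 a) (co F2 s2 n2 c) := by
  have conn := fun {a c : Na φ ι} (h : H1.Reachable (co F1 s1 n1 a) (co F1 s1 n1 c)) =>
    cut_conn c2 M hI hK hz hz' hR hyI hy h
  rw [c1.thin, c2.thin]
  constructor
  · intro h
    have h1 := (c1.T_iff (a := .inl a) (b := c)).1 h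
    have h3 : Cut.St H1 F1 s1 n1 ≤ Cut.St H2 F2 s2 n2 := by
      rintro p q (h2 | h2)
      · exact Or.inl (conn h2)
      · exact Or.inr h2
    exact (c2.T_iff (a := .inl a) (b := c)).2 (Relation.ReflTransGen.mono h3 _ _ h1)
  · intro h
    have h1 := (c2.T_iff (a := .inl a) (b := c)).1 h
    refine (c1.T_iff (a := .inl a) (b := c)).2 ?_
    clear h
    induction h1 with
    | refl => exact Relation.ReflTransGen.refl
    | @tail p q _ hpq ih =>
      rcases hpq with h2 | h2
      · -- the partner of `p` in world 1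
        have hA : Cut.Ac T1 F1 s1 n1 p := ⟨a, (c1.T_iff (a := .inl a) (b := p)).2 ih⟩
        obtain ⟨r, -, hr2, hr3⟩ := c1.act.pt p hA
        by_cases hpq : q = p
        · rw [hpq]; exact ih
        · have h4 := conn hr3
          have hne : co F2 s2 n2 p ≠ co F2 s2 n2 r := fun e => hr2 (c2.inj _ _ e).symm
          rcases ends_two c2.act.deg (c2.eH p) (c2.eH r) (c2.eH q) h4 h2 hne with h5 | h5
          · exact absurd (c2.inj _ _ h5) hpq
          · have : q = r := c2.inj _ _ h5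
            subst this
            exact ih.tail (Or.inl hr3)
      · exact ih.tail (Or.inr h2)

end

end Pool.Agent.H87.W
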