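import Mathlib
import Pool.Agent.H87.W.JEv
import Pool.Agent.H87.W.JPat

set_option autoImplicit false
set_option linter.unusedSectionVars false
open Finset

/-! # (J5) the floor: names outside the block, start at the block -/

namespace Pool.Agent.H87.W

open Pool.Agent.H33.Q1 Pool.Agent.H6.W Pool.Agent.H50.W Pool.Agent.H61.W
open Pool.Agent.H58.W hiding up
open Pool.Agent.H13.W Pool.Agent.H82.W Pool.Agent.H70.W
open Pool.Agent.H99.NC (BR)
open Pool.Agent.H19.W (cx cy cx_lt cy_lt mv)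

variable {b : JBox} {δ σ : ℝ} {h i : ℕ} {M : Finset (Bool × ℕ)} {v : ℤ × ℤ} {xl xr yt : ℤ}
  {C : Set (ℤ × ℤ)} {fp : Finset (ℤ × ℤ)} {cl cl2 : Cl} {o : Bool} {x y B ρ R : ℤ} {ω2 : Finset (ℤ × ℤ)}
  {I : Set (ℤ × ℤ)} {c : ℤ × ℤ}

/-- **the moving end is at the block** -/
lemma zc_KB (h1 : xl ≤ v.1) (h2 : v.1 ≤ xr) (h3 : v.2 ≤ yt) : zc v ∈ KB (Blk0 xl xr yt) := by
  have h4 : lt v ∈ Blk0 xl xr yt := mem_Blk0.2 ⟨⟨h1, h2⟩, h3⟩
  have h5 := (Pool.Agent.H45.W.lab_iff (zc v) (lt v)).2 ⟨lt_odd v, Pool.Agent.H45.W.sq_eW _⟩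
  rcases h5 with h5 | h5
  · exact Or.inl (h5 ▸ h4)
  · exact Or.inr (h5 ▸ h4)

/-- a corner with a tile outside the (slightly larger) ball is not in the block -/
lemma notMem_I (hI : ∀ c ∈ I, ∃ e ∈ BR (zf b h i) B, IsSd e c) (h1 : Sd (lt (x, y)) c)
    (h2 : ∀ x' y', |x' - x| ≤ 1 → |y' - y| ≤ 1 → lt (x', y') ∉ BR (zf b h i) B) : c ∉ I := by
  intro hc
  obtain ⟨e, he, hs⟩ := hI c hc
  obtain ⟨x', y', rfl⟩ := of_odd (Pool.Agent.H70.W.mem_BR.1 he).2.2
  obtain ⟨n1, n2, -⟩ := near_tiles h1 hs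
  exact h2 x' y' n1 n2 he

section
variable (G : BlG δ σ b h i M C B) (L : FlG δ σ b h i M v xl xr yt C fp) (N : BlN b h i xl xr yt B ρ R)
include G L N

/-- **the start of world 2 is in the block** -/
lemma start_I (hC0 : ∀ e ∈ C, -1 ≤ cy e)
    (hI : ∀ e ∈ (WF b h i M cl2 C fp o).Λ, e ∈ BR (zf b h i) (ρ - 1) → ∀ c, IsSd e c → c ∈ I) :
    fa b (2 * h) cl2 (false, i) ∈ I := by
  obtain ⟨x, y, h1, h2, h3, h4, h5⟩ := fa_tile L.ok L.n0 (q := (false, i)) L.hi
    (insert (false, i) M) cl2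
  have n0 := L.n0
  have hyH := L.hyH
  have e1 : ((b.H : ℤ) + i + 1) * (2 * h) = b.H * (2 * h) + i * (2 * h) + 2 * h := by ring
  have e2 : (0 : ℤ) ≤ i * (2 * h : ℤ) := by positivity
  have e4 : (0 : ℤ) ≤ b.H * (2 * h : ℤ) := by positivity
  have hlo := L.lo_T h2
  have h6 : -((b.H + i + 1) * (2 * h) : ℤ) - 1 ≤ y ∧ y ≤ -((b.H + i + 1) * (2 * h) : ℤ) := by
    rcases h5 with ⟨h5, -⟩ | ⟨-, h5⟩
    · exact absurd h5 (by simp)
    · exact h5
  have hx1 := L.hxl; have hx2 := L.hxr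
  simp only at h4 h6
  refine hI _ ⟨h2, fun hc => ?_⟩ (N.near (x := x) (y := y) (by omega) (by omega) (by omega) hlo) _ h1
  have := hC0 _ hc
  rw [cy_lt] at this
  simp only at this
  omega

/-- a mark is outside the block: its tile is far -/
lemma mark_far {q : Bool × ℕ} (hq : q ∈ M)
    (hx : x = b.st q.2 * (2 * h) ∨ x = b.st q.2 * (2 * h) - 1)
    (hy : (q.1 = true ∧ ((b.H + q.2 + 1) * (2 * h) - 1 ≤ y ∧ y ≤ (b.H + q.2 + 1) * (2 * h))) ∨
        (q.1 = false ∧ (-((b.H + q.2 + 1) * (2 * h) : ℤ) - 1 ≤ y ∧ y ≤ -((b.H + q.2 + 1) * (2 * h) : ℤ) + 1)))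
    {x' y' : ℤ} (n1 : |x' - x| ≤ 1) (n2 : |y' - y| ≤ 1) : lt (x', y') ∉ BR (zf b h i) B := by
  intro hB
  have hp := G.pos hB
  have n0 := L.n0
  rw [abs_le] at n1 n2
  have e1 : ((b.H : ℤ) + q.2 + 1) * (2 * h) = b.H * (2 * h) + q.2 * (2 * h) + 2 * h := by ring
  have e2 : (0 : ℤ) ≤ q.2 * (2 * h : ℤ) := by positivity
  have e4 : (0 : ℤ) ≤ b.H * (2 * h : ℤ) := by positivity
  rcases hy with ⟨hs, hy⟩ | ⟨hs, hy⟩
  · omega
  · have hq' : (false, q.2) ∈ M := by rw [← hs]; exact hq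
    have := G.mkf q.2 hq'
    omega

/-- **the image of a mark is outside the block** -/
lemma yq_out {q : Bool × ℕ} (hq : q ∈ M) (hI : ∀ c ∈ I, ∃ e ∈ BR (zf b h i) B, IsSd e c) :
    yq b (2 * h) i cl q ∉ I := by
  obtain ⟨x, y, h1, h2, h3, h4, h5⟩ := fa_tile L.ok L.n0 (L.hM q hq) M cl
  unfold yq
  split_ifs with hc
  · refine notMem_I (x := x) (y := y + 1) hI ?_ fun x' y' n1 n2 => ?_
    · have h6 : Sd (H13.W.up (lt (x, y))) (H13.W.up (fa b (2 * h) cl q)) := by
        unfold H13.W.Sd at h1 ⊢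
        rcases h1 with h1 | h1 | h1 | h1 <;> rw [h1]
        · exact Or.inl (by unfold H13.W.up eW; rfl)
        · exact Or.inr (Or.inl (up_eE _))
        · exact Or.inr (Or.inr (Or.inl (by unfold H13.W.up eS; exact Prod.ext (by simp only; ring) rfl)))
        · exact Or.inr (Or.inr (Or.inr (up_eN _)))
      rwa [up_lt] at h6
    · refine mark_far G L N hq h4 ?_ n1 n2
      rcases h5 with ⟨h5, -⟩ | ⟨h5, h6⟩
      · rw [h5] at hc
        exact absurd hc.1 (by simp)
      · exact Or.inr ⟨h5, by omega⟩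
  · refine notMem_I (x := x) (y := y) hI h1 fun x' y' n1 n2 => ?_
    refine mark_far G L N hq h4 ?_ n1 n2
    rcases h5 with h5 | ⟨h5, h6⟩
    · exact Or.inl h5
    · exact Or.inr ⟨h5, by omega⟩

/-- **the image of the alive corner is joined to the alive corner** -/
lemma yq_fa (hc : ClRel i v.2 M cl cl2) {q : Bool × ℕ} (hq : q ∈ M)
    (hj : q.1 = false → cl2.l (q.2 + 1) = !cl2.l q.2) (h2 : ω2 ⊆ (WF b h i M cl2 C fp o).E) :
    ((WF b h i M cl2 C fp o).G ω2).Reachable (yq b (2 * h) i cl q) (fa b (2 * h) cl2 q) := by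
  have hqK := L.hM q hq
  have n0 := L.n0
  obtain ⟨s, j⟩ := q
  simp only at hqK hj
  cases s
  · rcases mark_out G L N hq with ⟨k1, k2⟩ | ⟨k1, k2⟩
    · have e : fa b (2 * h) cl2 (false, j) = fa b (2 * h) cl (false, j) := by
        unfold fa
        simp only [Bool.false_eq_true, if_false]
        rw [hc.lo j k1.le]
      unfold yq
      rw [if_neg (by simp only; omega), e]
    · unfold yq
      rw [if_pos ⟨rfl, k1⟩]
      have hst := L.ok.st_lo j hqK
      have hX : b.st j * (2 * h) < b.X * (2 * h : ℤ) := mul_lt_mul_of_pos_right hst.2 n0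
      have e1 : ((b.H : ℤ) + j + 1) * (2 * h) = (b.H + j) * (2 * h) + 2 * h := by ring
      have e2 : ((b.H : ℤ) + (j + 1 : ℕ)) * (2 * h) = (b.H + j) * (2 * h) + 2 * h := by push_cast; ring
      have e3 : ((b.H : ℤ) + (j + 1 : ℕ) + 1) * (2 * h) = (b.H + j) * (2 * h) + 2 * h + 2 * h := by
        push_cast; ring
      have e4 : (0 : ℤ) < (b.H + j) * (2 * h : ℤ) := by
        have := L.ok.H0
        positivity
      have e5 : (b.H : ℤ) * (2 * h) ≤ (b.H + j) * (2 * h) := mul_le_mul_of_nonneg_right (by omega) n0.le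
      have g1 : ¬ InQ b (2 * h) (b.st j * (2 * h)) (-((b.H + j + 1) * (2 * h) : ℤ) - 1) :=
        not_InQ_row L.ok n0 hqK (by omega) le_rfl
      have g2 : InQ b (2 * h) (b.st j * (2 * h)) (-((b.H + j + 1) * (2 * h) : ℤ)) :=
        (InQ_step L.ok n0 (j := j) (by omega) (by omega)).2 ⟨hqK, hX, le_rfl⟩
      have g3 : ¬ InQ b (2 * h) (b.st j * (2 * h) - 1) (-((b.H + j + 1) * (2 * h) : ℤ)) := fun h =>
        absurd ((InQ_step L.ok n0 (j := j) (by omega) (by omega)).1 h).2.2 (by omega)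
      have l1 : Ly1 b (2 * h) (b.st j * (2 * h)) (-((b.H + j + 1) * (2 * h) : ℤ) - 1) :=
        ⟨g1, Or.inr (Or.inr (Or.inl (by rwa [sub_add_cancel])))⟩
      have l3 : Ly1 b (2 * h) (b.st j * (2 * h) - 1) (-((b.H + j + 1) * (2 * h) : ℤ)) :=
        ⟨g3, Or.inl (by rwa [sub_add_cancel])⟩
      have hfr : fr b (2 * h) (false, i) (b.st j * (2 * h)) (-((b.H + j + 1) * (2 * h) : ℤ)) := by
        refine ⟨g2, ?_, ?_⟩
        · have := L.hxr
          simp only
          omega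
        · simp only [Bool.false_eq_true, if_false]
          exact ⟨by omega, g1⟩
      have hnC : ∀ {x y : ℤ}, y < -1 → lt (x, y) ∉ C := by
        intro x y hy hc
        have := L.hC _ hc
        rw [cy_lt] at this
        simp only at this
        omega
      refine mark_up (by omega) ⟨mem_LamT.2 (Or.inr (Or.inl l3)), hnC (by omega)⟩ (Set.notMem_empty _)
        ⟨mem_LamT.2 (Or.inl g2), hnC (by omega)⟩ (Set.notMem_empty _)
        ⟨mem_LamT.2 (Or.inr (Or.inl l1)), hnC (by omega)⟩ (Set.notMem_empty _) ?_ ?_ ?_ (hj rfl)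
        (hc.hi j k1)
      · rw [G.st_ly l3.ly L.fpB L.plB h2, lcol_low (j := j) n0 (by omega) (by omega) hqK.le (by omega)
          (by omega)]
      · have hQ := hfr.1
        have hy := L.fr_row hfr
        have a1 : lt (b.st j * (2 * h), -((b.H + j + 1) * (2 * h) : ℤ)) ∉ ω2 :=
          fun g => ((mem_WFE L.hh).1 (h2 g)).2 hfr
        have a2 : lt (b.st j * (2 * h), -((b.H + j + 1) * (2 * h) : ℤ)) ∉ (WF b h i M cl2 C fp o).F :=
          fun g => by
            have := L.fp_row (mem_sdiff.1 g).1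
            omega
        rw [WD.mem_st' a1 a2]
        show _ ∈ Wl b (2 * h) cl2 ∪ (PP b h fp o ∪ FO b h i cl2) ↔ _
        rw [mem_union, or_iff_right (notMem_Wl hQ), mem_union,
          or_iff_right (fun g => L.not_Pl hy (PP_sub g)), mem_FO L.hh]
        have e6 : frc b (2 * h) (false, i) cl2 (b.st j * (2 * h)) (-((b.H + j + 1) * (2 * h) : ℤ)) =
            cl2.l (j + 1) := by
          unfold frc
          simp only [Bool.false_eq_true, if_false]
          exact lcol_low (j := j + 1) n0 (by omega) (by omega) (by omega) (by omega) (by omega)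
        rw [e6]
        exact ⟨fun g => g.2, fun g => ⟨hfr, g⟩⟩
      · rw [G.st_ly l1.ly L.fpB L.plB h2, lcol_low (j := j + 1) n0 (by omega) (by omega) (by omega)
          (by omega) (by omega)]
  · have e : fa b (2 * h) cl2 (true, j) = fa b (2 * h) cl (true, j) := by
      unfold fa
      simp only [if_true]
      rw [hc.u j]
    unfold yq
    rw [if_neg (by simp), e]

end

end Pool.Agent.H87.W
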