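import Mathlib
import Pool.Agent.H87.W.JCore

set_option autoImplicit false
set_option linter.unusedSectionVars false
open Finset

/-! # (J5) (a): the moving end of the `X` world near the floor -/

namespace Pool.Agent.H87.W

open Pool.Agent.H33.Q1 Pool.Agent.H6.W Pool.Agent.H50.W Pool.Agent.H61.W
open Pool.Agent.H58.W hiding up
open Pool.Agent.H13.W Pool.Agent.H82.W Pool.Agent.H70.W
open Pool.Agent.H99.NC (BR)
open Pool.Agent.H99.W (IsEnd)
open Pool.Agent.H19.W (cx cy cx_lt cy_lt mv)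
open Pool.Agent.H45.W (BG JW DD DD_X al AS QS FF zc_isEnd al_ne_eW al_inj lamG_Lam lamG_LamT LamT_iff)

variable {b : JBox} {δ σ : ℝ} {h i : ℕ} {M : Finset (Bool × ℕ)} {v : ℤ × ℤ} {xl xr yt : ℤ}
  {C : Set (ℤ × ℤ)} {fp : Finset (ℤ × ℤ)} {cl cl2 : Cl} {o base : Bool} {x y B ρ R : ℤ}
  {ω1 ω2 : Finset (ℤ × ℤ)} {I : Set (ℤ × ℤ)} {c : ℤ × ℤ} {q : Bool × ℕ}

/-! ### states in 45's form -/

lemma st_form1 : (WT b h M cl v C fp o).st ω1 =
    (symmDiff ω1 (fp \ b.Pl h) ∪ PP b h fp o) ∪ Wl b (2 * h) cl := by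
  show symmDiff ω1 (fp \ b.Pl h) ∪ (Wl b (2 * h) cl ∪ PP b h fp o) = _
  rw [union_assoc, union_comm (Wl b (2 * h) cl)]

lemma st_form2 : (WF b h i M cl2 C fp o).st ω2 =
    (symmDiff ω2 (fp \ b.Pl h) ∪ (PP b h fp o ∪ FO b h i cl2)) ∪ Wl b (2 * h) cl2 := by
  show symmDiff ω2 (fp \ b.Pl h) ∪ (Wl b (2 * h) cl2 ∪ (PP b h fp o ∪ FO b h i cl2)) = _
  rw [union_assoc, union_comm (Wl b (2 * h) cl2)]

lemma sub_form1 (hP : b.Pl h ⊆ b.B h) (hf : fp ⊆ b.B h) (h1 : ω1 ⊆ (WT b h M cl v C fp o).E) :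
    symmDiff ω1 (fp \ b.Pl h) ∪ PP b h fp o ⊆ b.B h := by
  have h2 : ω1 ⊆ b.B h := h1.trans sdiff_subset
  refine union_subset ?_ (PP_sub.trans hP)
  intro e he
  rw [mem_symmDiff] at he
  rcases he with ⟨g, -⟩ | ⟨g, -⟩
  · exact h2 g
  · exact hf (mem_sdiff.1 g).1

lemma sub_form2 (hP : b.Pl h ⊆ b.B h) (hf : fp ⊆ b.B h) (h1 : ω2 ⊆ (WF b h i M cl2 C fp o).E) :
    symmDiff ω2 (fp \ b.Pl h) ∪ (PP b h fp o ∪ FO b h i cl2) ⊆ b.B h := by
  have h2 : ω2 ⊆ b.B h := h1.trans WFE_sub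
  refine union_subset ?_ (union_subset (PP_sub.trans hP) FO_sub)
  intro e he
  rw [mem_symmDiff] at he
  rcases he with ⟨g, -⟩ | ⟨g, -⟩
  · exact h2 g
  · exact hf (mem_sdiff.1 g).1

lemma DD_nn : DD none none = ∅ := by
  ext p
  constructor
  · rintro (⟨v', hv, h⟩ | ⟨s, hs, -⟩)
    · exact absurd hv (by simp)
    · exact absurd hs (by simp)
  · intro h
    exact absurd h (Set.notMem_empty _)

/-- the world with four marks -/
lemma JW_4 {w0 : Finset (ℤ × ℤ)} {Λ : Set (ℤ × ℤ)} (hb : BG b) (hh : 0 < h) (hM : ∀ c ∈ M, c.2 < b.K)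
    (hc : par M.card = false) (hL : Pool.Agent.H45.W.LamG b (2 * h) M Λ) (h0 : w0 ⊆ b.B h) :
    JW b (2 * h) M none none base Λ (w0 ∪ Wl b (2 * h) (colM base M none)) := by
  refine JW.mk' (vo := none) (so := none) ⟨hb, by positivity, hM, ?_, ?_, ?_, ?_⟩ hL ?_
    fun x y h => (Pool.Agent.H45.W.ltB hh).1 (h0 h)
  · intro v' hv'; exact absurd hv' (by simp)
  · intro s hs; exact absurd hs (by simp)
  · intro v' hv'; exact absurd hv' (by simp)
  · rw [hc]; rfl
  · intro s hs; exact absurd hs (by simp)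

lemma par_insert (hi : (false, i) ∉ M) : par (insert (false, i) M).card = !par M.card := by
  rw [card_insert_of_notMem hi, Pool.Agent.H45.W.par_add]
  have : par 1 = true := rfl
  rw [this, Bool.xor_true]

/-- from a visited end: marks in the thick graph = alive corners in the thin graph -/
lemma RF_thin {vo so : Option (ℤ × ℤ)} {w : Finset (ℤ × ℤ)} {n : ℤ} (hn2 : n % 2 = 0)
    (W : JW b n M vo so base (Lam b n M) w) (hok : b.Ok δ σ) (hM : ∀ c ∈ M, c.2 < b.K)
    (hc : AS (QS b n) (Lam b n M) (lt '' (DD vo so)) w (FF b n M vo so) c) (hq : q ∈ M) :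
    RF b n (SG (Lam b n M) (lt '' (DD vo so)) w) c q ↔
      (SG (LamT b n M) (lt '' (DD vo so)) w).Reachable c
        (fa b n (colM base M (vo.map Prod.snd)) q) := by
  rw [W.RF_iff hc hq, fa_eq_al hn2 hq]
  refine W.wld.thin (LamT_sub hok W.J.n0 hM) ?_ hc
  intro e he ht
  rw [← LamT_eq hok W.J.n0 hM]
  exact (LamT_iff W.J.bg W.J.n0 hM).2 ⟨he, ht⟩

section
variable (U : FN δ σ b h i M v xl xr yt B ρ R) (hiM : (false, i) ∉ M) (hpar : par M.card = true)
  (hP : b.Pl h ⊆ b.B h)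
include U hiM hpar hP

/-- **The far end of the moving end = the far end of the new mark** (blocked configurations). -/
theorem detX (hC : Cor (WT b h M (colM base M (some v.2)) v ∅ ∅ o)
      (WF b h i M (colM base (insert (false, i) M) none) ∅ ∅ o) (mv (Str0 v)) (Str0 v)
      (OA b h v xl xr yt) (OB b h v xl xr yt) ω1 ω2)
    (hB : BlkF b h i (colM base (insert (false, i) M) none) B ρ R (ω2 ∩ OB b h v xl xr yt)) (hq : q ∈ M) :
    RF b (2 * h) (SG (Lam b (2 * h) M) (lt '' strD v)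
        ((WT b h M (colM base M (some v.2)) v ∅ ∅ o).st ω1)) (zc v) q ↔
      RF b (2 * h) (SG (Lam b (2 * h) (insert (false, i) M)) (lt '' ∅)
        ((WF b h i M (colM base (insert (false, i) M) none) ∅ ∅ o).st ω2))
        (fa b (2 * h) (colM base (insert (false, i) M) none) (false, i)) q := by
  classical
  have G : BlG δ σ b h i M ∅ B := U.blG fun e he => absurd he (Set.notMem_empty _)
  have L : FlG δ σ b h i M v xl xr yt ∅ ∅ := U.flG (fun e he => absurd he (Set.notMem_empty _))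
    (fun x y h => absurd h (notMem_empty _)) (empty_subset _) hP
  have N := U.blN
  have F : ClF b i M (colM base (insert (false, i) M) none) := clF
  have hcl := clRel (base := base) hiM v.2
  have hbg := BG.of_ok U.ok
  have hh : 0 < h := L.hh
  have n0 := L.n0
  have hn2 : (2 * (h : ℤ)) % 2 = 0 := by omega
  have hM2 : ∀ c ∈ insert (false, i) M, c.2 < b.K := by
    intro c hc
    rcases mem_insert.1 hc with rfl | hc
    · exact U.hi
    · exact U.hM c hc
  have hM := U.hM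
  have hm1 : (false, i) ∈ insert (false, i) M := mem_insert_self _ _
  have hp2 : par (insert (false, i) M).card = false := by rw [par_insert hiM, hpar]; rfl
  set cl := colM base M (some v.2) with hcldef
  set cl2 := colM base (insert (false, i) M) none with hcl2def
  -- worlds of 45
  have s1 := sub_form1 (cl := cl) (M := M) (v := v) (C := ∅) (o := o) hP (empty_subset _) hC.1
  have s2 := sub_form2 (cl2 := cl2) (M := M) (i := i) (C := ∅) (o := o) hP (empty_subset _) hC.2.1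
  have W1 := Pool.Agent.H45.W.JW_X (base := base) hbg hh hM hpar U.hv s1
  have W1T := Pool.Agent.H45.W.JW_XT (base := base) hbg hh hM hpar U.hv s1
  have W2 := JW_4 (base := base) hbg hh hM2 hp2 (lamG_Lam hbg n0 hM2) s2
  have W2T := JW_4 (base := base) hbg hh hM2 hp2 (lamG_LamT hbg n0 hM2) s2
  rw [LamT_eq U.ok n0 hM] at W1T
  rw [LamT_eq U.ok n0 hM2] at W2T
  rw [← hcldef, ← st_form1 (cl := cl) (M := M) (v := v) (C := ∅) (o := o)] at W1 W1T
  rw [← hcl2def, ← st_form2 (cl2 := cl2) (M := M) (i := i) (C := ∅) (o := o)] at W2 W2T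
  -- both sides in the thin graphs
  have r1 := RF_thin hn2 W1 U.ok hM (W1.zc_AS rfl) hq
  have a2 := W2.al_AS hm1
  have r2 := RF_thin hn2 W2 U.ok hM2 a2 (mem_insert_of_mem hq)
  rw [← fa_eq_al hn2 hm1] at r2
  rw [DD_X] at r1
  rw [DD_nn] at r2
  rw [r1]
  refine Iff.trans ?_ r2.symm
  show (SG (LamT b (2 * h) M) (lt '' strD v) ((WT b h M cl v ∅ ∅ o).st ω1)).Reachable (zc v)
      (fa b (2 * h) cl q) ↔ (SG (LamT b (2 * h) (insert (false, i) M)) (lt '' ∅)
        ((WF b h i M cl2 ∅ ∅ o).st ω2)).Reachable (fa b (2 * h) cl2 (false, i)) (fa b (2 * h) cl2 q)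
  -- the graphs of the simulation
  have g1 : (WT b h M cl v ∅ ∅ o).G ω1 =
      SG (LamT b (2 * h) M) (lt '' strD v) ((WT b h M cl v ∅ ∅ o).st ω1) := by
    show SG (LamT b (2 * h) M \ ∅) (lt '' strD v) _ = _
    rw [Set.sdiff_empty]
  have g2 : (WF b h i M cl2 ∅ ∅ o).G ω2 =
      SG (LamT b (2 * h) (insert (false, i) M)) (lt '' ∅) ((WF b h i M cl2 ∅ ∅ o).st ω2) := by
    show SG (LamT b (2 * h) (insert (false, i) M) \ ∅) ∅ _ = _
    rw [Set.sdiff_empty, Set.image_empty]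
  rw [← g1, ← g2]
  obtain ⟨I, bq, k1, k2, k3⟩ := blkF_blk G L N F hC.2.1 hB
  have hz : zc v ∈ KB (Blk0 xl xr yt) := zc_KB U.xl2.le U.xr2 U.yt1
  have hz' := start_I G L N (cl2 := cl2) (o := o) (fun e he => absurd he (Set.notMem_empty _)) k2
  have yf : ∀ q ∈ M, ((WF b h i M cl2 ∅ ∅ o).G ω2).Reachable (yq b (2 * h) i cl q) (fa b (2 * h) cl2 q) := by
    intro q hq
    refine yq_fa G L N hcl hq (fun hs => ?_) hC.2.1
    obtain ⟨s, j⟩ := q
    simp only at hs
    subst hs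
    exact Pool.Agent.H45.W.colM_l' (mem_insert_of_mem hq)
  have hend : ∀ {q : Bool × ℕ}, q ∈ insert (false, i) M → IsEnd ((WF b h i M cl2 ∅ ∅ o).G ω2) (fa b (2 * h) cl2 q) := by
    intro q hq
    have := W2T.al_isEnd hq
    rw [← fa_eq_al hn2 hq, DD_nn] at this
    rw [g2]
    exact this
  have inj : ∀ {q q' : Bool × ℕ}, q ∈ insert (false, i) M → q' ∈ insert (false, i) M →
      fa b (2 * h) cl2 q = fa b (2 * h) cl2 q' → q = q' := by
    intro q q' hq hq' he
    rw [hcl2def, fa_eq_al hn2 hq, fa_eq_al hn2 hq'] at he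
    exact al_inj n0 he
  have key := (L.simu (cl := cl) (cl2 := cl2) (o := o) hcl hC).far k1
    (fun c hc c' hc' => L.KB_img hcl N (by have := U.yt_lt; omega) hC k2 hc hc') hz hz'
    (x := fun q : {q // q ∈ M} => fa b (2 * h) cl q.1) (y := fun q => yq b (2 * h) i cl q.1)
    (fun q => SR_mark G L N q.2 fun e he => absurd he (Set.notMem_empty _))
    (fun q => yq_out G L N q.2 k3) ?_ ?_ ?_ ⟨q, hq⟩
  · simp only at key
    rw [key]
    exact ⟨fun g => g.trans (yf q hq), fun g => g.trans (yf q hq).symm⟩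
  · -- existence in world 1
    obtain ⟨q', ⟨hq', e1⟩, -⟩ := Pool.Agent.H45.W.exX W1T
    refine ⟨⟨q', hq'⟩, ?_⟩
    rw [W1T.RF_iff (W1T.zc_AS rfl) hq', DD_X] at e1
    simp only
    rw [hcldef, fa_eq_al hn2 hq', ← hcldef, g1]
    exact e1
  · -- existence in world 2
    have hE := W2T.al_isEnd hm1
    rcases W2T.far (W2T.al_AS hm1) hE (W2T.al_adj hm1) with ⟨q', hq', e1, e2⟩ | ⟨v', hv', -⟩ | ⟨s, hs, -⟩
    · have hq2 : q' ∈ M := by
        rcases mem_insert.1 hq' with rfl | h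
        · exact absurd rfl e1
        · exact h
      refine ⟨⟨q', hq2⟩, ?_⟩
      rw [DD_nn] at e2
      have e3 : ((WF b h i M cl2 ∅ ∅ o).G ω2).Reachable (fa b (2 * h) cl2 (false, i))
          (fa b (2 * h) cl2 q') := by
        rw [g2, hcl2def, fa_eq_al hn2 hm1, fa_eq_al hn2 hq']
        exact e2
      exact e3.trans (yf q' hq2).symm
    · exact absurd hv' (by simp)
    · exact absurd hs (by simp)
  · -- uniqueness in world 2
    rintro ⟨p, hp⟩ ⟨p', hp'⟩ e1 e2
    have e3 := e1.trans (yf p hp)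
    have e4 := e2.trans (yf p' hp')
    have hp2 : p ∈ insert (false, i) M := mem_insert_of_mem hp
    have hp2' : p' ∈ insert (false, i) M := mem_insert_of_mem hp'
    have n1 : fa b (2 * h) cl2 p ≠ fa b (2 * h) cl2 (false, i) := fun e => hiM (inj hp2 hm1 e ▸ hp)
    have n2 : fa b (2 * h) cl2 p' ≠ fa b (2 * h) cl2 (false, i) := fun e => hiM (inj hp2' hm1 e ▸ hp')
    have e5 := Pool.Agent.H45.W.far_unique (hend hm1) (hend hp2) (hend hp2') n1 n2 e3 e4
    exact Subtype.ext (inj hp2' hp2 e5).symm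

/-- `RF` in the `X` world against `RF` in the world with the mark and the forced row -/
noncomputable def eXf (b : JBox) (h : ℕ) (w o : Bool) (i : ℕ) (c2 c3 c4 q : Bool × ℕ) (v : ℤ × ℤ) : ℝ :=
  |b.PJ h (fun ω => RF b (2 * h) (GX b h w c2 c3 c4 v o ω) (zc v) q) -
    b.PJ h (fun ω => RF b (2 * h) (GG b (2 * h) (insert (false, i) {c2, c3, c4})
      (colM (bs w) (insert (false, i) {c2, c3, c4}) none) ∅
      (force b h (false, i) (colM (bs w) (insert (false, i) {c2, c3, c4}) none) (cfg b h o ω)))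
      (al b (2 * h) (colM (bs w) (insert (false, i) {c2, c3, c4}) none) (false, i)) q)|

end

/-- **(A) for `X`.** -/
theorem moveX : ∃ C0 α : ℝ, 0 < C0 ∧ 0 < α ∧
    ∀ {δ σ : ℝ} {b : JBox} {h i : ℕ} {c2 c3 c4 q : Bool × ℕ} {v : ℤ × ℤ} {xl xr yt B ρ R : ℤ}
      (w o : Bool), FN δ σ b h i {c2, c3, c4} v xl xr yt B ρ R → (false, i) ∉ ({c2, c3, c4} : Finset (Bool × ℕ)) →
      c2 ≠ c3 → c2 ≠ c4 → c3 ≠ c4 → b.Pl h ⊆ b.B h → q ∈ ({c2, c3, c4} : Finset (Bool × ℕ)) →
      eXf b h w o i c2 c3 c4 q v ≤ C0 * ((ρ : ℝ) / R) ^ α := by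
  obtain ⟨C0, α, hC0, hα, H⟩ := blkF_prob
  refine ⟨C0, α, hC0, hα, ?_⟩
  intro δ σ b h i c2 c3 c4 q v xl xr yt B ρ R w o U hi h23 h24 h34 hP hq
  have hp : par ({c2, c3, c4} : Finset (Bool × ℕ)).card = true := Pool.Agent.H45.W.par3 h23 h24 h34
  have G : BlG δ σ b h i {c2, c3, c4} ∅ B := U.blG fun e he => absurd he (Set.notMem_empty _)
  have L : FlG δ σ b h i {c2, c3, c4} v xl xr yt ∅ ∅ := U.flG (fun e he => absurd he (Set.notMem_empty _))
    (fun x y h => absurd h (notMem_empty _)) (empty_subset _) hP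
  have h1 := fl_event (cl := colM (bs w) {c2, c3, c4} (some v.2))
    (cl2 := colM (bs w) (insert (false, i) {c2, c3, c4}) none) (o := o) (B := B) (ρ := ρ) (R := R) L
    (E1 := fun W => RF b (2 * h) (SG (Lam b (2 * h) {c2, c3, c4}) (lt '' strD v) W) (zc v) q)
    (E2 := fun W => RF b (2 * h) (SG (Lam b (2 * h) (insert (false, i) {c2, c3, c4})) (lt '' ∅) W)
        (fa b (2 * h) (colM (bs w) (insert (false, i) {c2, c3, c4}) none) (false, i)) q)
    (fun ω1 ω2 hC hB => detX U hi hp hP hC hB hq)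
  have h2 := H (o := o) (cl2 := colM (bs w) (insert (false, i) {c2, c3, c4}) none) G L U.blN clF
  have e0 : ∀ ω : Finset (ℤ × ℤ), symmDiff (cfg b h o ω) ∅ = cfg b h o ω := fun ω => symmDiff_bot _
  simp only [e0] at h1
  unfold eXf
  have e1 : fa b (2 * h) (colM (bs w) (insert (false, i) {c2, c3, c4}) none) (false, i) =
      al b (2 * h) (colM (bs w) (insert (false, i) {c2, c3, c4}) none) (false, i) :=
    fa_eq_al (by omega) (mem_insert_self _ _)
  rw [← e1]
  exact h1.trans h2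

end Pool.Agent.H87.W
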