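import Pool.Agent.H87.W.HalfD

/-! Phases of the kernel on the torus. -/

namespace Pool.Agent.H87.W

open Complex MeasureTheory Set Filter Topology

/-- point of the circle -/
noncomputable def cis (a : ℝ) : ℂ := exp (a * I)

theorem norm_cis (a : ℝ) : ‖cis a‖ = 1 := norm_exp_ofReal_mul_I a

theorem cis_add (a b : ℝ) : cis (a + b) = cis a * cis b := by
  unfold cis
  rw [← exp_add]
  congr 1
  push_cast
  ring

theorem conj_cis (a : ℝ) : (starRingEnd ℂ) (cis a) = cis (-a) := by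
  unfold cis
  rw [← exp_conj]
  congr 1
  simp

/-- sign of the difference, as a real number -/
noncomputable def sg (x : ℝ) : ℝ := if 0 < x then 1 else -1

theorem one_sub_cis (x : ℝ) (hx : x ≠ 0) :
    1 - cis x = ((2 * (sg x * Real.sin (x / 2)) : ℝ) : ℂ) * cis ((x - Real.pi * sg x) / 2) := by
  have h2 := Complex.two_sin ((x / 2 : ℝ) : ℂ)
  have hsin : ((Real.sin (x / 2) : ℝ) : ℂ) = Complex.sin ((x / 2 : ℝ) : ℂ) := ofReal_sin _
  have e1 : cis x = cis (x / 2) * cis (x / 2) := by rw [← cis_add]; congr 1; ring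
  have e2 : exp (-((x / 2 : ℝ) : ℂ) * I) = cis (-(x / 2)) := by
    unfold cis; congr 1; push_cast; ring
  have e3 : exp (((x / 2 : ℝ) : ℂ) * I) = cis (x / 2) := rfl
  have e4 : cis (-(x / 2)) * cis (x / 2) = 1 := by
    rw [← cis_add]; simp [cis]
  rw [e2, e3] at h2
  have hpi : cis (-(Real.pi / 2)) = -I := by
    unfold cis
    push_cast
    rw [neg_mul, exp_neg, exp_pi_div_two_mul_I]
    simp
  have hpi' : cis (Real.pi / 2) = I := by
    unfold cis
    push_cast
    rw [exp_pi_div_two_mul_I]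
  rcases lt_or_gt_of_ne hx with h | h
  · have hs : sg x = -1 := if_neg (by linarith)
    rw [hs, show (x - Real.pi * -1) / 2 = x / 2 + Real.pi / 2 by ring, cis_add, hpi']
    push_cast
    push_cast at h2 hsin e1
    rw [e1]
    push_cast at e4
    linear_combination (-(1 : ℂ)) * cis (x / 2) * I * (-1) * h2 + (cis (-(x / 2)) * cis (x / 2) - cis (x / 2) * cis (x / 2)) * I_sq - e4
  · have hs : sg x = 1 := if_pos h
    rw [hs, show (x - Real.pi * 1) / 2 = x / 2 + -(Real.pi / 2) by ring, cis_add, hpi]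
    push_cast
    push_cast at h2 hsin e1
    rw [e1]
    push_cast at e4
    linear_combination (1 : ℂ) * cis (x / 2) * I * h2 + (cis (-(x / 2)) * cis (x / 2) - cis (x / 2) * cis (x / 2)) * I_sq - e4

theorem sg_mul_sin_pos {x : ℝ} (hx : x ≠ 0) (h1 : -(2 * Real.pi) < x) (h2 : x < 2 * Real.pi) :
    0 < sg x * Real.sin (x / 2) := by
  rcases lt_or_gt_of_ne hx with h | h
  · have hs : sg x = -1 := if_neg (by linarith)
    rw [hs]
    have := Real.sin_neg_of_neg_of_neg_pi_lt (x := x / 2) (by linarith) (by linarith)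
    linarith
  · have hs : sg x = 1 := if_pos h
    rw [hs]
    have := Real.sin_pos_of_pos_of_lt_pi (x := x / 2) (by linarith) (by linarith)
    linarith

theorem cis_ne_one {x : ℝ} (hx : x ≠ 0) (h1 : -(2 * Real.pi) < x) (h2 : x < 2 * Real.pi) :
    cis x ≠ 1 := by
  intro h
  have e := one_sub_cis x hx
  rw [h, sub_self] at e
  have hp := sg_mul_sin_pos hx h1 h2
  have h3 : ((2 * (sg x * Real.sin (x / 2)) : ℝ) : ℂ) ≠ 0 := by
    rw [ofReal_ne_zero]; linarith
  have h4 : cis ((x - Real.pi * sg x) / 2) ≠ 0 := exp_ne_zero _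
  exact mul_ne_zero h3 h4 e.symm

/-- the phase of `(1 - e^{ix})^(-1/3)` -/
theorem cpow_one_sub_cis {x : ℝ} (hx : x ≠ 0) (h1 : -(2 * Real.pi) < x) (h2 : x < 2 * Real.pi) :
    (1 - cis x) ^ (-(1 / 3) : ℂ) =
      ((‖1 - cis x‖ ^ (-(1 / 3) : ℝ) : ℝ) : ℂ) * cis (-(x - Real.pi * sg x) / 6) := by
  have hp := sg_mul_sin_pos hx h1 h2
  have e := one_sub_cis x hx
  set r : ℝ := 2 * (sg x * Real.sin (x / 2)) with hr
  have hr0 : 0 < r := by rw [hr]; linarith
  have hn : ‖1 - cis x‖ = r := by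
    rw [e, norm_mul, norm_cis, mul_one, norm_real, Real.norm_of_nonneg hr0.le]
  rw [hn]
  rw [e]
  have hθ1 : -(Real.pi) < (x - Real.pi * sg x) / 2 := by
    rcases lt_or_gt_of_ne hx with h | h
    · have hs : sg x = -1 := if_neg (by linarith)
      rw [hs]; linarith
    · have hs : sg x = 1 := if_pos h
      rw [hs]; linarith
  have hθ2 : (x - Real.pi * sg x) / 2 ≤ Real.pi := by
    rcases lt_or_gt_of_ne hx with h | h
    · have hs : sg x = -1 := if_neg (by linarith)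
      rw [hs]; linarith
    · have hs : sg x = 1 := if_pos h
      rw [hs]; linarith
  set θ : ℝ := (x - Real.pi * sg x) / 2 with hθ
  have hne : (r : ℂ) * cis θ ≠ 0 := by
    apply mul_ne_zero
    · rw [ofReal_ne_zero]; exact hr0.ne'
    · exact exp_ne_zero _
  have hlog : Complex.log ((r : ℂ) * cis θ) = ((Real.log r : ℝ) : ℂ) + θ * I := by
    have : (r : ℂ) * cis θ = exp (((Real.log r : ℝ) : ℂ) + θ * I) := by
      rw [exp_add, ← ofReal_exp, Real.exp_log hr0]; rfl
    rw [this, Complex.log_exp]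
    · simp; exact hθ1
    · simp; exact hθ2
  rw [cpow_def_of_ne_zero hne, hlog, Real.rpow_def_of_pos hr0]
  unfold cis
  rw [ofReal_exp, ← exp_add]
  congr 1
  rw [show -(x - Real.pi * sg x) / 6 = -θ / 3 by rw [hθ]; ring]
  push_cast
  ring

/-- the five factors of the kernel on the torus -/
theorem torus_phase {a1 a2 a3 a4 : ℝ} (h1 : a1 ∈ Ioo (-Real.pi) Real.pi)
    (h2 : a2 ∈ Ioo (-Real.pi) Real.pi) (h3 : a3 ∈ Ioo (-Real.pi) Real.pi)
    (h4 : a4 ∈ Ioo (-Real.pi) Real.pi) (h12 : a1 ≠ a2) (h13 : a1 ≠ a3) (h14 : a1 ≠ a4)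
    (h23 : a2 ≠ a3) (h24 : a2 ≠ a4) :
    fac (cis (-a2)) (cis a1) * fac (cis (-a3)) (cis a1) * fac (cis (-a4)) (cis a1) *
      (fac (cis (-a2)) (cis a3) * fac (cis (-a2)) (cis a4)) * (cis (a1 / 2) * cis (-(a2 / 2))) =
    ((‖fac (cis (-a2)) (cis a1) * fac (cis (-a3)) (cis a1) * fac (cis (-a4)) (cis a1) *
      (fac (cis (-a2)) (cis a3) * fac (cis (-a2)) (cis a4))‖ : ℝ) : ℂ) *
      cis (Real.pi / 6 * (sg (a1 - a2) + sg (a1 - a3) + sg (a1 - a4) + sg (a3 - a2)
        + sg (a4 - a2))) := by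
  have key : ∀ a b : ℝ, a ∈ Ioo (-Real.pi) Real.pi → b ∈ Ioo (-Real.pi) Real.pi → a ≠ b →
      fac (cis (-b)) (cis a) = ((‖fac (cis (-b)) (cis a)‖ : ℝ) : ℂ) *
        cis (-((a - b) - Real.pi * sg (a - b)) / 6) := by
    intro a b ha hb hab
    rw [norm_fac]
    unfold fac
    rw [← cis_add, show a + -b = a - b by ring]
    exact cpow_one_sub_cis (sub_ne_zero.2 hab) (by linarith [ha.1, hb.2]) (by linarith [ha.2, hb.1])
  have k12 := key a1 a2 h1 h2 h12
  have k13 := key a1 a3 h1 h3 h13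
  have k14 := key a1 a4 h1 h4 h14
  have k32 := key a3 a2 h3 h2 h23.symm
  have k42 := key a4 a2 h4 h2 h24.symm
  simp only [norm_mul, ofReal_mul]
  conv_lhs => rw [k12, k13, k14, k32, k42]
  have e : cis (Real.pi / 6 * (sg (a1 - a2) + sg (a1 - a3) + sg (a1 - a4) + sg (a3 - a2)
        + sg (a4 - a2))) = cis (-((a1 - a2) - Real.pi * sg (a1 - a2)) / 6) *
        cis (-((a1 - a3) - Real.pi * sg (a1 - a3)) / 6) *
        cis (-((a1 - a4) - Real.pi * sg (a1 - a4)) / 6) *
        cis (-((a3 - a2) - Real.pi * sg (a3 - a2)) / 6) *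
        cis (-((a4 - a2) - Real.pi * sg (a4 - a2)) / 6) * (cis (a1 / 2) * cis (-(a2 / 2))) := by
    rw [← cis_add, ← cis_add, ← cis_add, ← cis_add, ← cis_add, ← cis_add]
    congr 1
    ring
  rw [e]
  ring

end Pool.Agent.H87.W
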