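import Pool.Agent.H87.W.HalfBound

/-! # `HData.bound` in terms of boundary limits from the open half disc only -/

namespace Pool.Agent.H87.W

open Complex MeasureTheory Set Filter Topology
open scoped ComplexConjugate

theorem mem_closure_HA {v : ℂ} (hv : v ∈ CHA 0) : v ∈ closure (HA 0) := by
  have h1 : Tendsto (fun s : ℝ => (1 - s : ℂ) * v + s / 2) (𝓝[>] 0) (𝓝 v) := by
    have h : ContinuousAt (fun s : ℝ => (1 - s : ℂ) * v + s / 2) 0 := by fun_prop
    have h2 := h.tendsto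
    simp only [ofReal_zero, sub_zero, one_mul, zero_div, add_zero] at h2
    exact h2.mono_left nhdsWithin_le_nhds
  apply mem_closure_of_tendsto h1
  have : Ioo (0:ℝ) 1 ∈ 𝓝[>] (0:ℝ) := Ioo_mem_nhdsGT one_pos
  filter_upwards [this] with s hs
  have hre : ((1 - s : ℂ) * v + s / 2).re = (1 - s) * v.re + s / 2 := by
    have e : (1 - s : ℂ) = ((1 - s : ℝ) : ℂ) := by push_cast; ring
    have e2 : (s / 2 : ℂ) = ((s / 2 : ℝ) : ℂ) := by push_cast; ring
    rw [add_re, e, e2, re_ofReal_mul, ofReal_re]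
  have hpos : 0 < ((1 - s : ℂ) * v + s / 2).re := by
    rw [hre]
    have := mul_nonneg (sub_nonneg.2 hs.2.le) hv.2.2
    linarith [hs.1]
  refine ⟨?_, ?_, hpos⟩
  · rw [norm_pos_iff]
    intro h
    rw [h] at hpos
    simp at hpos
  · have e : (1 - s : ℂ) = ((1 - s : ℝ) : ℂ) := by push_cast; ring
    have e2 : (s / 2 : ℂ) = ((s / 2 : ℝ) : ℂ) := by push_cast; ring
    calc ‖(1 - s : ℂ) * v + s / 2‖ ≤ ‖(1 - s : ℂ) * v‖ + ‖(s / 2 : ℂ)‖ := norm_add_le _ _
      _ = (1 - s) * ‖v‖ + s / 2 := by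
        rw [norm_mul, e, e2, norm_real, norm_real, Real.norm_of_nonneg (sub_nonneg.2 hs.2.le),
          Real.norm_of_nonneg (by linarith [hs.1])]
      _ < 1 := by
        have := mul_le_mul_of_nonneg_left hv.2.1 (sub_nonneg.2 hs.2.le)
        linarith [hs.1]

theorem neBot_HA {v : ℂ} (hv : v ∈ CHA 0) : (𝓝[HA 0] v).NeBot :=
  mem_closure_iff_nhdsWithin_neBot.1 (mem_closure_HA hv)

/-- boundary values -/
noncomputable def limv (F : ℂ → ℂ) (v : ℂ) : ℂ := by
  classical
  exact if v ∈ HA 0 then F v else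
    if h : ∃ y, Tendsto F (𝓝[HA 0] v) (𝓝 y) then h.choose else 0

theorem limv_in {F : ℂ → ℂ} {v : ℂ} (hv : v ∈ HA 0) : limv F v = F v := by
  unfold limv
  rw [if_pos hv]

theorem limv_bd {F : ℂ → ℂ} {v y : ℂ} (hv : v ∈ CHA 0) (hv' : v ∉ HA 0)
    (h : Tendsto F (𝓝[HA 0] v) (𝓝 y)) : limv F v = y := by
  have hex : ∃ y, Tendsto F (𝓝[HA 0] v) (𝓝 y) := ⟨y, h⟩
  haveI := neBot_HA hv
  unfold limv
  rw [if_neg hv', dif_pos hex]
  exact tendsto_nhds_unique hex.choose_spec h

theorem limv_norm {F : ℂ → ℂ} {v : ℂ} {M : ℝ} (hM : 0 ≤ M) (hv : v ∈ CHA 0)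
    (hF : ∀ w ∈ HA 0, ‖F w‖ ≤ M) : ‖limv F v‖ ≤ M := by
  by_cases h : v ∈ HA 0
  · rw [limv_in h]; exact hF v h
  · by_cases hex : ∃ y, Tendsto F (𝓝[HA 0] v) (𝓝 y)
    · obtain ⟨y, hy⟩ := hex
      rw [limv_bd hv h hy]
      haveI := neBot_HA hv
      exact le_of_tendsto hy.norm (eventually_nhdsWithin_of_forall hF)
    · unfold limv
      rw [if_neg h, dif_neg hex, norm_zero]
      exact hM

theorem limv_tendsto {F : ℂ → ℂ} {v y : ℂ} (hv : v ∈ CHA 0) (hv' : v ∉ HA 0)
    (h : Tendsto F (𝓝[HA 0] v) (𝓝 y)) : ContinuousWithinAt (limv F) (HA 0) v := by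
  unfold ContinuousWithinAt
  rw [limv_bd hv hv' h]
  refine h.congr' ?_
  filter_upwards [self_mem_nhdsWithin] with w hw
  exact (limv_in hw).symm

theorem limv_cont {F : ℂ → ℂ} {v : ℂ} (hv : v ∈ HA 0) (h : ContinuousAt F v) :
    ContinuousWithinAt (limv F) (HA 0) v := by
  unfold ContinuousWithinAt
  rw [limv_in hv]
  refine (h.tendsto.mono_left nhdsWithin_le_nhds).congr' ?_
  filter_upwards [self_mem_nhdsWithin] with w hw
  exact (limv_in hw).symm

/-- a function of boundary limits is continuous -/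
theorem cont_of_limits {F : ℂ → ℂ} {γ : ℝ → ℂ} {g : ℝ → ℂ} {T : Set ℝ} (hγ : ContinuousOn γ T)
    (hcl : ∀ x ∈ T, γ x ∈ CHA 0) (h : ∀ x ∈ T, Tendsto F (𝓝[HA 0] (γ x)) (𝓝 (g x))) :
    ContinuousOn g T := by
  have h1 : ContinuousOn (extendFrom (HA 0) F) (γ '' T) := by
    apply continuousOn_extendFrom
    · rintro _ ⟨x, hx, rfl⟩
      exact mem_closure_HA (hcl x hx)
    · rintro _ ⟨x, hx, rfl⟩
      exact ⟨g x, h x hx⟩
  have h2 := h1.comp hγ (mapsTo_image γ T)
  refine h2.congr (fun x hx => ?_)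
  exact (extendFrom_eq (mem_closure_HA (hcl x hx)) (h x hx)).symm

theorem tI_mem {t : ℝ} (ht : |t| ≤ 1) : ((t : ℂ) * I) ∈ CHA 0 := by
  refine ⟨norm_nonneg _, ?_, by simp⟩
  rw [norm_mul, norm_I, mul_one, norm_real, Real.norm_eq_abs]
  exact ht

theorem tI_not_mem {t : ℝ} : ((t : ℂ) * I) ∉ HA 0 := by
  intro h
  have := h.2.2
  simp at this

theorem neg_tI (t : ℝ) : -((t : ℂ) * I) = ((-t : ℝ) : ℂ) * I := by push_cast; ring

theorem cis_mem {a : ℝ} (ha : a ∈ Ioo (-Real.pi) Real.pi) : cis (a / 2) ∈ CHA 0 := by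
  refine ⟨norm_nonneg _, (norm_cis _).le, ?_⟩
  unfold cis
  rw [exp_ofReal_mul_I_re]
  exact Real.cos_nonneg_of_mem_Icc ⟨by linarith [ha.1], by linarith [ha.2]⟩

theorem cis_not_mem {a : ℝ} : cis a ∉ HA 0 := by
  intro h
  have := h.2.1
  rw [norm_cis] at this
  exact lt_irrefl _ this

/-- the boundary points -/
theorem bd_cases {v : ℂ} (hv : v ∈ CHA 0) : v ∈ HA 0 ∨ (∃ t : ℝ, |t| ≤ 1 ∧ v = t * I) ∨
    ∃ a ∈ Ioo (-Real.pi) Real.pi, v = cis (a / 2) := by
  rcases eq_or_lt_of_le hv.2.2 with h0 | h0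
  · right; left
    refine ⟨v.im, ?_, ?_⟩
    · exact (abs_im_le_norm v).trans hv.2.1
    · apply Complex.ext
      · simp [← h0]
      · simp
  · rcases lt_or_eq_of_le hv.2.1 with h1 | h1
    · left
      refine ⟨?_, h1, h0⟩
      rw [norm_pos_iff]
      intro h
      rw [h] at h0
      simp at h0
    · right; right
      refine ⟨2 * v.arg, ?_, ?_⟩
      · have := abs_arg_lt_pi_div_two_iff.2 (Or.inl h0)
        rw [abs_lt] at this
        exact ⟨by linarith [this.1], by linarith [this.2]⟩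
      · have := norm_mul_exp_arg_mul_I v
        rw [h1, ofReal_one, one_mul] at this
        unfold cis
        rw [show (2 * v.arg) / 2 = v.arg by ring]
        exact this.symm

variable {u r M N a3 a4 : ℝ} {κ : ℂ} {Z : Set ℝ}

/-- **Final form.**  `HA 0` = open right half disc. -/
theorem half_disc_bound {F B : ℝ → ℂ → ℂ} {G : ℝ → ℝ → ℂ} {p : ℝ → ℝ → ℝ}
    (hu : 0 < u) (hu1 : u ≤ 1 / 2) (hr : 0 < r) (hr1 : r ≤ 1 / 2) (hZ : Z.Countable)
    (h3 : a3 ∈ Ioo (-Real.pi) Real.pi) (h4 : a4 ∈ Ioo (-Real.pi) Real.pi) (h34 : a3 ≠ a4)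
    (hZ3 : a3 ∈ Z) (hZ4 : a4 ∈ Z) (hκ : κ ≠ 0) (hp : ∀ a1 a2, 0 ≤ p a1 a2)
    (hFd : ∀ a2 ∈ Ioo (-Real.pi) Real.pi \ Z, DifferentiableOn ℂ (F a2) (HA 0))
    (hFb : ∀ a2 ∈ Ioo (-Real.pi) Real.pi \ Z, ∀ v ∈ HA 0, ‖F a2 v‖ ≤ M)
    (hFo : ∀ a1 ∈ Ioo (-Real.pi) Real.pi \ Z, ∀ a2 ∈ Ioo (-Real.pi) Real.pi \ Z, a1 ≠ a2 →
      Tendsto (F a2) (𝓝[HA 0] (cis (a1 / 2)))
        (𝓝 (κ * p a1 a2 * cis (-(Real.pi / 3 * nn a3 a4 a1 a2)))))
    (hFodd : ∀ a2 ∈ Ioo (-Real.pi) Real.pi \ Z, ∀ t ∈ Ioo u 1, ∃ y,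
      Tendsto (F a2) (𝓝[HA 0] (t * I)) (𝓝 y) ∧ Tendsto (F a2) (𝓝[HA 0] (-(t * I))) (𝓝 (-y)))
    (hFP : ∀ a2 ∈ Ioo (-Real.pi) Real.pi \ Z, ∀ t : ℝ, 0 < |t| → |t| < u →
      Tendsto (F a2) (𝓝[HA 0] (t * I)) (𝓝 (G t a2)))
    (hBd : ∀ t : ℝ, 0 < |t| → |t| < u → DifferentiableOn ℂ (fun v => conj (B t v)) (HA 0))
    (hBb : ∀ t : ℝ, 0 < |t| → |t| < u → ∀ v ∈ HA 0, ‖B t v‖ ≤ M)
    (hBo : ∀ t : ℝ, 0 < |t| → |t| < u → ∀ a ∈ Ioo (-Real.pi) Real.pi \ Z,
      Tendsto (B t) (𝓝[HA 0] (cis (a / 2))) (𝓝 (G t a)))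
    (hBodd : ∀ t : ℝ, 0 < |t| → |t| < u → ∀ s ∈ Ioo r 1, ∃ y,
      Tendsto (B t) (𝓝[HA 0] (s * I)) (𝓝 y) ∧ Tendsto (B t) (𝓝[HA 0] (-(s * I))) (𝓝 (-y)))
    (hBn : ∀ t : ℝ, 0 < |t| → |t| < u → ∀ v ∈ HA 0, ‖v‖ = r → ‖B t v‖ ≤ N)
    {x1 y1 x2 y2 q : ℝ} (hx1 : -Real.pi ≤ x1) (hxy1 : x1 ≤ y1) (hy1 : y1 ≤ Real.pi)
    (hx2 : -Real.pi ≤ x2) (hxy2 : x2 ≤ y2) (hy2 : y2 ≤ Real.pi)
    (hq : ∀ a1 ∈ Ioo x1 y1 \ Z, ∀ a2 ∈ Ioo x2 y2 \ Z, a1 ≠ a2 → q ≤ p a1 a2) :
    ‖κ‖ * q * (y1 - x1) * (y2 - x2) ≤ 200 * u * r * N := by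
  have hpi := Real.pi_pos
  have hκ0 : 0 < ‖κ‖ := norm_pos_iff.2 hκ
  -- M ≥ 0
  have hhalf : (1 / 2 : ℂ) ∈ HA 0 := by
    refine ⟨by norm_num, by norm_num, by norm_num⟩
  have hM0 : 0 ≤ M := (norm_nonneg _).trans (hBb (u / 2) (by rw [abs_of_pos] <;> linarith)
    (by rw [abs_of_pos] <;> linarith) _ hhalf)
  have hN0 : 0 ≤ N := by
    refine (norm_nonneg _).trans (hBn (u / 2) (by rw [abs_of_pos] <;> linarith)
      (by rw [abs_of_pos] <;> linarith) (r : ℂ) ⟨?_, ?_, ?_⟩ ?_)
    · rw [norm_real, Real.norm_of_nonneg hr.le]; exact hr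
    · rw [norm_real, Real.norm_of_nonneg hr.le]; linarith
    · simpa using hr
    · rw [norm_real, Real.norm_of_nonneg hr.le]
  have hsub : HA r ⊆ HA 0 := fun v hv => ⟨hr.trans hv.1, hv.2⟩
  have hsubC : CHA r ⊆ CHA 0 := fun v hv => ⟨hr.le.trans hv.1, hv.2⟩
  let D : HData u r M N a3 a4 (κ / ‖κ‖) Z :=
    { p := fun a1 a2 => if a1 = a2 then max (‖κ‖ * q) 0 else ‖κ‖ * p a1 a2
      A := fun a2 => limv (F a2)
      B := fun t => limv (B t)
      p_nonneg := by
        intro a1 a2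
        split_ifs
        · exact le_max_right _ _
        · exact mul_nonneg hκ0.le (hp _ _)
      A_bdd := fun a2 ha2 v hv => limv_norm hM0 hv (hFb a2 ha2)
      A_diff := fun a2 ha2 => (hFd a2 ha2).congr (fun v hv => limv_in hv)
      A_cont := by
        intro a2 ha2
        refine ⟨(fun t : ℝ => (t : ℂ) * I) '' {0, u, -u, 1, -1} ∪ (fun a => cis (a / 2)) '' (Z ∪ {a2}),
          ?_, ?_⟩
        · apply Countable.union
          · apply Countable.image
            exact (Set.toFinite _).countable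
          · apply Countable.image
            exact hZ.union (countable_singleton _)
        · intro v hv
          rcases bd_cases hv.1 with h | ⟨t, ht, rfl⟩ | ⟨a, ha, rfl⟩
          · exact limv_cont h ((hFd a2 ha2).continuousOn.continuousAt ((isOpen_HA 0).mem_nhds h))
          · have hne : t ∉ ({0, u, -u, 1, -1} : Set ℝ) := fun h => hv.2 (Or.inl ⟨t, h, rfl⟩)
            simp only [mem_insert_iff, mem_singleton_iff, not_or] at hne
            obtain ⟨n0, nu, nu', n1, n1'⟩ := hne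
            have hta : |t| < 1 := by
              refine lt_of_le_of_ne ht (fun h => ?_)
              rcases abs_choice t with h' | h'
              · exact n1 (by rw [← h', h])
              · apply n1'; rw [h'] at h; linarith
            have hL : ∃ y, Tendsto (F a2) (𝓝[HA 0] ((t : ℂ) * I)) (𝓝 y) := by
              rcases lt_or_ge |t| u with hlt | hge
              · exact ⟨_, hFP a2 ha2 t (abs_pos.2 n0) hlt⟩
              · have hgt : u < |t| := by
                  refine lt_of_le_of_ne hge (fun h => ?_)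
                  rcases abs_choice t with h' | h'
                  · exact nu (by rw [← h', h])
                  · apply nu'; rw [h'] at h; linarith
                obtain ⟨y, hy1, hy2⟩ := hFodd a2 ha2 |t| ⟨hgt, hta⟩
                rcases abs_choice t with h' | h'
                · rw [h'] at hy1; exact ⟨y, hy1⟩
                · rw [h', neg_tI, neg_neg] at hy2; exact ⟨-y, hy2⟩
            obtain ⟨y, hy⟩ := hL
            exact limv_tendsto (tI_mem ht) tI_not_mem hy
          · have hne : a ∉ Z ∪ {a2} := fun h => hv.2 (Or.inr ⟨a, h, rfl⟩)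
            rw [mem_union, not_or] at hne
            exact limv_tendsto (cis_mem ha) cis_not_mem (hFo a ⟨ha, hne.1⟩ a2 ha2 hne.2)
      A_bank := by
        intro a2 ha2
        have h1 : ContinuousOn (fun t : ℝ => G t a2) {t | 0 < |t| ∧ |t| < u} := by
          apply cont_of_limits (F := F a2) (γ := fun t : ℝ => (t : ℂ) * I)
          · fun_prop
          · intro t ht
            simp only [mem_ofPred_eq] at ht
            exact tI_mem (by linarith [ht.2])
          · intro t ht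
            exact hFP a2 ha2 t ht.1 ht.2
        refine h1.congr (fun t ht => ?_)
        simp only [mem_ofPred_eq] at ht
        exact limv_bd (tI_mem (by linarith [ht.2])) tI_not_mem (hFP a2 ha2 t ht.1 ht.2)
      A_odd := by
        intro a2 ha2 t ht
        obtain ⟨y, hy1, hy2⟩ := hFodd a2 ha2 t ht
        have hta : |t| ≤ 1 := by rw [abs_of_pos (hu.trans ht.1)]; exact ht.2.le
        rw [limv_bd (tI_mem hta) tI_not_mem hy1]
        rw [neg_tI] at hy2 ⊢
        rw [limv_bd (tI_mem (by rw [abs_neg]; exact hta)) tI_not_mem hy2]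
      A_phase := by
        intro a1 ha1 a2 ha2 h12
        rw [limv_bd (cis_mem ha1.1) cis_not_mem (hFo a1 ha1 a2 ha2 h12), if_neg h12]
        have : (‖κ‖ : ℂ) ≠ 0 := by rw [ofReal_ne_zero]; exact hκ0.ne'
        push_cast
        field_simp
      B_bdd := fun t ht0 htu v hv => limv_norm hM0 (hsubC hv) (hBb t ht0 htu)
      B_diff := fun t ht0 htu => ((hBd t ht0 htu).mono hsub).congr (fun v hv => by
        rw [limv_in (hsub hv)])
      B_cont := by
        intro t' ht0' htu'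
        refine ⟨(fun t : ℝ => (t : ℂ) * I) '' {r, -r, 1, -1} ∪ (fun a => cis (a / 2)) '' Z,
          ?_, ?_⟩
        · apply Countable.union
          · apply Countable.image
            exact (Set.toFinite _).countable
          · exact hZ.image _
        · intro v hv
          have key : ContinuousWithinAt (limv (B t')) (HA 0) v := by
            rcases bd_cases (hsubC hv.1) with h | ⟨t, ht, rfl⟩ | ⟨a, ha, rfl⟩
            · apply limv_cont h
              have h1 := (hBd t' ht0' htu').continuousOn.continuousAt ((isOpen_HA 0).mem_nhds h)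
              have h2 := continuous_conj.continuousAt.comp h1
              refine h2.congr (Eventually.of_forall fun w => ?_)
              simp
            · have hne : t ∉ ({r, -r, 1, -1} : Set ℝ) := fun h => hv.2 (Or.inl ⟨t, h, rfl⟩)
              simp only [mem_insert_iff, mem_singleton_iff, not_or] at hne
              obtain ⟨nu, nu', n1, n1'⟩ := hne
              have hta : |t| < 1 := by
                refine lt_of_le_of_ne ht (fun h => ?_)
                rcases abs_choice t with h' | h'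
                · exact n1 (by rw [← h', h])
                · apply n1'; rw [h'] at h; linarith
              have hge : r ≤ |t| := by
                have := hv.1.1
                rwa [norm_mul, norm_I, mul_one, norm_real, Real.norm_eq_abs] at this
              have hgt : r < |t| := by
                refine lt_of_le_of_ne hge (fun h => ?_)
                rcases abs_choice t with h' | h'
                · exact nu (by rw [← h', h])
                · apply nu'; rw [h'] at h; linarith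
              obtain ⟨y, hy1, hy2⟩ := hBodd t' ht0' htu' |t| ⟨hgt, hta⟩
              rcases abs_choice t with h' | h'
              · rw [h'] at hy1; exact limv_tendsto (tI_mem ht) tI_not_mem hy1
              · rw [h', neg_tI, neg_neg] at hy2; exact limv_tendsto (tI_mem ht) tI_not_mem hy2
            · have hne : a ∉ Z := fun h => hv.2 (Or.inr ⟨a, h, rfl⟩)
              exact limv_tendsto (cis_mem ha) cis_not_mem (hBo t' ht0' htu' a ⟨ha, hne⟩)
          exact key.mono hsub
      B_out := by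
        intro t ht0 htu
        have h1 : ContinuousOn (fun a : ℝ => G t a) (Ioo (-Real.pi) Real.pi \ Z) := by
          apply cont_of_limits (F := B t) (γ := fun a : ℝ => cis (a / 2))
          · unfold cis; fun_prop
          · intro a ha; exact cis_mem ha.1
          · intro a ha; exact hBo t ht0 htu a ha
        refine h1.congr (fun a ha => ?_)
        exact limv_bd (cis_mem ha.1) cis_not_mem (hBo t ht0 htu a ha)
      B_odd := by
        intro t ht0 htu s hs
        obtain ⟨y, hy1, hy2⟩ := hBodd t ht0 htu s hs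
        have hta : |s| ≤ 1 := by rw [abs_of_pos (hr.trans hs.1)]; exact hs.2.le
        rw [limv_bd (tI_mem hta) tI_not_mem hy1]
        rw [neg_tI] at hy2 ⊢
        rw [limv_bd (tI_mem (by rw [abs_neg]; exact hta)) tI_not_mem hy2]
      compat := by
        intro t ht0 htu a2 ha2
        rw [limv_bd (tI_mem (by linarith)) tI_not_mem (hFP a2 ha2 t ht0 htu),
          limv_bd (cis_mem ha2.1) cis_not_mem (hBo t ht0 htu a2 ha2)]
      near := by
        intro t ht0 htu y hy
        have hn : ‖(r : ℂ) * cis y‖ = r := by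
          rw [norm_mul, norm_cis, mul_one, norm_real, Real.norm_of_nonneg hr.le]
        have hmem : (r : ℂ) * cis y ∈ HA 0 := by
          refine ⟨by rw [hn]; exact hr, by rw [hn]; linarith, ?_⟩
          unfold cis
          rw [re_ofReal_mul, exp_ofReal_mul_I_re]
          exact mul_pos hr (Real.cos_pos_of_mem_Ioo hy)
        rw [limv_in hmem]
        exact hBn t ht0 htu _ hmem hn }
  have hκ1 : 1 ≤ ‖κ / ‖κ‖‖ := by
    rw [norm_div, norm_real, norm_norm, div_self hκ0.ne']
  exact D.bound_of_le hu hu1 hr hr1 hZ h3 h4 h34 hZ3 hZ4 hκ1 hx1 hxy1 hy1 hx2 hxy2 hy2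
    (fun a1 ha1 a2 ha2 => by
      show ‖κ‖ * q ≤ if a1 = a2 then max (‖κ‖ * q) 0 else ‖κ‖ * p a1 a2
      split_ifs with h
      · exact le_max_left _ _
      · exact mul_le_mul_of_nonneg_left (hq a1 ha1 a2 ha2 h) hκ0.le)

end Pool.Agent.H87.W
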