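import Mathlib
import Pool.Agent.H87.W.JX

set_option autoImplicit false
set_option linter.unusedSectionVars false
open Finset

/-! # (J5) (d): the moving end of the `Y` world near the floor -/

namespace Pool.Agent.H87.W

open Pool.Agent.H33.Q1 Pool.Agent.H6.W Pool.Agent.H50.W Pool.Agent.H61.W
open Pool.Agent.H58.W hiding up
open Pool.Agent.H13.W Pool.Agent.H82.W Pool.Agent.H70.W
open Pool.Agent.H99.NC (BR)
open Pool.Agent.H99.W (IsEnd)
open Pool.Agent.H19.W (cx cy cx_lt cy_lt mv)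
open Pool.Agent.H45.W (BG)
open Pool.Agent.H73.W (Gk Tk Hk FJ SJ NJ IJ Na co Cut cutY cutP Dl strO Sn Nn Yr_cases)
open Pool.Agent.H47.W (vt)

variable {b : JBox} {δ σ : ℝ} {h i : ℕ} {M : Finset (Bool × ℕ)} {v : ℤ × ℤ} {xl xr yt : ℤ}
  {C : Set (ℤ × ℤ)} {fp : Finset (ℤ × ℤ)} {cl cl2 : Cl} {o base s : Bool} {x y x1 B ρ R : ℤ}
  {ω1 ω2 : Finset (ℤ × ℤ)} {I : Set (ℤ × ℤ)} {c : ℤ × ℤ} {q3 q4 : Bool × ℕ}

lemma SG_congrD {Λ D D' : Set (ℤ × ℤ)} {w : Finset (ℤ × ℤ)} (h : ∀ e ∈ Λ, (e ∈ D ↔ e ∈ D')) :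
    SG Λ D w = SG Λ D' w := by
  ext c d
  constructor
  · rintro ⟨e, he, hT⟩
    exact ⟨e, he, (TJ_congr (h e he) fun _ => Iff.rfl).1 hT⟩
  · rintro ⟨e, he, hT⟩
    exact ⟨e, he, (TJ_congr (h e he) fun _ => Iff.rfl).2 hT⟩

/-- the cut graph of world 1 -/
lemma WT_G (hb : b.Ok δ σ) (hn : 0 < (2 * h : ℤ)) (hM : ∀ c ∈ M, c.2 < b.K) :
    (WT b h M cl v (lt '' slD s x1) fp o).G ω1 =
      Hk b (2 * h) s x1 M (some v) ((WT b h M cl v (lt '' slD s x1) fp o).st ω1) := by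
  show SG (LamT b (2 * h) M \ lt '' slD s x1) (lt '' strD v) _ =
    SG (H73.W.LamC b (2 * h) M s x1) (lt '' Dl s x1 (some v)) _
  have e : H73.W.LamC b (2 * h) M s x1 = LamT b (2 * h) M \ lt '' slD s x1 := by
    unfold H73.W.LamC
    rw [LamT_eq hb hn hM]
  rw [e]
  refine SG_congrD fun e he => ?_
  show e ∈ lt '' strD v ↔ e ∈ lt '' (strD v ∪ slD s x1)
  rw [Set.image_union]
  exact ⟨Or.inl, fun g => g.resolve_right he.2⟩

/-- the cut graph of world 2 -/
lemma WF_G (hb : b.Ok δ σ) (hn : 0 < (2 * h : ℤ)) (hM : ∀ c ∈ insert (false, i) M, c.2 < b.K) :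
    (WF b h i M cl2 (lt '' slD s x1) fp o).G ω2 =
      Hk b (2 * h) s x1 (insert (false, i) M) none
        ((WF b h i M cl2 (lt '' slD s x1) fp o).st ω2) := by
  show SG (LamT b (2 * h) (insert (false, i) M) \ lt '' slD s x1) ∅ _ =
    SG (H73.W.LamC b (2 * h) (insert (false, i) M) s x1) (lt '' Dl s x1 none) _
  have e : H73.W.LamC b (2 * h) (insert (false, i) M) s x1 =
      LamT b (2 * h) (insert (false, i) M) \ lt '' slD s x1 := by
    unfold H73.W.LamC
    rw [LamT_eq hb hn hM]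
  rw [e]
  refine SG_congrD fun e he => ?_
  have e2 : Dl s x1 none = slD s x1 := by
    unfold Dl strO
    rw [Set.empty_union]
  rw [e2]
  exact ⟨fun g => absurd g (Set.notMem_empty _), fun g => absurd g he.2⟩

lemma slD_row {e : ℤ × ℤ} (he : e ∈ lt '' slD s x1) : -1 ≤ cy e ∧ cy e ≤ 0 := by
  obtain ⟨p, hp, rfl⟩ := he
  obtain ⟨x, y⟩ := p
  obtain ⟨h1, -⟩ := hp
  rw [cy_lt]
  simp only at h1 ⊢
  rcases Yr_cases s with e | e <;> omega

section
variable (U : FN δ σ b h i {q3, q4} v xl xr yt B ρ R) (hi3 : (false, i) ≠ q3) (hi4 : (false, i) ≠ q4)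
  (h34 : q3 ≠ q4) (hP : b.Pl h ⊆ b.B h) (hf : fp ⊆ b.B h)
  (fpl : ∀ x y : ℤ, lt (x, y) ∈ fp → ∃ k, chn 0 b.M b.τ (x / (2 * h : ℤ), y / (2 * h : ℤ)) = some k)
  (hx : -((b.X : ℤ) * (2 * h)) < x1) (hx' : x1 < b.X * (2 * h))

open Classical in
/-- images of the names -/
noncomputable def ysY (b : JBox) (n : ℤ) (i : ℕ) (cl : Cl) (s : Bool) (x1 : ℤ) (q3 q4 : Bool × ℕ) :
    Na (Fin 4) (IJ b n x1) → ℤ × ℤ
  | .inl a => ![mc s x1, mc s x1, yq b n i cl q3, yq b n i cl q4] a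
  | .inr (x, true) => Nn s x.1
  | .inr (x, false) => Sn s x.1

include U hi3 hi4 h34 hP hf fpl hx hx'

/-- **The pattern of the names agrees** (blocked configurations). -/
theorem detY (hC : Cor (WT b h {q3, q4} (colM base {q3, q4} (some v.2)) v (lt '' slD s x1) fp o)
      (WF b h i {q3, q4} (colM base {(false, i), q3, q4} none) (lt '' slD s x1) fp o)
      (mv (Str0 v)) (Str0 v) (OA b h v xl xr yt) (OB b h v xl xr yt) ω1 ω2)
    (hB : BlkF b h i (colM base {(false, i), q3, q4} none) B ρ R (ω2 ∩ OB b h v xl xr yt))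
    (a : Fin 4) (c : Na (Fin 4) (IJ b (2 * h) x1)) :
    (Gk b (2 * h) s x1 {q3, q4} (some v)
      ((WT b h {q3, q4} (colM base {q3, q4} (some v.2)) v (lt '' slD s x1) fp o).st ω1)).Reachable
      (FJ b (2 * h) (colM base {q3, q4} (some v.2)) s x1 q3 q4 (zc v) a)
      (co (FJ b (2 * h) (colM base {q3, q4} (some v.2)) s x1 q3 q4 (zc v)) (SJ b (2 * h) s x1)
        (NJ b (2 * h) s x1) c) ↔
    (SG (Lam b (2 * h) {(false, i), q3, q4}) (lt '' slD s x1)
      ((WF b h i {q3, q4} (colM base {(false, i), q3, q4} none) (lt '' slD s x1) fp o).st ω2)).Reachable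
      (FJ b (2 * h) (colM base {(false, i), q3, q4} none) s x1 q3 q4
        (H73.W.fa b (2 * h) (colM base {(false, i), q3, q4} none) (false, i)) a)
      (co (FJ b (2 * h) (colM base {(false, i), q3, q4} none) s x1 q3 q4
        (H73.W.fa b (2 * h) (colM base {(false, i), q3, q4} none) (false, i))) (SJ b (2 * h) s x1)
        (NJ b (2 * h) s x1) c) := by
  classical
  have hiM : (false, i) ∉ ({q3, q4} : Finset (Bool × ℕ)) := by
    rw [mem_insert, mem_singleton, not_or]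
    exact ⟨hi3, hi4⟩
  have hC1 : ∀ e ∈ lt '' slD s x1, -1 ≤ cy e := fun e he => (slD_row he).1
  have hC2 : ∀ e ∈ lt '' slD s x1, cy e ≤ 0 := fun e he => (slD_row he).2
  have G : BlG δ σ b h i {q3, q4} (lt '' slD s x1) B := U.blG hC1
  have L : FlG δ σ b h i {q3, q4} v xl xr yt (lt '' slD s x1) fp := U.flG hC1 fpl hf hP
  have N := U.blN
  have F : ClF b i {q3, q4} (colM base {(false, i), q3, q4} none) := clF
  have hcl : ClRel i v.2 {q3, q4} (colM base {q3, q4} (some v.2)) (colM base {(false, i), q3, q4} none) :=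
    clRel (base := base) hiM v.2
  have hbg := BG.of_ok U.ok
  have hh : 0 < h := L.hh
  have n0 := L.n0
  have hn2 : (2 * (h : ℤ)) % 2 = 0 := by omega
  have m3 : q3 ∈ ({q3, q4} : Finset (Bool × ℕ)) := by simp
  have m4 : q4 ∈ ({q3, q4} : Finset (Bool × ℕ)) := by simp
  have k3 := U.hM q3 m3
  have k4 := U.hM q4 m4
  have hM2 : ∀ c ∈ ({(false, i), q3, q4} : Finset (Bool × ℕ)), c.2 < b.K := by
    intro c hc
    rcases mem_insert.1 hc with rfl | hc
    · exact U.hi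
    · exact U.hM c hc
  have hyt := U.yt_lt
  have hyt1 := U.yt1
  set cl := colM base {q3, q4} (some v.2) with hcldef
  set cl2 := colM base {(false, i), q3, q4} none with hcl2def
  -- the cut worlds of 73
  have s1 := sub_form1 (cl := cl) (M := {q3, q4}) (v := v) (C := lt '' slD s x1) (o := o) hP hf hC.1
  have s2 := sub_form2 (cl2 := cl2) (M := {q3, q4}) (i := i) (C := lt '' slD s x1) (o := o) hP hf hC.2.1
  have c1 := cutY (base := base) (s := s) hbg hh k3 k4 h34 U.hv hx hx' (by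
    intro h1
    rcases Yr_cases s with e | e <;> omega) s1
  have c2 := cutP (base := base) (s := s) hbg hh U.hi k3 k4 hi3 hi4 h34 hx hx' s2
  unfold GG at c1 c2
  rw [← hcldef, ← st_form1 (cl := cl) (M := {q3, q4}) (v := v) (C := lt '' slD s x1) (o := o)] at c1
  rw [← hcl2def, ← st_form2 (cl2 := cl2) (M := {q3, q4}) (i := i) (C := lt '' slD s x1) (o := o)] at c2
  rw [← WT_G U.ok n0 U.hM] at c1
  have g2 := WF_G (s := s) (x1 := x1) (fp := fp) (o := o) (cl2 := cl2) (ω2 := ω2) U.ok n0 hM2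
  have g2' : Hk b (2 * h) s x1 {(false, i), q3, q4} none
      ((WF b h i {q3, q4} cl2 (lt '' slD s x1) fp o).st ω2) =
      (WF b h i {q3, q4} cl2 (lt '' slD s x1) fp o).G ω2 := g2.symm
  rw [g2'] at c2
  obtain ⟨I, bq, k1, k2, k3'⟩ := blkF_blk G L N F hC.2.1 hB
  have hz : zc v ∈ KB (Blk0 xl xr yt) := zc_KB U.xl2.le U.xr2 U.yt1
  have hz' := start_I G L N (cl2 := cl2) (o := o) hC1 k2
  have yf : ∀ q ∈ ({q3, q4} : Finset (Bool × ℕ)),
      ((WF b h i {q3, q4} cl2 (lt '' slD s x1) fp o).G ω2).Reachable (yq b (2 * h) i cl q)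
        (fa b (2 * h) cl2 q) := by
    intro q hq
    refine yq_fa G L N hcl hq (fun hs => ?_) hC.2.1
    obtain ⟨s, j⟩ := q
    simp only at hs
    subst hs
    exact Pool.Agent.H45.W.colM_l' (mem_insert_of_mem hq)
  have faE : ∀ q ∈ ({q3, q4} : Finset (Bool × ℕ)), H73.W.fa b (2 * h) cl q = fa b (2 * h) cl q :=
    fun q hq => (fa_eq_fa hn2 hq).symm
  have faE2 : ∀ q ∈ ({(false, i), q3, q4} : Finset (Bool × ℕ)),
      H73.W.fa b (2 * h) cl2 q = fa b (2 * h) cl2 q := fun q hq => (fa_eq_fa hn2 hq).symm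
  -- tiles near the slit
  have J := Pool.Agent.H73.W.JOk.of (s := s) (v := some v) hbg (show (2 : ℤ) ≤ 2 * h by omega) hx hx' U.hM
    (fun u hu => by rw [Option.mem_def, Option.some.injEq] at hu; rw [← hu]; exact U.hv)
    (fun u hu => by
      rw [Option.mem_def, Option.some.injEq] at hu; rw [← hu]
      intro h1
      rcases Yr_cases s with e | e <;> omega)
  have mid : ∀ {x y : ℤ} {c : ℤ × ℤ}, vt x y ∈ H73.W.LamC b (2 * h) {q3, q4} s x1 → -3 ≤ y →
      Sd (lt (x, y)) c →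
      SR (WT b h {q3, q4} cl v (lt '' slD s x1) fp o).Λ (WT b h {q3, q4} cl v (lt '' slD s x1) fp o).D
        (Blk0 xl xr yt) (Str0 v) c c := by
    intro x y c h1 h2 h3
    refine Or.inl ⟨rfl, Or.inl ⟨lt (x, y), ?_, ?_, ?_, ?_, h3⟩⟩
    · have h4 : lt (x, y) ∈ H73.W.LamT b (2 * h) {q3, q4} \ lt '' slD s x1 := h1
      rw [LamT_eq U.ok n0 U.hM] at h4
      exact h4
    · rw [mem_Blk0]; omega
    · rw [mem_Str0]; omega
    · intro h4
      have h5 : lt (x, y) ∈ lt '' strD v := h4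
      rw [mem_strD] at h5
      omega
  have midI : ∀ {x y : ℤ} {c : ℤ × ℤ}, -3 ≤ y → Sd (lt (x, y)) c → c ∉ I := by
    intro x y c h2 h3
    refine notMem_I k3' h3 fun x' y' n1 n2 hBR => ?_
    have hp := (G.pos hBR).2.2.1
    have ht := G.top
    rw [abs_le] at n2
    omega
  have sMC : Sd (lt (x1, Yr s)) (mc s x1) := Or.inl rfl
  have sS : ∀ x : ℤ, Sd (lt (x, Yr s - 1)) (Sn s x) := fun x => by
    right; right; right
    show eS (lt (x, Yr s)) = _
    rw [eN_lt', sub_add_cancel]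
  have sN : ∀ x : ℤ, Sd (lt (x, Yr s + 1)) (Nn s x) := fun x => by
    right; right; left
    show eN (lt (x, Yr s)) = _
    rw [eN_lt']
  have rY : -1 ≤ Yr s := by rcases Yr_cases s with e | e <;> omega
  refine pat_cut c1 c2 (L.simu (cl := cl) (cl2 := cl2) (o := o) hcl hC) k1
    (fun c hc c' hc' => L.KB_img hcl N (by omega) hC k2 hc hc') (z := 0) hz ?_
    (ys := ysY b (2 * h) i cl s x1 q3 q4) ?_ ?_ ?_ a c
  · show H73.W.fa b (2 * h) cl2 (false, i) ∈ I
    rw [faE2 _ (mem_insert_self _ _)]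
    exact hz'
  · rintro (a | ⟨x, t⟩) ha
    · fin_cases a
      · exact absurd rfl ha
      · exact mid (Pool.Agent.H73.W.mc_mem J) (by omega) sMC
      · show SR _ _ _ _ (H73.W.fa b (2 * h) cl q3) (yq b (2 * h) i cl q3)
        rw [faE q3 m3]
        exact SR_mark G L N m3 hC2
      · show SR _ _ _ _ (H73.W.fa b (2 * h) cl q4) (yq b (2 * h) i cl q4)
        rw [faE q4 m4]
        exact SR_mark G L N m4 hC2
    · have hxI := mem_Ico.1 x.2
      cases t
      · exact mid (Pool.Agent.H73.W.dn_mem J hxI.1 hxI.2) (by omega) (sS x.1)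
      · exact mid (Pool.Agent.H73.W.up_mem J hxI.1 hxI.2) (by omega) (sN x.1)
  · rintro (a | ⟨x, t⟩) ha
    · fin_cases a
      · exact absurd rfl ha
      · exact midI (by omega) sMC
      · exact yq_out G L N m3 k3'
      · exact yq_out G L N m4 k3'
    · cases t
      · exact midI (by omega) (sS x.1)
      · exact midI (by omega) (sN x.1)
  · rintro (a | ⟨x, t⟩) ha
    · fin_cases a
      · exact absurd rfl ha
      · exact SimpleGraph.Reachable.refl _
      · show ((WF b h i {q3, q4} cl2 (lt '' slD s x1) fp o).G ω2).Reachable (yq b (2 * h) i cl q3)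
          (H73.W.fa b (2 * h) cl2 q3)
        rw [faE2 q3 (by simp)]
        exact yf q3 m3
      · show ((WF b h i {q3, q4} cl2 (lt '' slD s x1) fp o).G ω2).Reachable (yq b (2 * h) i cl q4)
          (H73.W.fa b (2 * h) cl2 q4)
        rw [faE2 q4 (by simp)]
        exact yf q4 m4
    · cases t <;> exact SimpleGraph.Reachable.refl _

end

end Pool.Agent.H87.W
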