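import Mathlib
import Pool.Agent.H87.W.JY

set_option autoImplicit false
set_option linter.unusedSectionVars false
open Finset

/-! # (J5) (d): the events of the `Y` world -/

namespace Pool.Agent.H87.W

open Pool.Agent.H33.Q1 Pool.Agent.H6.W Pool.Agent.H50.W Pool.Agent.H61.W
open Pool.Agent.H58.W hiding up
open Pool.Agent.H13.W Pool.Agent.H82.W Pool.Agent.H70.W
open Pool.Agent.H19.W (cx cy cx_lt cy_lt mv)
open Pool.Agent.H45.W (BG al)
open Pool.Agent.H73.W (Gk Tk Hk FJ SJ NJ IJ Na co Cut cutY cutP Dl strO Sn Nn Yr_cases StartOK)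
open Pool.Agent.H16.W (cntq)
open Pool.Agent.H47.W (vt)

variable {b : JBox} {δ σ : ℝ} {h i : ℕ} {M : Finset (Bool × ℕ)} {v : ℤ × ℤ} {xl xr yt : ℤ}
  {C : Set (ℤ × ℤ)} {fp : Finset (ℤ × ℤ)} {cl cl2 : Cl} {o base s : Bool} {x y x1 B ρ R : ℤ}
  {ω1 ω2 : Finset (ℤ × ℤ)} {I : Set (ℤ × ℤ)} {c : ℤ × ℤ} {q3 q4 : Bool × ℕ}

lemma hcol_of {M : Finset (Bool × ℕ)} {ex : Option ℤ} {q : Bool × ℕ} (hq : q ∈ M) :
    H73.W.cq (colM base M ex) q.1 q.2 ≠ H73.W.cq (colM base M ex) q.1 (q.2 + 1) := by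
  rw [H73.W.cq_cc, H73.W.cq_cc, Pool.Agent.H45.W.cc_flip hq]
  cases Pool.Agent.H45.W.cc (colM base M ex) q q.2 <;> simp

section
variable (U : FN δ σ b h i {q3, q4} v xl xr yt B ρ R) (hi3 : (false, i) ≠ q3) (hi4 : (false, i) ≠ q4)
  (h34 : q3 ≠ q4) (hP : b.Pl h ⊆ b.B h) (hf : fp ⊆ b.B h)
  (fpl : ∀ x y : ℤ, lt (x, y) ∈ fp → ∃ k, chn 0 b.M b.τ (x / (2 * h : ℤ), y / (2 * h : ℤ)) = some k)
  (hx : -((b.X : ℤ) * (2 * h)) < x1) (hx' : x1 < b.X * (2 * h))
include U hi3 hi4 h34 hP hf fpl hx hx'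

/-- **The events of the `Y` world** (blocked configurations). -/
theorem evY (hC : Cor (WT b h {q3, q4} (colM base {q3, q4} (some v.2)) v (lt '' slD s x1) fp o)
      (WF b h i {q3, q4} (colM base {(false, i), q3, q4} none) (lt '' slD s x1) fp o)
      (mv (Str0 v)) (Str0 v) (OA b h v xl xr yt) (OB b h v xl xr yt) ω1 ω2)
    (hB : BlkF b h i (colM base {(false, i), q3, q4} none) B ρ R (ω2 ∩ OB b h v xl xr yt)) :
    (RF b (2 * h) (SG (Lam b (2 * h) {q3, q4}) (lt '' (strD v ∪ slD s x1))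
        ((WT b h {q3, q4} (colM base {q3, q4} (some v.2)) v (lt '' slD s x1) fp o).st ω1)) (zc v) q3 ↔
      RF b (2 * h) (SG (Lam b (2 * h) {(false, i), q3, q4}) (lt '' slD s x1)
        ((WF b h i {q3, q4} (colM base {(false, i), q3, q4} none) (lt '' slD s x1) fp o).st ω2))
        (fa b (2 * h) (colM base {(false, i), q3, q4} none) (false, i)) q3) ∧
    ((SG (Lam b (2 * h) {q3, q4}) (lt '' (strD v ∪ slD s x1))
        ((WT b h {q3, q4} (colM base {q3, q4} (some v.2)) v (lt '' slD s x1) fp o).st ω1)).Reachable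
        (zc v) (mc s x1) ↔
      (SG (Lam b (2 * h) {(false, i), q3, q4}) (lt '' slD s x1)
        ((WF b h i {q3, q4} (colM base {(false, i), q3, q4} none) (lt '' slD s x1) fp o).st ω2)).Reachable
        (fa b (2 * h) (colM base {(false, i), q3, q4} none) (false, i)) (mc s x1)) ∧
    cntq b h s x1 q3 (SG (Lam b (2 * h) {q3, q4}) (lt '' (strD v ∪ slD s x1))
        ((WT b h {q3, q4} (colM base {q3, q4} (some v.2)) v (lt '' slD s x1) fp o).st ω1)) =
      cntq b h s x1 q3 (SG (Lam b (2 * h) {(false, i), q3, q4}) (lt '' slD s x1)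
        ((WF b h i {q3, q4} (colM base {(false, i), q3, q4} none) (lt '' slD s x1) fp o).st ω2)) := by
  classical
  have D := detY (base := base) (s := s) U hi3 hi4 h34 hP hf fpl hx hx' hC hB
  have hbg := BG.of_ok U.ok
  have hh : 0 < h := by have := U.hh; omega
  have n0 : (0 : ℤ) < 2 * h := by positivity
  have n4 : (4 : ℤ) ≤ 2 * h := by have := U.hh; omega
  have hn2 : (2 * (h : ℤ)) % 2 = 0 := by omega
  have m3 : q3 ∈ ({q3, q4} : Finset (Bool × ℕ)) := by simp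
  have m4 : q4 ∈ ({q3, q4} : Finset (Bool × ℕ)) := by simp
  have p1 : (false, i) ∈ ({(false, i), q3, q4} : Finset (Bool × ℕ)) := by simp
  have p3 : q3 ∈ ({(false, i), q3, q4} : Finset (Bool × ℕ)) := by simp
  have p4 : q4 ∈ ({(false, i), q3, q4} : Finset (Bool × ℕ)) := by simp
  have k3 := U.hM q3 m3
  have k4 := U.hM q4 m4
  have hM2 : ∀ c ∈ ({(false, i), q3, q4} : Finset (Bool × ℕ)), c.2 < b.K := by
    intro c hc
    rcases mem_insert.1 hc with rfl | hc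
    · exact U.hi
    · exact U.hM c hc
  have hyt := U.yt_lt
  have hyt1 := U.yt1
  have hne : v.2 = Yr s → x1 < v.1 := by
    intro h1
    rcases Yr_cases s with e | e <;> omega
  set cl := colM base {q3, q4} (some v.2) with hcldef
  set cl2 := colM base {(false, i), q3, q4} none with hcl2def
  have s1 := sub_form1 (cl := cl) (M := {q3, q4}) (v := v) (C := lt '' slD s x1) (o := o) hP hf hC.1
  have s2 := sub_form2 (cl2 := cl2) (M := {q3, q4}) (i := i) (C := lt '' slD s x1) (o := o) hP hf hC.2.1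
  have c1 := cutY (base := base) (s := s) hbg hh k3 k4 h34 U.hv hx hx' hne s1
  have c2 := cutP (base := base) (s := s) hbg hh U.hi k3 k4 hi3 hi4 h34 hx hx' s2
  have o1 := H73.W.notMem_of_sub hh s1
  have o2 := H73.W.notMem_of_sub hh s2
  unfold GG at c1 c2
  rw [st_form1 (cl := cl) (M := {q3, q4}) (v := v) (C := lt '' slD s x1) (o := o),
    st_form2 (cl2 := cl2) (M := {q3, q4}) (i := i) (C := lt '' slD s x1) (o := o)] at D ⊢
  rw [← hcldef] at c1
  rw [← hcl2def] at c2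
  generalize symmDiff ω1 (fp \ b.Pl h) ∪ PP b h fp o = w1 at s1 c1 o1 D ⊢
  generalize symmDiff ω2 (fp \ b.Pl h) ∪ (PP b h fp o ∪ FO b h i cl2) = w2 at s2 c2 o2 D ⊢
  have eD : (slD s x1 : Set (ℤ × ℤ)) = Dl s x1 none := by
    unfold Dl strO
    rw [Set.empty_union]
  have J1 := Pool.Agent.H73.W.JOk.of (s := s) (v := some v) hbg (show (2 : ℤ) ≤ 2 * h by omega) hx hx' U.hM
    (fun u hu => by rw [Option.mem_def, Option.some.injEq] at hu; rw [← hu]; exact U.hv)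
    (fun u hu => by rw [Option.mem_def, Option.some.injEq] at hu; rw [← hu]; exact hne)
  have J2 := Pool.Agent.H73.W.JOk.of (s := s) (v := none) hbg (show (2 : ℤ) ≤ 2 * h by omega) hx hx' hM2
    (fun u hu => absurd hu (by simp)) (fun u hu => absurd hu (by simp))
  have st1 : StartOK b (2 * h) cl {q3, q4} (some v) q3 q4 (zc v) := Or.inl ⟨v, rfl, rfl⟩
  have st2 : StartOK b (2 * h) cl2 {(false, i), q3, q4} none q3 q4
      (H73.W.fa b (2 * h) cl2 (false, i)) := Or.inr ⟨(false, i), p1, hi3, hi4, rfl⟩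
  have f1 : fa b (2 * h) cl2 (false, i) = H73.W.fa b (2 * h) cl2 (false, i) := fa_eq_fa hn2 p1
  rw [f1]
  have eY : (strD v ∪ slD s x1 : Set (ℤ × ℤ)) = Dl s x1 (some v) := rfl
  rw [eY] at c1 ⊢
  have c1' : Cut (Gk b (2 * h) s x1 {q3, q4} (some v) (w1 ∪ Wl b (2 * h) cl)) _ _ _ _ _ := c1
  rw [eD] at c2 D ⊢
  have c2' : Cut (Gk b (2 * h) s x1 {(false, i), q3, q4} none (w2 ∪ Wl b (2 * h) cl2)) _ _ _ _ _ := c2
  have D' : ∀ (a : Fin 4) (c : Na (Fin 4) (IJ b (2 * h) x1)),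
      (Gk b (2 * h) s x1 {q3, q4} (some v) (w1 ∪ Wl b (2 * h) cl)).Reachable
        (FJ b (2 * h) cl s x1 q3 q4 (zc v) a)
        (co (FJ b (2 * h) cl s x1 q3 q4 (zc v)) (SJ b (2 * h) s x1) (NJ b (2 * h) s x1) c) ↔
      (Gk b (2 * h) s x1 {(false, i), q3, q4} none (w2 ∪ Wl b (2 * h) cl2)).Reachable
        (FJ b (2 * h) cl2 s x1 q3 q4 (H73.W.fa b (2 * h) cl2 (false, i)) a)
        (co (FJ b (2 * h) cl2 s x1 q3 q4 (H73.W.fa b (2 * h) cl2 (false, i)))
          (SJ b (2 * h) s x1) (NJ b (2 * h) s x1) c) := D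
  refine ⟨?_, D' 0 (.inl 1), ?_⟩
  · have r1 := Pool.Agent.H73.W.RF_alive J1 m3 m4 st1 c1' m3 0
    have r2 := Pool.Agent.H73.W.RF_alive J2 p3 p4 st2 c2' p3 0
    exact r1.trans ((D' 0 (.inl 2)).trans r2.symm)
  · have r1 := Pool.Agent.H73.W.cnt_eq J1 n4 o1 m3 (hcol_of m3) c1'
    have r2 := Pool.Agent.H73.W.cnt_eq J2 n4 o2 p3 (hcol_of p3) c2'
    refine r1.trans (Eq.trans ?_ r2.symm)
    congr 1
    ext x
    exact D' 2 (.inr (x, false))

end

/-! ### Probabilities -/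

/-- the world with the marks `(false, i), c3, c4`, a mark on `P`, and the forced row -/
noncomputable def GYF (b : JBox) (h : ℕ) (w s : Bool) (x1 : ℤ) (i : ℕ) (M : Finset (Bool × ℕ)) (o : Bool)
    (ω : Finset (ℤ × ℤ)) : SimpleGraph (ℤ × ℤ) :=
  GG b (2 * h) (insert (false, i) M) (colM (bsP w s) (insert (false, i) M) none) (slD s x1)
    (force b h (false, i) (colM (bsP w s) (insert (false, i) M) none)
      (symmDiff (cfg b h o ω) (flp b h s x1)))

/-- the world of the moving end -/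
noncomputable def GYM (b : JBox) (h : ℕ) (w s : Bool) (x1 : ℤ) (M : Finset (Bool × ℕ)) (v : ℤ × ℤ) (o : Bool)
    (ω : Finset (ℤ × ℤ)) : SimpleGraph (ℤ × ℤ) :=
  GG b (2 * h) M (colM (bsP w s) M (some v.2)) (strD v ∪ slD s x1)
    (symmDiff (cfg b h o ω) (flp b h s x1))

/-- the start of the second world -/
noncomputable def aY (b : JBox) (h : ℕ) (w s : Bool) (i : ℕ) (M : Finset (Bool × ℕ)) : ℤ × ℤ :=
  al b (2 * h) (colM (bsP w s) (insert (false, i) M) none) (false, i)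

/-- error for the mark `q` -/
noncomputable def eYf (b : JBox) (h : ℕ) (w s o : Bool) (x1 : ℤ) (i : ℕ) (M : Finset (Bool × ℕ))
    (q : Bool × ℕ) (v : ℤ × ℤ) : ℝ :=
  |b.PJ h (fun ω => RF b (2 * h) (GYM b h w s x1 M v o ω) (zc v) q) -
    b.PJ h (fun ω => RF b (2 * h) (GYF b h w s x1 i M o ω) (aY b h w s i M) q)|

/-- error for the mark on `P` and the number of passages of the strand of `q` -/
noncomputable def eYc (b : JBox) (h : ℕ) (w s o : Bool) (x1 : ℤ) (i : ℕ) (M : Finset (Bool × ℕ))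
    (q : Bool × ℕ) (P : ℕ → Prop) (v : ℤ × ℤ) : ℝ :=
  |b.PJ h (fun ω => (GYM b h w s x1 M v o ω).Reachable (zc v) (mc s x1) ∧
      P (cntq b h s x1 q (GYM b h w s x1 M v o ω))) -
    b.PJ h (fun ω => (GYF b h w s x1 i M o ω).Reachable (aY b h w s i M) (mc s x1) ∧
      P (cntq b h s x1 q (GYF b h w s x1 i M o ω)))|

lemma flp_plate (x y : ℤ) (he : lt (x, y) ∈ flp b h s x1) :
    ∃ k, chn 0 b.M b.τ (x / (2 * h : ℤ), y / (2 * h : ℤ)) = some k := by
  classical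
  unfold flp at he
  rw [mem_filter, tt_lt] at he
  exact Option.ne_none_iff_exists'.1 he.2.1.2

/-- **(A) for `Y`**, first mark -/
theorem moveY0 : ∃ C0 α : ℝ, 0 < C0 ∧ 0 < α ∧
    ∀ {δ σ : ℝ} {b : JBox} {h i : ℕ} {q3 q4 : Bool × ℕ} {v : ℤ × ℤ} {xl xr yt B ρ R x1 : ℤ}
      (w s o : Bool), FN δ σ b h i {q3, q4} v xl xr yt B ρ R → (false, i) ≠ q3 → (false, i) ≠ q4 →
      q3 ≠ q4 → b.Pl h ⊆ b.B h → -((b.X : ℤ) * (2 * h)) < x1 → x1 < b.X * (2 * h) →
      eYf b h w s o x1 i {q3, q4} q3 v ≤ C0 * ((ρ : ℝ) / R) ^ α ∧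
        ∀ P, eYc b h w s o x1 i {q3, q4} q3 P v ≤ C0 * ((ρ : ℝ) / R) ^ α := by
  obtain ⟨C0, α, hC0, hα, H⟩ := blkF_prob
  refine ⟨C0, α, hC0, hα, ?_⟩
  intro δ σ b h i q3 q4 v xl xr yt B ρ R x1 w s o U hi3 hi4 h34 hP hx hx'
  have hC1 : ∀ e ∈ lt '' slD s x1, -1 ≤ cy e := fun e he => (slD_row he).1
  have hh : 0 < h := by have := U.hh; omega
  have hf : flp b h s x1 ⊆ b.B h := Pool.Agent.H45.W.flp_subB
  have fpl : ∀ x y : ℤ, lt (x, y) ∈ flp b h s x1 →
      ∃ k, chn 0 b.M b.τ (x / (2 * h : ℤ), y / (2 * h : ℤ)) = some k := flp_plate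
  have G : BlG δ σ b h i {q3, q4} (lt '' slD s x1) B := U.blG hC1
  have L : FlG δ σ b h i {q3, q4} v xl xr yt (lt '' slD s x1) (flp b h s x1) := U.flG hC1 fpl hf hP
  have h2 := H (o := o) (cl2 := colM (bsP w s) (insert (false, i) {q3, q4}) none) G L U.blN clF
  have e1 : fa b (2 * h) (colM (bsP w s) (insert (false, i) {q3, q4}) none) (false, i) =
      aY b h w s i {q3, q4} := fa_eq_al (by omega) (mem_insert_self _ _)
  refine ⟨?_, fun P => ?_⟩
  · have h1 := fl_event (cl := colM (bsP w s) {q3, q4} (some v.2))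
      (cl2 := colM (bsP w s) (insert (false, i) {q3, q4}) none) (o := o) (B := B) (ρ := ρ) (R := R) L
      (E1 := fun W => RF b (2 * h) (SG (Lam b (2 * h) {q3, q4}) (lt '' (strD v ∪ slD s x1)) W) (zc v) q3)
      (E2 := fun W => RF b (2 * h) (SG (Lam b (2 * h) (insert (false, i) {q3, q4})) (lt '' slD s x1) W)
          (fa b (2 * h) (colM (bsP w s) (insert (false, i) {q3, q4}) none) (false, i)) q3)
      (fun ω1 ω2 hC hB => (evY U hi3 hi4 h34 hP hf fpl hx hx' hC hB).1)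
    rw [e1] at h1
    exact h1.trans h2
  · have h1 := fl_event (cl := colM (bsP w s) {q3, q4} (some v.2))
      (cl2 := colM (bsP w s) (insert (false, i) {q3, q4}) none) (o := o) (B := B) (ρ := ρ) (R := R) L
      (E1 := fun W => (SG (Lam b (2 * h) {q3, q4}) (lt '' (strD v ∪ slD s x1)) W).Reachable (zc v) (mc s x1) ∧
        P (cntq b h s x1 q3 (SG (Lam b (2 * h) {q3, q4}) (lt '' (strD v ∪ slD s x1)) W)))
      (E2 := fun W => (SG (Lam b (2 * h) (insert (false, i) {q3, q4})) (lt '' slD s x1) W).Reachable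
          (fa b (2 * h) (colM (bsP w s) (insert (false, i) {q3, q4}) none) (false, i)) (mc s x1) ∧
        P (cntq b h s x1 q3 (SG (Lam b (2 * h) (insert (false, i) {q3, q4})) (lt '' slD s x1) W)))
      (fun ω1 ω2 hC hB => by
        obtain ⟨-, g2, g3⟩ := evY U hi3 hi4 h34 hP hf fpl hx hx' hC hB
        exact and_congr g2 (by rw [g3]))
    rw [e1] at h1
    exact h1.trans h2

/-- **(A) for `Y`.** -/
theorem moveY : ∃ C0 α : ℝ, 0 < C0 ∧ 0 < α ∧
    ∀ {δ σ : ℝ} {b : JBox} {h i : ℕ} {c3 c4 q : Bool × ℕ} {v : ℤ × ℤ} {xl xr yt B ρ R x1 : ℤ}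
      (w s o : Bool), FN δ σ b h i {c3, c4} v xl xr yt B ρ R → (false, i) ≠ c3 → (false, i) ≠ c4 →
      c3 ≠ c4 → b.Pl h ⊆ b.B h → -((b.X : ℤ) * (2 * h)) < x1 → x1 < b.X * (2 * h) →
      q ∈ ({c3, c4} : Finset (Bool × ℕ)) →
      eYf b h w s o x1 i {c3, c4} q v ≤ C0 * ((ρ : ℝ) / R) ^ α ∧
        ∀ P, eYc b h w s o x1 i {c3, c4} q P v ≤ C0 * ((ρ : ℝ) / R) ^ α := by
  obtain ⟨C0, α, hC0, hα, H⟩ := moveY0
  refine ⟨C0, α, hC0, hα, ?_⟩
  intro δ σ b h i c3 c4 q v xl xr yt B ρ R x1 w s o U h3 h4 h34 hP hx hx' hq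
  rw [mem_insert, mem_singleton] at hq
  rcases hq with rfl | rfl
  · exact H w s o U h3 h4 h34 hP hx hx'
  · have e : ({c3, q} : Finset (Bool × ℕ)) = {q, c3} := pair_comm _ _
    rw [e] at U ⊢
    exact H w s o U h4 h3 h34.symm hP hx hx'

end Pool.Agent.H87.W
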