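import Mathlib

/-! Half disc Cauchy theorem in logarithmic coordinates, with boundary limits only. -/

namespace Pool.Agent.H87.W

open Complex MeasureTheory Set Filter Topology

/-- Dominated convergence with moving end points. -/
theorem tendsto_intInt' {f : ℕ → ℝ → ℂ} {g : ℝ → ℂ} {bd : ℝ → ℝ} {a b : ℝ} {an bn : ℕ → ℝ}
    (hab : a ≤ b) (han : Tendsto an atTop (𝓝 a)) (hbn : Tendsto bn atTop (𝓝 b))
    (h1 : ∀ n, a ≤ an n) (h2 : ∀ n, bn n ≤ b) (h12 : ∀ n, an n ≤ bn n)
    (hm : ∀ n, AEStronglyMeasurable (f n) (volume.restrict (Ioc (an n) (bn n))))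
    (hbd : ∀ᵐ x, ∀ n, x ∈ Ioc (an n) (bn n) → ‖f n x‖ ≤ bd x)
    (hint : IntervalIntegrable bd volume a b)
    (hbd0 : ∀ x, 0 ≤ bd x)
    (hlim : ∀ᵐ x, x ∈ Ioo a b → Tendsto (fun n => f n x) atTop (𝓝 (g x))) :
    Tendsto (fun n => ∫ x in (an n)..(bn n), f n x) atTop (𝓝 (∫ x in a..b, g x)) ∧
      IntervalIntegrable g volume a b := by
  have e1 : ∀ n, ∫ x in (an n)..(bn n), f n x
      = ∫ x in Ioc a b, (Ioc (an n) (bn n)).indicator (f n) x := by
    intro n
    rw [intervalIntegral.integral_of_le (h12 n), setIntegral_indicator measurableSet_Ioc]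
    congr 2
    ext x
    simp only [mem_inter_iff, mem_Ioc]
    have := h1 n
    have := h2 n
    constructor
    · rintro ⟨h, h'⟩; exact ⟨⟨by linarith, by linarith⟩, h, h'⟩
    · rintro ⟨_, h⟩; exact h
  simp_rw [e1]
  rw [intervalIntegral.integral_of_le hab]
  have m1 : ∀ n, AEStronglyMeasurable ((Ioc (an n) (bn n)).indicator (f n))
      (volume.restrict (Ioc a b)) := by
    intro n
    rw [aestronglyMeasurable_indicator_iff measurableSet_Ioc]
    rw [Measure.restrict_restrict measurableSet_Ioc]
    apply (hm n).mono_measure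
    exact Measure.restrict_mono inter_subset_left le_rfl
  have m2 : Integrable bd (volume.restrict (Ioc a b)) :=
    (intervalIntegrable_iff_integrableOn_Ioc_of_le hab).1 hint
  have m3 : ∀ᵐ x ∂(volume.restrict (Ioc a b)), ∀ n,
      ‖(Ioc (an n) (bn n)).indicator (f n) x‖ ≤ bd x := by
    refine ae_restrict_of_ae ?_
    filter_upwards [hbd] with x hbx n
    by_cases hx : x ∈ Ioc (an n) (bn n)
    · rw [indicator_of_mem hx]; exact hbx n hx
    · rw [indicator_of_notMem hx]; simpa using hbd0 x
  have m4 : ∀ᵐ x ∂(volume.restrict (Ioc a b)),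
      Tendsto (fun n => (Ioc (an n) (bn n)).indicator (f n) x) atTop (𝓝 (g x)) := by
    have h0 : ∀ᵐ x : ℝ, x ≠ b := by
      rw [ae_iff]
      simp
    rw [ae_restrict_iff' measurableSet_Ioc]
    filter_upwards [hlim, h0] with x hx hxb hxm
    have hxm' : x ∈ Ioo a b := ⟨hxm.1, lt_of_le_of_ne hxm.2 hxb⟩
    refine (hx hxm').congr' ?_
    have ea : ∀ᶠ n in atTop, an n < x := han.eventually (gt_mem_nhds hxm'.1)
    have eb : ∀ᶠ n in atTop, x < bn n := hbn.eventually (lt_mem_nhds hxm'.2)
    filter_upwards [ea, eb] with n h1 h2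
    exact (indicator_of_mem (show x ∈ Ioc (an n) (bn n) from ⟨h1, h2.le⟩) _).symm
  constructor
  · exact tendsto_integral_of_dominated_convergence bd m1 m2
      (fun n => m3.mono fun x hx => hx n) m4
  · rw [intervalIntegrable_iff_integrableOn_Ioc_of_le hab]
    refine Integrable.mono' m2 (aestronglyMeasurable_of_tendsto_ae atTop m1 m4) ?_
    filter_upwards [m3, m4] with x hx3 hx4
    exact le_of_tendsto' hx4.norm hx3

/-- Cauchy's theorem on the rectangle `(a,0) x (-c,c)`, with boundary limits almost everywhere. -/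
theorem cauchy_log {Φ : ℂ → ℂ} {a c : ℝ} (ha : a < 0) (hc : 0 < c) {g : ℝ → ℝ} {B δ : ℝ}
    (hδ : 0 < δ)
    (hd : DifferentiableOn ℂ Φ (Ioo a 0 ×ℂ Ioo (-c) c))
    (hg : IntervalIntegrable g volume (-c) c) (hg0 : ∀ y, 0 ≤ g y)
    (hbg : ∀ᵐ y : ℝ, y ∈ Ioo (-c) c → ∀ x ∈ Ioo a 0, ‖Φ (x + y * I)‖ ≤ g y)
    (hbB : ∀ x ∈ Ioo a 0, ∀ y ∈ Ioo (-c) c, c - δ < |y| → ‖Φ (x + y * I)‖ ≤ B)
    (hr : ∀ᵐ y : ℝ, y ∈ Ioo (-c) c →
      Tendsto (fun x : ℝ => Φ (x + y * I)) (𝓝[<] 0) (𝓝 (Φ (y * I))))
    (hl : ∀ᵐ y : ℝ, y ∈ Ioo (-c) c →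
      Tendsto (fun x : ℝ => Φ (x + y * I)) (𝓝[>] a) (𝓝 (Φ (a + y * I))))
    (hu : ∀ᵐ x : ℝ, x ∈ Ioo a 0 →
      Tendsto (fun y : ℝ => Φ (x + y * I)) (𝓝[<] c) (𝓝 (Φ (x + c * I))))
    (ho : ∀ᵐ x : ℝ, x ∈ Ioo a 0 →
      Tendsto (fun y : ℝ => Φ (x + y * I)) (𝓝[>] (-c)) (𝓝 (Φ (x + (-c : ℝ) * I)))) :
    I * (∫ y in (-c)..c, Φ (y * I)) = I * (∫ y in (-c)..c, Φ (a + y * I))
      + ((∫ x in a..0, Φ (x + c * I)) - ∫ x in a..0, Φ (x + (-c : ℝ) * I)) ∧
    IntervalIntegrable (fun y : ℝ => Φ (y * I)) volume (-c) c ∧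
    IntervalIntegrable (fun y : ℝ => Φ (a + y * I)) volume (-c) c ∧
    IntervalIntegrable (fun x : ℝ => Φ (x + c * I)) volume a 0 ∧
    IntervalIntegrable (fun x : ℝ => Φ (x + (-c : ℝ) * I)) volume a 0 := by
  -- sequences
  set m : ℝ := min (min (-a) c) δ / 4 with hm
  have hmpos : 0 < m := by
    have : 0 < min (min (-a) c) δ := lt_min (lt_min (by linarith) hc) hδ
    positivity
  have hma : 4 * m ≤ -a := by
    have : 4 * m = min (min (-a) c) δ := by rw [hm]; ring
    rw [this]; exact (min_le_left _ _).trans (min_le_left _ _)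
  have hmc : 4 * m ≤ c := by
    have : 4 * m = min (min (-a) c) δ := by rw [hm]; ring
    rw [this]; exact (min_le_left _ _).trans (min_le_right _ _)
  have hmδ : 4 * m ≤ δ := by
    have : 4 * m = min (min (-a) c) δ := by rw [hm]; ring
    rw [this]; exact (min_le_right _ _)
  let e : ℕ → ℝ := fun n => m / (n + 1)
  have epos : ∀ n, 0 < e n := fun n => by positivity
  have ele : ∀ n, e n ≤ m := fun n => by
    show m / ((n : ℝ) + 1) ≤ m
    apply div_le_self hmpos.le
    have : (0:ℝ) ≤ n := Nat.cast_nonneg n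
    linarith
  have elim : Tendsto e atTop (𝓝 0) := by
    have := tendsto_one_div_add_atTop_nhds_zero_nat (𝕜 := ℝ)
    have h2 := this.const_mul m
    simpa [e, div_eq_mul_inv] using h2
  have an_lim : Tendsto (fun n => a + e n) atTop (𝓝 a) := by simpa using elim.const_add a
  have bn_lim : Tendsto (fun n => -e n) atTop (𝓝 0) := by simpa using elim.neg
  have cn_lim : Tendsto (fun n => -c + e n) atTop (𝓝 (-c)) := by simpa using elim.const_add (-c)
  have dn_lim : Tendsto (fun n => c - e n) atTop (𝓝 c) := by simpa using elim.const_sub c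
  -- continuity of Φ in the interior
  have hcont : ContinuousOn Φ (Ioo a 0 ×ℂ Ioo (-c) c) := hd.continuousOn
  have hopen : IsOpen (Ioo a 0 ×ℂ Ioo (-c) c) := isOpen_Ioo.reProdIm isOpen_Ioo
  have hcx : ∀ x ∈ Ioo a 0, ContinuousOn (fun y : ℝ => Φ (x + y * I)) (Ioo (-c) c) := by
    intro x hx
    apply hcont.comp (by fun_prop)
    intro y hy
    simp only [mem_reProdIm]
    constructor
    · simpa using hx
    · simpa using hy
  have hcy : ∀ y ∈ Ioo (-c) c, ContinuousOn (fun x : ℝ => Φ (x + y * I)) (Ioo a 0) := by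
    intro y hy
    apply hcont.comp (by fun_prop)
    intro x hx
    simp only [mem_reProdIm]
    constructor
    · simpa using hx
    · simpa using hy
  -- exact identity on the smaller rectangles
  have key : ∀ n, (∫ x : ℝ in (a + e n)..(-e n), Φ (x + (-c + e n : ℝ) * I))
      - (∫ x : ℝ in (a + e n)..(-e n), Φ (x + (c - e n : ℝ) * I))
      + I * (∫ y : ℝ in (-c + e n)..(c - e n), Φ ((-e n : ℝ) + y * I))
      - I * (∫ y : ℝ in (-c + e n)..(c - e n), Φ ((a + e n : ℝ) + y * I)) = 0 := by
    intro n
    have h1 := epos n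
    have h2 := ele n
    have := integral_boundary_rect_eq_zero_of_differentiableOn Φ
      (⟨a + e n, -c + e n⟩ : ℂ) (⟨-e n, c - e n⟩ : ℂ) (by
        apply hd.mono
        intro z hz
        simp only [mem_reProdIm] at hz ⊢
        rw [uIcc_of_le (show a + e n ≤ -e n by linarith),
          uIcc_of_le (show -c + e n ≤ c - e n by linarith)] at hz
        obtain ⟨⟨p1, p2⟩, p3, p4⟩ := hz
        refine ⟨⟨by linarith, by linarith⟩, by linarith, by linarith⟩)
    simpa only [smul_eq_mul] using this
  -- limits of the four sides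
  have L1 : Tendsto (fun n => ∫ x : ℝ in (a + e n)..(-e n), Φ (x + (-c + e n : ℝ) * I)) atTop
      (𝓝 (∫ x in a..0, Φ (x + (-c : ℝ) * I))) ∧
      IntervalIntegrable (fun x : ℝ => Φ (x + (-c : ℝ) * I)) volume a 0 := by
    apply tendsto_intInt' (bd := fun _ => max B 0) ha.le an_lim bn_lim
    · intro n; have := epos n; linarith
    · intro n; have := epos n; linarith
    · intro n; have := epos n; have := ele n; linarith
    · intro n
      have h1 := epos n
      have h2 := ele n
      apply ContinuousOn.aestronglyMeasurable _ measurableSet_Ioc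
      exact (hcy (-c + e n) ⟨by linarith, by linarith⟩).mono (fun x hx =>
        ⟨by have := hx.1; linarith, by have := hx.2; linarith⟩)
    · refine Eventually.of_forall fun x n hx => ?_
      have h1 := epos n
      have h2 := ele n
      refine (hbB x ⟨by have := hx.1; linarith, by have := hx.2; linarith⟩ (-c + e n)
        ⟨by linarith, by linarith⟩ ?_).trans (le_max_left _ _)
      rw [abs_of_neg (by linarith)]
      linarith
    · exact intervalIntegrable_const
    · intro x; exact le_max_right _ _
    · filter_upwards [ho] with x hx hxm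
      refine (hx hxm).comp ?_
      rw [tendsto_nhdsWithin_iff]
      exact ⟨cn_lim, Eventually.of_forall fun n => by
        have := epos n
        simp only [mem_Ioi]; linarith⟩
  have L2 : Tendsto (fun n => ∫ x : ℝ in (a + e n)..(-e n), Φ (x + (c - e n : ℝ) * I)) atTop
      (𝓝 (∫ x in a..0, Φ (x + c * I))) ∧
      IntervalIntegrable (fun x : ℝ => Φ (x + c * I)) volume a 0 := by
    apply tendsto_intInt' (bd := fun _ => max B 0) ha.le an_lim bn_lim
    · intro n; have := epos n; linarith
    · intro n; have := epos n; linarith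
    · intro n; have := epos n; have := ele n; linarith
    · intro n
      have h1 := epos n
      have h2 := ele n
      apply ContinuousOn.aestronglyMeasurable _ measurableSet_Ioc
      exact (hcy (c - e n) ⟨by linarith, by linarith⟩).mono (fun x hx =>
        ⟨by have := hx.1; linarith, by have := hx.2; linarith⟩)
    · refine Eventually.of_forall fun x n hx => ?_
      have h1 := epos n
      have h2 := ele n
      refine (hbB x ⟨by have := hx.1; linarith, by have := hx.2; linarith⟩ (c - e n)
        ⟨by linarith, by linarith⟩ ?_).trans (le_max_left _ _)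
      rw [abs_of_pos (by linarith)]
      linarith
    · exact intervalIntegrable_const
    · intro x; exact le_max_right _ _
    · filter_upwards [hu] with x hx hxm
      refine (hx hxm).comp ?_
      rw [tendsto_nhdsWithin_iff]
      exact ⟨dn_lim, Eventually.of_forall fun n => by
        have := epos n
        simp only [mem_Iio]; linarith⟩
  have L3 : Tendsto (fun n => ∫ y : ℝ in (-c + e n)..(c - e n), Φ ((-e n : ℝ) + y * I)) atTop
      (𝓝 (∫ y in (-c)..c, Φ (y * I))) ∧
      IntervalIntegrable (fun y : ℝ => Φ (y * I)) volume (-c) c := by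
    apply tendsto_intInt' (bd := g) (by linarith) cn_lim dn_lim
    · intro n; have := epos n; linarith
    · intro n; have := epos n; linarith
    · intro n; have := epos n; have := ele n; linarith
    · intro n
      have h1 := epos n
      have h2 := ele n
      apply ContinuousOn.aestronglyMeasurable _ measurableSet_Ioc
      exact (hcx (-e n) ⟨by linarith, by linarith⟩).mono (fun x hx =>
        ⟨by have := hx.1; linarith, by have := hx.2; linarith⟩)
    · filter_upwards [hbg] with y hby n hy
      have h1 := epos n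
      have h2 := ele n
      exact hby ⟨by have := hy.1; linarith, by have := hy.2; linarith⟩ (-e n)
        ⟨by linarith, by linarith⟩
    · exact hg
    · exact hg0
    · filter_upwards [hr] with y hy hym
      refine (hy hym).comp ?_
      rw [tendsto_nhdsWithin_iff]
      exact ⟨bn_lim, Eventually.of_forall fun n => by
        have := epos n
        simp only [mem_Iio]; linarith⟩
  have L4 : Tendsto (fun n => ∫ y : ℝ in (-c + e n)..(c - e n), Φ ((a + e n : ℝ) + y * I)) atTop
      (𝓝 (∫ y in (-c)..c, Φ (a + y * I))) ∧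
      IntervalIntegrable (fun y : ℝ => Φ (a + y * I)) volume (-c) c := by
    apply tendsto_intInt' (bd := g) (by linarith) cn_lim dn_lim
    · intro n; have := epos n; linarith
    · intro n; have := epos n; linarith
    · intro n; have := epos n; have := ele n; linarith
    · intro n
      have h1 := epos n
      have h2 := ele n
      apply ContinuousOn.aestronglyMeasurable _ measurableSet_Ioc
      exact (hcx (a + e n) ⟨by linarith, by linarith⟩).mono (fun x hx =>
        ⟨by have := hx.1; linarith, by have := hx.2; linarith⟩)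
    · filter_upwards [hbg] with y hby n hy
      have h1 := epos n
      have h2 := ele n
      exact hby ⟨by have := hy.1; linarith, by have := hy.2; linarith⟩ (a + e n)
        ⟨by linarith, by linarith⟩
    · exact hg
    · exact hg0
    · filter_upwards [hl] with y hy hym
      refine (hy hym).comp ?_
      rw [tendsto_nhdsWithin_iff]
      exact ⟨an_lim, Eventually.of_forall fun n => by
        have := epos n
        simp only [mem_Ioi]; linarith⟩
  have L := ((L1.1.sub L2.1).add (L3.1.const_mul I)).sub (L4.1.const_mul I)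
  have hz : Tendsto (fun _ : ℕ => (0 : ℂ)) atTop (𝓝 0) := tendsto_const_nhds
  have := tendsto_nhds_unique (L.congr key) hz
  exact ⟨by linear_combination this, L3.2, L4.2, L2.2, L1.2⟩

end Pool.Agent.H87.W
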