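import Pool.Agent.H87.W.HalfA

/-! Estimates of the factors `(1 - w c)^(-1/3)` on the closed disc. -/

namespace Pool.Agent.H87.W

open Complex MeasureTheory Set Filter Topology

/-- `|1 - z| ≤ 2 |1 - r z|` in the closed disc. -/
theorem norm_one_sub_le {z : ℂ} {r : ℝ} (hz : ‖z‖ ≤ 1) (hr0 : 0 ≤ r) (hr1 : r ≤ 1) :
    ‖1 - z‖ ≤ 2 * ‖1 - r * z‖ := by
  have h1 : ‖1 - z‖ ≤ ‖1 - r * z‖ + ‖(1 - r : ℝ) * z‖ := by
    have : 1 - z = (1 - r * z) - ((1 - r : ℝ) : ℂ) * z := by push_cast; ring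
    rw [this]; exact norm_sub_le _ _
  have h2 : ‖((1 - r : ℝ) : ℂ) * z‖ = (1 - r) * ‖z‖ := by
    rw [norm_mul, norm_real, Real.norm_of_nonneg (by linarith)]
  have h3 : 1 - r * ‖z‖ ≤ ‖1 - r * z‖ := by
    have := norm_sub_norm_le (1 : ℂ) (r * z)
    rw [norm_mul, norm_real, Real.norm_of_nonneg hr0, norm_one] at this
    exact this
  have h4 : (1 - r) * ‖z‖ ≤ 1 - r * ‖z‖ := by nlinarith [norm_nonneg z]
  rw [h2] at h1
  linarith

/-- `|1 - e^{iy}| ≥ |y| / 5` for `|y| ≤ 3π/2`. -/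
theorem norm_one_sub_exp_ge {y : ℝ} (hy : |y| ≤ 3 * Real.pi / 2) :
    |y| / 5 ≤ ‖1 - exp (y * I)‖ := by
  have hpi := Real.pi_pos
  have hpi3 := Real.pi_gt_three
  have hpi4 := Real.pi_le_four
  have hpi315 := Real.pi_lt_d2
  -- ‖1 - e^{iy}‖² = 2 - 2 cos y = 4 sin²(y/2)
  have e1 : ‖1 - exp (y * I)‖ ^ 2 = 4 * Real.sin (y / 2) ^ 2 := by
    rw [← normSq_eq_norm_sq, normSq_apply]
    have hre : (1 - exp (y * I)).re = 1 - Real.cos y := by
      simp [exp_ofReal_mul_I_re]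
    have him : (1 - exp (y * I)).im = -Real.sin y := by
      simp [exp_ofReal_mul_I_im]
    rw [hre, him]
    have hc : Real.cos y = 1 - 2 * Real.sin (y / 2) ^ 2 := by
      have := Real.cos_two_mul (y / 2)
      rw [show 2 * (y / 2) = y by ring] at this
      have h2 := Real.sin_sq_add_cos_sq (y / 2)
      nlinarith
    have h2 := Real.sin_sq_add_cos_sq y
    nlinarith
  have e2 : ‖1 - exp (y * I)‖ = 2 * |Real.sin (y / 2)| := by
    have h : ‖1 - exp (y * I)‖ ^ 2 = (2 * |Real.sin (y / 2)|) ^ 2 := by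
      rw [e1, mul_pow, sq_abs]; ring
    exact (pow_left_inj₀ (norm_nonneg _) (by positivity) two_ne_zero).1 h
  -- |sin x| ≥ |x|/5 for |x| ≤ 3π/4
  have key : ∀ x : ℝ, 0 ≤ x → x ≤ 3 * Real.pi / 4 → x / 5 ≤ Real.sin x := by
    intro x hx0 hx1
    rcases le_or_gt x (Real.pi / 2) with h | h
    · have := Real.mul_le_sin hx0 h
      have h2 : x / 5 ≤ 2 / Real.pi * x := by
        have : (1:ℝ) / 5 ≤ 2 / Real.pi := by
          rw [div_le_div_iff₀ (by norm_num) hpi]; linarith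
        calc x / 5 = 1 / 5 * x := by ring
          _ ≤ _ := mul_le_mul_of_nonneg_right this hx0
      linarith
    · have h1 : Real.sin x = Real.sin (Real.pi - x) := (Real.sin_pi_sub x).symm
      have := Real.mul_le_sin (x := Real.pi - x) (by linarith) (by linarith)
      rw [h1]
      have h3 : (1:ℝ) / 2 ≤ 2 / Real.pi * (Real.pi - x) := by
        have : 2 / Real.pi * (Real.pi - x) ≥ 2 / Real.pi * (Real.pi / 4) := by
          apply mul_le_mul_of_nonneg_left _ (by positivity)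
          linarith
        have e : 2 / Real.pi * (Real.pi / 4) = 1 / 2 := by field_simp; norm_num
        linarith
      nlinarith
  have h3 : |y| / 5 ≤ 2 * |Real.sin (y / 2)| := by
    rcases le_total 0 y with h | h
    · rw [abs_of_nonneg h] at hy ⊢
      have := key (y / 2) (by linarith) (by linarith)
      have h5 := le_abs_self (Real.sin (y / 2))
      linarith
    · rw [abs_of_nonpos h] at hy ⊢
      have := key (-y / 2) (by linarith) (by linarith)
      have h4 : Real.sin (-y / 2) = -Real.sin (y / 2) := by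
        rw [← Real.sin_neg]; congr 1; ring
      have h5 := neg_le_abs (Real.sin (y / 2))
      rw [h4] at this
      linarith
  rw [e2]; exact h3

/-- `y ↦ |1 - e^{iy}|^(-1/3)` is integrable on every interval. -/
theorem intInt_psi (a b : ℝ) :
    IntervalIntegrable (fun y : ℝ => ‖1 - exp (y * I)‖ ^ (-(1 / 3) : ℝ)) volume a b := by
  have hpi := Real.pi_pos
  have hmeas : Measurable (fun y : ℝ => ‖1 - exp (y * I)‖ ^ (-(1 / 3) : ℝ)) := by
    apply Measurable.pow_const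
    exact (by fun_prop : Continuous fun y : ℝ => ‖1 - exp (y * I)‖).measurable
  have h1 : IntervalIntegrable (fun y : ℝ => y ^ (-(1 / 3) : ℝ)) volume (-Real.pi) Real.pi :=
    intervalIntegral.intervalIntegrable_rpow' (by norm_num)
  have h3 : IntervalIntegrable (fun y : ℝ => 4 * ‖y ^ (-(1 / 3) : ℝ)‖) volume
      (-Real.pi) Real.pi := h1.norm.const_mul 4
  have h4 : IntervalIntegrable (fun y : ℝ => ‖1 - exp (y * I)‖ ^ (-(1 / 3) : ℝ)) volume
      (-Real.pi) Real.pi := by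
    refine h3.mono_fun hmeas.aestronglyMeasurable ?_
    rw [Filter.EventuallyLE, ae_restrict_iff' measurableSet_uIoc]
    refine Eventually.of_forall fun y hy => ?_
    rw [uIoc_of_le (by linarith)] at hy
    rw [Real.norm_of_nonneg (by positivity), Real.norm_of_nonneg (by positivity)]
    rcases eq_or_ne y 0 with h0 | h0
    · subst h0
      simp
    · have hy' : |y| ≤ Real.pi := abs_le.2 ⟨hy.1.le, hy.2⟩
      have hge := norm_one_sub_exp_ge (y := y) (by linarith)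
      have hy0 : 0 < |y| := abs_pos.2 h0
      have e1 : ‖1 - exp (y * I)‖ ^ (-(1 / 3) : ℝ) ≤ (|y| / 5) ^ (-(1 / 3) : ℝ) :=
        Real.rpow_le_rpow_of_nonpos (by positivity) hge (by norm_num)
      have e2 : (|y| / 5) ^ (-(1 / 3) : ℝ) = |y| ^ (-(1 / 3) : ℝ) * (5:ℝ) ^ ((1 / 3) : ℝ) := by
        have h5 : (5:ℝ) ^ (-(1 / 3) : ℝ) = ((5:ℝ) ^ ((1 / 3) : ℝ))⁻¹ :=
          Real.rpow_neg (by norm_num) _
        rw [Real.div_rpow (abs_nonneg _) (by norm_num), h5, div_inv_eq_mul]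
      have e3 : (5:ℝ) ^ ((1 / 3) : ℝ) ≤ 2 := by
        have : (5:ℝ) ^ ((1 / 3) : ℝ) ≤ (8:ℝ) ^ ((1 / 3) : ℝ) :=
          Real.rpow_le_rpow (by norm_num) (by norm_num) (by norm_num)
        have h8 : (8:ℝ) ^ ((1 / 3) : ℝ) = 2 := by
          rw [show (8:ℝ) = 2 ^ (3:ℝ) by norm_num, ← Real.rpow_mul (by norm_num)]
          norm_num
        linarith
      have e4 : |y| ^ (-(1 / 3) : ℝ) ≤ 2 * ‖y ^ (-(1 / 3) : ℝ)‖ := by
        rcases le_or_gt 0 y with h | h
        · rw [abs_of_nonneg h, Real.norm_of_nonneg (by positivity)]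
          have : 0 ≤ y ^ (-(1 / 3) : ℝ) := by positivity
          linarith
        · rw [Real.rpow_def_of_neg h, abs_of_neg h, Real.rpow_def_of_pos (by linarith),
            Real.log_neg_eq_log, norm_mul, Real.norm_of_nonneg (Real.exp_pos _).le]
          have hc : Real.cos (-(1 / 3) * Real.pi) = 1 / 2 := by
            rw [show -(1 / 3) * Real.pi = -(Real.pi / 3) by ring, Real.cos_neg,
              Real.cos_pi_div_three]
          rw [hc]
          have := Real.exp_pos (Real.log y * -(1 / 3))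
          rw [Real.norm_of_nonneg (by norm_num)]
          linarith
      have e5 : 0 ≤ |y| ^ (-(1 / 3) : ℝ) := by positivity
      calc _ ≤ |y| ^ (-(1 / 3) : ℝ) * (5:ℝ) ^ ((1 / 3) : ℝ) := by rw [← e2]; exact e1
        _ ≤ |y| ^ (-(1 / 3) : ℝ) * 2 := mul_le_mul_of_nonneg_left e3 e5
        _ ≤ _ := by linarith
  have hper : Function.Periodic (fun y : ℝ => ‖1 - exp (y * I)‖ ^ (-(1 / 3) : ℝ))
      (2 * Real.pi) := by
    intro y
    simp only []
    have : exp (((y + 2 * Real.pi : ℝ) : ℂ) * I) = exp (y * I) := by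
      rw [show ((y + 2 * Real.pi : ℝ) : ℂ) * I = y * I + 2 * Real.pi * I by push_cast; ring,
        exp_add, exp_two_pi_mul_I, mul_one]
    rw [this]
  exact hper.intervalIntegrable (by positivity) (t := -Real.pi)
    (by rw [show -Real.pi + 2 * Real.pi = Real.pi by ring]; exact h4) a b

/-- the factor -/
noncomputable def fac (c w : ℂ) : ℂ := (1 - w * c) ^ (-(1 / 3) : ℂ)

theorem norm_fac (c w : ℂ) : ‖fac c w‖ = ‖1 - w * c‖ ^ (-(1 / 3) : ℝ) := by
  unfold fac
  have := norm_cpow_real (1 - w * c) (-(1 / 3))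
  rw [← this]
  congr 2
  push_cast
  rfl

theorem norm_fac_le_of_ge {c w : ℂ} {d : ℝ} (hd : 0 < d) (h : d ≤ ‖1 - w * c‖) :
    ‖fac c w‖ ≤ d ^ (-(1 / 3) : ℝ) := by
  rw [norm_fac]
  exact Real.rpow_le_rpow_of_nonpos hd h (by norm_num)

/-- the factor at `r e^{iθ}`, dominated by the integrable function of the angle -/
theorem norm_fac_le {c : ℂ} {r θ : ℝ} (hc : ‖c‖ ≤ 1) (hr0 : 0 ≤ r) (hr1 : r ≤ 1)
    (h0 : exp ((θ + c.arg : ℝ) * I) ≠ 1) :
    ‖fac c (r * exp (θ * I))‖ ≤ 2 * ‖1 - exp ((θ + c.arg : ℝ) * I)‖ ^ (-(1 / 3) : ℝ) := by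
  set z : ℂ := exp ((θ + c.arg : ℝ) * I) with hz
  have hz1 : ‖z‖ = 1 := norm_exp_ofReal_mul_I _
  have e : (r : ℂ) * exp (θ * I) * c = r * (‖c‖ * z) := by
    conv_lhs => rw [← norm_mul_exp_arg_mul_I c]
    rw [hz, show ((θ + c.arg : ℝ) : ℂ) * I = θ * I + c.arg * I by push_cast; ring, exp_add]
    ring
  have h1 := norm_one_sub_le (z := z) (r := ‖c‖) hz1.le (norm_nonneg _) hc
  have h2 := norm_one_sub_le (z := ‖c‖ * z) (r := r)
    (by rw [norm_mul, norm_real, norm_norm, hz1, mul_one]; exact hc) hr0 hr1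
  have hpos : 0 < ‖1 - z‖ := norm_pos_iff.2 (sub_ne_zero.2 (Ne.symm h0))
  have h3 : ‖1 - z‖ / 4 ≤ ‖1 - (r : ℂ) * exp (θ * I) * c‖ := by rw [e]; linarith
  rw [norm_fac]
  calc _ ≤ (‖1 - z‖ / 4) ^ (-(1 / 3) : ℝ) :=
        Real.rpow_le_rpow_of_nonpos (by positivity) h3 (by norm_num)
    _ = ‖1 - z‖ ^ (-(1 / 3) : ℝ) * (4:ℝ) ^ ((1 / 3) : ℝ) := by
        have h5 : (4:ℝ) ^ (-(1 / 3) : ℝ) = ((4:ℝ) ^ ((1 / 3) : ℝ))⁻¹ :=
          Real.rpow_neg (by norm_num) _
        rw [Real.div_rpow (norm_nonneg _) (by norm_num), h5, div_inv_eq_mul]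
    _ ≤ ‖1 - z‖ ^ (-(1 / 3) : ℝ) * 2 := by
        apply mul_le_mul_of_nonneg_left _ (by positivity)
        have : (4:ℝ) ^ ((1 / 3) : ℝ) ≤ (8:ℝ) ^ ((1 / 3) : ℝ) :=
          Real.rpow_le_rpow (by norm_num) (by norm_num) (by norm_num)
        have h8 : (8:ℝ) ^ ((1 / 3) : ℝ) = 2 := by
          rw [show (8:ℝ) = 2 ^ (3:ℝ) by norm_num, ← Real.rpow_mul (by norm_num)]
          norm_num
        linarith
    _ = _ := by ring

/-- the exceptional angles are countable -/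
theorem ae_exp_ne_one (k : ℝ) (hk : k ≠ 0) (b : ℝ) : ∀ᵐ y : ℝ, exp ((k * y + b : ℝ) * I) ≠ 1 := by
  have hc : {y : ℝ | exp ((k * y + b : ℝ) * I) = 1}.Countable := by
    have : {y : ℝ | exp ((k * y + b : ℝ) * I) = 1} ⊆
        range (fun n : ℤ => (n * (2 * Real.pi) - b) / k) := by
      intro y hy
      simp only [mem_ofPred_eq] at hy
      rw [exp_eq_one_iff] at hy
      obtain ⟨n, hn⟩ := hy
      refine ⟨n, ?_⟩
      have h1 : ((k * y + b : ℝ) : ℂ) = n * (2 * Real.pi) := by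
        apply mul_right_cancel₀ I_ne_zero
        rw [hn]; ring
      have h2 : k * y + b = n * (2 * Real.pi) := by exact_mod_cast h1
      field_simp
      linarith
    exact (countable_range _).mono this
  rw [ae_iff]
  simpa using hc.measure_zero volume

/-- product of three factors with pairwise distinct parameters: at most one is large -/
theorem prod3_le {c : Fin 3 → ℂ} (hn : ∀ i, ‖c i‖ ≤ 1) (hc : ∀ i j, i ≠ j → c i ≠ c j) :
    ∃ C : ℝ, 0 < C ∧ ∀ w : ℂ, ‖w‖ ≤ 1 →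
      ‖fac (c 0) w‖ * ‖fac (c 1) w‖ * ‖fac (c 2) w‖ ≤
        C * (1 + ‖fac (c 0) w‖ + ‖fac (c 1) w‖ + ‖fac (c 2) w‖) := by
  set m : ℝ := min (min ‖c 0 - c 1‖ ‖c 0 - c 2‖) ‖c 1 - c 2‖ with hm
  set d : ℝ := min (m / 4) (1 / 2) with hd
  have m0 : 0 < m := by
    have h1 : 0 < ‖c 0 - c 1‖ := norm_pos_iff.2 (sub_ne_zero.2 (hc 0 1 (by decide)))
    have h2 : 0 < ‖c 0 - c 2‖ := norm_pos_iff.2 (sub_ne_zero.2 (hc 0 2 (by decide)))
    have h3 : 0 < ‖c 1 - c 2‖ := norm_pos_iff.2 (sub_ne_zero.2 (hc 1 2 (by decide)))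
    exact lt_min (lt_min h1 h2) h3
  have d0 : 0 < d := lt_min (by positivity) (by norm_num)
  have dm : 4 * d ≤ m := by have := min_le_left (m / 4) (1 / 2); linarith
  have dh : d ≤ 1 / 2 := min_le_right _ _
  have d01 : 4 * d ≤ ‖c 0 - c 1‖ := dm.trans ((min_le_left _ _).trans (min_le_left _ _))
  have d02 : 4 * d ≤ ‖c 0 - c 2‖ := dm.trans ((min_le_left _ _).trans (min_le_right _ _))
  have d12 : 4 * d ≤ ‖c 1 - c 2‖ := dm.trans (min_le_right _ _)
  have sep : ∀ (w p q : ℂ), ‖w‖ ≤ 1 → ‖p‖ ≤ 1 → 4 * d ≤ ‖p - q‖ → ‖1 - w * p‖ < d →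
      d ≤ ‖1 - w * q‖ := by
    intro w p q hw hp hpq h1
    by_contra h2
    push Not at h2
    have h3 : ‖w * (p - q)‖ < 2 * d := by
      have : w * (p - q) = (1 - w * q) - (1 - w * p) := by ring
      rw [this]
      calc _ ≤ ‖1 - w * q‖ + ‖1 - w * p‖ := norm_sub_le _ _
        _ < _ := by linarith
    have h4 : 1 / 2 ≤ ‖w‖ := by
      have h5 : 1 - ‖w * p‖ ≤ ‖1 - w * p‖ := by
        have := norm_sub_norm_le (1 : ℂ) (w * p)
        rwa [norm_one] at this
      have h6 : ‖w * p‖ ≤ ‖w‖ := by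
        rw [norm_mul]
        nlinarith [norm_nonneg w]
      linarith
    rw [norm_mul] at h3
    nlinarith [norm_nonneg (p - q)]
  -- now the estimate
  set D : ℝ := d ^ (-(1 / 3) : ℝ) with hD
  have D0 : 0 < D := Real.rpow_pos_of_pos d0 _
  refine ⟨D * D + D * D * D, by positivity, fun w hw => ?_⟩
  have n0 := norm_nonneg (fac (c 0) w)
  have n1 := norm_nonneg (fac (c 1) w)
  have n2 := norm_nonneg (fac (c 2) w)
  set x := ‖fac (c 0) w‖ with hx
  set y := ‖fac (c 1) w‖ with hy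
  set z := ‖fac (c 2) w‖ with hz
  have big : ∀ p, d ≤ ‖1 - w * p‖ → ‖fac p w‖ ≤ D := fun p h => norm_fac_le_of_ge d0 h
  have hDD : 0 < D * D := by positivity
  have hDDD : 0 < D * D * D := by positivity
  have fin1 : ∀ s t u : ℝ, 0 ≤ s → 0 ≤ t → 0 ≤ u → s ≤ D → t ≤ D →
      s * t * u ≤ D * D * u := by
    intro s t u hs ht hu h1 h2
    apply mul_le_mul_of_nonneg_right _ hu
    exact mul_le_mul h1 h2 ht D0.le
  rcases lt_or_ge ‖1 - w * c 0‖ d with h | h
  · have h1 := big _ (sep w (c 0) (c 1) hw (hn 0) d01 h)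
    have h2 := big _ (sep w (c 0) (c 2) hw (hn 0) d02 h)
    have := fin1 y z x n1 n2 n0 h1 h2
    nlinarith [mul_nonneg hDD.le n0, mul_nonneg hDD.le n1, mul_nonneg hDD.le n2,
      mul_nonneg hDDD.le n0, mul_nonneg hDDD.le n1, mul_nonneg hDDD.le n2]
  · have h0 := big _ h
    rcases lt_or_ge ‖1 - w * c 1‖ d with h' | h'
    · have h2 := big _ (sep w (c 1) (c 2) hw (hn 1) d12 h')
      have := fin1 x z y n0 n2 n1 h0 h2
      nlinarith [mul_nonneg hDD.le n0, mul_nonneg hDD.le n1, mul_nonneg hDD.le n2,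
        mul_nonneg hDDD.le n0, mul_nonneg hDDD.le n1, mul_nonneg hDDD.le n2]
    · have h1 := big _ h'
      have := fin1 x y z n0 n1 n2 h0 h1
      nlinarith [mul_nonneg hDD.le n0, mul_nonneg hDD.le n1, mul_nonneg hDD.le n2,
        mul_nonneg hDDD.le n0, mul_nonneg hDDD.le n1, mul_nonneg hDDD.le n2]

/-- base of the factor is in the slit plane inside the disc -/
theorem one_sub_mem_slitPlane {w c : ℂ} (hw : ‖w‖ < 1) (hc : ‖c‖ ≤ 1) :
    1 - w * c ∈ slitPlane := by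
  left
  have : ‖w * c‖ < 1 := by
    rw [norm_mul]
    nlinarith [norm_nonneg w, norm_nonneg c]
  have h2 := (abs_re_le_norm (w * c))
  have h3 := le_abs_self (w * c).re
  simp only [sub_re, one_re]
  linarith

theorem one_sub_mem_slitPlane' {w c : ℂ} (hw : ‖w‖ ≤ 1) (hc : ‖c‖ ≤ 1) (h : w * c ≠ 1) :
    1 - w * c ∈ slitPlane := by
  by_contra h0
  rw [mem_slitPlane_iff, not_or] at h0
  push Not at h0
  obtain ⟨h1, h2⟩ := h0
  simp only [sub_re, one_re, sub_im, one_im] at h1 h2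
  have h3 : ‖w * c‖ ≤ 1 := by
    rw [norm_mul]
    nlinarith [norm_nonneg w, norm_nonneg c]
  have h4 := (abs_re_le_norm (w * c))
  have h5 := le_abs_self (w * c).re
  apply h
  apply Complex.ext
  · simp only [one_re]; linarith
  · simp only [one_im]; linarith

theorem differentiableAt_fac {w c : ℂ} (hw : ‖w‖ < 1) (hc : ‖c‖ ≤ 1) :
    DifferentiableAt ℂ (fac c) w := by
  have h1 : DifferentiableAt ℂ (fun w : ℂ => 1 - w * c) w := by fun_prop
  exact h1.cpow (differentiableAt_const _) (one_sub_mem_slitPlane hw hc)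

theorem continuousAt_fac {w c : ℂ} (hw : ‖w‖ ≤ 1) (hc : ‖c‖ ≤ 1) (h : w * c ≠ 1) :
    ContinuousAt (fac c) w := by
  have h1 : ContinuousAt (fun w : ℂ => 1 - w * c) w := by fun_prop
  exact h1.cpow continuousAt_const (one_sub_mem_slitPlane' hw hc h)

end Pool.Agent.H87.W
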