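import Pool.Agent.H87.W.HalfDisc

/-! # The averaged junction bound: `∬ p ≤ 200 u r N` -/

namespace Pool.Agent.H87.W

open Complex MeasureTheory Set Filter Topology
open scoped ComplexConjugate

variable {u r M N a3 a4 : ℝ} {κ : ℂ} {Z : Set ℝ}

theorem B_bound (D : HData u r M N a3 a4 κ Z) (hu1 : u ≤ 1 / 2)
    (hr : 0 < r) (hr1 : r ≤ 1 / 2)
    (h3 : a3 ∈ Ioo (-Real.pi) Real.pi) (h4 : a4 ∈ Ioo (-Real.pi) Real.pi) (h34 : a3 ≠ a4)
    {t : ℝ} (ht0 : 0 < |t|) (htu : |t| < u) :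
    ‖∫ y in (-(Real.pi / 2))..(Real.pi / 2),
      conj (D.B t (cis y)) * G3 (cB a3 a4 t) (cis y ^ 2) * cis y‖ ≤ N * (4 / 3) * r * Real.pi ∧
    IntervalIntegrable (fun y : ℝ => conj (D.B t (cis y)) * G3 (cB a3 a4 t) (cis y ^ 2) * cis y)
      volume (-(Real.pi / 2)) (Real.pi / 2) := by
  have hpi := Real.pi_pos
  have ht1 : |t| < 1 := by linarith
  obtain ⟨E, hE, hcont⟩ := D.B_cont t ht0 htu
  have hsub : HA r ⊆ CHA r := fun v hv => ⟨hv.1.le, hv.2.1.le, hv.2.2.le⟩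
  have hN0 : 0 ≤ N := (norm_nonneg _).trans (D.near t ht0 htu 0 ⟨by linarith, by linarith⟩)
  obtain ⟨h1, h2⟩ := half_cauchy (F := fun v => conj (D.B t v)) (M := M) (E := E)
    (c := cB a3 a4 t) hr (by linarith) (cB_norm a3 a4 ht1) (cB_ne ht1 h3 h4 h34) (cB_ne' ht1 h3 h4)
    (D.B_diff t ht0 htu)
    (fun v hv => by
      show ‖conj (D.B t v)‖ ≤ M
      rw [RCLike.norm_conj]
      exact D.B_bdd t ht0 htu v (hsub hv)) hE
    (fun v hv => by
      have h := hcont v hv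
      exact (continuous_conj.continuousAt.comp_continuousWithinAt h))
  refine ⟨?_, h2⟩
  have hz : (∫ s in r..1, (conj (D.B t (s * I)) + conj (D.B t (-(s * I)))) *
      G3 (cB a3 a4 t) (-(s : ℂ) ^ 2)) = 0 := by
    rw [intervalIntegral.integral_of_le (by linarith), integral_Ioc_eq_integral_Ioo]
    rw [setIntegral_congr_fun (g := fun _ => (0:ℂ)) measurableSet_Ioo]
    · simp
    · intro s hs
      simp only []
      rw [D.B_odd t ht0 htu s hs]
      simp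
  rw [hz, add_zero] at h1
  have h1' : (∫ y in (-(Real.pi / 2))..(Real.pi / 2),
      conj (D.B t (cis y)) * G3 (cB a3 a4 t) (cis y ^ 2) * cis y) =
      ∫ y in (-(Real.pi / 2))..(Real.pi / 2), conj (D.B t (r * exp (y * I))) *
        G3 (cB a3 a4 t) ((r * exp (y * I)) ^ 2) * (r * exp (y * I)) := h1
  rw [h1']
  have b1 : ‖∫ y in (-(Real.pi / 2))..(Real.pi / 2), conj (D.B t (r * exp (y * I))) *
        G3 (cB a3 a4 t) ((r * exp (y * I)) ^ 2) * (r * exp (y * I))‖ ≤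
      (N * (4 / 3) * r) * |Real.pi / 2 - (-(Real.pi / 2))| := by
    apply intervalIntegral.norm_integral_le_of_norm_le_const_ae
    have hne : ∀ᵐ y : ℝ, y ≠ Real.pi / 2 := by
      rw [ae_iff]; simp
    filter_upwards [hne] with y hy0 hy
    rw [uIoc_of_le (by linarith)] at hy
    have hy' : y ∈ Ioo (-(Real.pi / 2)) (Real.pi / 2) := ⟨hy.1, lt_of_le_of_ne hy.2 hy0⟩
    have hnn : ‖(r : ℂ) * exp (y * I)‖ = r := by
      rw [norm_mul, norm_exp_ofReal_mul_I, norm_real, Real.norm_of_nonneg hr.le, mul_one]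
    rw [norm_mul, norm_mul, hnn, RCLike.norm_conj]
    apply mul_le_mul_of_nonneg_right _ hr.le
    apply mul_le_mul (D.near t ht0 htu y hy') _ (norm_nonneg _) hN0
    apply norm_G3_small (cB_norm a3 a4 ht1)
    rw [norm_pow, hnn]
    nlinarith
  rw [abs_of_pos (by linarith)] at b1
  calc _ ≤ _ := b1
    _ = _ := by ring

/-- the function of `(t, a2)` on the bank -/
noncomputable def ff (D : HData u r M N a3 a4 κ Z) (s t a : ℝ) : ℂ :=
  D.A a (((s * t : ℝ) : ℂ) * I) * G3 (cA a3 a4 a) (-(t : ℂ) ^ 2) * (hh a3 a4 a * cis (-(a / 2)))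

theorem measurableSet_T (hZ : Z.Countable) : MeasurableSet (Ioo (-Real.pi) Real.pi \ Z) :=
  measurableSet_Ioo.diff hZ.measurableSet

theorem ff_meas (D : HData u r M N a3 a4 κ Z) (hZ : Z.Countable) {s : ℝ} (hs : s = 1 ∨ s = -1) :
    AEStronglyMeasurable (Function.uncurry (ff D s))
      (volume.restrict (Ioo 0 u ×ˢ (Ioo (-Real.pi) Real.pi \ Z))) := by
  have hsabs : |s| = 1 := by rcases hs with h | h <;> rw [h] <;> norm_num
  have m1 : AEStronglyMeasurable (Function.uncurry fun (t a : ℝ) => D.A a (((s * t : ℝ) : ℂ) * I))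
      (volume.restrict (Ioo 0 u ×ˢ (Ioo (-Real.pi) Real.pi \ Z))) := by
    apply caratheodory measurableSet_Ioo (measurableSet_T hZ)
    · intro a ha
      have h := D.A_bank a ha
      have h2 : ContinuousOn (fun t : ℝ => s * t) (Ioo 0 u) := by fun_prop
      exact h.comp h2 (fun t ht => by
        simp only [mem_ofPred_eq]
        rw [abs_mul, hsabs, one_mul, abs_of_pos ht.1]
        exact ht)
    · intro t ht
      have h0 : 0 < |s * t| ∧ |s * t| < u := by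
        rw [abs_mul, hsabs, one_mul, abs_of_pos ht.1]
        exact ht
      exact (D.B_out (s * t) h0.1 h0.2).congr (fun a ha => D.compat (s * t) h0.1 h0.2 a ha)
  have m2 : Measurable (Function.uncurry fun (t a : ℝ) =>
      G3 (cA a3 a4 a) (-(t : ℂ) ^ 2) * (hh a3 a4 a * cis (-(a / 2)))) := by
    unfold G3 cA hh fac cis Function.uncurry
    simp only [Matrix.cons_val_zero, Matrix.cons_val_one, Matrix.cons_val]
    fun_prop
  have := m1.mul m2.aestronglyMeasurable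
  refine this.congr (Eventually.of_forall fun q => ?_)
  simp only [Pi.mul_apply, Function.uncurry, ff]
  ring

theorem ff_norm (D : HData u r M N a3 a4 κ Z) (hu1 : u ≤ 1 / 2) {s : ℝ} (hs : s = 1 ∨ s = -1)
    {t a : ℝ} (ht : t ∈ Ioo 0 u) (ha : a ∈ Ioo (-Real.pi) Real.pi \ Z) :
    ‖ff D s t a‖ ≤ M * (4 / 3) * ‖hh a3 a4 a‖ := by
  have hmem : ((s * t : ℝ) : ℂ) * I ∈ CHA 0 := by
    refine ⟨norm_nonneg _, ?_, by simp⟩
    rw [norm_mul, norm_I, mul_one, norm_real, Real.norm_eq_abs, abs_mul, abs_of_pos ht.1]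
    have : |s| = 1 := by rcases hs with h | h <;> rw [h] <;> norm_num
    rw [this]; linarith [ht.2]
  have hM0 : 0 ≤ M := (norm_nonneg _).trans (D.A_bdd a ha _ hmem)
  unfold ff
  rw [norm_mul, norm_mul, norm_mul, norm_cis, mul_one]
  apply mul_le_mul_of_nonneg_right _ (norm_nonneg _)
  apply mul_le_mul (D.A_bdd a ha _ hmem) _ (norm_nonneg _) hM0
  apply norm_G3_small (cA_norm a3 a4 a)
  rw [norm_neg, norm_pow, norm_real, Real.norm_of_nonneg ht.1.le]
  nlinarith [ht.1, ht.2]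

theorem ff_int (D : HData u r M N a3 a4 κ Z) (hu1 : u ≤ 1 / 2) (hZ : Z.Countable)
    (h3 : a3 ∈ Ioo (-Real.pi) Real.pi) (h4 : a4 ∈ Ioo (-Real.pi) Real.pi) (h34 : a3 ≠ a4)
    {s : ℝ} (hs : s = 1 ∨ s = -1) :
    Integrable (Function.uncurry (ff D s))
      ((volume.restrict (Ioo 0 u)).prod (volume.restrict (Ioo (-Real.pi) Real.pi \ Z))) := by
  have hd := (hh_dom h3 h4 h34).mono_set (sdiff_subset (s := Ioo (-Real.pi) Real.pi) (t := Z))
  have hb : Integrable (fun q : ℝ × ℝ => M * (4 / 3) * ‖hh a3 a4 q.2‖)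
      ((volume.restrict (Ioo 0 u)).prod (volume.restrict (Ioo (-Real.pi) Real.pi \ Z))) :=
    ((hd.const_mul (M * (4 / 3))).comp_snd (volume.restrict (Ioo 0 u)))
  refine Integrable.mono' hb ?_ ?_
  · rw [Measure.prod_restrict]
    exact ff_meas D hZ hs
  · rw [Measure.prod_restrict]
    filter_upwards [ae_restrict_mem (measurableSet_Ioo.prod (measurableSet_T hZ))] with q hq
    exact ff_norm D hu1 hs hq.1 hq.2

theorem T_ae (hZ : Z.Countable) :
    (Ioo (-Real.pi) Real.pi \ Z : Set ℝ) =ᵐ[volume] Ioo (-Real.pi) Real.pi :=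
  sdiff_null_ae_eq_self (hZ.measure_zero volume)

theorem q2_le {x y : ℝ} (hy0 : 0 ≤ y) (hx : x ≤ (3 / 4 : ℝ) ^ (-(1 / 3) : ℝ))
    (hy : y ≤ (3 / 4 : ℝ) ^ (-(1 / 3) : ℝ)) : x * y ≤ 4 / 3 := by
  have p0 : 0 ≤ (3 / 4 : ℝ) ^ (-(1 / 3) : ℝ) := by positivity
  have h1 : x * y ≤ (3 / 4 : ℝ) ^ (-(1 / 3) : ℝ) * (3 / 4 : ℝ) ^ (-(1 / 3) : ℝ) :=
    mul_le_mul hx hy hy0 p0
  have h2 : (3 / 4 : ℝ) ^ (-(1 / 3) : ℝ) * (3 / 4 : ℝ) ^ (-(1 / 3) : ℝ) ≤ 4 / 3 := by
    rw [← Real.rpow_add (by norm_num)]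
    calc (3 / 4 : ℝ) ^ (-(1 / 3) + -(1 / 3) : ℝ) ≤ (3 / 4 : ℝ) ^ (-1 : ℝ) :=
          Real.rpow_le_rpow_of_exponent_ge (by norm_num) (by norm_num) (by norm_num)
      _ = 4 / 3 := by rw [Real.rpow_neg_one]; norm_num
  linarith

theorem ff_inner (D : HData u r M N a3 a4 κ Z) (hu1 : u ≤ 1 / 2) (hZ : Z.Countable)
    (hr : 0 < r) (hr1 : r ≤ 1 / 2)
    (h3 : a3 ∈ Ioo (-Real.pi) Real.pi) (h4 : a4 ∈ Ioo (-Real.pi) Real.pi) (h34 : a3 ≠ a4)
    {s : ℝ} (hs : s = 1 ∨ s = -1) {t : ℝ} (ht : t ∈ Ioo 0 u) :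
    ‖∫ a in Ioo (-Real.pi) Real.pi \ Z, ff D s t a‖ ≤ (4 / 3) * (2 * (N * (4 / 3) * r * Real.pi)) := by
  have hpi := Real.pi_pos
  have hsabs : |s| = 1 := by rcases hs with h | h <;> rw [h] <;> norm_num
  have hs2 : s * s = 1 := by rcases hs with h | h <;> rw [h] <;> norm_num
  have hst : 0 < |s * t| ∧ |s * t| < u := by
    rw [abs_mul, hsabs, one_mul, abs_of_pos ht.1]
    exact ht
  have hst1 : |s * t| < 1 := by linarith [hst.2]
  set w : ℂ := -(t : ℂ) ^ 2 with hw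
  have hw1 : ‖w‖ ≤ 1 / 4 := by
    rw [hw, norm_neg, norm_pow, norm_real, Real.norm_of_nonneg ht.1.le]
    nlinarith [ht.1, ht.2]
  have hw2 : conj w = w := by
    rw [hw]; simp
  have hcB : cB a3 a4 (s * t) 0 = w := by
    show -(((s * t : ℝ) : ℂ)) ^ 2 = w
    rw [hw, ← ofReal_pow, mul_pow, sq s, hs2, one_mul]
    push_cast
    rfl
  set g : ℂ := fac (cis (-a3)) w * fac (cis (-a4)) w with hg
  let H : ℝ → ℂ := fun y => conj (D.B (s * t) (cis y)) * G3 (cB a3 a4 (s * t)) (cis y ^ 2) * cis y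
  have e : ∀ a ∈ Ioo (-Real.pi) Real.pi \ Z, ff D s t a = g * conj (H (a / 2)) := by
    intro a ha
    have c1 := D.compat (s * t) hst.1 hst.2 a ha
    have k1 : conj (fac w (cis a)) = fac (cis (-a)) w := by
      rw [conj_fac (by linarith) (norm_cis _).le, hw2, conj_cis]
      unfold fac
      rw [mul_comm]
    have k2 : conj (fac (cis (-a3)) (cis a)) = fac (cis (-a)) (cis a3) := by
      rw [conj_fac (norm_cis _).le (norm_cis _).le, conj_cis, conj_cis, neg_neg]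
      unfold fac
      rw [mul_comm]
    have k3 : conj (fac (cis (-a4)) (cis a)) = fac (cis (-a)) (cis a4) := by
      rw [conj_fac (norm_cis _).le (norm_cis _).le, conj_cis, conj_cis, neg_neg]
      unfold fac
      rw [mul_comm]
    have k4 : G3 (cB a3 a4 (s * t)) (cis a) =
        fac w (cis a) * fac (cis (-a3)) (cis a) * fac (cis (-a4)) (cis a) := by
      rw [← hcB]; rfl
    have k5 : G3 (cA a3 a4 a) w = fac (cis (-a)) w * fac (cis (-a3)) w * fac (cis (-a4)) w := rfl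
    show D.A a (((s * t : ℝ) : ℂ) * I) * G3 (cA a3 a4 a) w * (hh a3 a4 a * cis (-(a / 2))) =
      g * conj (conj (D.B (s * t) (cis (a / 2))) *
        G3 (cB a3 a4 (s * t)) (cis (a / 2) ^ 2) * cis (a / 2))
    rw [cis_half_sq, k4, map_mul, map_mul, map_mul, map_mul, conj_conj, k1, k2, k3, conj_cis,
      c1, k5, hg]
    unfold hh
    ring
  have hmT := measurableSet_T hZ
  obtain ⟨hB, hBi⟩ := B_bound D hu1 hr hr1 h3 h4 h34 hst.1 hst.2
  have e2 : (∫ a in Ioo (-Real.pi) Real.pi \ Z, ff D s t a)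
      = g * conj (2 * ∫ y in (-(Real.pi / 2))..(Real.pi / 2), H y) := by
    rw [setIntegral_congr_fun hmT e, integral_const_mul, integral_conj, setIntegral_congr_set (T_ae hZ),
      ← integral_Ioc_eq_integral_Ioo, ← intervalIntegral.integral_of_le (by linarith)]
    congr 2
    have := intervalIntegral.integral_comp_div (a := -Real.pi) (b := Real.pi) H (two_ne_zero)
    rw [this, real_smul]
    push_cast
    rw [neg_div]
  have n2 : ‖(2:ℂ)‖ = 2 := by simp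
  rw [e2, norm_mul, RCLike.norm_conj, norm_mul (2:ℂ), n2]
  have hgn : ‖g‖ ≤ 4 / 3 := by
    rw [hg, norm_mul]
    exact q2_le (norm_nonneg _) (norm_fac_small (norm_cis _).le hw1)
      (norm_fac_small (norm_cis _).le hw1)
  exact mul_le_mul hgn (mul_le_mul_of_nonneg_left hB (by norm_num)) (by positivity) (by norm_num)

/-- the weighted `a1`-integral of `p` -/
noncomputable def Np (D : HData u r M N a3 a4 κ Z) (a : ℝ) : ℝ :=
  ∫ a1 in Ioo (-Real.pi) Real.pi, D.p a1 a * ‖G3 (cA a3 a4 a) (cis a1) * hh a3 a4 a‖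

theorem ae_not_mem_Z (hZ : Z.Countable) : ∀ᵐ a : ℝ, a ∉ Z := by
  rw [ae_iff]
  simpa using hZ.measure_zero volume

theorem ae_ne (a : ℝ) : ∀ᵐ b : ℝ, b ≠ a := by
  rw [ae_iff]
  simp

theorem step_one (D : HData u r M N a3 a4 κ Z) (hu : 0 < u) (hu1 : u ≤ 1 / 2) (hZ : Z.Countable)
    (h3 : a3 ∈ Ioo (-Real.pi) Real.pi) (h4 : a4 ∈ Ioo (-Real.pi) Real.pi) (h34 : a3 ≠ a4)
    (hZ3 : a3 ∈ Z) (hZ4 : a4 ∈ Z) (hκ : 1 ≤ ‖κ‖)
    {a : ℝ} (ha : a ∈ Ioo (-Real.pi) Real.pi \ Z) :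
    (∫ t in Ioo 0 u, (ff D 1 t a + ff D (-1) t a)) =
      κ * cis (-(Real.pi / 6)) * ((1 / 2 * Np D a : ℝ) : ℂ) ∧
    IntegrableOn (fun a1 => D.p a1 a * ‖G3 (cA a3 a4 a) (cis a1) * hh a3 a4 a‖)
      (Ioo (-Real.pi) Real.pi) volume := by
  have hpi := Real.pi_pos
  have h23 : a ≠ a3 := fun h => ha.2 (h ▸ hZ3)
  have h24 : a ≠ a4 := fun h => ha.2 (h ▸ hZ4)
  obtain ⟨E, hE, hcont⟩ := D.A_cont a ha
  obtain ⟨b1, b2⟩ := bank_identity (F := D.A a) (M := M) (E := E) (c := cA a3 a4 a) hu hu1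
    (cA_norm a3 a4 a) (cA_ne ha.1 h3 h4 h23 h24 h34) (cA_ne' ha.1 h3 h4) (D.A_diff a ha)
    (D.A_bdd a ha) hE hcont (D.A_bank a ha) (D.A_odd a ha)
  set W : ℂ := hh a3 a4 a * cis (-(a / 2)) with hW
  let H : ℝ → ℂ := fun y => D.A a (cis y) * G3 (cA a3 a4 a) (cis y ^ 2) * cis y
  have hphase : ∀ᵐ a1 : ℝ, a1 ∈ Ioo (-Real.pi) Real.pi → H (a1 / 2) * W =
      κ * cis (-(Real.pi / 6)) *
      ((D.p a1 a * ‖G3 (cA a3 a4 a) (cis a1) * hh a3 a4 a‖ : ℝ) : ℂ) := by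
    filter_upwards [ae_not_mem_Z hZ, ae_ne a] with a1 h1 h2 h
    exact phase_identity D h3 h4 hZ3 hZ4 ⟨h, h1⟩ ha h2
  -- left side
  have l1 : (∫ t in Ioo 0 u, (ff D 1 t a + ff D (-1) t a)) =
      (∫ y in (-(Real.pi / 2))..(Real.pi / 2), H y) * W := by
    rw [b1, intervalIntegral.integral_of_le hu.le, integral_Ioc_eq_integral_Ioo, ← integral_mul_const]
    apply setIntegral_congr_fun measurableSet_Ioo
    intro t _
    simp only [ff]
    rw [hW]
    push_cast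
    rw [one_mul, neg_one_mul, neg_mul]
    ring
  have l2 : (∫ y in (-(Real.pi / 2))..(Real.pi / 2), H y) * W =
      (1 / 2) * ∫ a1 in Ioo (-Real.pi) Real.pi, H (a1 / 2) * W := by
    rw [← integral_Ioc_eq_integral_Ioo, ← intervalIntegral.integral_of_le (by linarith),
      intervalIntegral.integral_mul_const]
    have := intervalIntegral.integral_comp_div (a := -Real.pi) (b := Real.pi) H (two_ne_zero)
    rw [this, real_smul, neg_div]
    push_cast
    ring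
  have hκ0 : κ ≠ 0 := by
    intro h; rw [h, norm_zero] at hκ; linarith
  constructor
  · rw [l1, l2]
    have : (∫ a1 in Ioo (-Real.pi) Real.pi, H (a1 / 2) * W) =
        κ * cis (-(Real.pi / 6)) * ((Np D a : ℝ) : ℂ) := by
      unfold Np
      rw [← integral_complex_ofReal, ← integral_const_mul]
      apply setIntegral_congr_ae measurableSet_Ioo hphase
    rw [this]
    push_cast
    ring
  · have i1 : IntervalIntegrable (fun a1 : ℝ => H (a1 / 2)) volume (-Real.pi) Real.pi := by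
      have := IntervalIntegrable.comp_mul_left (f := H) (c := 1 / 2) b2
      have e1 : -(Real.pi / 2) / (1 / 2) = -Real.pi := by ring
      have e2 : (Real.pi / 2) / (1 / 2) = Real.pi := by ring
      rw [e1, e2] at this
      refine this.congr ?_
      intro x _
      simp only []
      congr 1
      ring
    have i2 : IntegrableOn (fun a1 : ℝ => ‖κ‖⁻¹ * ‖H (a1 / 2) * W‖) (Ioo (-Real.pi) Real.pi) volume :=
      (((intervalIntegrable_iff_integrableOn_Ioo_of_le (by linarith)).1 i1).mul_const W).norm.const_mul _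
    refine i2.congr ?_
    rw [Filter.EventuallyEq, ae_restrict_iff' measurableSet_Ioo]
    filter_upwards [hphase] with a1 h1 h
    rw [h1 h, norm_mul, norm_mul, norm_cis, mul_one, norm_real, Real.norm_of_nonneg
      (mul_nonneg (D.p_nonneg _ _) (norm_nonneg _)), ← mul_assoc, inv_mul_cancel₀ (norm_ne_zero_iff.2 hκ0), one_mul]

theorem int_Np (D : HData u r M N a3 a4 κ Z) (hu : 0 < u) (hu1 : u ≤ 1 / 2) (hZ : Z.Countable)
    (hr : 0 < r) (hr1 : r ≤ 1 / 2)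
    (h3 : a3 ∈ Ioo (-Real.pi) Real.pi) (h4 : a4 ∈ Ioo (-Real.pi) Real.pi) (h34 : a3 ≠ a4)
    (hZ3 : a3 ∈ Z) (hZ4 : a4 ∈ Z) (hκ : 1 ≤ ‖κ‖) :
    IntegrableOn (Np D) (Ioo (-Real.pi) Real.pi \ Z) volume ∧
    ∫ a in Ioo (-Real.pi) Real.pi \ Z, Np D a ≤
      u * (4 * ((4 / 3) * (2 * (N * (4 / 3) * r * Real.pi)))) := by
  have hmT := measurableSet_T hZ
  have f1 := ff_int D hu1 hZ h3 h4 h34 (s := 1) (Or.inl rfl)
  have f2 := ff_int D hu1 hZ h3 h4 h34 (s := -1) (Or.inr rfl)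
  have f12 := f1.add f2
  have hκ0 : κ ≠ 0 := by
    intro h; rw [h, norm_zero] at hκ; linarith
  have hNp0 : ∀ a, 0 ≤ Np D a := fun a =>
    integral_nonneg fun a1 => mul_nonneg (D.p_nonneg _ _) (norm_nonneg _)
  have hJ : ∀ a ∈ Ioo (-Real.pi) Real.pi \ Z, (∫ t in Ioo 0 u, (ff D 1 t a + ff D (-1) t a)) =
      κ * cis (-(Real.pi / 6)) * ((1 / 2 * Np D a : ℝ) : ℂ) := fun a ha =>
    (step_one D hu hu1 hZ h3 h4 h34 hZ3 hZ4 hκ ha).1
  have hJi : IntegrableOn (fun a => ∫ t in Ioo 0 u, (ff D 1 t a + ff D (-1) t a))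
      (Ioo (-Real.pi) Real.pi \ Z) volume := f12.integral_prod_right
  have hJN : ∀ a ∈ Ioo (-Real.pi) Real.pi \ Z,
      Np D a = 2 * ‖κ‖⁻¹ * ‖∫ t in Ioo 0 u, (ff D 1 t a + ff D (-1) t a)‖ := by
    intro a ha
    rw [hJ a ha, norm_mul, norm_mul, norm_cis, mul_one, norm_real,
      Real.norm_of_nonneg (by have := hNp0 a; positivity)]
    have : ‖κ‖ ≠ 0 := norm_ne_zero_iff.2 hκ0
    field_simp
  constructor
  · have h := hJi.norm.const_mul (2 * ‖κ‖⁻¹)
    exact IntegrableOn.congr_fun h (fun a ha => (hJN a ha).symm) hmT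
  · -- the integral of J
    have e1 : (∫ a in Ioo (-Real.pi) Real.pi \ Z, ∫ t in Ioo 0 u, (ff D 1 t a + ff D (-1) t a)) =
        κ * cis (-(Real.pi / 6)) *
          ((1 / 2 * ∫ a in Ioo (-Real.pi) Real.pi \ Z, Np D a : ℝ) : ℂ) := by
      rw [setIntegral_congr_fun hmT hJ, integral_const_mul, integral_complex_ofReal,
        integral_const_mul]
    have e2 : (∫ a in Ioo (-Real.pi) Real.pi \ Z, ∫ t in Ioo 0 u, (ff D 1 t a + ff D (-1) t a)) =
        ∫ t in Ioo 0 u, ∫ a in Ioo (-Real.pi) Real.pi \ Z, (ff D 1 t a + ff D (-1) t a) :=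
      (integral_integral_swap f12).symm
    have hae : ∀ᵐ t ∂(volume.restrict (Ioo 0 u)),
        ‖∫ a in Ioo (-Real.pi) Real.pi \ Z, (ff D 1 t a + ff D (-1) t a)‖ ≤
        2 * ((4 / 3) * (2 * (N * (4 / 3) * r * Real.pi))) := by
      filter_upwards [ae_restrict_mem measurableSet_Ioo, f1.prod_right_ae, f2.prod_right_ae]
        with t ht i1 i2
      have i1' : Integrable (fun a => ff D 1 t a) (volume.restrict (Ioo (-Real.pi) Real.pi \ Z)) := i1
      have i2' : Integrable (fun a => ff D (-1) t a)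
        (volume.restrict (Ioo (-Real.pi) Real.pi \ Z)) := i2
      rw [integral_add i1' i2']
      have n1 := ff_inner D hu1 hZ hr hr1 h3 h4 h34 (s := 1) (Or.inl rfl) ht
      have n2 := ff_inner D hu1 hZ hr hr1 h3 h4 h34 (s := -1) (Or.inr rfl) ht
      calc _ ≤ _ := norm_add_le _ _
        _ ≤ _ := by linarith
    have e3 : ‖∫ t in Ioo 0 u, ∫ a in Ioo (-Real.pi) Real.pi \ Z,
        (ff D 1 t a + ff D (-1) t a)‖ ≤
        2 * ((4 / 3) * (2 * (N * (4 / 3) * r * Real.pi))) * (volume.restrict (Ioo 0 u)).real univ :=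
      norm_integral_le_of_norm_le_const hae
    have e4 : (volume.restrict (Ioo 0 u)).real univ = u := by
      rw [measureReal_restrict_apply_univ, Real.volume_real_Ioo_of_le hu.le, sub_zero]
    rw [e4, ← e2, e1, norm_mul, norm_mul, norm_cis, mul_one, norm_real] at e3
    have hI0 : 0 ≤ ∫ a in Ioo (-Real.pi) Real.pi \ Z, Np D a :=
      integral_nonneg fun a => hNp0 a
    rw [Real.norm_of_nonneg (by positivity)] at e3
    nlinarith

/-- **The averaged junction bound.** -/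
theorem HData.bound (D : HData u r M N a3 a4 κ Z) (hu : 0 < u) (hu1 : u ≤ 1 / 2)
    (hr : 0 < r) (hr1 : r ≤ 1 / 2) (hZ : Z.Countable)
    (h3 : a3 ∈ Ioo (-Real.pi) Real.pi) (h4 : a4 ∈ Ioo (-Real.pi) Real.pi) (h34 : a3 ≠ a4)
    (hZ3 : a3 ∈ Z) (hZ4 : a4 ∈ Z) (hκ : 1 ≤ ‖κ‖) :
    ∫⁻ a2 in Ioo (-Real.pi) Real.pi, ∫⁻ a1 in Ioo (-Real.pi) Real.pi, ENNReal.ofReal (D.p a1 a2) ≤
      ENNReal.ofReal (200 * u * r * N) := by
  have hpi := Real.pi_pos
  have hN0 : 0 ≤ N := (norm_nonneg _).trans (D.near (u / 2) (by rw [abs_of_pos] <;> linarith)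
    (by rw [abs_of_pos] <;> linarith) 0 ⟨by linarith, by linarith⟩)
  have hNp0 : ∀ a, 0 ≤ Np D a := fun a =>
    integral_nonneg fun a1 => mul_nonneg (D.p_nonneg _ _) (norm_nonneg _)
  obtain ⟨hi, hb⟩ := int_Np D hu hu1 hZ hr hr1 h3 h4 h34 hZ3 hZ4 hκ
  have hmT := measurableSet_T hZ
  -- pointwise bound of the inner integral
  have inner : ∀ a2 ∈ Ioo (-Real.pi) Real.pi \ Z,
      ∫⁻ a1 in Ioo (-Real.pi) Real.pi, ENNReal.ofReal (D.p a1 a2) ≤
        ENNReal.ofReal (4 * Np D a2) := by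
    intro a2 ha2
    have h23 : a2 ≠ a3 := fun h => ha2.2 (h ▸ hZ3)
    have h24 : a2 ≠ a4 := fun h => ha2.2 (h ▸ hZ4)
    have hint := (step_one D hu hu1 hZ h3 h4 h34 hZ3 hZ4 hκ ha2).2
    have hlow : ∀ᵐ a1 : ℝ, a1 ∈ Ioo (-Real.pi) Real.pi →
        ENNReal.ofReal (D.p a1 a2) ≤ ENNReal.ofReal (4 * (D.p a1 a2 *
          ‖G3 (cA a3 a4 a2) (cis a1) * hh a3 a4 a2‖)) := by
      filter_upwards [ae_not_mem_Z hZ, ae_ne a2] with a1 h1 h2 h
      apply ENNReal.ofReal_le_ofReal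
      have h13 : a1 ≠ a3 := fun h => h1 (h ▸ hZ3)
      have h14 : a1 ≠ a4 := fun h => h1 (h ▸ hZ4)
      have q0 : 0 ≤ (2:ℝ) ^ (-(1 / 3) : ℝ) := by positivity
      have w1 := fac_lower h ha2.1 h2
      have w2 := fac_lower h h3 h13
      have w3 := fac_lower h h4 h14
      have w4 := fac_lower h3 ha2.1 h23.symm
      have w5 := fac_lower h4 ha2.1 h24.symm
      have e1 : ‖G3 (cA a3 a4 a2) (cis a1) * hh a3 a4 a2‖ =
          ‖fac (cis (-a2)) (cis a1)‖ * ‖fac (cis (-a3)) (cis a1)‖ * ‖fac (cis (-a4)) (cis a1)‖ *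
          (‖fac (cis (-a2)) (cis a3)‖ * ‖fac (cis (-a2)) (cis a4)‖) := by
        rw [norm_mul, norm_G3]
        unfold hh
        rw [norm_mul]
        rfl
      have e2 : (2:ℝ) ^ (-(1 / 3) : ℝ) * (2:ℝ) ^ (-(1 / 3) : ℝ) * (2:ℝ) ^ (-(1 / 3) : ℝ) *
          ((2:ℝ) ^ (-(1 / 3) : ℝ) * (2:ℝ) ^ (-(1 / 3) : ℝ)) ≤
          ‖G3 (cA a3 a4 a2) (cis a1) * hh a3 a4 a2‖ := by
        rw [e1]
        apply mul_le_mul _ (mul_le_mul w4 w5 q0 (norm_nonneg _)) (by positivity) (by positivity)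
        exact mul_le_mul (mul_le_mul w1 w2 q0 (norm_nonneg _)) w3 q0 (by positivity)
      have e3 : (1:ℝ) / 4 ≤ (2:ℝ) ^ (-(1 / 3) : ℝ) * (2:ℝ) ^ (-(1 / 3) : ℝ) *
          (2:ℝ) ^ (-(1 / 3) : ℝ) * ((2:ℝ) ^ (-(1 / 3) : ℝ) * (2:ℝ) ^ (-(1 / 3) : ℝ)) := by
        rw [← Real.rpow_add two_pos, ← Real.rpow_add two_pos, ← Real.rpow_add two_pos]
        calc (1:ℝ) / 4 = (2:ℝ) ^ (-2 : ℝ) := by
              rw [Real.rpow_neg two_pos.le, show (2:ℝ) = ((2:ℕ):ℝ) by norm_num, Real.rpow_natCast]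
              norm_num
          _ ≤ _ := Real.rpow_le_rpow_of_exponent_le (by norm_num) (by norm_num)
      have hp := D.p_nonneg a1 a2
      nlinarith
    calc ∫⁻ a1 in Ioo (-Real.pi) Real.pi, ENNReal.ofReal (D.p a1 a2)
        ≤ ∫⁻ a1 in Ioo (-Real.pi) Real.pi, ENNReal.ofReal (4 * (D.p a1 a2 *
          ‖G3 (cA a3 a4 a2) (cis a1) * hh a3 a4 a2‖)) := by
          apply lintegral_mono_ae
          rw [ae_restrict_iff' measurableSet_Ioo]
          exact hlow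
      _ = ENNReal.ofReal (∫ a1 in Ioo (-Real.pi) Real.pi, 4 * (D.p a1 a2 *
          ‖G3 (cA a3 a4 a2) (cis a1) * hh a3 a4 a2‖)) := by
          rw [ofReal_integral_eq_lintegral_ofReal (hint.const_mul 4)]
          refine Eventually.of_forall fun a1 => ?_
          exact mul_nonneg (by norm_num) (mul_nonneg (D.p_nonneg _ _) (norm_nonneg _))
      _ = ENNReal.ofReal (4 * Np D a2) := by rw [integral_const_mul]; rfl
  calc ∫⁻ a2 in Ioo (-Real.pi) Real.pi, ∫⁻ a1 in Ioo (-Real.pi) Real.pi, ENNReal.ofReal (D.p a1 a2)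
      = ∫⁻ a2 in Ioo (-Real.pi) Real.pi \ Z, ∫⁻ a1 in Ioo (-Real.pi) Real.pi,
          ENNReal.ofReal (D.p a1 a2) := (setLIntegral_congr (T_ae hZ)).symm
    _ ≤ ∫⁻ a2 in Ioo (-Real.pi) Real.pi \ Z, ENNReal.ofReal (4 * Np D a2) :=
        setLIntegral_mono_ae' hmT (Eventually.of_forall inner)
    _ = ENNReal.ofReal (∫ a2 in Ioo (-Real.pi) Real.pi \ Z, 4 * Np D a2) := by
        rw [ofReal_integral_eq_lintegral_ofReal (hi.const_mul 4)]
        exact Eventually.of_forall fun a => mul_nonneg (by norm_num) (hNp0 a)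
    _ ≤ ENNReal.ofReal (200 * u * r * N) := by
        apply ENNReal.ofReal_le_ofReal
        rw [integral_const_mul]
        have hpi2 := Real.pi_lt_d2
        have h1 : 0 ≤ u * r * N := by positivity
        nlinarith

/-- corollary: a lower bound of `p` on a product of two sets of angles -/
theorem HData.bound_of_le (D : HData u r M N a3 a4 κ Z) (hu : 0 < u) (hu1 : u ≤ 1 / 2)
    (hr : 0 < r) (hr1 : r ≤ 1 / 2) (hZ : Z.Countable)
    (h3 : a3 ∈ Ioo (-Real.pi) Real.pi) (h4 : a4 ∈ Ioo (-Real.pi) Real.pi) (h34 : a3 ≠ a4)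
    (hZ3 : a3 ∈ Z) (hZ4 : a4 ∈ Z) (hκ : 1 ≤ ‖κ‖)
    {x1 y1 x2 y2 q : ℝ} (hx1 : -Real.pi ≤ x1) (hxy1 : x1 ≤ y1) (hy1 : y1 ≤ Real.pi)
    (hx2 : -Real.pi ≤ x2) (hxy2 : x2 ≤ y2) (hy2 : y2 ≤ Real.pi)
    (hq : ∀ a1 ∈ Ioo x1 y1 \ Z, ∀ a2 ∈ Ioo x2 y2 \ Z, q ≤ D.p a1 a2) :
    q * (y1 - x1) * (y2 - x2) ≤ 200 * u * r * N := by
  have hpi := Real.pi_pos
  have hN0 : 0 ≤ N := (norm_nonneg _).trans (D.near (u / 2) (by rw [abs_of_pos] <;> linarith)
    (by rw [abs_of_pos] <;> linarith) 0 ⟨by linarith, by linarith⟩)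
  have hR0 : 0 ≤ 200 * u * r * N := by positivity
  rcases le_or_gt q 0 with h0 | h0
  · have : q * (y1 - x1) * (y2 - x2) ≤ 0 := by
      have a1 : 0 ≤ (y1 - x1) * (y2 - x2) := mul_nonneg (by linarith) (by linarith)
      nlinarith
    linarith
  have hB := D.bound hu hu1 hr hr1 hZ h3 h4 h34 hZ3 hZ4 hκ
  have hl : ENNReal.ofReal (q * (y1 - x1) * (y2 - x2)) ≤
      ∫⁻ a2 in Ioo (-Real.pi) Real.pi, ∫⁻ a1 in Ioo (-Real.pi) Real.pi,
        ENNReal.ofReal (D.p a1 a2) := by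
    have s2 : (Ioo x2 y2 \ Z : Set ℝ) =ᵐ[volume] Ioo x2 y2 :=
      sdiff_null_ae_eq_self (hZ.measure_zero volume)
    have s1 : (Ioo x1 y1 \ Z : Set ℝ) =ᵐ[volume] Ioo x1 y1 :=
      sdiff_null_ae_eq_self (hZ.measure_zero volume)
    have m1 : MeasurableSet (Ioo x1 y1 \ Z) := measurableSet_Ioo.diff hZ.measurableSet
    have m2 : MeasurableSet (Ioo x2 y2 \ Z) := measurableSet_Ioo.diff hZ.measurableSet
    calc ENNReal.ofReal (q * (y1 - x1) * (y2 - x2))
        = ∫⁻ _ in Ioo x2 y2 \ Z, ENNReal.ofReal (q * (y1 - x1)) := by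
          rw [setLIntegral_const, measure_congr s2, Real.volume_Ioo,
            ENNReal.ofReal_mul (mul_nonneg h0.le (by linarith))]
      _ ≤ ∫⁻ a2 in Ioo x2 y2 \ Z, ∫⁻ a1 in Ioo (-Real.pi) Real.pi,
            ENNReal.ofReal (D.p a1 a2) := by
          apply setLIntegral_mono_ae' m2
          refine Eventually.of_forall fun a2 ha2 => ?_
          calc ENNReal.ofReal (q * (y1 - x1)) = ∫⁻ _ in Ioo x1 y1 \ Z, ENNReal.ofReal q := by
                rw [setLIntegral_const, measure_congr s1, Real.volume_Ioo,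
                  ENNReal.ofReal_mul h0.le]
            _ ≤ ∫⁻ a1 in Ioo x1 y1 \ Z, ENNReal.ofReal (D.p a1 a2) := by
                apply setLIntegral_mono_ae' m1
                exact Eventually.of_forall fun a1 ha1 =>
                  ENNReal.ofReal_le_ofReal (hq a1 ha1 a2 ha2)
            _ ≤ ∫⁻ a1 in Ioo (-Real.pi) Real.pi, ENNReal.ofReal (D.p a1 a2) := by
                apply lintegral_mono_set
                intro a ha
                exact ⟨lt_of_le_of_lt hx1 ha.1.1, lt_of_lt_of_le ha.1.2 hy1⟩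
      _ ≤ _ := by
                apply lintegral_mono_set
                intro a ha
                exact ⟨lt_of_le_of_lt hx2 ha.1.1, lt_of_lt_of_le ha.1.2 hy2⟩
  exact (ENNReal.ofReal_le_ofReal_iff hR0).1 (hl.trans hB)

end Pool.Agent.H87.W
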