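import Pool.Agent.H87.W.HalfB

/-! Cauchy's theorem on the right half annulus with the kernel `∏ (1 - v² c_i)^(-1/3)`. -/

namespace Pool.Agent.H87.W

open Complex MeasureTheory Set Filter Topology

/-- open right half annulus -/
def HA (ρ : ℝ) : Set ℂ := {v | ρ < ‖v‖ ∧ ‖v‖ < 1 ∧ 0 < v.re}

/-- closed right half annulus -/
def CHA (ρ : ℝ) : Set ℂ := {v | ρ ≤ ‖v‖ ∧ ‖v‖ ≤ 1 ∧ 0 ≤ v.re}

theorem isOpen_HA (ρ : ℝ) : IsOpen (HA ρ) := by
  have h1 : IsOpen {v : ℂ | ρ < ‖v‖} := isOpen_lt continuous_const continuous_norm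
  have h2 : IsOpen {v : ℂ | ‖v‖ < 1} := isOpen_lt continuous_norm continuous_const
  have h3 : IsOpen {v : ℂ | 0 < v.re} := isOpen_lt continuous_const continuous_re
  exact h1.inter (h2.inter h3)

/-- the kernel -/
noncomputable def G3 (c : Fin 3 → ℂ) (w : ℂ) : ℂ := fac (c 0) w * fac (c 1) w * fac (c 2) w

theorem differentiableAt_G3 {c : Fin 3 → ℂ} {w : ℂ} (hw : ‖w‖ < 1) (hc : ∀ i, ‖c i‖ ≤ 1) :
    DifferentiableAt ℂ (G3 c) w :=
  ((differentiableAt_fac hw (hc 0)).mul (differentiableAt_fac hw (hc 1))).mul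
    (differentiableAt_fac hw (hc 2))

theorem continuousAt_G3 {c : Fin 3 → ℂ} {w : ℂ} (hw : ‖w‖ ≤ 1) (hc : ∀ i, ‖c i‖ ≤ 1)
    (h : ∀ i, w * c i ≠ 1) : ContinuousAt (G3 c) w :=
  ((continuousAt_fac hw (hc 0) (h 0)).mul (continuousAt_fac hw (hc 1) (h 1))).mul
    (continuousAt_fac hw (hc 2) (h 2))

theorem continuousAt_G3' {c : Fin 3 → ℂ} {w : ℂ} (hw : ‖w‖ < 1) (hc : ∀ i, ‖c i‖ ≤ 1) :
    ContinuousAt (G3 c) w := (differentiableAt_G3 hw hc).continuousAt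

theorem norm_G3 (c : Fin 3 → ℂ) (w : ℂ) :
    ‖G3 c w‖ = ‖fac (c 0) w‖ * ‖fac (c 1) w‖ * ‖fac (c 2) w‖ := by
  unfold G3; rw [norm_mul, norm_mul]

/-- the kernel is bounded near `w = -1` -/
theorem G3_bound_near {c : Fin 3 → ℂ} (hn : ∀ i, ‖c i‖ ≤ 1) (hc1 : ∀ i, c i ≠ -1) :
    ∃ δ B : ℝ, 0 < δ ∧ 0 < B ∧ ∀ (r θ : ℝ), 0 ≤ r → r ≤ 1 → Real.pi - δ < |θ| → |θ| ≤ Real.pi →
      ‖G3 c (r * exp (θ * I))‖ ≤ B := by
  set m : ℝ := min (min ‖1 + c 0‖ ‖1 + c 1‖) ‖1 + c 2‖ with hm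
  have hp : ∀ i, 0 < ‖1 + c i‖ := by
    intro i
    rw [norm_pos_iff]
    intro h
    apply hc1 i
    linear_combination h
  have m0 : 0 < m := lt_min (lt_min (hp 0) (hp 1)) (hp 2)
  have mi : ∀ i, m ≤ ‖1 + c i‖ := by
    intro i
    fin_cases i
    · exact (min_le_left _ _).trans (min_le_left _ _)
    · exact (min_le_left _ _).trans (min_le_right _ _)
    · exact min_le_right _ _
  refine ⟨m / 2, ((m / 4) ^ (-(1 / 3) : ℝ)) ^ 3, by positivity, by positivity, ?_⟩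
  intro r θ hr0 hr1 h1 h2
  -- distance of e^{iθ} to -1
  have hdist : ‖exp (θ * I) + 1‖ ≤ m / 2 := by
    have key : ∀ t : ℝ, exp (t * I) = -1 → ‖exp (θ * I) + 1‖ ≤ |θ - t| := by
      intro t ht
      have e : exp (θ * I) + 1 = -(exp (I * (θ - t : ℝ)) - 1) := by
        rw [show I * ((θ - t : ℝ) : ℂ) = θ * I - t * I by push_cast; ring, exp_sub, ht]
        ring
      rw [e, norm_neg]
      have := Real.norm_exp_I_mul_ofReal_sub_one_le (x := θ - t)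
      simpa using this
    rcases le_total 0 θ with h | h
    · rw [abs_of_nonneg h] at h1 h2
      have := key Real.pi (by exact_mod_cast exp_pi_mul_I)
      rw [abs_of_nonpos (by linarith)] at this
      linarith
    · rw [abs_of_nonpos h] at h1 h2
      have := key (-Real.pi) (by
        rw [show ((-Real.pi : ℝ) : ℂ) * I = -(Real.pi * I) by push_cast; ring, exp_neg,
          exp_pi_mul_I]; norm_num)
      rw [abs_of_nonneg (by linarith)] at this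
      linarith
  have hf : ∀ i, ‖fac (c i) (r * exp (θ * I))‖ ≤ (m / 4) ^ (-(1 / 3) : ℝ) := by
    intro i
    apply norm_fac_le_of_ge (by positivity)
    have h3 := norm_one_sub_le (z := exp (θ * I) * c i) (r := r)
      (by rw [norm_mul, norm_exp_ofReal_mul_I, one_mul]; exact hn i) hr0 hr1
    have h4 : ‖1 + c i‖ ≤ ‖1 - exp (θ * I) * c i‖ + ‖(exp (θ * I) + 1) * c i‖ := by
      have : 1 + c i = (1 - exp (θ * I) * c i) + (exp (θ * I) + 1) * c i := by ring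
      rw [this]; exact norm_add_le _ _
    have h5 : ‖(exp (θ * I) + 1) * c i‖ ≤ m / 2 := by
      rw [norm_mul]
      calc _ ≤ ‖exp (θ * I) + 1‖ * 1 := mul_le_mul_of_nonneg_left (hn i) (norm_nonneg _)
        _ ≤ _ := by linarith
    have h6 := mi i
    rw [mul_assoc]
    linarith
  rw [norm_G3]
  have e3 : ((m / 4) ^ (-(1 / 3) : ℝ)) ^ 3
      = (m / 4) ^ (-(1 / 3) : ℝ) * (m / 4) ^ (-(1 / 3) : ℝ) * (m / 4) ^ (-(1 / 3) : ℝ) := by ring
  rw [e3]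
  have p0 : 0 ≤ (m / 4) ^ (-(1 / 3) : ℝ) := by positivity
  exact mul_le_mul (mul_le_mul (hf 0) (hf 1) (norm_nonneg _) p0) (hf 2) (norm_nonneg _)
    (by positivity)

/-- integrable dominating function of the angle -/
theorem G3_dom_gen {c : Fin 3 → ℂ} (k : ℝ) (hk : k ≠ 0) (hn : ∀ i, ‖c i‖ ≤ 1)
    (hc : ∀ i j, i ≠ j → c i ≠ c j) :
    ∃ g : ℝ → ℝ, (∀ y, 0 ≤ g y) ∧ (∀ a b, IntervalIntegrable g volume a b) ∧
      ∀ᵐ y : ℝ, ∀ r : ℝ, 0 ≤ r → r ≤ 1 → ‖G3 c (r * exp ((k * y : ℝ) * I))‖ ≤ g y := by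
  obtain ⟨C, C0, hC⟩ := prod3_le hn hc
  let ψ : ℝ → ℝ := fun y => ‖1 - exp (y * I)‖ ^ (-(1 / 3) : ℝ)
  have ψ0 : ∀ y, 0 ≤ ψ y := fun y => by positivity
  have ψi : ∀ q a b, IntervalIntegrable (fun y => ψ (k * y + q)) volume a b := by
    intro q a b
    have := (intInt_psi (k * a + q) (k * b + q))
    have h2 := (this.comp_add_right q)
    have h3 := h2.comp_mul_left (c := k)
    simpa [ψ, mul_div_cancel_left₀, hk] using h3
  refine ⟨fun y => C * (1 + 2 * ψ (k * y + (c 0).arg) + 2 * ψ (k * y + (c 1).arg)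
    + 2 * ψ (k * y + (c 2).arg)), ?_, ?_, ?_⟩
  · intro y
    have := ψ0 (k * y + (c 0).arg)
    have := ψ0 (k * y + (c 1).arg)
    have := ψ0 (k * y + (c 2).arg)
    positivity
  · intro a b
    apply IntervalIntegrable.const_mul
    exact ((intervalIntegrable_const.add ((ψi _ a b).const_mul 2)).add
      ((ψi _ a b).const_mul 2)).add ((ψi _ a b).const_mul 2)
  · filter_upwards [ae_exp_ne_one k hk (c 0).arg, ae_exp_ne_one k hk (c 1).arg,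
      ae_exp_ne_one k hk (c 2).arg] with y h0 h1 h2 r hr0 hr1
    have hw : ‖(r : ℂ) * exp ((k * y : ℝ) * I)‖ ≤ 1 := by
      rw [norm_mul, norm_exp_ofReal_mul_I, norm_real, Real.norm_of_nonneg hr0]; linarith
    have f0 := norm_fac_le (hn 0) hr0 hr1 h0
    have f1 := norm_fac_le (hn 1) hr0 hr1 h1
    have f2 := norm_fac_le (hn 2) hr0 hr1 h2
    rw [norm_G3]
    refine (hC _ hw).trans ?_
    apply mul_le_mul_of_nonneg_left _ C0.le
    simp only [ψ]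
    linarith

theorem G3_dom {c : Fin 3 → ℂ} (hn : ∀ i, ‖c i‖ ≤ 1) (hc : ∀ i j, i ≠ j → c i ≠ c j) :
    ∃ g : ℝ → ℝ, (∀ y, 0 ≤ g y) ∧ (∀ a b, IntervalIntegrable g volume a b) ∧
      ∀ᵐ y : ℝ, ∀ r : ℝ, 0 ≤ r → r ≤ 1 → ‖G3 c (r * exp ((2 * y : ℝ) * I))‖ ≤ g y :=
  G3_dom_gen 2 two_ne_zero hn hc

theorem G3_dom' {c : Fin 3 → ℂ} (hn : ∀ i, ‖c i‖ ≤ 1) (hc : ∀ i j, i ≠ j → c i ≠ c j) :
    ∃ g : ℝ → ℝ, (∀ y, 0 ≤ g y) ∧ (∀ a b, IntervalIntegrable g volume a b) ∧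
      ∀ᵐ y : ℝ, ∀ r : ℝ, 0 ≤ r → r ≤ 1 → ‖G3 c (r * exp (y * I))‖ ≤ g y := by
  have := G3_dom_gen 1 one_ne_zero hn hc
  simpa only [one_mul] using this

end Pool.Agent.H87.W
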