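import Pool.Agent.H87.W.HalfC

/-! Cauchy's theorem on the right half annulus, weighted. -/

namespace Pool.Agent.H87.W

open Complex MeasureTheory Set Filter Topology

theorem exp_mem_HA {ρ : ℝ} (hρ : 0 < ρ) {x y : ℝ} (hx : Real.log ρ < x) (hx1 : x < 0)
    (hy : -(Real.pi / 2) < y) (hy1 : y < Real.pi / 2) : exp (x + y * I) ∈ HA ρ := by
  have hn : ‖exp (x + y * I)‖ = Real.exp x := by
    rw [norm_exp]; simp
  refine ⟨?_, ?_, ?_⟩
  · rw [hn]; rwa [Real.log_lt_iff_lt_exp hρ] at hx
  · rw [hn]; exact Real.exp_lt_one_iff.2 hx1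
  · rw [exp_re]
    simp only [add_re, ofReal_re, mul_re, I_re, mul_zero, ofReal_im, I_im, mul_one, sub_self,
      add_zero, add_im, mul_im, zero_add]
    exact mul_pos (Real.exp_pos _) (Real.cos_pos_of_mem_Ioo ⟨hy, hy1⟩)

theorem exp_mem_CHA {ρ : ℝ} (hρ : 0 < ρ) {x y : ℝ} (hx : Real.log ρ ≤ x) (hx1 : x ≤ 0)
    (hy : -(Real.pi / 2) ≤ y) (hy1 : y ≤ Real.pi / 2) : exp (x + y * I) ∈ CHA ρ := by
  have hn : ‖exp (x + y * I)‖ = Real.exp x := by
    rw [norm_exp]; simp
  refine ⟨?_, ?_, ?_⟩
  · rw [hn]; rwa [Real.log_le_iff_le_exp hρ] at hx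
  · rw [hn]; exact Real.exp_le_one_iff.2 hx1
  · rw [exp_re]
    simp only [add_re, ofReal_re, mul_re, I_re, mul_zero, ofReal_im, I_im, mul_one, sub_self,
      add_zero, add_im, mul_im, zero_add]
    exact mul_nonneg (Real.exp_pos _).le (Real.cos_nonneg_of_mem_Icc ⟨hy, hy1⟩)

/-- countable sets pull back to null sets along vertical lines -/
theorem ae_vert {E : Set ℂ} (hE : E.Countable) (x : ℝ) :
    ∀ᵐ y : ℝ, y ∈ Ioo (-(Real.pi / 2)) (Real.pi / 2) → exp (x + y * I) ∉ E := by
  have hc : ({y : ℝ | y ∈ Ioo (-(Real.pi / 2)) (Real.pi / 2) ∧ exp (x + y * I) ∈ E}).Countable := by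
    apply MapsTo.countable_of_injOn (t := E) (f := fun y : ℝ => exp (x + y * I))
    · intro y hy; exact hy.2
    · intro y hy z hz h
      have hp := Real.pi_pos
      simp only [] at h
      have h1 : exp (x + y * I) = exp (x + z * I) := h
      have h2 : y = z := by
        have e := (exp_eq_exp_iff_exists_int).1 h1
        obtain ⟨n, hn⟩ := e
        have him := congrArg im hn
        simp at him
        have hn0 : (n : ℝ) = 0 := by
          have a1 := hy.1.1
          have a2 := hy.1.2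
          have a3 := hz.1.1
          have a4 := hz.1.2
          have b1 : (n : ℝ) * (2 * Real.pi) < 2 * Real.pi := by linarith
          have b2 : -(2 * Real.pi) < (n : ℝ) * (2 * Real.pi) := by linarith
          have c1 : (n : ℝ) < 1 := by
            by_contra hh
            push Not at hh
            nlinarith
          have c2 : (-1 : ℝ) < n := by
            by_contra hh
            push Not at hh
            nlinarith
          have d1 : n < 1 := by exact_mod_cast c1
          have d2 : -1 < n := by exact_mod_cast c2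
          have : n = 0 := by omega
          exact_mod_cast this
        rw [hn0] at him
        linarith
      exact h2
    · exact hE
  have hz := hc.measure_zero volume
  rw [ae_iff]
  convert hz using 2
  ext y
  simp [and_assoc]

/-- countable sets pull back to null sets along horizontal lines -/
theorem ae_horiz {E : Set ℂ} (hE : E.Countable) (y : ℝ) :
    ∀ᵐ x : ℝ, exp (x + y * I) ∉ E := by
  have hc : ({x : ℝ | exp (x + y * I) ∈ E}).Countable := by
    apply MapsTo.countable_of_injOn (t := E) (f := fun x : ℝ => exp (x + y * I))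
    · intro y hy; exact hy
    · intro x hx z hz h
      have h1 : exp (x + y * I) = exp (z + y * I) := h
      have h2 := congrArg norm h1
      rw [norm_exp, norm_exp] at h2
      simp at h2
      exact h2
    · exact hE
  have hz := hc.measure_zero volume
  rw [ae_iff]
  convert hz using 2
  ext y
  simp

/-- Cauchy's theorem on the half annulus. -/
theorem half_cauchy {F : ℂ → ℂ} {ρ M : ℝ} {c : Fin 3 → ℂ} {E : Set ℂ}
    (hρ0 : 0 < ρ) (hρ1 : ρ < 1) (hn : ∀ i, ‖c i‖ ≤ 1) (hc : ∀ i j, i ≠ j → c i ≠ c j)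
    (hc1 : ∀ i, c i ≠ -1)
    (hd : DifferentiableOn ℂ F (HA ρ)) (hb : ∀ v ∈ HA ρ, ‖F v‖ ≤ M)
    (hE : E.Countable) (hcont : ∀ v ∈ CHA ρ \ E, ContinuousWithinAt F (HA ρ) v) :
    (∫ y in (-(Real.pi / 2))..(Real.pi / 2),
        F (exp (y * I)) * G3 c (exp (y * I) ^ 2) * exp (y * I)) =
      (∫ y in (-(Real.pi / 2))..(Real.pi / 2),
        F (ρ * exp (y * I)) * G3 c ((ρ * exp (y * I)) ^ 2) * (ρ * exp (y * I))) +
      (∫ t in ρ..1, (F (t * I) + F (-(t * I))) * G3 c (-(t : ℂ) ^ 2)) ∧
    IntervalIntegrable (fun y : ℝ => F (exp (y * I)) * G3 c (exp (y * I) ^ 2) * exp (y * I))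
      volume (-(Real.pi / 2)) (Real.pi / 2) := by
  have hpi := Real.pi_pos
  have hM : 0 ≤ M ∨ HA ρ = ∅ := by
    rcases (HA ρ).eq_empty_or_nonempty with h | ⟨v, hv⟩
    · exact Or.inr h
    · exact Or.inl ((norm_nonneg _).trans (hb v hv))
  have hM0 : 0 ≤ M := by
    rcases hM with h | h
    · exact h
    · exfalso
      have h1 : exp ((Real.log ρ / 2 : ℝ) + (0 : ℝ) * I) ∈ HA ρ := by
        have := Real.log_neg hρ0 hρ1
        apply exp_mem_HA hρ0 <;> linarith
      rw [h] at h1
      exact h1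
  set a : ℝ := Real.log ρ with ha
  have ha0 : a < 0 := Real.log_neg hρ0 hρ1
  have hea : Real.exp a = ρ := Real.exp_log hρ0
  obtain ⟨g, g0, gint, gdom⟩ := G3_dom hn hc
  obtain ⟨δ, B, δ0, B0, hB⟩ := G3_bound_near hn hc1
  let Φ : ℂ → ℂ := fun ζ => F (exp ζ) * G3 c (exp ζ ^ 2) * exp ζ
  have hsq : ∀ x y : ℝ, exp (x + y * I) ^ 2 = (Real.exp (2 * x) : ℝ) * exp ((2 * y : ℝ) * I) := by
    intro x y
    rw [← exp_nat_mul]
    push_cast
    rw [← exp_add]
    congr 1
    ring
  have hnx : ∀ x y : ℝ, ‖exp (x + y * I)‖ = Real.exp x := by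
    intro x y; rw [norm_exp]; simp
  have main := cauchy_log (Φ := Φ) (a := a) (c := Real.pi / 2) (g := fun y => M * g y)
    (B := M * B) (δ := δ / 2) ha0 (by positivity) (by positivity)
    (by
      -- differentiability
      intro ζ hζ
      obtain ⟨h1, h2⟩ := hζ
      have hmem : exp ζ ∈ HA ρ := by
        have e : ζ = (ζ.re : ℂ) + ζ.im * I := (re_add_im ζ).symm
        rw [e]
        exact exp_mem_HA hρ0 h1.1 h1.2 h2.1 h2.2
      have d1 : DifferentiableAt ℂ F (exp ζ) := hd.differentiableAt ((isOpen_HA ρ).mem_nhds hmem)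
      have hw : ‖exp ζ ^ 2‖ < 1 := by
        rw [norm_pow]
        have := hmem.2.1
        have := norm_nonneg (exp ζ)
        nlinarith
      have d2 : DifferentiableAt ℂ (G3 c) (exp ζ ^ 2) := differentiableAt_G3 hw hn
      have d3 : DifferentiableAt ℂ (fun ζ : ℂ => exp ζ) ζ := differentiableAt_exp
      have d4 : DifferentiableAt ℂ (fun ζ : ℂ => exp ζ ^ 2) ζ := d3.pow 2
      exact (((d1.comp ζ d3).mul (d2.comp ζ d4)).mul d3).differentiableWithinAt)
    ((gint _ _).const_mul M) (fun y => mul_nonneg hM0 (g0 y))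
    (by
      filter_upwards [gdom] with y hy hym x hx
      have hmem := exp_mem_HA hρ0 (x := x) (y := y) hx.1 hx.2 hym.1 hym.2
      have h1 := hb _ hmem
      have h2 := hy (Real.exp (2 * x)) (Real.exp_pos _).le
        (Real.exp_le_one_iff.2 (by have := hx.2; linarith))
      show ‖F (exp (x + y * I)) * G3 c (exp (x + y * I) ^ 2) * exp (x + y * I)‖ ≤ M * g y
      rw [norm_mul, norm_mul, hsq, hnx]
      have h3 : Real.exp x ≤ 1 := Real.exp_le_one_iff.2 hx.2.le
      have h4 : ‖F (exp (x + y * I))‖ * ‖G3 c ((Real.exp (2 * x) : ℝ) * exp ((2 * y : ℝ) * I))‖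
          ≤ M * g y := mul_le_mul h1 h2 (norm_nonneg _) hM0
      have h5 : 0 ≤ ‖F (exp (x + y * I))‖ *
        ‖G3 c ((Real.exp (2 * x) : ℝ) * exp ((2 * y : ℝ) * I))‖ := by positivity
      have h6 := Real.exp_pos x
      nlinarith)
    (by
      intro x hx y hy hδy
      have hmem := exp_mem_HA hρ0 (x := x) (y := y) hx.1 hx.2 hy.1 hy.2
      have h1 := hb _ hmem
      have hya : |y| ≤ Real.pi / 2 := abs_le.2 ⟨hy.1.le, hy.2.le⟩
      have e2 : |2 * y| = 2 * |y| := by rw [abs_mul, abs_two]
      have h2 := hB (Real.exp (2 * x)) (2 * y) (Real.exp_pos _).le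
        (Real.exp_le_one_iff.2 (by have := hx.2; linarith)) (by rw [e2]; linarith)
        (by rw [e2]; linarith)
      show ‖F (exp (x + y * I)) * G3 c (exp (x + y * I) ^ 2) * exp (x + y * I)‖ ≤ M * B
      rw [norm_mul, norm_mul, hsq, hnx]
      have h3 : Real.exp x ≤ 1 := Real.exp_le_one_iff.2 hx.2.le
      have h4 : ‖F (exp (x + y * I))‖ * ‖G3 c ((Real.exp (2 * x) : ℝ) * exp ((2 * y : ℝ) * I))‖
          ≤ M * B := mul_le_mul h1 h2 (norm_nonneg _) hM0
      have h5 : 0 ≤ ‖F (exp (x + y * I))‖ *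
        ‖G3 c ((Real.exp (2 * x) : ℝ) * exp ((2 * y : ℝ) * I))‖ := by positivity
      have h6 := Real.exp_pos x
      nlinarith)
    (by
      -- right side
      filter_upwards [ae_vert hE 0, ae_exp_ne_one 2 two_ne_zero (c 0).arg,
        ae_exp_ne_one 2 two_ne_zero (c 1).arg, ae_exp_ne_one 2 two_ne_zero (c 2).arg]
        with y hyE h0 h1 h2 hym
      have hv : exp (y * I) ∈ CHA ρ \ E := by
        constructor
        · have := exp_mem_CHA hρ0 (x := 0) (y := y) ha0.le le_rfl hym.1.le hym.2.le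
          simpa using this
        · have := hyE hym
          simpa using this
      have k1 := hcont _ hv
      have t1 : Tendsto (fun x : ℝ => exp (x + y * I)) (𝓝[<] 0) (𝓝[HA ρ] (exp (y * I))) := by
        rw [tendsto_nhdsWithin_iff]
        constructor
        · have : ContinuousAt (fun x : ℝ => exp (x + y * I)) 0 := by fun_prop
          have h := this.tendsto
          simp only [ofReal_zero, zero_add] at h
          exact h.mono_left nhdsWithin_le_nhds
        · have : Ioo a 0 ∈ 𝓝[<] (0:ℝ) := Ioo_mem_nhdsLT ha0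
          filter_upwards [this] with x hx
          exact exp_mem_HA hρ0 hx.1 hx.2 hym.1 hym.2
      have t2 : Tendsto (fun x : ℝ => exp (x + y * I)) (𝓝[<] 0) (𝓝 (exp (y * I))) :=
        t1.mono_right nhdsWithin_le_nhds
      have nee : ∀ i, exp (y * I) ^ 2 * c i ≠ 1 := by
        intro i h
        have hi : ‖c i‖ = 1 := by
          have := congrArg norm h
          rw [norm_mul, norm_pow, norm_exp_ofReal_mul_I, norm_one] at this
          simpa using this
        have e : exp ((2 * y + (c i).arg : ℝ) * I) = 1 := by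
          rw [← h]
          conv_rhs => rw [← norm_mul_exp_arg_mul_I (c i), hi]
          rw [← exp_nat_mul, ofReal_one, one_mul, ← exp_add]
          congr 1
          push_cast
          ring
        fin_cases i
        · exact h0 e
        · exact h1 e
        · exact h2 e
      have k2 : ContinuousAt (G3 c) (exp (y * I) ^ 2) :=
        continuousAt_G3 (by rw [norm_pow, norm_exp_ofReal_mul_I]; norm_num) hn nee
      exact ((k1.tendsto.comp t1).mul (k2.tendsto.comp (t2.pow 2))).mul t2)
    (by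
      -- left side
      filter_upwards [ae_vert hE a] with y hyE hym
      have hv : exp (a + y * I) ∈ CHA ρ \ E :=
        ⟨exp_mem_CHA hρ0 le_rfl ha0.le hym.1.le hym.2.le, hyE hym⟩
      have k1 := hcont _ hv
      have t1 : Tendsto (fun x : ℝ => exp (x + y * I)) (𝓝[>] a) (𝓝[HA ρ] (exp (a + y * I))) := by
        rw [tendsto_nhdsWithin_iff]
        constructor
        · have : ContinuousAt (fun x : ℝ => exp (x + y * I)) a := by fun_prop
          exact this.tendsto.mono_left nhdsWithin_le_nhds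
        · have : Ioo a 0 ∈ 𝓝[>] a := Ioo_mem_nhdsGT ha0
          filter_upwards [this] with x hx
          exact exp_mem_HA hρ0 hx.1 hx.2 hym.1 hym.2
      have t2 := t1.mono_right (nhdsWithin_le_nhds (s := HA ρ))
      have hw : ‖exp (a + y * I) ^ 2‖ < 1 := by
        rw [norm_pow, hnx, hea]; nlinarith
      have k2 : ContinuousAt (G3 c) (exp (a + y * I) ^ 2) := continuousAt_G3' hw hn
      exact ((k1.tendsto.comp t1).mul (k2.tendsto.comp (t2.pow 2))).mul t2)
    (by
      -- upper side
      filter_upwards [ae_horiz hE (Real.pi / 2)] with x hxE hxm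
      have hv : exp (x + (Real.pi / 2 : ℝ) * I) ∈ CHA ρ \ E :=
        ⟨exp_mem_CHA hρ0 hxm.1.le hxm.2.le (by linarith) le_rfl, hxE⟩
      have k1 := hcont _ hv
      have t1 : Tendsto (fun y : ℝ => exp (x + y * I)) (𝓝[<] (Real.pi / 2))
          (𝓝[HA ρ] (exp (x + (Real.pi / 2 : ℝ) * I))) := by
        rw [tendsto_nhdsWithin_iff]
        constructor
        · have : ContinuousAt (fun y : ℝ => exp (x + y * I)) (Real.pi / 2) := by fun_prop
          exact this.tendsto.mono_left nhdsWithin_le_nhds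
        · have : Ioo (-(Real.pi / 2)) (Real.pi / 2) ∈ 𝓝[<] (Real.pi / 2) :=
            Ioo_mem_nhdsLT (by linarith)
          filter_upwards [this] with y hy
          exact exp_mem_HA hρ0 hxm.1 hxm.2 hy.1 hy.2
      have t2 := t1.mono_right (nhdsWithin_le_nhds (s := HA ρ))
      have hw : ‖exp (x + (Real.pi / 2 : ℝ) * I) ^ 2‖ < 1 := by
        rw [norm_pow, hnx]
        have := Real.exp_lt_one_iff.2 hxm.2
        have := Real.exp_pos x
        nlinarith
      have k2 : ContinuousAt (G3 c) (exp (x + (Real.pi / 2 : ℝ) * I) ^ 2) := continuousAt_G3' hw hn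
      exact ((k1.tendsto.comp t1).mul (k2.tendsto.comp (t2.pow 2))).mul t2)
    (by
      -- lower side
      filter_upwards [ae_horiz hE (-(Real.pi / 2))] with x hxE hxm
      have hv : exp (x + (-(Real.pi / 2) : ℝ) * I) ∈ CHA ρ \ E :=
        ⟨exp_mem_CHA hρ0 hxm.1.le hxm.2.le le_rfl (by linarith), hxE⟩
      have k1 := hcont _ hv
      have t1 : Tendsto (fun y : ℝ => exp (x + y * I)) (𝓝[>] (-(Real.pi / 2)))
          (𝓝[HA ρ] (exp (x + (-(Real.pi / 2) : ℝ) * I))) := by
        rw [tendsto_nhdsWithin_iff]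
        constructor
        · have : ContinuousAt (fun y : ℝ => exp (x + y * I)) (-(Real.pi / 2)) := by fun_prop
          exact this.tendsto.mono_left nhdsWithin_le_nhds
        · have : Ioo (-(Real.pi / 2)) (Real.pi / 2) ∈ 𝓝[>] (-(Real.pi / 2)) :=
            Ioo_mem_nhdsGT (by linarith)
          filter_upwards [this] with y hy
          exact exp_mem_HA hρ0 hxm.1 hxm.2 hy.1 hy.2
      have t2 := t1.mono_right (nhdsWithin_le_nhds (s := HA ρ))
      have hw : ‖exp (x + (-(Real.pi / 2) : ℝ) * I) ^ 2‖ < 1 := by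
        rw [norm_pow, hnx]
        have := Real.exp_lt_one_iff.2 hxm.2
        have := Real.exp_pos x
        nlinarith
      have k2 : ContinuousAt (G3 c) (exp (x + (-(Real.pi / 2) : ℝ) * I) ^ 2) :=
        continuousAt_G3' hw hn
      exact ((k1.tendsto.comp t1).mul (k2.tendsto.comp (t2.pow 2))).mul t2)
  obtain ⟨m1, m2, m3, m4, m5⟩ := main
  refine ⟨?_, m2⟩
  -- the horizontal sides
  have hI : exp ((Real.pi / 2 : ℝ) * I) = I := by
    push_cast; exact exp_pi_div_two_mul_I
  have hmI : exp ((-(Real.pi / 2) : ℝ) * I) = -I := by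
    push_cast
    rw [neg_mul, exp_neg, exp_pi_div_two_mul_I]
    simp
  have ex1 : ∀ x : ℝ, exp (x + (Real.pi / 2 : ℝ) * I) = Real.exp x * I := by
    intro x; rw [exp_add, hI]; push_cast; rfl
  have ex2 : ∀ x : ℝ, exp (x + (-(Real.pi / 2) : ℝ) * I) = -(Real.exp x * I) := by
    intro x; rw [exp_add, hmI]; push_cast; ring
  have hdiff : (∫ x in a..0, Φ (x + (Real.pi / 2 : ℝ) * I))
      - (∫ x in a..0, Φ (x + (-(Real.pi / 2) : ℝ) * I))
      = I * ∫ t in ρ..1, (F (t * I) + F (-(t * I))) * G3 c (-(t : ℂ) ^ 2) := by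
    rw [← intervalIntegral.integral_sub m4 m5]
    have e1 : ∀ x : ℝ, Φ (x + (Real.pi / 2 : ℝ) * I) - Φ (x + (-(Real.pi / 2) : ℝ) * I)
        = I * (|Real.exp x| • ((F ((Real.exp x : ℝ) * I) + F (-((Real.exp x : ℝ) * I)))
          * G3 c (-((Real.exp x : ℝ) : ℂ) ^ 2))) := by
      intro x
      simp only [Φ]
      rw [ex1, ex2, abs_of_pos (Real.exp_pos x), real_smul]
      have s1 : ((Real.exp x : ℝ) * I : ℂ) ^ 2 = -((Real.exp x : ℝ) : ℂ) ^ 2 := by
        rw [mul_pow, I_sq]; ring
      have s2 : (-((Real.exp x : ℝ) * I) : ℂ) ^ 2 = -((Real.exp x : ℝ) : ℂ) ^ 2 := by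
        rw [neg_sq, s1]
      rw [s1, s2]
      ring
    simp_rw [e1]
    rw [intervalIntegral.integral_const_mul]
    congr 1
    rw [intervalIntegral.integral_of_le ha0.le, intervalIntegral.integral_of_le hρ1.le]
    have himg : Real.exp '' (Ioc a 0) = Ioc ρ 1 := by
      ext t
      constructor
      · rintro ⟨x, hx, rfl⟩
        exact ⟨by rw [← hea]; exact Real.exp_lt_exp.2 hx.1, Real.exp_le_one_iff.2 hx.2⟩
      · intro ht
        have ht0 : 0 < t := hρ0.trans ht.1
        refine ⟨Real.log t, ⟨?_, ?_⟩, Real.exp_log ht0⟩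
        · exact Real.log_lt_log hρ0 ht.1
        · exact Real.log_nonpos ht0.le ht.2
    rw [← himg, integral_image_eq_integral_abs_deriv_smul measurableSet_Ioc
      (fun x _ => (Real.hasDerivAt_exp x).hasDerivWithinAt) Real.exp_injective.injOn]
  have l1 : (∫ y in (-(Real.pi / 2))..(Real.pi / 2), Φ (a + y * I)) =
      ∫ y in (-(Real.pi / 2))..(Real.pi / 2),
        F (ρ * exp (y * I)) * G3 c ((ρ * exp (y * I)) ^ 2) * (ρ * exp (y * I)) := by
    apply intervalIntegral.integral_congr
    intro y _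
    simp only [Φ]
    have : exp (a + y * I) = ρ * exp (y * I) := by
      rw [exp_add, ← ofReal_exp, hea]
    rw [this]
  rw [hdiff, l1] at m1
  have m6 : I * (∫ y in (-(Real.pi / 2))..(Real.pi / 2), Φ (y * I)) =
      I * ((∫ y in (-(Real.pi / 2))..(Real.pi / 2),
        F (ρ * exp (y * I)) * G3 c ((ρ * exp (y * I)) ^ 2) * (ρ * exp (y * I))) +
      (∫ t in ρ..1, (F (t * I) + F (-(t * I))) * G3 c (-(t : ℂ) ^ 2))) := by
    rw [m1]; ring
  exact mul_left_cancel₀ I_ne_zero m6

end Pool.Agent.H87.W
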