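import Pool.Agent.H87.W.HalfF

/-! # Route W, group W-C: the averaged junction bound in half disc coordinates

`v = sqrt(phi)` maps the slit window to the right half disc; `v1` = over-end, `v2` = under-end.
`A a2 v` : under-end at the boundary point `e^{i a2}` (i.e. `v2 = e^{i a2/2}`), over-end at `v`;
`B t v`  : over-end at the point `t i` of the banks of `P` (`0 < |t| < u`, `u = sqrt eps`), under-end
at `v`.  `r` is the radius (in `v`) at which `B` is bounded by `N`.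
-/

namespace Pool.Agent.H87.W

open Complex MeasureTheory Set Filter Topology
open scoped ComplexConjugate

/-- number of far marks passed -/
noncomputable def nn (a3 a4 a1 a2 : ℝ) : ℝ :=
  (if a2 < a1 then 1 else 0) + (if a3 < a1 then 1 else 0) + (if a4 < a1 then 1 else 0)
    - (if a3 < a2 then 1 else 0) - (if a4 < a2 then 1 else 0)

/-- The data.  `Z` = countable set of exceptional angles. -/
structure HData (u r M N a3 a4 : ℝ) (κ : ℂ) (Z : Set ℝ) where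
  /-- `p a1 a2 = P(P pivotal | marks e^{i a1}, e^{i a2}, e^{i a3}, e^{i a4})` -/
  p : ℝ → ℝ → ℝ
  A : ℝ → ℂ → ℂ
  B : ℝ → ℂ → ℂ
  p_nonneg : ∀ a1 a2, 0 ≤ p a1 a2
  A_bdd : ∀ a2 ∈ Ioo (-Real.pi) Real.pi \ Z, ∀ v ∈ CHA 0, ‖A a2 v‖ ≤ M
  A_diff : ∀ a2 ∈ Ioo (-Real.pi) Real.pi \ Z, DifferentiableOn ℂ (A a2) (HA 0)
  A_cont : ∀ a2 ∈ Ioo (-Real.pi) Real.pi \ Z, ∃ E : Set ℂ, E.Countable ∧
    ∀ v ∈ CHA 0 \ E, ContinuousWithinAt (A a2) (HA 0) v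
  A_bank : ∀ a2 ∈ Ioo (-Real.pi) Real.pi \ Z,
    ContinuousOn (fun t : ℝ => A a2 (t * I)) {t | 0 < |t| ∧ |t| < u}
  A_odd : ∀ a2 ∈ Ioo (-Real.pi) Real.pi \ Z, ∀ t ∈ Ioo u 1, A a2 (-(t * I)) = -A a2 (t * I)
  A_phase : ∀ a1 ∈ Ioo (-Real.pi) Real.pi \ Z, ∀ a2 ∈ Ioo (-Real.pi) Real.pi \ Z, a1 ≠ a2 →
    A a2 (cis (a1 / 2)) = κ * p a1 a2 * cis (-(Real.pi / 3 * nn a3 a4 a1 a2))
  B_bdd : ∀ t, 0 < |t| → |t| < u → ∀ v ∈ CHA r, ‖B t v‖ ≤ M
  B_diff : ∀ t, 0 < |t| → |t| < u → DifferentiableOn ℂ (fun v => conj (B t v)) (HA r)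
  B_cont : ∀ t, 0 < |t| → |t| < u → ∃ E : Set ℂ, E.Countable ∧
    ∀ v ∈ CHA r \ E, ContinuousWithinAt (B t) (HA r) v
  B_out : ∀ t, 0 < |t| → |t| < u →
    ContinuousOn (fun a : ℝ => B t (cis (a / 2))) (Ioo (-Real.pi) Real.pi \ Z)
  B_odd : ∀ t, 0 < |t| → |t| < u → ∀ s ∈ Ioo r 1, B t (-(s * I)) = -B t (s * I)
  compat : ∀ t, 0 < |t| → |t| < u → ∀ a2 ∈ Ioo (-Real.pi) Real.pi \ Z,
    A a2 (t * I) = B t (cis (a2 / 2))
  near : ∀ t, 0 < |t| → |t| < u → ∀ y ∈ Ioo (-(Real.pi / 2)) (Real.pi / 2),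
    ‖B t (r * cis y)‖ ≤ N

/-- the `a2`-part of the kernel -/
noncomputable def hh (a3 a4 a2 : ℝ) : ℂ := fac (cis (-a2)) (cis a3) * fac (cis (-a2)) (cis a4)

/-- parameters of the kernel in `v1` -/
noncomputable def cA (a3 a4 a2 : ℝ) : Fin 3 → ℂ := ![cis (-a2), cis (-a3), cis (-a4)]

/-- parameters of the kernel in `v2` -/
noncomputable def cB (a3 a4 t : ℝ) : Fin 3 → ℂ := ![-(t : ℂ) ^ 2, cis (-a3), cis (-a4)]

theorem cis_inj {a b : ℝ} (ha : a ∈ Ioo (-Real.pi) Real.pi) (hb : b ∈ Ioo (-Real.pi) Real.pi)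
    (h : cis a = cis b) : a = b := by
  by_contra hab
  have h1 : cis (a - b) = 1 := by
    rw [sub_eq_add_neg, cis_add, h, ← cis_add]; simp [cis]
  exact cis_ne_one (sub_ne_zero.2 hab) (by linarith [ha.1, hb.2]) (by linarith [ha.2, hb.1]) h1

theorem neg_mem_Ioo_pi {a : ℝ} (ha : a ∈ Ioo (-Real.pi) Real.pi) :
    -a ∈ Ioo (-Real.pi) Real.pi := ⟨by linarith [ha.2], by linarith [ha.1]⟩

theorem cis_ne_neg_one {a : ℝ} (ha : a ∈ Ioo (-Real.pi) Real.pi) : cis a ≠ -1 := by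
  intro h
  have hpi := Real.pi_pos
  have h1 : cis (a + Real.pi) = 1 := by
    rw [cis_add, h]
    unfold cis
    rw [exp_pi_mul_I]; norm_num
  exact cis_ne_one (by linarith [ha.1]) (by linarith [ha.1]) (by linarith [ha.2]) h1

theorem fin3_ne {c : Fin 3 → ℂ} (h01 : c 0 ≠ c 1) (h02 : c 0 ≠ c 2) (h12 : c 1 ≠ c 2) :
    ∀ i j, i ≠ j → c i ≠ c j := by
  intro i j hij
  fin_cases i <;> fin_cases j
  · exact absurd rfl hij
  · exact h01
  · exact h02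
  · exact h01.symm
  · exact absurd rfl hij
  · exact h12
  · exact h02.symm
  · exact h12.symm
  · exact absurd rfl hij

theorem cA_norm (a3 a4 a2 : ℝ) : ∀ i, ‖cA a3 a4 a2 i‖ ≤ 1 := by
  intro i
  fin_cases i
  · exact (norm_cis _).le
  · exact (norm_cis _).le
  · exact (norm_cis _).le

theorem cA_ne {a2 a3 a4 : ℝ} (h2 : a2 ∈ Ioo (-Real.pi) Real.pi) (h3 : a3 ∈ Ioo (-Real.pi) Real.pi)
    (h4 : a4 ∈ Ioo (-Real.pi) Real.pi) (h23 : a2 ≠ a3) (h24 : a2 ≠ a4) (h34 : a3 ≠ a4) :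
    ∀ i j, i ≠ j → cA a3 a4 a2 i ≠ cA a3 a4 a2 j := by
  apply fin3_ne
  · intro h
    exact h23 (neg_injective (cis_inj (neg_mem_Ioo_pi h2) (neg_mem_Ioo_pi h3) h))
  · intro h
    exact h24 (neg_injective (cis_inj (neg_mem_Ioo_pi h2) (neg_mem_Ioo_pi h4) h))
  · intro h
    exact h34 (neg_injective (cis_inj (neg_mem_Ioo_pi h3) (neg_mem_Ioo_pi h4) h))

theorem cA_ne' {a2 a3 a4 : ℝ} (h2 : a2 ∈ Ioo (-Real.pi) Real.pi) (h3 : a3 ∈ Ioo (-Real.pi) Real.pi)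
    (h4 : a4 ∈ Ioo (-Real.pi) Real.pi) : ∀ i, cA a3 a4 a2 i ≠ -1 := by
  intro i
  fin_cases i
  · exact cis_ne_neg_one (neg_mem_Ioo_pi h2)
  · exact cis_ne_neg_one (neg_mem_Ioo_pi h3)
  · exact cis_ne_neg_one (neg_mem_Ioo_pi h4)

theorem norm_sq_lt {t : ℝ} (ht : |t| < 1) : ‖(-(t : ℂ) ^ 2)‖ < 1 := by
  rw [norm_neg, norm_pow, norm_real, Real.norm_eq_abs]
  nlinarith [abs_nonneg t]

theorem cB_norm (a3 a4 : ℝ) {t : ℝ} (ht : |t| < 1) : ∀ i, ‖cB a3 a4 t i‖ ≤ 1 := by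
  intro i
  fin_cases i
  · exact (norm_sq_lt ht).le
  · exact (norm_cis _).le
  · exact (norm_cis _).le

theorem cB_ne {t a3 a4 : ℝ} (ht : |t| < 1) (h3 : a3 ∈ Ioo (-Real.pi) Real.pi)
    (h4 : a4 ∈ Ioo (-Real.pi) Real.pi) (h34 : a3 ≠ a4) :
    ∀ i j, i ≠ j → cB a3 a4 t i ≠ cB a3 a4 t j := by
  have key : ∀ a, (-(t : ℂ) ^ 2) ≠ cis a := by
    intro a h
    have h1 := norm_sq_lt ht
    rw [h, norm_cis] at h1
    exact lt_irrefl _ h1
  apply fin3_ne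
  · exact key _
  · exact key _
  · intro h
    exact h34 (neg_injective (cis_inj (neg_mem_Ioo_pi h3) (neg_mem_Ioo_pi h4) h))

theorem cB_ne' {t a3 a4 : ℝ} (ht : |t| < 1) (h3 : a3 ∈ Ioo (-Real.pi) Real.pi)
    (h4 : a4 ∈ Ioo (-Real.pi) Real.pi) : ∀ i, cB a3 a4 t i ≠ -1 := by
  intro i
  fin_cases i
  · intro h
    have h1 := norm_sq_lt ht
    have h2 : (-(t : ℂ) ^ 2) = -1 := h
    rw [h2] at h1
    simp at h1
  · exact cis_ne_neg_one (neg_mem_Ioo_pi h3)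
  · exact cis_ne_neg_one (neg_mem_Ioo_pi h4)

theorem conj_fac {c w : ℂ} (hc : ‖c‖ ≤ 1) (hw : ‖w‖ ≤ 1) :
    conj (fac c w) = fac (conj c) (conj w) := by
  by_cases h : w * c = 1
  · have h' : conj w * conj c = 1 := by rw [← map_mul, h, map_one]
    unfold fac
    rw [h, h', sub_self, zero_cpow (by norm_num), map_zero]
  · unfold fac
    have hs := one_sub_mem_slitPlane' hw hc h
    have e : (-(1 / 3) : ℂ) = conj (-(1 / 3) : ℂ) := by
      rw [map_neg, map_div₀, map_one, map_ofNat]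
    rw [show 1 - conj w * conj c = conj (1 - w * c) by rw [map_sub, map_mul, map_one]]
    rw [conj_cpow _ _ (slitPlane_arg_ne_pi hs)]
    rw [← e]

/-- lower bound of the kernel on the torus -/
theorem fac_lower {a b : ℝ} (ha : a ∈ Ioo (-Real.pi) Real.pi) (hb : b ∈ Ioo (-Real.pi) Real.pi)
    (hab : a ≠ b) : (2:ℝ) ^ (-(1 / 3) : ℝ) ≤ ‖fac (cis (-b)) (cis a)‖ := by
  rw [norm_fac, ← cis_add]
  have h0 : 0 < ‖1 - cis (a + -b)‖ := by
    rw [norm_pos_iff, sub_ne_zero]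
    exact (cis_ne_one (by intro h; apply hab; linarith) (by linarith [ha.1, hb.2])
      (by linarith [ha.2, hb.1])).symm
  apply Real.rpow_le_rpow_of_nonpos h0 _ (by norm_num)
  calc _ ≤ ‖(1:ℂ)‖ + ‖cis (a + -b)‖ := norm_sub_le _ _
    _ = 2 := by rw [norm_one, norm_cis]; norm_num

theorem sg_sub {a b : ℝ} : sg (a - b) = 2 * (if b < a then 1 else 0) - 1 := by
  unfold sg
  by_cases h : b < a
  · rw [if_pos (by linarith), if_pos h]; norm_num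
  · rw [if_neg (by intro h'; apply h; linarith), if_neg h]; norm_num

theorem sg_sub' {a b : ℝ} (hab : a ≠ b) : sg (a - b) = 1 - 2 * (if a < b then 1 else 0) := by
  unfold sg
  rcases lt_or_gt_of_ne hab with h | h
  · rw [if_neg (by intro h'; linarith), if_pos h]; norm_num
  · rw [if_pos (by linarith), if_neg (by intro h'; linarith)]; norm_num

theorem cis_half_sq (a : ℝ) : cis (a / 2) ^ 2 = cis a := by
  rw [sq, ← cis_add]; congr 1; ring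

theorem phase_identity {u r M N a3 a4 : ℝ} {κ : ℂ} {Z : Set ℝ} (D : HData u r M N a3 a4 κ Z)
    (h3 : a3 ∈ Ioo (-Real.pi) Real.pi) (h4 : a4 ∈ Ioo (-Real.pi) Real.pi)
    (hZ3 : a3 ∈ Z) (hZ4 : a4 ∈ Z) {a1 a2 : ℝ} (h1 : a1 ∈ Ioo (-Real.pi) Real.pi \ Z)
    (h2 : a2 ∈ Ioo (-Real.pi) Real.pi \ Z) (h12 : a1 ≠ a2) :
    D.A a2 (cis (a1 / 2)) * G3 (cA a3 a4 a2) (cis (a1 / 2) ^ 2) * cis (a1 / 2) *
      (hh a3 a4 a2 * cis (-(a2 / 2))) =
    κ * cis (-(Real.pi / 6)) *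
      ((D.p a1 a2 * ‖G3 (cA a3 a4 a2) (cis a1) * hh a3 a4 a2‖ : ℝ) : ℂ) := by
  have h13 : a1 ≠ a3 := fun h => h1.2 (h ▸ hZ3)
  have h14 : a1 ≠ a4 := fun h => h1.2 (h ▸ hZ4)
  have h23 : a2 ≠ a3 := fun h => h2.2 (h ▸ hZ3)
  have h24 : a2 ≠ a4 := fun h => h2.2 (h ▸ hZ4)
  have tp := torus_phase h1.1 h2.1 h3 h4 h12 h13 h14 h23 h24
  have e1 : G3 (cA a3 a4 a2) (cis a1) =
    fac (cis (-a2)) (cis a1) * fac (cis (-a3)) (cis a1) * fac (cis (-a4)) (cis a1) := rfl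
  have e2 : hh a3 a4 a2 = fac (cis (-a2)) (cis a3) * fac (cis (-a2)) (cis a4) := rfl
  rw [← e1, ← e2] at tp
  rw [cis_half_sq, D.A_phase a1 h1 a2 h2 h12]
  have e3 : κ * D.p a1 a2 * cis (-(Real.pi / 3 * nn a3 a4 a1 a2)) *
      G3 (cA a3 a4 a2) (cis a1) * cis (a1 / 2) * (hh a3 a4 a2 * cis (-(a2 / 2))) =
      κ * D.p a1 a2 * cis (-(Real.pi / 3 * nn a3 a4 a1 a2)) *
      (G3 (cA a3 a4 a2) (cis a1) * hh a3 a4 a2 * (cis (a1 / 2) * cis (-(a2 / 2)))) := by ring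
  rw [e3, tp]
  have e4 : cis (-(Real.pi / 6)) = cis (-(Real.pi / 3 * nn a3 a4 a1 a2)) *
      cis (Real.pi / 6 * (sg (a1 - a2) + sg (a1 - a3) + sg (a1 - a4) + sg (a3 - a2)
        + sg (a4 - a2))) := by
    rw [← cis_add]
    congr 1
    rw [sg_sub, sg_sub, sg_sub, sg_sub' h23.symm, sg_sub' h24.symm]
    unfold nn
    ring
  rw [e4]
  push_cast
  ring

/-- the `a2`-kernel is integrable -/
theorem hh_dom {a3 a4 : ℝ} (h3 : a3 ∈ Ioo (-Real.pi) Real.pi) (h4 : a4 ∈ Ioo (-Real.pi) Real.pi)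
    (h34 : a3 ≠ a4) :
    IntegrableOn (fun a => ‖hh a3 a4 a‖) (Ioo (-Real.pi) Real.pi) volume := by
  have hpi := Real.pi_pos
  have ht : |(0:ℝ)| < 1 := by simp
  obtain ⟨g, g0, gi, gd⟩ := G3_dom' (cB_norm a3 a4 ht) (cB_ne ht h3 h4 h34)
  have hi : IntegrableOn g (Ioo (-Real.pi) Real.pi) volume :=
    ((intervalIntegrable_iff_integrableOn_Ioo_of_le (by linarith)).1 (gi (-Real.pi) Real.pi))
  refine Integrable.mono' hi ?_ ?_
  · apply Measurable.aestronglyMeasurable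
    unfold hh fac cis
    fun_prop
  · refine ae_restrict_of_ae ?_
    filter_upwards [gd] with a ha
    have h1 := ha 1 zero_le_one le_rfl
    rw [norm_norm]
    have e0 : fac (-((0:ℝ) : ℂ) ^ 2) (cis a) = 1 := by
      unfold fac; simp
    have e : ‖hh a3 a4 a‖ = ‖G3 (cB a3 a4 0) (cis a)‖ := by
      have s1 : fac (cis (-a)) (cis a3) = conj (fac (cis (-a3)) (cis a)) := by
        rw [conj_fac (norm_cis _).le (norm_cis _).le, conj_cis, conj_cis, neg_neg]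
        unfold fac
        rw [mul_comm]
      have s2 : fac (cis (-a)) (cis a4) = conj (fac (cis (-a4)) (cis a)) := by
        rw [conj_fac (norm_cis _).le (norm_cis _).le, conj_cis, conj_cis, neg_neg]
        unfold fac
        rw [mul_comm]
      have s3 : G3 (cB a3 a4 0) (cis a) = fac (-((0:ℝ) : ℂ) ^ 2) (cis a) *
        fac (cis (-a3)) (cis a) * fac (cis (-a4)) (cis a) := rfl
      rw [s3, e0, one_mul]
      unfold hh
      rw [s1, s2, norm_mul, norm_mul, RCLike.norm_conj, RCLike.norm_conj]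
    rw [e]
    rw [ofReal_one, one_mul] at h1
    exact h1

end Pool.Agent.H87.W
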