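import Pool.Agent.H87.W.HalfE

/-! Bank identity and measurability. -/

namespace Pool.Agent.H87.W

open Complex MeasureTheory Set Filter Topology

/-- separately continuous functions are jointly measurable -/
theorem caratheodory {f : ℝ → ℝ → ℂ} {S T : Set ℝ} (hS : MeasurableSet S) (hT : MeasurableSet T)
    (h1 : ∀ y ∈ T, ContinuousOn (fun t => f t y) S) (h2 : ∀ t ∈ S, ContinuousOn (f t) T) :
    AEStronglyMeasurable (Function.uncurry f) (volume.restrict (S ×ˢ T)) := by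
  have hm : Measurable (Function.uncurry fun (t : S) (y : T) => f t y) := by
    apply measurable_uncurry_of_continuous_of_measurable
    · intro y
      exact (h1 y y.2).domRestrict
    · intro t
      exact ((h2 t t.2).domRestrict).measurable
  have he : MeasurableEmbedding (Prod.map (Subtype.val : S → ℝ) (Subtype.val : T → ℝ)) :=
    (MeasurableEmbedding.subtype_coe hS).prodMap (MeasurableEmbedding.subtype_coe hT)
  have hext := he.measurable_extend hm (measurable_const (a := (0 : ℂ)))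
  refine AEStronglyMeasurable.congr hext.aestronglyMeasurable ?_
  filter_upwards [ae_restrict_mem (hS.prod hT)] with q hq
  have : q = Prod.map (Subtype.val : S → ℝ) (Subtype.val : T → ℝ) (⟨q.1, hq.1⟩, ⟨q.2, hq.2⟩) := rfl
  conv_lhs => rw [this]
  rw [he.injective.extend_apply]
  rfl

theorem norm_fac_small {c w : ℂ} (hc : ‖c‖ ≤ 1) (hw : ‖w‖ ≤ 1 / 4) :
    ‖fac c w‖ ≤ (3 / 4 : ℝ) ^ (-(1 / 3) : ℝ) := by
  apply norm_fac_le_of_ge (by norm_num)
  have h1 : ‖w * c‖ ≤ 1 / 4 := by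
    rw [norm_mul]
    nlinarith [norm_nonneg w, norm_nonneg c]
  have := norm_sub_norm_le (1 : ℂ) (w * c)
  rw [norm_one] at this
  linarith

theorem norm_G3_small {c : Fin 3 → ℂ} {w : ℂ} (hc : ∀ i, ‖c i‖ ≤ 1) (hw : ‖w‖ ≤ 1 / 4) :
    ‖G3 c w‖ ≤ 4 / 3 := by
  rw [norm_G3]
  have p0 : 0 ≤ (3 / 4 : ℝ) ^ (-(1 / 3) : ℝ) := by positivity
  have e : (3 / 4 : ℝ) ^ (-(1 / 3) : ℝ) * (3 / 4 : ℝ) ^ (-(1 / 3) : ℝ) *
      (3 / 4 : ℝ) ^ (-(1 / 3) : ℝ) = 4 / 3 := by
    rw [← Real.rpow_add (by norm_num), ← Real.rpow_add (by norm_num)]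
    rw [show (-(1 / 3) + -(1 / 3) + -(1 / 3) : ℝ) = -1 by norm_num, Real.rpow_neg_one]
    norm_num
  rw [← e]
  exact mul_le_mul (mul_le_mul (norm_fac_small (hc 0) hw) (norm_fac_small (hc 1) hw)
    (norm_nonneg _) p0) (norm_fac_small (hc 2) hw) (norm_nonneg _) (by positivity)

/-- The contour is moved to the banks of `P`. -/
theorem bank_identity {F : ℂ → ℂ} {u M : ℝ} {c : Fin 3 → ℂ} {E : Set ℂ}
    (hu0 : 0 < u) (hu1 : u ≤ 1 / 2) (hn : ∀ i, ‖c i‖ ≤ 1) (hc : ∀ i j, i ≠ j → c i ≠ c j)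
    (hc1 : ∀ i, c i ≠ -1)
    (hd : DifferentiableOn ℂ F (HA 0)) (hb : ∀ v ∈ CHA 0, ‖F v‖ ≤ M)
    (hE : E.Countable) (hcont : ∀ v ∈ CHA 0 \ E, ContinuousWithinAt F (HA 0) v)
    (hbank : ContinuousOn (fun t : ℝ => F (t * I)) {t | 0 < |t| ∧ |t| < u})
    (hodd : ∀ t ∈ Ioo u 1, F (-(t * I)) = -F (t * I)) :
    (∫ y in (-(Real.pi / 2))..(Real.pi / 2), F (cis y) * G3 c (cis y ^ 2) * cis y) =
      (∫ t in (0:ℝ)..u, (F (t * I) + F (-(t * I))) * G3 c (-(t : ℂ) ^ 2)) ∧
    IntervalIntegrable (fun y : ℝ => F (cis y) * G3 c (cis y ^ 2) * cis y)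
      volume (-(Real.pi / 2)) (Real.pi / 2) := by
  have hpi := Real.pi_pos
  have hM0 : 0 ≤ M := (norm_nonneg _).trans (hb 0 ⟨by simp, by simp, by simp⟩)
  have hsub : ∀ ρ : ℝ, 0 < ρ → HA ρ ⊆ HA 0 := fun ρ hρ v hv => ⟨hρ.trans hv.1, hv.2⟩
  have hsubC : ∀ ρ : ℝ, 0 < ρ → CHA ρ ⊆ CHA 0 := fun ρ hρ v hv => ⟨hρ.le.trans hv.1, hv.2⟩
  have hcl : HA 0 ⊆ CHA 0 := fun v hv => ⟨hv.1.le, hv.2.1.le, hv.2.2.le⟩
  have hC := fun (ρ : ℝ) (h0 : 0 < ρ) (h1 : ρ < 1) => half_cauchy (F := F) (M := M) (E := E) h0 h1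
    hn hc hc1 (hd.mono (hsub ρ h0)) (fun v hv => hb v (hcl (hsub ρ h0 hv))) hE
    (fun v hv => (hcont v ⟨hsubC ρ h0 hv.1, hv.2⟩).mono (hsub ρ h0))
  set Rr : ℂ := ∫ y in (-(Real.pi / 2))..(Real.pi / 2), F (cis y) * G3 c (cis y ^ 2) * cis y
    with hRr
  refine ⟨?_, (hC (1 / 2) (by norm_num) (by norm_num)).2⟩
  -- integrand on the bank
  set k : ℝ → ℂ := fun t => (F (t * I) + F (-(t * I))) * G3 c (-(t : ℂ) ^ 2) with hk
  have mem_bank : ∀ t : ℝ, 0 ≤ t → t ≤ 1 → (t * I : ℂ) ∈ CHA 0 ∧ (-(t * I) : ℂ) ∈ CHA 0 := by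
    intro t h0 h1
    refine ⟨⟨norm_nonneg _, ?_, ?_⟩, norm_nonneg _, ?_, ?_⟩
    · rw [norm_mul, norm_I, norm_real, Real.norm_of_nonneg h0]; linarith
    · simp
    · rw [norm_neg, norm_mul, norm_I, norm_real, Real.norm_of_nonneg h0]; linarith
    · simp
  have hkb : ∀ t : ℝ, 0 ≤ t → t ≤ 1 / 2 → ‖k t‖ ≤ 2 * M * (4 / 3) := by
    intro t h0 h1
    obtain ⟨m1, m2⟩ := mem_bank t h0 (by linarith)
    simp only [hk]
    rw [norm_mul]
    apply mul_le_mul _ _ (norm_nonneg _) (by positivity)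
    · calc _ ≤ ‖F (t * I)‖ + ‖F (-(t * I))‖ := norm_add_le _ _
        _ ≤ _ := by linarith [hb _ m1, hb _ m2]
    · apply norm_G3_small hn
      rw [norm_neg, norm_pow, norm_real, Real.norm_of_nonneg h0]
      nlinarith
  have hkc : ContinuousOn k (Ioo 0 u) := by
    intro t ht
    have ht0 := ht.1
    have ht1 := ht.2
    have c1 : ContinuousWithinAt (fun t : ℝ => F (t * I)) (Ioo 0 u) t :=
      (hbank.mono (fun s hs => by
        simp only [mem_ofPred_eq]
        rw [abs_of_pos hs.1]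
        exact hs)) t ht
    have c2 : ContinuousWithinAt (fun t : ℝ => F (-(t * I))) (Ioo 0 u) t := by
      have h : ContinuousWithinAt (fun t : ℝ => F (t * I)) {t | 0 < |t| ∧ |t| < u} (-t) := by
        apply hbank
        simp only [mem_ofPred_eq]
        rw [abs_neg, abs_of_pos ht0]
        exact ht
      have h2 : ContinuousWithinAt (fun s : ℝ => -s) (Ioo 0 u) t := continuous_neg.continuousWithinAt
      have h3 := ContinuousWithinAt.comp (t := {t | 0 < |t| ∧ |t| < u}) (x := t) (f := fun s : ℝ => -s)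
        (g := fun t : ℝ => F (t * I)) h h2 (by
          intro s hs
          simp only [mem_ofPred_eq]
          rw [abs_neg, abs_of_pos hs.1]
          exact hs)
      refine h3.congr (fun s _ => ?_) ?_
      · simp
      · simp
    have c3 : ContinuousWithinAt (fun t : ℝ => G3 c (-(t : ℂ) ^ 2)) (Ioo 0 u) t := by
      have h1 : ContinuousAt (G3 c) (-(t : ℂ) ^ 2) := by
        apply continuousAt_G3' _ hn
        rw [norm_neg, norm_pow, norm_real, Real.norm_of_nonneg ht0.le]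
        nlinarith
      have h2 : ContinuousAt (fun t : ℝ => -(t : ℂ) ^ 2) t := by fun_prop
      exact (ContinuousAt.comp (f := fun t : ℝ => -(t : ℂ) ^ 2) (g := G3 c) h1 h2).continuousWithinAt
    exact (c1.add c2).mul c3
  have hki : ∀ ρ : ℝ, 0 ≤ ρ → ρ ≤ u → IntervalIntegrable k volume ρ u := by
    intro ρ h0 h1
    rw [intervalIntegrable_iff_integrableOn_Ioo_of_le h1]
    refine Integrable.of_bound ((hkc.mono (Ioo_subset_Ioo_left h0)).aestronglyMeasurable
      measurableSet_Ioo) (2 * M * (4 / 3)) ?_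
    · filter_upwards [ae_restrict_mem measurableSet_Ioo] with t ht
      exact hkb t (h0.trans ht.1.le) (by linarith [ht.2])
  have hk1 : ∫ t in u..1, k t = 0 := by
    rw [intervalIntegral.integral_of_le (by linarith), integral_Ioc_eq_integral_Ioo]
    rw [setIntegral_congr_fun (g := fun _ => (0:ℂ)) measurableSet_Ioo]
    · simp
    · intro t ht
      simp only [hk]
      rw [hodd t ht]
      simp
  have hki1 : IntervalIntegrable k volume u 1 := by
    rw [intervalIntegrable_iff_integrableOn_Ioo_of_le (by linarith)]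
    have : IntegrableOn (fun _ => (0:ℂ)) (Ioo u 1) volume := integrableOn_zero
    refine this.congr_fun ?_ measurableSet_Ioo
    intro t ht
    simp only [hk]
    rw [hodd t ht]
    simp
  -- the estimate
  have est : ∀ ρ : ℝ, 0 < ρ → ρ < u → ‖Rr - ∫ t in (0:ℝ)..u, k t‖ ≤
      ρ * (M * (4 / 3) * Real.pi + 2 * M * (4 / 3)) := by
    intro ρ h0 h1
    obtain ⟨h2, _⟩ := hC ρ h0 (by linarith)
    have h3 : (∫ t in ρ..1, (F (t * I) + F (-(t * I))) * G3 c (-(t : ℂ) ^ 2))
        = ∫ t in ρ..u, k t := by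
      have := intervalIntegral.integral_add_adjacent_intervals (hki ρ h0.le h1.le) hki1
      rw [← this, hk1, add_zero]
    have h4 : (∫ t in (0:ℝ)..u, k t) = (∫ t in (0:ℝ)..ρ, k t) + ∫ t in ρ..u, k t := by
      have i1 : IntervalIntegrable k volume 0 ρ :=
        (hki 0 le_rfl hu0.le).mono_set (by
          rw [uIcc_of_le h0.le, uIcc_of_le hu0.le]; exact Icc_subset_Icc_right h1.le)
      exact (intervalIntegral.integral_add_adjacent_intervals i1 (hki ρ h0.le h1.le)).symm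
    have h5 : Rr = (∫ y in (-(Real.pi / 2))..(Real.pi / 2),
        F (ρ * exp (y * I)) * G3 c ((ρ * exp (y * I)) ^ 2) * (ρ * exp (y * I))) +
        ∫ t in ρ..u, k t := by rw [← h3]; exact h2
    have h6 : Rr - (∫ t in (0:ℝ)..u, k t) = (∫ y in (-(Real.pi / 2))..(Real.pi / 2),
        F (ρ * exp (y * I)) * G3 c ((ρ * exp (y * I)) ^ 2) * (ρ * exp (y * I)))
        - ∫ t in (0:ℝ)..ρ, k t := by rw [h5, h4]; ring
    rw [h6]
    have b1 : ‖∫ y in (-(Real.pi / 2))..(Real.pi / 2),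
        F (ρ * exp (y * I)) * G3 c ((ρ * exp (y * I)) ^ 2) * (ρ * exp (y * I))‖ ≤
        (M * (4 / 3) * ρ) * |Real.pi / 2 - (-(Real.pi / 2))| := by
      apply intervalIntegral.norm_integral_le_of_norm_le_const
      intro y hy
      rw [uIoc_of_le (by linarith)] at hy
      have hnn : ‖(ρ : ℂ) * exp (y * I)‖ = ρ := by
        rw [norm_mul, norm_exp_ofReal_mul_I, norm_real, Real.norm_of_nonneg h0.le, mul_one]
      have hmem : (ρ : ℂ) * exp (y * I) ∈ CHA 0 := by
        refine ⟨norm_nonneg _, by rw [hnn]; linarith, ?_⟩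
        rw [re_ofReal_mul, exp_ofReal_mul_I_re]
        exact mul_nonneg h0.le (Real.cos_nonneg_of_mem_Icc ⟨hy.1.le, hy.2⟩)
      rw [norm_mul, norm_mul, hnn]
      apply mul_le_mul_of_nonneg_right _ h0.le
      apply mul_le_mul (hb _ hmem) _ (norm_nonneg _) hM0
      apply norm_G3_small hn
      rw [norm_pow, hnn]
      nlinarith
    have b2 : ‖∫ t in (0:ℝ)..ρ, k t‖ ≤ (2 * M * (4 / 3)) * |ρ - 0| := by
      apply intervalIntegral.norm_integral_le_of_norm_le_const
      intro t ht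
      rw [uIoc_of_le h0.le] at ht
      exact hkb t ht.1.le (by linarith [ht.2])
    rw [abs_of_pos (by linarith)] at b1
    rw [sub_zero, abs_of_pos h0] at b2
    calc _ ≤ _ := norm_sub_le _ _
      _ ≤ (M * (4 / 3) * ρ) * (Real.pi / 2 - (-(Real.pi / 2))) + (2 * M * (4 / 3)) * ρ :=
        add_le_add b1 b2
      _ = _ := by ring
  have hz : ‖Rr - ∫ t in (0:ℝ)..u, k t‖ ≤ 0 := by
    set K0 : ℝ := M * (4 / 3) * Real.pi + 2 * M * (4 / 3) with hK0
    have K00 : 0 ≤ K0 := by positivity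
    apply le_of_forall_pos_le_add
    intro e he
    rw [zero_add]
    have hmin : 0 < min (u / 2) (e / (K0 + 1)) := lt_min (by linarith) (by positivity)
    have h1 := est (min (u / 2) (e / (K0 + 1))) hmin
      (lt_of_le_of_lt (min_le_left _ _) (by linarith))
    refine h1.trans ?_
    calc _ ≤ (e / (K0 + 1)) * K0 := mul_le_mul_of_nonneg_right (min_le_right _ _) K00
      _ = e * (K0 / (K0 + 1)) := by ring
      _ ≤ e * 1 := by
        apply mul_le_mul_of_nonneg_left _ he.le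
        rw [div_le_one (by positivity)]
        linarith
      _ = e := mul_one e
  have := norm_le_zero_iff.1 hz
  exact sub_eq_zero.1 this

end Pool.Agent.H87.W
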